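import Pool.Agent.H299_Opp.Stubs

/-!
# CNT: there are countably many candidates
-/

set_option autoImplicit false

noncomputable section

namespace Pool.Agent.H299_Opp.CNT

theorem main : S_CNT := by
  let f : Cand → Σ m : ℕ, (Fin 4 → QP m) × ℕ × QP m := fun x => ⟨x.m, x.X, x.t, x.Xt⟩
  have hf : Function.Injective f := by
    intro x y h
    obtain ⟨m, X, t, Xt, ht, hX⟩ := x
    obtain ⟨m', X', t', Xt', ht', hX'⟩ := y
    simp only [f, Sigma.mk.injEq] at h
    obtain ⟨h1, h2⟩ := h
    subst h1
    have h3 := eq_of_heq h2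
    simp only [Prod.mk.injEq] at h3
    obtain ⟨rfl, rfl, rfl⟩ := h3
    rfl
  exact hf.countable

end Pool.Agent.H299_Opp.CNT
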