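import Pool.Agent.H299_Opp.Stubs

/-!
# COMB: Lemma S (paper, section 7)
-/

set_option autoImplicit false

noncomputable section

namespace Pool.Agent.H299_Opp.COMB

theorem step {C : Type} (R : C → ℕ → ℕ → Prop) (hR : ∀ x N, ∃ l, N ≤ l ∧ ¬ R x l l)
    (x : C) (s : ℕ × Set ℕ) : ∃ s' : ℕ × Set ℕ, s.1 < s'.1 ∧
      (∀ k, k < s.1 → (k ∈ s'.2 ↔ k ∈ s.2)) ∧
      ∀ T : Set ℕ, (∀ k, k < s'.1 → (k ∈ T ↔ k ∈ s'.2)) →
        ¬ ∀ l, (l ∈ T ↔ ∃ k ∈ T, R x l k) := by
  obtain ⟨N, S⟩ := s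
  obtain ⟨l, hl, hll⟩ := hR x N
  dsimp only at *
  by_cases hA : ∃ k, k < N ∧ k ∈ S ∧ R x l k
  · obtain ⟨k, hkN, hkS, hk⟩ := hA
    refine ⟨(l + 1, {j | j ∈ S ∧ j < N}), by dsimp only; omega, ?_, ?_⟩
    · intro j hj
      simp [hj]
    · intro T hT hiff
      have h1 : l ∉ T := by
        rw [hT l (by dsimp only; omega)]
        simp only [Set.mem_ofPred_eq, not_and, not_lt]
        intro _; exact hl
      have h2 : k ∈ T := by
        rw [hT k (by dsimp only; omega)]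
        exact ⟨hkS, hkN⟩
      exact h1 ((hiff l).2 ⟨k, h2, hk⟩)
  by_cases hB : ∃ k, N ≤ k ∧ k ≠ l ∧ R x l k
  · obtain ⟨k, hkN, hkl, hk⟩ := hB
    refine ⟨(l + k + 1, {j | (j ∈ S ∧ j < N) ∨ j = k}), by dsimp only; omega, ?_, ?_⟩
    · intro j hj
      have : j ≠ k := by omega
      simp [hj, this]
    · intro T hT hiff
      have h1 : l ∉ T := by
        rw [hT l (by dsimp only; omega)]
        simp only [Set.mem_ofPred_eq, not_or, not_and, not_lt]
        exact ⟨fun _ => hl, fun h => hkl h.symm⟩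
      have h2 : k ∈ T := by
        rw [hT k (by dsimp only; omega)]
        exact Or.inr rfl
      exact h1 ((hiff l).2 ⟨k, h2, hk⟩)
  · refine ⟨(l + 1, {j | (j ∈ S ∧ j < N) ∨ j = l}), by dsimp only; omega, ?_, ?_⟩
    · intro j hj
      have : j ≠ l := by omega
      simp [hj, this]
    · intro T hT hiff
      have h1 : l ∈ T := by
        rw [hT l (by dsimp only; omega)]
        exact Or.inr rfl
      obtain ⟨k, hkT, hk⟩ := (hiff l).1 h1
      rcases lt_or_ge k N with hkN | hkN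
      · have h3 := (hT k (by dsimp only; omega)).1 hkT
        rcases h3 with ⟨h3, -⟩ | h3
        · exact hA ⟨k, hkN, h3, hk⟩
        · omega
      · by_cases hkl : k = l
        · subst hkl; exact hll hk
        · exact hB ⟨k, hkN, hkl, hk⟩

theorem main : S_COMB := by
  intro C hC R hR
  rcases isEmpty_or_nonempty C with hE | hE
  · exact ⟨{0}, rfl, fun x => (hE.false x).elim⟩
  obtain ⟨f, hf⟩ := exists_surjective_nat C
  choose g hg using step R hR
  let s : ℕ → ℕ × Set ℕ := fun i => Nat.rec (1, {0}) (fun i s => g (f i) s) i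
  have hs : ∀ i, s (i + 1) = g (f i) (s i) := fun i => rfl
  have hmono : ∀ i, (s i).1 < (s (i + 1)).1 := fun i => by
    rw [hs]; exact (hg (f i) (s i)).1
  have hcoh : ∀ i d k, k < (s i).1 → (k ∈ (s (i + d)).2 ↔ k ∈ (s i).2) ∧ k < (s (i + d)).1 := by
    intro i d k hk
    induction d with
    | zero => exact ⟨Iff.rfl, hk⟩
    | succ d ih =>
      have h1 := (hg (f (i + d)) (s (i + d))).2.1 k ih.2
      rw [← hs] at h1
      exact ⟨h1.trans ih.1, ih.2.trans (hmono _)⟩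
  have hcoh2 : ∀ i j k, k < (s i).1 → k < (s j).1 → (k ∈ (s i).2 ↔ k ∈ (s j).2) := by
    intro i j k hi hj
    rcases le_total i j with h | h
    · obtain ⟨d, rfl⟩ := Nat.exists_eq_add_of_le h
      exact ((hcoh i d k hi).1).symm
    · obtain ⟨d, rfl⟩ := Nat.exists_eq_add_of_le h
      exact (hcoh j d k hj).1
  let S : Set ℕ := {k | ∃ i, k < (s i).1 ∧ k ∈ (s i).2}
  have hS : ∀ i k, k < (s i).1 → (k ∈ S ↔ k ∈ (s i).2) := by
    intro i k hk
    constructor
    · rintro ⟨j, hj, hkj⟩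
      exact (hcoh2 i j k hk hj).2 hkj
    · intro h
      exact ⟨i, hk, h⟩
  refine ⟨S, ⟨0, by simp [s], by simp [s]⟩, fun x => ?_⟩
  obtain ⟨i, rfl⟩ := hf x
  refine (hg (f i) (s i)).2.2 S fun k hk => ?_
  rw [← hs] at hk ⊢
  exact hS (i + 1) k hk

end Pool.Agent.H299_Opp.COMB
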