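import Pool.Agent.H299_Opp.Stubs

/-!
# DEF: the defeat lemma (paper, section 6)
-/

set_option autoImplicit false

open scoped BigOperators Matrix InnerProductSpace

noncomputable section

namespace Pool.Agent.H299_Opp.DEF

/-! ## A spectral lemma -/

theorem spectral {E : Type} [NormedAddCommGroup E] [InnerProductSpace ℂ E]
    [FiniteDimensional ℂ E] (L : Fin 4 → (E →ₗ[ℂ] E)) :
    ∃ (N : ℕ) (b : OrthonormalBasis (Fin N) ℂ E) (lam : Fin N → ℝ),
      ∀ v, ∑ s, ‖L s v‖ ^ 2 = ∑ i, lam i * ‖⟪b i, v⟫_ℂ‖ ^ 2 := by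
  let P : E →ₗ[ℂ] E := ∑ s, (LinearMap.adjoint (L s)) ∘ₗ (L s)
  have hP : P.IsSymmetric := by
    intro v w
    simp only [P, LinearMap.sum_apply, LinearMap.comp_apply, sum_inner, inner_sum]
    refine Finset.sum_congr rfl fun s _ => ?_
    rw [LinearMap.adjoint_inner_left, LinearMap.adjoint_inner_right]
  refine ⟨Module.finrank ℂ E, hP.eigenvectorBasis rfl, hP.eigenvalues rfl, fun v => ?_⟩
  have h1 : ((∑ s, ‖L s v‖ ^ 2 : ℝ) : ℂ) = ⟪P v, v⟫_ℂ := by
    simp only [P, LinearMap.sum_apply, LinearMap.comp_apply, sum_inner]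
    push_cast
    refine Finset.sum_congr rfl fun s _ => ?_
    rw [LinearMap.adjoint_inner_left, inner_self_eq_norm_sq_to_K]
    rfl
  have h2 : ⟪P v, v⟫_ℂ = ((∑ i, hP.eigenvalues rfl i *
      ‖⟪hP.eigenvectorBasis rfl i, v⟫_ℂ‖ ^ 2 : ℝ) : ℂ) := by
    rw [← (hP.eigenvectorBasis rfl).sum_inner_mul_inner (P v) v]
    push_cast
    refine Finset.sum_congr rfl fun i _ => ?_
    rw [hP v, hP.apply_eigenvectorBasis, inner_smul_right]
    have := inner_conj_symm (𝕜 := ℂ) v (hP.eigenvectorBasis rfl i)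
    rw [← this]
    have h3 : ‖⟪hP.eigenvectorBasis rfl i, v⟫_ℂ‖ ^ 2 =
      Complex.normSq (⟪hP.eigenvectorBasis rfl i, v⟫_ℂ) := by
      rw [Complex.normSq_eq_norm_sq]
    rw [mul_assoc]
    congr 1
    rw [← Complex.ofReal_pow, h3, Complex.normSq_eq_conj_mul_self]
  have h4 := h1.trans h2
  exact_mod_cast h4

/-- the abstract core of the defeat lemma -/
theorem core {E : Type} [NormedAddCommGroup E] [InnerProductSpace ℂ E] {N : ℕ}
    (b : OrthonormalBasis (Fin N) ℂ E) (lam : Fin N → ℝ) (hlam : ∀ i, 0 ≤ lam i)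
    (A : E →ₗ[ℂ] E) (hA : ∀ w, ‖A w‖ ≤ (1 + eps1) * ‖w‖) (v : E) (hv : ‖v‖ = 1)
    (h1 : ∑ i, lam i * ‖⟪b i, v⟫_ℂ‖ ^ 2 ≤ thr) (h2 : ‖A v - v‖ ^ 2 ≤ thr) :
    1 / 4 ≤ ∑ i ∈ Finset.univ.filter (fun i => lam i ≤ kap1),
      ∑ j ∈ Finset.univ.filter (fun i => lam i ≤ kap1), ‖⟪b i, A (b j)⟫_ℂ‖ ^ 2 := by
  classical
  set S := Finset.univ.filter (fun i => lam i ≤ kap1) with hS
  set c : Fin N → ℂ := fun i => ⟪b i, v⟫_ℂ with hc
  set vE : E := ∑ i ∈ S, c i • b i with hvE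
  set v' : E := ∑ i ∈ Sᶜ, c i • b i with hv'
  have hsplit : vE + v' = v := by
    rw [hvE, hv', Finset.sum_add_sum_compl]
    exact b.sum_repr' v
  have hn : ∀ R : Finset (Fin N), ‖∑ i ∈ R, c i • b i‖ ^ 2 = ∑ i ∈ R, ‖c i‖ ^ 2 := by
    intro R
    have := b.orthonormal.inner_sum c c R
    have h3 : ((‖∑ i ∈ R, c i • b i‖ ^ 2 : ℝ) : ℂ) = ((∑ i ∈ R, ‖c i‖ ^ 2 : ℝ) : ℂ) := by
      have h4 := inner_self_eq_norm_sq_to_K (𝕜 := ℂ) (∑ i ∈ R, c i • b i)
      rw [this] at h4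
      have h5 : ((‖∑ i ∈ R, c i • b i‖ ^ 2 : ℝ) : ℂ) =
          ∑ i ∈ R, (starRingEnd ℂ) (c i) * c i := by
        rw [h4]; push_cast; rfl
      rw [h5]
      push_cast
      refine Finset.sum_congr rfl fun i _ => ?_
      rw [← Complex.normSq_eq_conj_mul_self, Complex.normSq_eq_norm_sq]
      push_cast
      rfl
    exact_mod_cast h3
  have hnE := hn S
  have hn' := hn Sᶜ
  rw [← hvE] at hnE
  rw [← hv'] at hn'
  have htot : ‖vE‖ ^ 2 + ‖v'‖ ^ 2 = 1 := by
    rw [hnE, hn', Finset.sum_add_sum_compl]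
    have h3 := hn Finset.univ
    have h4 : ∑ i, c i • b i = v := b.sum_repr' v
    rw [h4, hv] at h3
    rw [← h3]; norm_num
  have hvE1 : ‖vE‖ ≤ 1 := by nlinarith [norm_nonneg vE, norm_nonneg v', sq_nonneg (‖v'‖)]
  have hv'1 : ‖v'‖ ≤ 1 / 100 := by
    have h3 : kap1 * ‖v'‖ ^ 2 ≤ thr := by
      rw [hn', Finset.mul_sum]
      calc ∑ i ∈ Sᶜ, kap1 * ‖c i‖ ^ 2 ≤ ∑ i ∈ Sᶜ, lam i * ‖c i‖ ^ 2 := by
            refine Finset.sum_le_sum fun i hi => ?_
            have : ¬ lam i ≤ kap1 := by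
              simpa [hS] using hi
            push Not at this
            exact mul_le_mul_of_nonneg_right this.le (by positivity)
        _ ≤ ∑ i, lam i * ‖c i‖ ^ 2 :=
            Finset.sum_le_sum_of_subset_of_nonneg (Finset.subset_univ _)
              fun i _ _ => mul_nonneg (hlam i) (by positivity)
        _ ≤ thr := h1
    have h4 : ‖v'‖ ^ 2 ≤ (1 / 100) ^ 2 := by
      have : kap1 * ‖v'‖ ^ 2 ≤ kap1 * (1 / 100) ^ 2 := by
        refine h3.trans ?_
        norm_num [kap1, thr]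
      exact le_of_mul_le_mul_left this (by norm_num [kap1])
    exact abs_le_of_sq_le_sq' h4 (by norm_num) |>.2
  have hAv : ‖A v - v‖ ≤ 1 / 100 := by
    have h4 : ‖A v - v‖ ^ 2 ≤ (1 / 100) ^ 2 := h2.trans (by norm_num [thr])
    exact abs_le_of_sq_le_sq' h4 (by norm_num) |>.2
  have hA2 : ∀ w, ‖A w‖ ≤ 2 * ‖w‖ := fun w =>
    (hA w).trans (mul_le_mul_of_nonneg_right (by norm_num [eps1]) (norm_nonneg _))
  have hmain : 1 / 2 ≤ ‖⟪vE, A vE⟫_ℂ‖ := by
    have e1 : (1 : ℂ) = ⟪vE, A vE⟫_ℂ + ⟪v', A v⟫_ℂ + ⟪vE, A v'⟫_ℂ - ⟪v, A v - v⟫_ℂ := by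
      have h5 : ⟪v, A v⟫_ℂ = ⟪vE, A vE⟫_ℂ + ⟪v', A v⟫_ℂ + ⟪vE, A v'⟫_ℂ := by
        have h6 : ⟪v, A v⟫_ℂ = ⟪vE, A v⟫_ℂ + ⟪v', A v⟫_ℂ := by
          rw [← inner_add_left, hsplit]
        have h7 : ⟪vE, A v⟫_ℂ = ⟪vE, A vE⟫_ℂ + ⟪vE, A v'⟫_ℂ := by
          rw [← inner_add_right, ← map_add, hsplit]
        rw [h6, h7]; ring
      rw [← h5, inner_sub_right, inner_self_eq_norm_sq_to_K, hv]
      simp
    have e2 : (1 : ℝ) ≤ ‖⟪vE, A vE⟫_ℂ‖ + ‖⟪v', A v⟫_ℂ‖ + ‖⟪vE, A v'⟫_ℂ‖ + ‖⟪v, A v - v⟫_ℂ‖ := by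
      calc (1 : ℝ) = ‖(1 : ℂ)‖ := by simp
        _ = ‖⟪vE, A vE⟫_ℂ + ⟪v', A v⟫_ℂ + ⟪vE, A v'⟫_ℂ - ⟪v, A v - v⟫_ℂ‖ := by rw [← e1]
        _ ≤ ‖⟪vE, A vE⟫_ℂ + ⟪v', A v⟫_ℂ + ⟪vE, A v'⟫_ℂ‖ + ‖⟪v, A v - v⟫_ℂ‖ := norm_sub_le _ _
        _ ≤ _ := by
          gcongr
          exact (norm_add_le _ _).trans (by gcongr; exact norm_add_le _ _)
    have e3 : ‖⟪v', A v⟫_ℂ‖ ≤ 2 / 100 := by
      refine (norm_inner_le_norm _ _).trans ?_
      have := hA2 v
      rw [hv] at this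
      nlinarith [norm_nonneg v', norm_nonneg (A v)]
    have e4 : ‖⟪vE, A v'⟫_ℂ‖ ≤ 2 / 100 := by
      refine (norm_inner_le_norm _ _).trans ?_
      have := hA2 v'
      nlinarith [norm_nonneg vE, norm_nonneg (A v')]
    have e5 : ‖⟪v, A v - v⟫_ℂ‖ ≤ 1 / 100 := by
      refine (norm_inner_le_norm _ _).trans ?_
      rw [hv, one_mul]; exact hAv
    linarith
  have hexp : ⟪vE, A vE⟫_ℂ = ∑ p ∈ S ×ˢ S, (starRingEnd ℂ (c p.1) * c p.2) *
      ⟪b p.1, A (b p.2)⟫_ℂ := by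
    rw [Finset.sum_product, hvE, map_sum, sum_inner]
    refine Finset.sum_congr rfl fun i _ => ?_
    rw [inner_sum]
    refine Finset.sum_congr rfl fun j _ => ?_
    rw [map_smul, inner_smul_left, inner_smul_right]
    ring
  have hcs : ‖⟪vE, A vE⟫_ℂ‖ ^ 2 ≤ (∑ p ∈ S ×ˢ S, ‖starRingEnd ℂ (c p.1) * c p.2‖ ^ 2) *
      ∑ p ∈ S ×ˢ S, ‖⟪b p.1, A (b p.2)⟫_ℂ‖ ^ 2 := by
    rw [hexp]
    refine le_trans ?_ (Finset.sum_mul_sq_le_sq_mul_sq (S ×ˢ S)
      (fun p => ‖starRingEnd ℂ (c p.1) * c p.2‖) (fun p => ‖⟪b p.1, A (b p.2)⟫_ℂ‖))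
    refine pow_le_pow_left₀ (norm_nonneg _) ?_ 2
    refine (norm_sum_le _ _).trans (Finset.sum_le_sum fun p _ => ?_)
    rw [norm_mul]
  have hone : (∑ p ∈ S ×ˢ S, ‖starRingEnd ℂ (c p.1) * c p.2‖ ^ 2) ≤ 1 := by
    have : (∑ p ∈ S ×ˢ S, ‖starRingEnd ℂ (c p.1) * c p.2‖ ^ 2) =
        (∑ i ∈ S, ‖c i‖ ^ 2) * (∑ i ∈ S, ‖c i‖ ^ 2) := by
      rw [Finset.sum_mul_sum, Finset.sum_product]
      refine Finset.sum_congr rfl fun i _ => Finset.sum_congr rfl fun j _ => ?_
      rw [norm_mul, mul_pow, RCLike.norm_conj]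
    rw [this, ← hnE]
    nlinarith [norm_nonneg vE, sq_nonneg (‖vE‖)]
  rw [← Finset.sum_product']
  have hnn : 0 ≤ ∑ p ∈ S ×ˢ S, ‖⟪b p.1, A (b p.2)⟫_ℂ‖ ^ 2 :=
    Finset.sum_nonneg fun _ _ => by positivity
  nlinarith [hmain, hcs, hone, norm_nonneg (⟪vE, A vE⟫_ℂ)]

/-! ## Vectorisation and Hilbert-Schmidt norms -/

section Vec

variable {H K : Type} [Fintype H] [Fintype K]

/-- matrices as vectors of a Euclidean space -/
def vec : Matrix H K ℂ ≃ₗ[ℂ] EuclideanSpace ℂ (H × K) where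
  toFun T := WithLp.toLp 2 (fun p => T p.1 p.2)
  invFun v := fun h k => v (h, k)
  map_add' S T := by ext p; rfl
  map_smul' c T := by ext p; rfl
  left_inv T := rfl
  right_inv v := by ext p; rfl

theorem norm_vec_sq (T : Matrix H K ℂ) : ‖vec T‖ ^ 2 = hs2 T := by
  rw [EuclideanSpace.norm_sq_eq, Fintype.sum_prod_type]
  rfl

theorem inner_vec (S T : Matrix H K ℂ) : ⟪vec S, vec T⟫_ℂ = (Sᴴ * T).trace := by
  rw [PiLp.inner_apply, Matrix.trace]
  simp only [Matrix.diag_apply, Matrix.mul_apply, Matrix.conjTranspose_apply,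
    Fintype.sum_prod_type]
  rw [Finset.sum_comm]
  refine Finset.sum_congr rfl fun k _ => Finset.sum_congr rfl fun h _ => ?_
  exact mul_comm _ _

theorem hs2_nonneg (T : Matrix H K ℂ) : 0 ≤ hs2 T :=
  Finset.sum_nonneg fun _ _ => Finset.sum_nonneg fun _ _ => by positivity

theorem hs2_map_star (T : Matrix H K ℂ) : hs2 (T.map star) = hs2 T := by
  simp [hs2]

theorem hs2_conjTranspose (T : Matrix H K ℂ) : hs2 Tᴴ = hs2 T := by
  simp only [hs2, Matrix.conjTranspose_apply, norm_star]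
  rw [Finset.sum_comm]

theorem hs2_mul_le {c : ℝ} {M : Matrix H H ℂ} (h : nb c M) (T : Matrix H K ℂ) :
    hs2 (M * T) ≤ c ^ 2 * hs2 T := by
  unfold hs2
  rw [Finset.sum_comm, Finset.sum_comm (f := fun i j => ‖T i j‖ ^ 2), Finset.mul_sum]
  refine Finset.sum_le_sum fun k _ => ?_
  have := h (fun i => T i k)
  refine le_trans (le_of_eq ?_) this
  refine Finset.sum_congr rfl fun i _ => ?_
  rfl

theorem hs2_mul_unitary [DecidableEq K] {U : Matrix K K ℂ} (hU : U ∈ Matrix.unitaryGroup K ℂ)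
    (T : Matrix H K ℂ) : hs2 (T * U) = hs2 T := by
  have h : ∀ S : Matrix H K ℂ, ((hs2 S : ℝ) : ℂ) = (Sᴴ * S).trace := by
    intro S
    rw [← inner_vec, inner_self_eq_norm_sq_to_K, ← norm_vec_sq]
    push_cast; rfl
  have h2 : ((hs2 (T * U) : ℝ) : ℂ) = ((hs2 T : ℝ) : ℂ) := by
    rw [h, h, Matrix.conjTranspose_mul, Matrix.trace_mul_comm]
    rw [Matrix.mul_assoc, ← Matrix.mul_assoc U]
    rw [show U * Uᴴ = 1 from Matrix.mem_unitaryGroup_iff.mp hU, Matrix.one_mul,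
      Matrix.trace_mul_comm]
  exact_mod_cast h2

theorem map_star_mem [DecidableEq K] {U : Matrix K K ℂ} (hU : U ∈ Matrix.unitaryGroup K ℂ) :
    U.map star ∈ Matrix.unitaryGroup K ℂ := by
  rw [Matrix.mem_unitaryGroup_iff] at hU ⊢
  have h1 : U.map star * star (U.map star) = (U * star U).map star := by
    ext i j
    simp [Matrix.mul_apply, Matrix.star_apply]
  rw [h1, hU]
  ext i j
  by_cases hij : i = j <;> simp [Matrix.one_apply, hij]

end Vec

theorem gap_conj {n : ℕ} {g : Fin 4 → Matrix (Fin n) (Fin n) ℂ} (h : Gap g) :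
    Gap fun s => (g s).map star := by
  refine ⟨fun s => map_star_mem (h.1 s), fun y => ?_⟩
  have h1 := h.2 (y.map star)
  have e1 : hs2 (y.map star - ((y.map star).trace / (n : ℂ)) •
      (1 : Matrix (Fin n) (Fin n) ℂ)) = hs2 (y - (y.trace / (n : ℂ)) •
      (1 : Matrix (Fin n) (Fin n) ℂ)) := by
    rw [← hs2_map_star (y - (y.trace / (n : ℂ)) • (1 : Matrix (Fin n) (Fin n) ℂ))]
    congr 1
    ext i j
    have : (y.map star).trace = star y.trace := by
      simp [Matrix.trace, star_sum]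
    rw [this]
    by_cases hij : i = j <;> simp [hij]
  have e2 : ∀ s, hs2 (g s * y.map star - y.map star * g s) =
      hs2 ((g s).map star * y - y * (g s).map star) := by
    intro s
    rw [← hs2_map_star (g s * y.map star - y.map star * g s)]
    congr 1
    ext i j
    simp [Matrix.mul_apply]
  rw [e1] at h1
  simpa only [e2] using h1

/-- the block `a` of a matrix -/
def blk {m n : ℕ} {K : Type} (a : Fin m) (T : Matrix (Fin m × Fin n) K ℂ) :
    Matrix (Fin n) K ℂ := fun p r => T (a, p) r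

theorem hs2_blk_le {m n : ℕ} {K : Type} [Fintype K] (a : Fin m)
    (T : Matrix (Fin m × Fin n) K ℂ) : hs2 (blk a T) ≤ hs2 T := by
  unfold hs2 blk
  rw [Fintype.sum_prod_type (f := fun i => ∑ j, ‖T i j‖ ^ 2)]
  exact Finset.single_le_sum (f := fun a => ∑ p, ∑ j, ‖T (a, p) j‖ ^ 2)
    (fun _ _ => Finset.sum_nonneg fun _ _ => Finset.sum_nonneg fun _ _ => by positivity)
    (Finset.mem_univ a)

/-- the value of one term -/
def evt {m n : ℕ} (t : ℂ × (Fin m × Fin m) × List (ℕ × Bool))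
    (u : ℕ → Matrix (Fin n) (Fin n) ℂ) : Matrix (Fin m × Fin n) (Fin m × Fin n) ℂ :=
  fun a b => if t.2.1.1 = a.1 ∧ t.2.1.2 = b.1 then t.1 * evw u t.2.2 a.2 b.2 else 0

theorem trace_ev {m n : ℕ} {K : Type} [Fintype K] (X : CP m)
    (u : ℕ → Matrix (Fin n) (Fin n) ℂ) (S T : Matrix (Fin m × Fin n) K ℂ) (W : Matrix K K ℂ) :
    (Sᴴ * X.ev u * T * W).trace = (X.map fun t => t.1 *
      ((blk t.2.1.1 S)ᴴ * evw u t.2.2 * blk t.2.1.2 T * W).trace).sum := by
  induction X with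
  | nil =>
    have : CP.ev ([] : CP m) u = 0 := by ext a b; simp [CP.ev]
    simp [this]
  | cons t X ih =>
    have h1 : CP.ev (t :: X : CP m) u = evt t u + CP.ev X u := by
      ext a b
      simp [CP.ev, evt]
    have h2 : Sᴴ * evt t u * T = t.1 • ((blk t.2.1.1 S)ᴴ * evw u t.2.2 * blk t.2.1.2 T) := by
      ext i j
      simp only [Matrix.mul_apply, Fintype.sum_prod_type, Matrix.conjTranspose_apply,
        Matrix.smul_apply, blk, smul_eq_mul, ite_and, evt]
      simp only [mul_ite, mul_zero, Finset.sum_ite_irrel, Finset.sum_const_zero,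
        Finset.sum_ite_eq, Finset.mem_univ, if_true, ite_mul, zero_mul]
      rw [Finset.mul_sum]
      refine Finset.sum_congr rfl fun p _ => ?_
      rw [← mul_assoc]
      congr 1
      rw [Finset.mul_sum]
      refine Finset.sum_congr rfl fun p' _ => ?_
      ring
    rw [h1, Matrix.mul_add, Matrix.add_mul, Matrix.add_mul, Matrix.trace_add, ih,
      List.map_cons, List.sum_cons, h2, Matrix.smul_mul, Matrix.trace_smul, smul_eq_mul]

theorem evw_update {n : ℕ} (u : ℕ → Matrix (Fin n) (Fin n) ℂ) (t : ℕ)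
    (V : Matrix (Fin n) (Fin n) ℂ) : ∀ w : List (ℕ × Bool), (∀ p ∈ w, p.1 ≠ t) →
    evw (Function.update u t V) w = evw u w
  | [], _ => rfl
  | p :: w, h => by
    have h1 : p.1 ≠ t := h p (by simp)
    have h2 := evw_update u t V w fun q hq => h q (by simp [hq])
    simp only [evw, h2, Function.update_of_ne h1]

theorem ev_update {m n : ℕ} (X : CP m) (u : ℕ → Matrix (Fin n) (Fin n) ℂ) (t : ℕ)
    (V : Matrix (Fin n) (Fin n) ℂ) (h : X.Avoids t) :
    X.ev (Function.update u t V) = X.ev u := by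
  ext a b
  unfold CP.ev
  congr 1
  refine List.map_congr_left fun e he => ?_
  rw [evw_update u t V e.2.2 (h e he)]


/-! ## The defeat lemma -/

/-- left and right multiplication on vectorised matrices -/
def lr {H K : Type} [Fintype H] [Fintype K] (M : Matrix H H ℂ) (W : Matrix K K ℂ) :
    EuclideanSpace ℂ (H × K) →ₗ[ℂ] EuclideanSpace ℂ (H × K) where
  toFun v := vec (M * vec.symm v * W)
  map_add' v w := by rw [map_add, Matrix.mul_add, Matrix.add_mul, map_add]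
  map_smul' c v := by
    rw [map_smul, Matrix.mul_smul, Matrix.smul_mul, map_smul, RingHom.id_apply]

theorem lr_apply {H K : Type} [Fintype H] [Fintype K] (M : Matrix H H ℂ) (W : Matrix K K ℂ)
    (v : EuclideanSpace ℂ (H × K)) : lr M W v = vec (M * vec.symm v * W) := rfl

theorem lr_norm_le {H K : Type} [Fintype H] [Fintype K] [DecidableEq K] {c : ℝ} (hc : 0 ≤ c)
    {M : Matrix H H ℂ} (hM : nb c M) {W : Matrix K K ℂ} (hW : W ∈ Matrix.unitaryGroup K ℂ)
    (v : EuclideanSpace ℂ (H × K)) : ‖lr M W v‖ ≤ c * ‖v‖ := by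
  have h1 : ‖lr M W v‖ ^ 2 ≤ (c * ‖v‖) ^ 2 := by
    rw [lr_apply, norm_vec_sq, hs2_mul_unitary hW, mul_pow]
    refine (hs2_mul_le hM _).trans ?_
    rw [← norm_vec_sq, LinearEquiv.apply_symm_apply]
  exact abs_le_of_sq_le_sq' h1 (by positivity) |>.2

/-- left and right multiplication minus the identity -/
def lm {H K : Type} [Fintype H] [Fintype K] (M : Matrix H H ℂ) (W : Matrix K K ℂ) :
    EuclideanSpace ℂ (H × K) →ₗ[ℂ] EuclideanSpace ℂ (H × K) := lr M W - LinearMap.id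

theorem lm_vec {H K : Type} [Fintype H] [Fintype K] (M : Matrix H H ℂ) (W : Matrix K K ℂ)
    (T : Matrix H K ℂ) : ‖lm M W (vec T)‖ ^ 2 = hs2 (M * T * W - T) := by
  rw [lm, ← norm_vec_sq, LinearMap.sub_apply, lr_apply, LinearEquiv.symm_apply_apply,
    LinearMap.id_apply, map_sub]

/-- the base tuple -/
def base {n : ℕ} (u : Fin 4 → Matrix (Fin n) (Fin n) ℂ) : ℕ → Matrix (Fin n) (Fin n) ℂ :=
  fun j => if h : j < 4 then u ⟨j, h⟩ else 1

theorem base_mem {n : ℕ} {u : Fin 4 → Matrix (Fin n) (Fin n) ℂ}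
    (hu : ∀ s, u s ∈ Matrix.unitaryGroup (Fin n) ℂ) (j : ℕ) :
    base u j ∈ Matrix.unitaryGroup (Fin n) ℂ := by
  unfold base
  split_ifs with h
  · exact hu _
  · exact one_mem _

/-- the fibre with `V` at index `t` -/
def mkF {n : ℕ} (hn : 0 < n) {u : Fin 4 → Matrix (Fin n) (Fin n) ℂ}
    (hu : ∀ s, u s ∈ Matrix.unitaryGroup (Fin n) ℂ) (t : ℕ) {V : Matrix (Fin n) (Fin n) ℂ}
    (hV : V ∈ Matrix.unitaryGroup (Fin n) ℂ) : Fib where
  n := n
  pos := hn
  u := Function.update (base u) t V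
  uni := by
    intro j
    by_cases h : j = t
    · subst h; simpa using hV
    · rw [Function.update_of_ne h]; exact base_mem hu j

theorem update_base {n : ℕ} {u : Fin 4 → Matrix (Fin n) (Fin n) ℂ} {t : ℕ} (ht : 4 ≤ t)
    (V : Matrix (Fin n) (Fin n) ℂ) (s : Fin 4) :
    Function.update (base u) t V s.val = u s := by
  have h1 : s.val ≠ t := by omega
  rw [Function.update_of_ne h1]
  simp [base]

theorem mkF_four {n : ℕ} (hn : 0 < n) {u : Fin 4 → Matrix (Fin n) (Fin n) ℂ}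
    (hu : ∀ s, u s ∈ Matrix.unitaryGroup (Fin n) ℂ) {t : ℕ} (ht : 4 ≤ t)
    {V : Matrix (Fin n) (Fin n) ℂ} (hV : V ∈ Matrix.unitaryGroup (Fin n) ℂ) :
    (mkF hn hu t hV).four = u := by
  funext s
  exact update_base ht V s

theorem defeat (h2 : S_RL) (h3 : S_HAAR) (x : Cand) (n : ℕ) (hn : 0 < n)
    (hC : 4 * ((∑ τ : Fin x.Xt.toCP.length, ‖(x.Xt.toCP.get τ).1‖ ^ 2) * (2 * x.m) ^ 2 *
      ∑ τ : Fin x.Xt.toCP.length, (2 * ((x.Xt.toCP.get τ).2.2.length : ℝ) + 1)) < n)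
    (u : Fin 4 → Matrix (Fin n) (Fin n) ℂ) (hu : Gap u) :
    ∃ f : Fib, f.n = n ∧ Gap f.four ∧ ¬ Rel x f f := by
  classical
  by_cases hnb : ∀ s, nb (1 + eps1) ((x.X s).toCP.ev (base u))
  swap
  · refine ⟨mkF hn hu.1 x.t (one_mem (Matrix.unitaryGroup (Fin n) ℂ)), rfl, ?_, ?_⟩
    · rw [mkF_four hn hu.1 x.ht]; exact hu
    · rintro ⟨hA, -⟩
      refine hnb fun s => ?_
      have := hA s
      change nb (1 + eps1) ((x.X s).toCP.ev (Function.update (base u) x.t 1)) at this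
      rwa [ev_update _ _ _ _ (x.hX s)] at this
  obtain ⟨N, b, lam, hlam⟩ := spectral (E := EuclideanSpace ℂ ((Fin x.m × Fin n) × Fin n))
    (fun s => lm ((x.X s).toCP.ev (base u)) ((u s).map star))
  have hlamb : ∀ i, ∑ s, ‖lm ((x.X s).toCP.ev (base u)) ((u s).map star) (b i)‖ ^ 2 =
      lam i := by
    intro i
    rw [hlam (b i), Finset.sum_eq_single i]
    · rw [orthonormal_iff_ite.mp b.orthonormal i i]; simp
    · intro j _ hj
      rw [orthonormal_iff_ite.mp b.orthonormal j i]; simp [hj]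
    · intro h; exact absurd (Finset.mem_univ i) h
  have hlam0 : ∀ i, 0 ≤ lam i := fun i => by
    rw [← hlamb i]
    exact Finset.sum_nonneg fun s _ => by positivity
  set S := Finset.univ.filter (fun i => lam i ≤ kap1) with hS
  -- the dimension bound
  have hcard : S.card ≤ 2 * x.m := by
    have h4 := h2 n S.card (Fin x.m × Fin n) hn _ (gap_conj hu)
      (fun s => (x.X s).toCP.ev (base u)) hnb (fun i => vec.symm (b (S.equivFin.symm i).1))
      (by
        intro i j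
        rw [← inner_vec, LinearEquiv.apply_symm_apply, LinearEquiv.apply_symm_apply,
          orthonormal_iff_ite.mp b.orthonormal]
        by_cases hij : i = j
        · simp [hij]
        · rw [if_neg hij, if_neg]
          intro h
          exact hij (S.equivFin.symm.injective (Subtype.ext h)))
      (by
        have h5 : ∀ i : Fin S.card, ∑ s, hs2 ((x.X s).toCP.ev (base u) *
            vec.symm (b (S.equivFin.symm i).1) * (u s).map star -
            vec.symm (b (S.equivFin.symm i).1)) ≤ kap1 := by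
          intro i
          have h6 := hlamb (S.equivFin.symm i).1
          have h7 : lam (S.equivFin.symm i).1 ≤ kap1 := by
            exact (Finset.mem_filter.mp (S.equivFin.symm i).2).2
          have h8 : ∑ s, hs2 ((x.X s).toCP.ev (base u) *
            vec.symm (b (S.equivFin.symm i).1) * (u s).map star -
            vec.symm (b (S.equivFin.symm i).1)) = lam (S.equivFin.symm i).1 := by
            rw [← h6]
            refine Finset.sum_congr rfl fun s _ => ?_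
            rw [← lm_vec, LinearEquiv.apply_symm_apply]
          rw [h8]; exact h7
        refine (Finset.sum_le_sum fun i _ => h5 i).trans ?_
        simp [mul_comm])
    rw [Fintype.card_prod, Fintype.card_fin, Fintype.card_fin] at h4
    have h5 : n * S.card ≤ n * (2 * x.m) := by
      calc n * S.card ≤ 2 * (x.m * n) := h4
        _ = n * (2 * x.m) := by ring
    exact Nat.le_of_mul_le_mul_left h5 hn
  -- the second moment bound
  set X : CP x.m := x.Xt.toCP with hX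
  have hbl : ∀ (a : Fin x.m) (i : Fin N), hs2 (blk a (vec.symm (b i) :
      Matrix (Fin x.m × Fin n) (Fin n) ℂ)) ≤ 1 := by
    intro a i
    refine (hs2_blk_le a _).trans ?_
    rw [← norm_vec_sq, LinearEquiv.apply_symm_apply, b.orthonormal.1 i]
    norm_num
  obtain ⟨V, hV, hVs⟩ := h3 n hn (base u) (base_mem hu.1) x.t (S × S × Fin X.length)
    (fun i => (blk (X.get i.2.2).2.1.1 (vec.symm (b i.1.1)))ᴴ)
    (fun i => blk (X.get i.2.2).2.1.2 (vec.symm (b i.2.1.1)))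
    (fun i => (X.get i.2.2).2.2)
    (fun i => by rw [hs2_conjTranspose]; exact hbl _ _)
    (fun i => hbl _ _)
  refine ⟨mkF hn hu.1 x.t hV, rfl, ?_, ?_⟩
  · rw [mkF_four hn hu.1 x.ht]; exact hu
  rintro ⟨-, hB, T, hT, hR⟩
  change nb (1 + eps1) (X.ev (Function.update (base u) x.t V)) at hB
  change Matrix (Fin x.m × Fin n) (Fin n) ℂ at T
  change (∑ s : Fin 4, hs2 ((x.X s).toCP.ev (Function.update (base u) x.t V) * T *
      (Function.update (base u) x.t V s.val).map star - T)) +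
      hs2 (X.ev (Function.update (base u) x.t V) * T *
        (Function.update (base u) x.t V x.t).map star - T) ≤ thr at hR
  rw [Function.update_self] at hR
  have e1 : ∀ s : Fin 4, hs2 ((x.X s).toCP.ev (Function.update (base u) x.t V) * T *
      (Function.update (base u) x.t V s.val).map star - T) =
      hs2 ((x.X s).toCP.ev (base u) * T * (u s).map star - T) := by
    intro s
    rw [ev_update _ _ _ _ (x.hX s), update_base x.ht V s]
  simp only [e1] at hR
  set M := X.ev (Function.update (base u) x.t V) with hM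
  have hVc := map_star_mem hV
  have hc := core b lam hlam0 (lr M (V.map star))
    (lr_norm_le (by norm_num [eps1]) hB hVc) (vec T)
    (by
      have := norm_vec_sq T
      rw [show hs2 T = 1 from hT] at this
      nlinarith [norm_nonneg (vec T)])
    (by
      rw [← hlam (vec T)]
      simp only [lm_vec]
      have := hs2_nonneg (M * T * V.map star - T)
      linarith)
    (by
      rw [lr_apply, LinearEquiv.symm_apply_apply, ← map_sub, norm_vec_sq]
      have : 0 ≤ ∑ s : Fin 4, hs2 ((x.X s).toCP.ev (base u) * T * (u s).map star - T) :=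
        Finset.sum_nonneg fun _ _ => hs2_nonneg _
      linarith)
  rw [← hS] at hc
  set D : ℝ := ∑ τ : Fin X.length, ‖(X.get τ).1‖ ^ 2 with hD
  set Lc : ℝ := ∑ τ : Fin X.length, (2 * ((X.get τ).2.2.length : ℝ) + 1) with hLc
  have hD0 : 0 ≤ D := Finset.sum_nonneg fun _ _ => by positivity
  have hLc0 : 0 ≤ Lc := Finset.sum_nonneg fun _ _ => by positivity
  -- entries
  have hent : ∀ i j : Fin N, ‖⟪b i, lr M (V.map star) (b j)⟫_ℂ‖ ^ 2 ≤
      D * ∑ τ : Fin X.length, ‖((blk (X.get τ).2.1.1 (vec.symm (b i)))ᴴ *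
        evw (Function.update (base u) x.t V) (X.get τ).2.2 *
        blk (X.get τ).2.1.2 (vec.symm (b j)) * V.map star).trace‖ ^ 2 := by
    intro i j
    have h5 : ⟪b i, lr M (V.map star) (b j)⟫_ℂ = ∑ τ : Fin X.length, (X.get τ).1 *
        ((blk (X.get τ).2.1.1 (vec.symm (b i)))ᴴ *
        evw (Function.update (base u) x.t V) (X.get τ).2.2 *
        blk (X.get τ).2.1.2 (vec.symm (b j)) * V.map star).trace := by
      rw [lr_apply]
      nth_rewrite 1 [← LinearEquiv.apply_symm_apply vec (b i)]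
      rw [inner_vec, ← Matrix.mul_assoc, ← Matrix.mul_assoc, hM, trace_ev]
      exact (Fin.sum_univ_fun_getElem X _).symm
    rw [h5]
    refine le_trans ?_ (Finset.sum_mul_sq_le_sq_mul_sq Finset.univ
      (fun τ : Fin X.length => ‖(X.get τ).1‖) _)
    refine pow_le_pow_left₀ (norm_nonneg _) ?_ 2
    refine (norm_sum_le _ _).trans (Finset.sum_le_sum fun τ _ => ?_)
    rw [norm_mul]
  have hup : ∑ i ∈ S, ∑ j ∈ S, ‖⟪b i, lr M (V.map star) (b j)⟫_ℂ‖ ^ 2 ≤
      D * ((2 * x.m) ^ 2 * Lc / n) := by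
    refine (Finset.sum_le_sum fun i _ => Finset.sum_le_sum fun j _ => hent i j).trans ?_
    simp only [← Finset.mul_sum]
    refine mul_le_mul_of_nonneg_left ?_ hD0
    have h6 : ∑ i ∈ S, ∑ j ∈ S, ∑ τ : Fin X.length,
        ‖((blk (X.get τ).2.1.1 (vec.symm (b i)))ᴴ *
        evw (Function.update (base u) x.t V) (X.get τ).2.2 *
        blk (X.get τ).2.1.2 (vec.symm (b j)) * V.map star).trace‖ ^ 2 =
        ∑ i : S × S × Fin X.length,
        ‖((blk (X.get i.2.2).2.1.1 (vec.symm (b i.1.1)))ᴴ *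
        evw (Function.update (base u) x.t V) (X.get i.2.2).2.2 *
        blk (X.get i.2.2).2.1.2 (vec.symm (b i.2.1.1)) * V.map star).trace‖ ^ 2 := by
      rw [Fintype.sum_prod_type, ← Finset.sum_coe_sort S]
      refine Finset.sum_congr rfl fun i _ => ?_
      rw [Fintype.sum_prod_type, ← Finset.sum_coe_sort S]
    rw [h6]
    refine hVs.trans ?_
    rw [← Finset.sum_div]
    refine div_le_div_of_nonneg_right ?_ (Nat.cast_nonneg n)
    have h7 : ∑ i : S × S × Fin X.length, (2 * ((X.get i.2.2).2.2.length : ℝ) + 1) =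
        (S.card : ℝ) ^ 2 * Lc := by
      rw [Fintype.sum_prod_type]
      simp only [Fintype.sum_prod_type]
      rw [Finset.sum_const, Finset.sum_const, Finset.card_univ, Fintype.card_coe]
      simp only [nsmul_eq_mul]
      ring
    rw [h7]
    have h8 : (S.card : ℝ) ≤ 2 * x.m := by exact_mod_cast hcard
    refine mul_le_mul_of_nonneg_right ?_ hLc0
    exact pow_le_pow_left₀ (Nat.cast_nonneg _) h8 2
  have hnpos : (0 : ℝ) < n := by exact_mod_cast hn
  have hfin : D * ((2 * x.m) ^ 2 * Lc / n) < 1 / 4 := by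
    rw [← mul_div_assoc, div_lt_iff₀ hnpos]
    nlinarith
  linarith

theorem main (h1 : S_QE) (h2 : S_RL) (h3 : S_HAAR) : S_DEF := by
  intro x
  obtain ⟨a0, ha0⟩ := exists_nat_gt (4 * ((∑ τ : Fin x.Xt.toCP.length,
    ‖(x.Xt.toCP.get τ).1‖ ^ 2) * (2 * x.m) ^ 2 *
      ∑ τ : Fin x.Xt.toCP.length, (2 * ((x.Xt.toCP.get τ).2.2.length : ℝ) + 1)))
  refine ⟨a0, fun a ha => ?_⟩
  obtain ⟨u, hu⟩ := h1 a
  refine defeat h2 h3 x (2 ^ a) (by positivity) (ha0.trans_le ?_) u hu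
  have h4 : a0 ≤ 2 ^ a := ha.trans (Nat.lt_two_pow_self).le
  exact_mod_cast h4

end Pool.Agent.H299_Opp.DEF
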