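import Mathlib

/-!
# Definitions for MP_c8b4d4_an: fibres, matrix polynomials, candidates, the Fock space
-/

set_option autoImplicit false

open scoped BigOperators Matrix InnerProductSpace

noncomputable section

namespace Pool.Agent.H299_Opp

/-- squared Hilbert-Schmidt norm of a matrix -/
def hs2 {m n : Type} [Fintype m] [Fintype n] (M : Matrix m n ℂ) : ℝ := ∑ i, ∑ j, ‖M i j‖ ^ 2

/-- the operator norm of the square matrix `M` is at most `c` -/
def nb {H : Type} [Fintype H] (c : ℝ) (M : Matrix H H ℂ) : Prop :=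
  ∀ x : H → ℂ, ∑ i, ‖(M.mulVec x) i‖ ^ 2 ≤ c ^ 2 * ∑ i, ‖x i‖ ^ 2

/-- spectral gap of a 4-tuple of unitary matrices, with constant `400` -/
def Gap {n : ℕ} (g : Fin 4 → Matrix (Fin n) (Fin n) ℂ) : Prop :=
  (∀ s, g s ∈ Matrix.unitaryGroup (Fin n) ℂ) ∧
  ∀ y : Matrix (Fin n) (Fin n) ℂ,
    hs2 (y - (y.trace / (n : ℂ)) • (1 : Matrix (Fin n) (Fin n) ℂ)) ≤
      400 * ∑ s, hs2 (g s * y - y * g s)

/-- constants -/
def eps1 : ℝ := (1 / 10) ^ 5
def kap1 : ℝ := (1 / 10) ^ 9
def thr : ℝ := (1 / 10) ^ 60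

/-- the value of a word in the letters `u_j`, `u_j^*` -/
def evw {n : ℕ} (u : ℕ → Matrix (Fin n) (Fin n) ℂ) : List (ℕ × Bool) → Matrix (Fin n) (Fin n) ℂ
  | [] => 1
  | p :: w => (if p.2 then (u p.1)ᴴ else u p.1) * evw u w

/-- a fibre: a sequence of unitary matrices of one size -/
structure Fib where
  n : ℕ
  pos : 0 < n
  u : ℕ → Matrix (Fin n) (Fin n) ℂ
  uni : ∀ j, u j ∈ Matrix.unitaryGroup (Fin n) ℂ

/-- the first four unitaries of a fibre -/
def Fib.four (f : Fib) : Fin 4 → Matrix (Fin f.n) (Fin f.n) ℂ := fun s => f.u s.val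

/-- Gaussian rational numbers -/
def qc (q : ℚ × ℚ) : ℂ := (q.1 : ℂ) + (q.2 : ℂ) * Complex.I

/-- matrix polynomials of size `m` with complex coefficients, as lists of terms
`q, (a, b), word` standing for `q e_{ab} ⊗ word` -/
abbrev CP (m : ℕ) := List (ℂ × (Fin m × Fin m) × List (ℕ × Bool))

/-- matrix polynomials of size `m` with Gaussian rational coefficients -/
abbrev QP (m : ℕ) := List ((ℚ × ℚ) × (Fin m × Fin m) × List (ℕ × Bool))

/-- evaluation of a matrix polynomial at a tuple -/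
def CP.ev {m n : ℕ} (X : CP m) (u : ℕ → Matrix (Fin n) (Fin n) ℂ) :
    Matrix (Fin m × Fin n) (Fin m × Fin n) ℂ :=
  fun a b => (X.map fun t =>
    if t.2.1.1 = a.1 ∧ t.2.1.2 = b.1 then t.1 * evw u t.2.2 a.2 b.2 else 0).sum

/-- the complex matrix polynomial of a rational one -/
def QP.toCP {m : ℕ} (X : QP m) : CP m := X.map fun t => (qc t.1, t.2)

/-- the index `t` does not occur in `X` -/
def CP.Avoids {m : ℕ} (X : CP m) (t : ℕ) : Prop := ∀ e ∈ X, ∀ p ∈ e.2.2, p.1 ≠ t

/-- candidates -/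
structure Cand where
  m : ℕ
  X : Fin 4 → QP m
  t : ℕ
  Xt : QP m
  ht : 4 ≤ t
  hX : ∀ s, CP.Avoids (X s).toCP t

/-- the relation attached to a candidate -/
def Rel (x : Cand) (f g : Fib) : Prop :=
  (∀ s, nb (1 + eps1) ((x.X s).toCP.ev g.u)) ∧ nb (1 + eps1) (x.Xt.toCP.ev g.u) ∧
  ∃ T : Matrix (Fin x.m × Fin g.n) (Fin f.n) ℂ, hs2 T = 1 ∧
    (∑ s : Fin 4, hs2 ((x.X s).toCP.ev g.u * T * (f.u s.val).map star - T)) +
      hs2 (x.Xt.toCP.ev g.u * T * (f.u x.t).map star - T) ≤ thr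

/-! ## The Fock space of a family of fibres -/

section Fock

variable {κ : Type} (F : κ → Fib)

/-- letters -/
abbrev Lt := Σ k : κ, Fin (F k).n × ℕ

/-- the Hilbert space: square summable functions on words -/
abbrev Hil := lp (fun _ : List (Lt F) => ℂ) 2

/-- left action on functions of words by a matrix `a k` in each block of letters; it acts on the
first letter, the empty word is fixed -/
def actA {E : Type} [AddCommGroup E] [Module ℂ E]
    (a : ∀ k, Matrix (Fin (F k).n) (Fin (F k).n) ℂ) (f : List (Lt F) → E) : List (Lt F) → E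
  | [] => f []
  | ⟨k, p, c⟩ :: W => ∑ p' : Fin (F k).n, a k p p' • f (⟨k, p', c⟩ :: W)

open Classical in
/-- the action of `T_w a T_v^*` on functions of words (`a` a word in the `u_j`, `u_j^*`) -/
def actT {E : Type} [AddCommGroup E] [Module ℂ E]
    (t : List (Lt F) × List (ℕ × Bool) × List (Lt F)) (f : List (Lt F) → E) :
    List (Lt F) → E := fun W =>
  if t.1 <+: W then
    actA F (fun k => evw (F k).u t.2.1) (fun W' => f (t.2.2 ++ W')) (W.drop t.1.length)
  else 0

/-- algebraic elements: finite sums of terms `q T_w a T_v^*` -/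
abbrev El := List (ℂ × List (Lt F) × List (ℕ × Bool) × List (Lt F))

/-- action of algebraic elements on functions of words -/
def El.act {E : Type} [AddCommGroup E] [Module ℂ E] {F : κ → Fib} (x : El F)
    (f : List (Lt F) → E) : List (Lt F) → E := fun W => (x.map fun t => t.1 • actT F t.2 f W).sum

/-- the index `t` does not occur in `x` -/
def El.Avoids {F : κ → Fib} (x : El F) (t : ℕ) : Prop := ∀ e ∈ x, ∀ p ∈ e.2.2.1, p.1 ≠ t

open Classical in
/-- local action: base fibre `k`, functions of a word and a base index -/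
def actL {E : Type} [AddCommGroup E] [Module ℂ E] (k : κ)
    (t : List (Lt F) × List (ℕ × Bool) × List (Lt F)) (h : List (Lt F) × Fin (F k).n → E) :
    List (Lt F) × Fin (F k).n → E := fun W =>
  if t.1 <+: W.1 then
    match W.1.drop t.1.length with
    | [] => ∑ p' : Fin (F k).n, evw (F k).u t.2.1 W.2 p' • h (t.2.2, p')
    | ⟨k', p, c⟩ :: V => ∑ p' : Fin (F k').n, evw (F k').u t.2.1 p p' •
        h (t.2.2 ++ ⟨k', p', c⟩ :: V, W.2)
  else 0

/-- local action of algebraic elements -/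
def El.loc {E : Type} [AddCommGroup E] [Module ℂ E] {F : κ → Fib} (x : El F) (k : κ)
    (h : List (Lt F) × Fin (F k).n → E) : List (Lt F) × Fin (F k).n → E :=
  fun W => (x.map fun t => t.1 • actL F k t.2 h W).sum

/-- letters of the block `(k, c)` do not occur in `x` -/
def El.Free {F : κ → Fib} (x : El F) (k : κ) (c : ℕ) : Prop :=
  ∀ e ∈ x, ∀ p : Fin (F k).n, (⟨k, p, c⟩ : Lt F) ∉ e.2.1 ∧ (⟨k, p, c⟩ : Lt F) ∉ e.2.2.2

/-- formal adjoint of a word in the `u_j`, `u_j^*` -/
def revw (a : List (ℕ × Bool)) : List (ℕ × Bool) := a.reverse.map fun p => (p.1, !p.2)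

/-- formal adjoint -/
def El.adj {F : κ → Fib} (x : El F) : El F :=
  x.map fun t => (star t.1, t.2.2.2, revw t.2.2.1, t.2.1)

/-- `opr` realises the algebraic elements as bounded operators -/
structure IsOpr (opr : El F → (Hil F →L[ℂ] Hil F)) : Prop where
  apply : ∀ (x : El F) (g : Hil F) (W : List (Lt F)),
    (opr x g : List (Lt F) → ℂ) W = x.act (fun W' => (g : List (Lt F) → ℂ) W') W
  norm_le : ∀ x : El F, ‖opr x‖ ≤ (x.map fun t => ‖t.1‖).sum
  star_eq : ∀ x : El F, star (opr x) = opr x.adj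
  mul_eq : ∀ x y : El F, ∃ z : El F, opr x * opr y = opr z

/-- squared `l^2` norm of a function of words with values in `ℂ^N` -/
def n2 {N : ℕ} (T : List (Lt F) → Fin N → ℂ) : ENNReal :=
  ∑' W, ∑ p, ENNReal.ofReal (‖T W p‖ ^ 2)

end Fock

end Pool.Agent.H299_Opp
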