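import Pool.Agent.H299_Opp.CNT

/-!
# FIB: the sequence of fibres (paper, section 7)
-/

set_option autoImplicit false

noncomputable section

namespace Pool.Agent.H299_Opp.FIB

/-- the trivial fibre -/
def triv : Fib where
  n := 1
  pos := one_pos
  u := fun _ => 1
  uni := fun _ => one_mem _

theorem gap_one (g : Fin 4 → Matrix (Fin 1) (Fin 1) ℂ)
    (hg : ∀ s, g s ∈ Matrix.unitaryGroup (Fin 1) ℂ) : Gap g := by
  refine ⟨hg, fun y => ?_⟩
  have h0 : y - (y.trace / ((1 : ℕ) : ℂ)) • (1 : Matrix (Fin 1) (Fin 1) ℂ) = 0 := by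
    ext i j
    fin_cases i; fin_cases j
    simp [Matrix.trace]
  rw [h0]
  have h1 : hs2 (0 : Matrix (Fin 1) (Fin 1) ℂ) = 0 := by simp [hs2]
  rw [h1]
  refine mul_nonneg (by norm_num) (Finset.sum_nonneg fun _ _ => ?_)
  exact Finset.sum_nonneg fun _ _ => Finset.sum_nonneg fun _ _ => by positivity

theorem triv_gap : Gap triv.four := gap_one _ fun _ => one_mem _

theorem step (h : S_DEF) (x : Cand) (g : Fib) :
    ∃ f : Fib, 2 * g.n < f.n ∧ Gap f.four ∧ ¬ Rel x f f := by
  obtain ⟨a0, ha0⟩ := h x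
  obtain ⟨f, hf1, hf2, hf3⟩ := ha0 (a0 + 2 * g.n) (by omega)
  refine ⟨f, ?_, hf2, hf3⟩
  rw [hf1]
  have := Nat.lt_two_pow_self (n := a0 + 2 * g.n)
  omega

theorem main (h : S_DEF) : S_FIB := by
  have hne : Nonempty Cand := ⟨⟨0, fun _ => [], 4, [], le_refl _, by
    intro s e he; simp [QP.toCP] at he⟩⟩
  have hcnt : Countable Cand := CNT.main
  obtain ⟨f, hf⟩ := exists_surjective_nat Cand
  choose g hg1 hg2 hg3 using step h
  let F : ℕ → Fib := fun i => Nat.rec triv (fun i s => g (f (Nat.unpair i).1) s) i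
  have hF : ∀ i, F (i + 1) = g (f (Nat.unpair i).1) (F i) := fun i => rfl
  have hstep : ∀ i, 2 * (F i).n < (F (i + 1)).n := fun i => by rw [hF]; exact hg1 _ _
  have hmono : ∀ i d, 2 * (F i).n < (F (i + 1 + d)).n := by
    intro i d
    induction d with
    | zero => exact hstep i
    | succ d ih =>
      have := hstep (i + 1 + d)
      rw [← add_assoc]
      omega
  refine ⟨F, rfl, fun j => rfl, ?_, ?_, ?_⟩
  · intro l
    cases l with
    | zero => exact triv_gap
    | succ l => rw [hF]; exact hg2 _ _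
  · intro l k hlk
    rcases Nat.lt_or_gt_of_ne hlk with h1 | h1
    · obtain ⟨d, rfl⟩ := Nat.exists_eq_add_of_lt h1
      left
      have := hmono l d
      rwa [show l + 1 + d = l + d + 1 by ring] at this
    · obtain ⟨d, rfl⟩ := Nat.exists_eq_add_of_lt h1
      right
      have := hmono k d
      rwa [show k + 1 + d = k + d + 1 by ring] at this
  · intro x N
    obtain ⟨i, rfl⟩ := hf x
    refine ⟨Nat.pair i N + 1, ?_, ?_⟩
    · have := Nat.right_le_pair i N
      omega
    · rw [hF, Nat.unpair_pair]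
      exact hg3 _ _

end Pool.Agent.H299_Opp.FIB
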