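import Pool.Agent.H299_Opp.Stubs

/-!
# Glue: the frozen statement from the pieces
-/

set_option autoImplicit false

open scoped BigOperators Matrix InnerProductSpace

noncomputable section

namespace Pool.Agent.H299_Opp

namespace GLUE

/-- the range of `opr` as a star subalgebra -/
theorem range_alg {κ : Type} {F : κ → Fib} {opr : El F → (Hil F →L[ℂ] Hil F)} (h : IsOpr F opr) :
    ∃ A₀ : StarSubalgebra ℂ (Hil F →L[ℂ] Hil F), (A₀ : Set (Hil F →L[ℂ] Hil F)) = Set.range opr := by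
  have hadd : ∀ x y : El F, opr x + opr y = opr (x ++ y) := by
    intro x y
    ext g W
    have h1 := h.apply x g W
    have h2 := h.apply y g W
    have h3 := h.apply (x ++ y) g W
    simp only [ContinuousLinearMap.add_apply, lp.coeFn_add, Pi.add_apply]
    rw [h3, h1, h2]
    simp [El.act]
  have hsmul : ∀ (c : ℂ) (x : El F), c • opr x = opr (x.map fun t => (c * t.1, t.2)) := by
    intro c x
    ext g W
    have h1 := h.apply x g W
    have h3 := h.apply (x.map fun t => (c * t.1, t.2)) g W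
    simp only [ContinuousLinearMap.smul_apply, lp.coeFn_smul, Pi.smul_apply]
    rw [h3, h1]
    simp only [El.act, List.map_map, smul_eq_mul]
    rw [← List.sum_map_mul_left]
    congr 1
    refine List.map_congr_left fun t _ => ?_
    simp [mul_assoc]
  have hone : opr [(1, [], [], [])] = 1 := by
    ext g W
    rw [h.apply]
    simp only [El.act, List.map_cons, List.map_nil, List.sum_cons, List.sum_nil, add_zero,
      one_smul, ContinuousLinearMap.one_apply]
    unfold actT
    simp only [List.nil_prefix, if_true, List.nil_append, List.length_nil, List.drop_zero]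
    cases W with
    | nil => rfl
    | cons b W =>
      obtain ⟨k, p, c⟩ := b
      simp [actA, evw, Matrix.one_apply]
  have hzero : opr [] = 0 := by
    ext g W
    rw [h.apply]
    simp [El.act]
  refine ⟨{ carrier := Set.range opr
            mul_mem' := ?_
            one_mem' := ⟨_, hone⟩
            add_mem' := ?_
            zero_mem' := ⟨_, hzero⟩
            algebraMap_mem' := ?_
            star_mem' := ?_ }, rfl⟩
  · rintro _ _ ⟨x, rfl⟩ ⟨y, rfl⟩
    obtain ⟨z, hz⟩ := h.mul_eq x y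
    exact ⟨z, hz.symm⟩
  · rintro _ _ ⟨x, rfl⟩ ⟨y, rfl⟩
    exact ⟨_, (hadd x y).symm⟩
  · intro c
    rw [Algebra.algebraMap_eq_smul_one, ← hone, hsmul]
    exact ⟨_, rfl⟩
  · rintro _ ⟨x, rfl⟩
    exact ⟨_, (h.star_eq x).symm⟩

end GLUE

/-- the full conclusion from the pieces -/
theorem glue (hF : S_FIB) (hC : S_CNT) (hS : S_COMB) (hO : S_OPR) (hP : S_PI) (hN : S_NOISO) :
    ∃ (A : Type) (_ : NonUnitalCStarAlgebra A),
      TopologicalSpace.SeparableSpace A ∧
      Nontrivial A ∧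
      (∀ I : TwoSidedIdeal A, IsClosed (I : Set A) → I = ⊥ ∨ I = ⊤) ∧
      (∃ a b : A, a * b ≠ b * a) ∧
      (∀ c d : A, c ≠ 0 → d ≠ 0 → ∀ ε : ℝ, 0 < ε →
        ∃ x : A, ‖star x * (star c * c) * x - star d * d‖ < ε) ∧
      IsEmpty (A ≃⋆ₐ[ℂ] Aᵐᵒᵖ) := by
  obtain ⟨Fam, h0n, h0u, hgap, hsize, hbad⟩ := hF
  haveI : Countable Cand := hC
  obtain ⟨S, h0S, hdiag⟩ := hS Cand (fun x l k => Rel x (Fam l) (Fam k)) hbad
  let F : ↥S → Fib := fun k => Fam k.1
  let k0 : ↥S := ⟨0, h0S⟩
  obtain ⟨opr, hopr⟩ := hO ↥S F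
  obtain ⟨A₀, hA₀⟩ := GLUE.range_alg hopr
  let A : StarSubalgebra ℂ (Hil F →L[ℂ] Hil F) := A₀.topologicalClosure
  have hA : (A : Set (Hil F →L[ℂ] Hil F)) = closure (Set.range opr) := by
    rw [← hA₀]; rfl
  haveI hcl : IsClosed (A : Set (Hil F →L[ℂ] Hil F)) := by
    rw [hA]; exact isClosed_closure
  haveI : Countable ↥S := inferInstance
  obtain ⟨hsep, ⟨a, b, hab⟩, hpi⟩ := hP ↥S F k0 h0n h0u opr hopr
  have hmem : ∀ x : El F, opr x ∈ A := by
    intro x
    have : opr x ∈ (A : Set (Hil F →L[ℂ] Hil F)) := by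
      rw [hA]; exact subset_closure ⟨x, rfl⟩
    exact this
  have hpi' : ∀ c d : ↥A, c ≠ 0 → ∀ ε : ℝ, 0 < ε →
      ∃ x : ↥A, ‖star x * (star c * c) * x - star d * d‖ < ε := by
    intro c d hc ε hε
    have hc' : (c : Hil F →L[ℂ] Hil F) ∈ closure (Set.range opr) := by
      rw [← hA]; exact c.2
    have hd' : (d : Hil F →L[ℂ] Hil F) ∈ closure (Set.range opr) := by
      rw [← hA]; exact d.2
    obtain ⟨x, hx, hlt⟩ := hpi c hc' d hd' (by simpa using hc) ε hε
    rw [← hA] at hx
    exact ⟨⟨x, hx⟩, hlt⟩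
  have hnc : (⟨opr a, hmem a⟩ : ↥A) * ⟨opr b, hmem b⟩ ≠ ⟨opr b, hmem b⟩ * ⟨opr a, hmem a⟩ := by
    intro h
    exact hab (congrArg Subtype.val h)
  refine ⟨↥A, inferInstance, ?_, ?_, ?_, ⟨_, _, hnc⟩, fun c d hc _ ε hε => hpi' c d hc ε hε, ?_⟩
  · have : TopologicalSpace.IsSeparable (A : Set (Hil F →L[ℂ] Hil F)) := by
      rw [hA]; exact hsep.closure
    exact this.separableSpace
  · exact ⟨⟨_, _, hnc⟩⟩
  · intro I hI
    by_cases hbot : I = ⊥
    · exact Or.inl hbot
    right
    have hex : ∃ c ∈ I, c ≠ 0 := by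
      by_contra hcon
      push_neg at hcon
      apply hbot
      ext y
      rw [TwoSidedIdeal.mem_bot]
      exact ⟨fun h => hcon y h, fun h => h ▸ I.zero_mem⟩
    obtain ⟨c, hcI, hc0⟩ := hex
    have h1 : (1 : ↥A) ∈ I := by
      have : (1 : ↥A) ∈ (I : Set ↥A) := by
        rw [← hI.closure_eq, Metric.mem_closure_iff]
        intro ε hε
        obtain ⟨x, hx⟩ := hpi' c 1 hc0 ε hε
        refine ⟨star x * (star c * c) * x, ?_, ?_⟩
        · exact I.mul_mem_right _ _ (I.mul_mem_left _ _ (I.mul_mem_left _ _ hcI))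
        · rw [dist_comm, dist_eq_norm]
          simpa using hx
      exact this
    rw [eq_top_iff]
    intro y _
    have := I.mul_mem_left y 1 h1
    rwa [mul_one] at this
  · constructor
    intro Φ
    obtain ⟨x, hx1, hx2⟩ := hN ↥S F k0 h0n h0u (fun k => hgap k.1) opr hopr A hA Φ
    apply hdiag x
    intro l
    constructor
    · intro hl
      obtain ⟨k', hk'⟩ := hx1 ⟨l, hl⟩
      exact ⟨k'.1, k'.2, hk'⟩
    · rintro ⟨k, hk, hR⟩
      obtain ⟨k', h1, h2⟩ := hx2 (Fam l) (hgap l) ⟨k, hk⟩ hR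
      by_cases hlk : l = k'.1
      · rw [hlk]; exact k'.2
      · exfalso
        rcases hsize l k'.1 hlk with h | h
        · exact absurd h2 (not_le.mpr h)
        · exact absurd h1 (not_le.mpr h)

end Pool.Agent.H299_Opp
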