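import Pool.Agent.H299_Opp.Stubs

/-!
# HAAR: second moment bound over the unitary group (integration by parts)
-/

set_option autoImplicit false

open scoped BigOperators Matrix
open MeasureTheory

noncomputable section

namespace Pool.Agent.H299_Opp.HAAR

open scoped Matrix.Norms.Frobenius

/-- complex `n × n` matrices -/
abbrev Mt (n : ℕ) : Type := Matrix (Fin n) (Fin n) ℂ

/-- the unitary group -/
abbrev UN (n : ℕ) : Type := Matrix.unitaryGroup (Fin n) ℂ

variable {n : ℕ}

/-! ## Haar measure -/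

instance measUN (n : ℕ) : MeasurableSpace (UN n) := borel _

instance borelUN (n : ℕ) : BorelSpace (UN n) := ⟨rfl⟩

instance compactUN (n : ℕ) : CompactSpace (UN n) := by
  have hcl : IsClosed ((Matrix.unitaryGroup (Fin n) ℂ : Set (Matrix (Fin n) (Fin n) ℂ))) := by
    have : (Matrix.unitaryGroup (Fin n) ℂ : Set (Matrix (Fin n) (Fin n) ℂ)) =
        {A | A * star A = 1} := by
      ext A
      exact Matrix.mem_unitaryGroup_iff
    rw [this]
    exact isClosed_eq (continuous_id.mul continuous_star) continuous_const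
  have hsub : (Matrix.unitaryGroup (Fin n) ℂ : Set (Matrix (Fin n) (Fin n) ℂ)) ⊆
      Set.pi Set.univ (fun _ : Fin n => Set.pi Set.univ
        (fun _ : Fin n => Metric.closedBall (0 : ℂ) 1)) := by
    intro A hA i _ j _
    rw [mem_closedBall_zero_iff]
    exact entry_norm_bound_of_unitary hA i j
  have hc : IsCompact (Set.pi Set.univ
      (fun _ : Fin n => Set.pi Set.univ (fun _ : Fin n => Metric.closedBall (0 : ℂ) 1))) :=
    isCompact_univ_pi fun _ => isCompact_univ_pi fun _ => isCompact_closedBall _ _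
  exact isCompact_iff_compactSpace.mp (hc.of_isClosed_subset hcl hsub)

/-- The Haar probability measure of `U(n)`. -/
def mu (n : ℕ) : Measure (UN n) := Measure.haarMeasure ⊤

instance probMu (n : ℕ) : IsProbabilityMeasure (mu n) := by
  refine ⟨?_⟩
  have := Measure.haarMeasure_self (K₀ := (⊤ : TopologicalSpace.PositiveCompacts (UN n)))
  simpa [mu] using this

instance haarMu (n : ℕ) : (mu n).IsHaarMeasure := by
  unfold mu
  infer_instance

/-! ## Hilbert-Schmidt norm -/

theorem norm_sq (M : Mt n) : ‖M‖ ^ 2 = hs2 M := by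
  rw [Matrix.frobenius_norm_def, ← Real.sqrt_eq_rpow, Real.sq_sqrt]
  · simp [hs2]
  · positivity

theorem hs2_nonneg (M : Mt n) : 0 ≤ hs2 M := by
  unfold hs2; positivity

theorem norm_le_one (M : Mt n) : ‖M‖ ≤ 1 ↔ hs2 M ≤ 1 := by
  rw [← norm_sq]
  constructor
  · intro h; nlinarith [norm_nonneg M]
  · intro h; nlinarith [norm_nonneg M]

theorem hs2_eq (A : Mt n) : ((hs2 A : ℝ) : ℂ) = (Aᴴ * A).trace := by
  simp only [hs2, Matrix.trace, Matrix.diag, Matrix.mul_apply, Matrix.conjTranspose_apply]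
  push_cast
  rw [Finset.sum_comm]
  refine Finset.sum_congr rfl fun i _ => Finset.sum_congr rfl fun j _ => ?_
  rw [← Complex.conj_mul']
  rfl

theorem hs2_mul_left (U A : Mt n) (hU : U ∈ Matrix.unitaryGroup (Fin n) ℂ) :
    hs2 (U * A) = hs2 A := by
  have h : ((hs2 (U * A) : ℝ) : ℂ) = ((hs2 A : ℝ) : ℂ) := by
    rw [hs2_eq, hs2_eq, Matrix.conjTranspose_mul, Matrix.mul_assoc, ← Matrix.mul_assoc Uᴴ U A,
      show Uᴴ * U = 1 from Matrix.mem_unitaryGroup_iff'.1 hU, one_mul]
  exact_mod_cast h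

theorem norm_mul_left (U A : Mt n) (hU : U ∈ Matrix.unitaryGroup (Fin n) ℂ) :
    ‖U * A‖ = ‖A‖ := by
  have h := hs2_mul_left U A hU
  rw [← norm_sq, ← norm_sq] at h
  exact (pow_left_inj₀ (norm_nonneg _) (norm_nonneg _) two_ne_zero).1 h

theorem star_mem {U : Mt n} (hU : U ∈ Matrix.unitaryGroup (Fin n) ℂ) :
    Uᴴ ∈ Matrix.unitaryGroup (Fin n) ℂ := by
  have := Unitary.star_mem (U := U) (R := Mt n) hU
  exact this

theorem norm_mul_right (U A : Mt n) (hU : U ∈ Matrix.unitaryGroup (Fin n) ℂ) :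
    ‖A * U‖ = ‖A‖ := by
  have h1 : ‖(A * U)ᴴ‖ = ‖A * U‖ := Matrix.frobenius_norm_conjTranspose _
  rw [← h1, Matrix.conjTranspose_mul, norm_mul_left _ _ (star_mem hU),
    Matrix.frobenius_norm_conjTranspose]

theorem norm_trace_mul_le (A B : Mt n) : ‖(A * B).trace‖ ≤ ‖A‖ * ‖B‖ := by
  have h1 : ‖(A * B).trace‖ ≤ ∑ p : Fin n × Fin n, ‖A p.1 p.2‖ * ‖B p.2 p.1‖ := by
    rw [Matrix.trace, Fintype.sum_prod_type]
    refine (norm_sum_le _ _).trans (Finset.sum_le_sum fun i _ => ?_)
    rw [Matrix.diag, Matrix.mul_apply]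
    refine (norm_sum_le _ _).trans (Finset.sum_le_sum fun j _ => ?_)
    rw [norm_mul]
  have h2 := Finset.sum_mul_sq_le_sq_mul_sq (Finset.univ : Finset (Fin n × Fin n))
    (fun p => ‖A p.1 p.2‖) (fun p => ‖B p.2 p.1‖)
  have h3 : ∑ p : Fin n × Fin n, ‖A p.1 p.2‖ ^ 2 = ‖A‖ ^ 2 := by
    rw [norm_sq, hs2, Fintype.sum_prod_type]
  have h4 : ∑ p : Fin n × Fin n, ‖B p.2 p.1‖ ^ 2 = ‖B‖ ^ 2 := by
    rw [norm_sq, hs2, Fintype.sum_prod_type, Finset.sum_comm]
  rw [h3, h4, ← mul_pow] at h2
  refine h1.trans ?_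
  exact (pow_le_pow_iff_left₀ (Finset.sum_nonneg fun p _ => by positivity) (by positivity)
    two_ne_zero).1 h2

/-! ## Derivatives of words -/

/-- a letter with `u_t` replaced by `V` -/
def lt (u : ℕ → Mt n) (t : ℕ) (V : Mt n) (p : ℕ × Bool) : Mt n :=
  if p.2 then (Function.update u t V p.1)ᴴ else Function.update u t V p.1

/-- a word with `u_t` replaced by `V` -/
def ev (u : ℕ → Mt n) (t : ℕ) (V : Mt n) (w : List (ℕ × Bool)) : Mt n :=
  evw (Function.update u t V) w

theorem ev_nil (u : ℕ → Mt n) (t : ℕ) (V : Mt n) : ev u t V [] = 1 := rfl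

theorem ev_cons (u : ℕ → Mt n) (t : ℕ) (V : Mt n) (p : ℕ × Bool) (w : List (ℕ × Bool)) :
    ev u t V (p :: w) = lt u t V p * ev u t V w := rfl

/-- derivative of a letter -/
def dl (t : ℕ) (V K : Mt n) (p : ℕ × Bool) : Mt n :=
  if p.1 = t then (if p.2 then -(Vᴴ * K) else K * V) else 0

/-- derivative of a word -/
def dv (u : ℕ → Mt n) (t : ℕ) (V K : Mt n) : List (ℕ × Bool) → Mt n
  | [] => 0
  | p :: w => dl t V K p * ev u t V w + lt u t V p * dv u t V K w

theorem hasDeriv_lt (u : ℕ → Mt n) (t : ℕ) (γ : ℝ → Mt n) (θ : ℝ) (K : Mt n) (hK : Kᴴ = -K)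
    (hγ : HasDerivAt γ (K * γ θ) θ) (p : ℕ × Bool) :
    HasDerivAt (fun s => lt u t (γ s) p) (dl t (γ θ) K p) θ := by
  obtain ⟨j, b⟩ := p
  by_cases hj : j = t
  · subst hj
    cases b with
    | true =>
      simp only [lt, dl, if_true, Function.update_self]
      have h := hγ.star
      simp only [Matrix.star_eq_conjTranspose, Matrix.conjTranspose_mul, hK, Matrix.mul_neg] at h
      exact h
    | false =>
      simpa only [lt, dl, if_true, Function.update_self, Bool.false_eq_true, if_false] using hγ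
  · simp only [lt, dl, hj, if_false, Function.update_of_ne (show j ≠ t from hj)]
    exact hasDerivAt_const _ _

theorem hasDeriv_ev (u : ℕ → Mt n) (t : ℕ) (γ : ℝ → Mt n) (θ : ℝ) (K : Mt n) (hK : Kᴴ = -K)
    (hγ : HasDerivAt γ (K * γ θ) θ) (w : List (ℕ × Bool)) :
    HasDerivAt (fun s => ev u t (γ s) w) (dv u t (γ θ) K w) θ := by
  induction w with
  | nil => exact hasDerivAt_const _ _
  | cons p w ih => exact (hasDeriv_lt u t γ θ K hK hγ p).mul ih

/-- entrywise conjugation as a real linear map -/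
def cj : Mt n →ₗ[ℝ] Mt n where
  toFun M := M.map star
  map_add' M N := by ext i j; simp
  map_smul' c M := by ext i j; simp

/-- trace as a real linear map -/
def trr : Mt n →ₗ[ℝ] ℂ where
  toFun M := M.trace
  map_add' _ _ := Matrix.trace_add _ _
  map_smul' _ _ := Matrix.trace_smul _ _

theorem hasDeriv_lin {E : Type} [NormedAddCommGroup E] [NormedSpace ℝ E] (L : Mt n →ₗ[ℝ] E)
    (γ : ℝ → Mt n) (γ' : Mt n) (θ : ℝ) (hγ : HasDerivAt γ γ' θ) :
    HasDerivAt (fun s => L (γ s)) (L γ') θ :=
  (LinearMap.toContinuousLinearMap L).hasFDerivAt.comp_hasDerivAt θ hγ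

theorem hasDeriv_cj (γ : ℝ → Mt n) (θ : ℝ) (K : Mt n) (hK : Kᴴ = -K)
    (hγ : HasDerivAt γ (K * γ θ) θ) :
    HasDerivAt (fun s => (γ s).map star) (-(Kᵀ * (γ θ).map star)) θ := by
  have h := hasDeriv_lin cj γ _ θ hγ
  have e : cj (K * γ θ) = -(Kᵀ * (γ θ).map star) := by
    change (K * γ θ).map star = _
    have h1 : K.map star = -Kᵀ := by
      have : (Kᴴ)ᵀ = (-K)ᵀ := by rw [hK]
      rw [Matrix.transpose_neg] at this
      rw [← this]
      rfl
    rw [← Matrix.neg_mul, ← h1]
    ext i j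
    simp [Matrix.mul_apply]
  rw [e] at h
  exact h

/-- the trace functional -/
def fc (X Z : Mt n) (u : ℕ → Mt n) (t : ℕ) (w : List (ℕ × Bool)) (V : Mt n) : ℂ :=
  (X * ev u t V w * Z * V.map star).trace

/-- derivative of the trace functional -/
def dfc (X Z : Mt n) (u : ℕ → Mt n) (t : ℕ) (w : List (ℕ × Bool)) (V K : Mt n) : ℂ :=
  (X * dv u t V K w * Z * V.map star).trace - (X * ev u t V w * Z * (Kᵀ * V.map star)).trace

theorem hasDeriv_fc (X Z : Mt n) (u : ℕ → Mt n) (t : ℕ) (w : List (ℕ × Bool)) (γ : ℝ → Mt n)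
    (θ : ℝ) (K : Mt n) (hK : Kᴴ = -K) (hγ : HasDerivAt γ (K * γ θ) θ) :
    HasDerivAt (fun s => fc X Z u t w (γ s)) (dfc X Z u t w (γ θ) K) θ := by
  have h1 := (((hasDeriv_ev u t γ θ K hK hγ w).const_mul X).mul_const Z).mul
    (hasDeriv_cj γ θ K hK hγ)
  have h2 := hasDeriv_lin trr _ _ θ h1
  refine h2.congr_deriv ?_
  change Matrix.trace (X * dv u t (γ θ) K w * Z * (γ θ).map star +
      X * ev u t (γ θ) w * Z * -(Kᵀ * (γ θ).map star)) = dfc X Z u t w (γ θ) K
  rw [dfc, Matrix.trace_add, Matrix.mul_neg, Matrix.trace_neg, sub_eq_add_neg]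

/-! ## Continuity -/

theorem continuous_lt (u : ℕ → Mt n) (t : ℕ) (p : ℕ × Bool) :
    Continuous fun V : Mt n => lt u t V p := by
  obtain ⟨j, b⟩ := p
  have h : Continuous fun V : Mt n => Function.update u t V j := by
    by_cases hj : j = t
    · subst hj
      simp only [Function.update_self]
      exact continuous_id
    · simpa [Function.update_of_ne hj] using continuous_const
  cases b
  · simpa [lt] using h
  · simp only [lt, if_true]
    exact h.star

theorem continuous_ev (u : ℕ → Mt n) (t : ℕ) (w : List (ℕ × Bool)) :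
    Continuous fun V : Mt n => ev u t V w := by
  induction w with
  | nil => exact continuous_const
  | cons p w ih => exact (continuous_lt u t p).mul ih

theorem continuous_dl (t : ℕ) (K : Mt n) (p : ℕ × Bool) :
    Continuous fun V : Mt n => dl t V K p := by
  unfold dl
  split_ifs
  · exact (continuous_star.mul continuous_const).neg
  · exact continuous_const.mul continuous_id
  · exact continuous_const

theorem continuous_dv (u : ℕ → Mt n) (t : ℕ) (K : Mt n) (w : List (ℕ × Bool)) :
    Continuous fun V : Mt n => dv u t V K w := by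
  induction w with
  | nil => exact continuous_const
  | cons p w ih =>
    exact ((continuous_dl t K p).mul (continuous_ev u t w)).add ((continuous_lt u t p).mul ih)

theorem continuous_cj : Continuous fun V : Mt n => V.map star :=
  (LinearMap.toContinuousLinearMap (cj (n := n))).continuous

theorem continuous_tr : Continuous fun V : Mt n => V.trace :=
  (LinearMap.toContinuousLinearMap (trr (n := n))).continuous

theorem continuous_fc (X Z : Mt n) (u : ℕ → Mt n) (t : ℕ) (w : List (ℕ × Bool)) :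
    Continuous fun V : Mt n => fc X Z u t w V :=
  continuous_tr.comp (((continuous_const.mul (continuous_ev u t w)).mul continuous_const).mul
    continuous_cj)

theorem continuous_dfc (X Z : Mt n) (u : ℕ → Mt n) (t : ℕ) (w : List (ℕ × Bool)) (K : Mt n) :
    Continuous fun V : Mt n => dfc X Z u t w V K :=
  (continuous_tr.comp (((continuous_const.mul (continuous_dv u t K w)).mul continuous_const).mul
    continuous_cj)).sub
  (continuous_tr.comp (((continuous_const.mul (continuous_ev u t w)).mul continuous_const).mul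
    (continuous_const.mul continuous_cj)))

/-! ## Integration by parts -/

theorem integrable_cont {E : Type} [NormedAddCommGroup E] {F : Mt n → E} (hF : Continuous F) :
    Integrable (fun V : UN n => F (V : Mt n)) (mu n) := by
  have h : Continuous fun V : UN n => F (V : Mt n) := hF.comp continuous_subtype_val
  exact h.integrable_of_hasCompactSupport (HasCompactSupport.of_compactSpace _)

/-- the one parameter group generated by a skew-adjoint matrix -/
def grp (K : Mt n) (hK : Kᴴ = -K) (s : ℝ) : UN n :=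
  ⟨NormedSpace.exp (s • K), NormedSpace.exp_mem_unitary_of_mem_skewAdjoint (by
    rw [skewAdjoint.mem_iff, star_smul, Matrix.star_eq_conjTranspose, hK, smul_neg, star_trivial])⟩

theorem ibp (K : Mt n) (hK : Kᴴ = -K) (F F' : Mt n → ℂ) (hF : Continuous F)
    (hF' : Continuous F')
    (hd : ∀ (γ : ℝ → Mt n) (θ : ℝ), HasDerivAt γ (K * γ θ) θ →
      HasDerivAt (fun s => F (γ s)) (F' (γ θ)) θ) :
    ∫ V : UN n, F' (V : Mt n) ∂(mu n) = 0 := by
  obtain ⟨C, hC⟩ : ∃ C : ℝ, ∀ V : UN n, ‖F' (V : Mt n)‖ ≤ C := by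
    have hc : Continuous fun V : UN n => F' (V : Mt n) := hF'.comp continuous_subtype_val
    obtain ⟨C, hC⟩ := isCompact_univ.exists_bound_of_continuousOn hc.continuousOn
    exact ⟨C, fun V => hC V (Set.mem_univ _)⟩
  have h := hasDerivAt_integral_of_dominated_loc_of_deriv_le (μ := mu n) (x₀ := (0 : ℝ))
    (s := Set.univ) (F := fun (s : ℝ) (V : UN n) => F ((grp K hK s * V : UN n) : Mt n))
    (F' := fun (s : ℝ) (V : UN n) => F' ((grp K hK s * V : UN n) : Mt n)) (bound := fun _ => C)
    Filter.univ_mem ?_ ?_ ?_ ?_ ?_ ?_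
  · have h2 : (fun s : ℝ => ∫ V : UN n, F ((grp K hK s * V : UN n) : Mt n) ∂(mu n)) =
        fun _ => ∫ V : UN n, F (V : Mt n) ∂(mu n) := by
      funext s
      exact integral_mul_left_eq_self (μ := mu n) (fun V : UN n => F (V : Mt n)) (grp K hK s)
    have h3 := h.2
    rw [h2] at h3
    have h4 := h3.unique (hasDerivAt_const _ _)
    have h5 : ∀ V : UN n, grp K hK 0 * V = V := by
      intro V
      have : grp K hK 0 = 1 := by
        apply Subtype.ext
        simp [grp]
      rw [this, one_mul]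
    simpa only [h5] using h4
  · refine Filter.Eventually.of_forall fun s => ?_
    exact (integrable_cont (F := fun V : Mt n => F ((grp K hK s : Mt n) * V))
      (hF.comp (continuous_const.mul continuous_id))).aestronglyMeasurable
  · exact (integrable_cont (F := fun V : Mt n => F ((grp K hK 0 : Mt n) * V))
      (hF.comp (continuous_const.mul continuous_id)))
  · exact (integrable_cont (F := fun V : Mt n => F' ((grp K hK 0 : Mt n) * V))
      (hF'.comp (continuous_const.mul continuous_id))).aestronglyMeasurable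
  · exact Filter.Eventually.of_forall fun V s _ => hC _
  · exact integrable_const _
  · refine Filter.Eventually.of_forall fun V s _ => ?_
    refine hd (fun s => ((grp K hK s : UN n) : Mt n) * (V : Mt n)) s ?_
    have h1 : HasDerivAt (fun s : ℝ => NormedSpace.exp (s • K)) (K * NormedSpace.exp (s • K)) s :=
      hasDerivAt_exp_smul_const' K s
    have h2 := h1.mul_const (V : Mt n)
    rw [Matrix.mul_assoc] at h2
    exact h2

/-! ## Linearity in the direction -/

theorem dl_add (t : ℕ) (V K L : Mt n) (p : ℕ × Bool) :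
    dl t V (K + L) p = dl t V K p + dl t V L p := by
  unfold dl
  split_ifs
  · rw [mul_add, neg_add]
  · rw [add_mul]
  · simp

theorem dl_smul (t : ℕ) (V K : Mt n) (c : ℂ) (p : ℕ × Bool) :
    dl t V (c • K) p = c • dl t V K p := by
  unfold dl
  split_ifs
  · rw [mul_smul_comm, smul_neg]
  · rw [smul_mul_assoc]
  · simp

theorem dv_add (u : ℕ → Mt n) (t : ℕ) (V K L : Mt n) (w : List (ℕ × Bool)) :
    dv u t V (K + L) w = dv u t V K w + dv u t V L w := by
  induction w with
  | nil => simp [dv]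
  | cons p w ih =>
    simp only [dv, ih, dl_add, add_mul, mul_add]
    abel

theorem dv_smul (u : ℕ → Mt n) (t : ℕ) (V K : Mt n) (c : ℂ) (w : List (ℕ × Bool)) :
    dv u t V (c • K) w = c • dv u t V K w := by
  induction w with
  | nil => simp [dv]
  | cons p w ih =>
    simp only [dv, ih, dl_smul, smul_add, smul_mul_assoc, mul_smul_comm]

theorem dfc_add (X Z : Mt n) (u : ℕ → Mt n) (t : ℕ) (w : List (ℕ × Bool)) (V K L : Mt n) :
    dfc X Z u t w V (K + L) = dfc X Z u t w V K + dfc X Z u t w V L := by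
  simp only [dfc, dv_add, Matrix.transpose_add, add_mul, mul_add, Matrix.trace_add]
  ring

theorem dfc_smul (X Z : Mt n) (u : ℕ → Mt n) (t : ℕ) (w : List (ℕ × Bool)) (V K : Mt n)
    (c : ℂ) : dfc X Z u t w V (c • K) = c * dfc X Z u t w V K := by
  simp only [dfc, dv_smul, Matrix.transpose_smul, smul_mul_assoc, mul_smul_comm,
    Matrix.trace_smul, smul_eq_mul]
  ring

theorem dfc_neg (X Z : Mt n) (u : ℕ → Mt n) (t : ℕ) (w : List (ℕ × Bool)) (V K : Mt n) :
    dfc X Z u t w V (-K) = - dfc X Z u t w V K := by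
  have := dfc_smul X Z u t w V K (-1)
  simpa using this

/-- the integrand of the Schwinger-Dyson equation -/
def ig (X Y e : Mt n) (u : ℕ → Mt n) (t : ℕ) (w : List (ℕ × Bool)) (K V : Mt n) : ℂ :=
  dfc X (Y * e) u t w V K * star (fc X Y u t w V) -
    fc X (Y * e) u t w V * star (dfc X Y u t w V Kᴴ)

theorem continuous_ig (X Y e : Mt n) (u : ℕ → Mt n) (t : ℕ) (w : List (ℕ × Bool)) (K : Mt n) :
    Continuous fun V : Mt n => ig X Y e u t w K V :=
  ((continuous_dfc X (Y * e) u t w K).mul (continuous_fc X Y u t w).star).sub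
    ((continuous_fc X (Y * e) u t w).mul (continuous_dfc X Y u t w Kᴴ).star)

theorem sd_skew (X Y e : Mt n) (u : ℕ → Mt n) (t : ℕ) (w : List (ℕ × Bool)) (K : Mt n)
    (hK : Kᴴ = -K) : ∫ V : UN n, ig X Y e u t w K V ∂(mu n) = 0 := by
  refine ibp K hK (fun V => fc X (Y * e) u t w V * star (fc X Y u t w V)) _
    ((continuous_fc X (Y * e) u t w).mul (continuous_fc X Y u t w).star)
    (continuous_ig X Y e u t w K) ?_
  intro γ θ hγ
  have h := (hasDeriv_fc X (Y * e) u t w γ θ K hK hγ).mul
    (hasDeriv_fc X Y u t w γ θ K hK hγ).star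
  refine h.congr_deriv ?_
  rw [ig, hK, dfc_neg, star_neg]
  ring

theorem sd (X Y e : Mt n) (u : ℕ → Mt n) (t : ℕ) (w : List (ℕ × Bool)) (K : Mt n) :
    ∫ V : UN n, ig X Y e u t w K V ∂(mu n) = 0 := by
  obtain ⟨A, hA⟩ : ∃ A : Mt n, A = (1 / 2 : ℂ) • (K - Kᴴ) := ⟨_, rfl⟩
  obtain ⟨B, hB⟩ : ∃ B : Mt n, B = (-Complex.I / 2) • (K + Kᴴ) := ⟨_, rfl⟩
  have hAs : Aᴴ = -A := by
    rw [hA, Matrix.conjTranspose_smul, Matrix.conjTranspose_sub, Matrix.conjTranspose_conjTranspose,
      ← smul_neg, neg_sub]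
    congr 1
    simp
  have hBs : Bᴴ = -B := by
    rw [hB, Matrix.conjTranspose_smul, Matrix.conjTranspose_add, Matrix.conjTranspose_conjTranspose,
      ← neg_smul, add_comm]
    congr 1
    simp
    ring
  have hKAB : K = A + Complex.I • B := by
    rw [hA, hB, smul_smul]
    have : Complex.I * (-Complex.I / 2) = 1 / 2 := by
      have := Complex.I_mul_I
      linear_combination (-1 / 2) * this
    rw [this, ← smul_add, sub_add_add_cancel, ← two_smul ℂ K, smul_smul]
    norm_num
  have hKs : Kᴴ = -A + Complex.I • B := by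
    conv_lhs => rw [hKAB]
    rw [Matrix.conjTranspose_add, Matrix.conjTranspose_smul, hAs, hBs]
    simp
  have hpt : ∀ V : Mt n, ig X Y e u t w K V =
      ig X Y e u t w A V + Complex.I * ig X Y e u t w B V := by
    intro V
    have h1 : dfc X (Y * e) u t w V K = dfc X (Y * e) u t w V A +
        Complex.I * dfc X (Y * e) u t w V B := by
      conv_lhs => rw [hKAB]
      rw [dfc_add, dfc_smul]
    have h2 : dfc X Y u t w V Kᴴ = - dfc X Y u t w V A + Complex.I * dfc X Y u t w V B := by
      rw [hKs, dfc_add, dfc_smul, dfc_neg]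
    have h3 : star Complex.I = -Complex.I := Complex.conj_I
    rw [ig, ig, ig, h1, h2, hAs, hBs, dfc_neg, dfc_neg, star_add, star_mul', star_neg, star_neg, h3]
    ring
  have hi : ∀ K : Mt n, Integrable (fun V : UN n => ig X Y e u t w K (V : Mt n)) (mu n) :=
    fun K => integrable_cont (continuous_ig X Y e u t w K)
  simp only [hpt]
  rw [integral_add (hi A) ((hi B).const_mul _), integral_const_mul, sd_skew _ _ _ _ _ _ A hAs,
    sd_skew _ _ _ _ _ _ B hBs]
  simp

/-! ## The structure of the derivative -/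

theorem neg_mem {U : Mt n} (hU : U ∈ Matrix.unitaryGroup (Fin n) ℂ) :
    -U ∈ Matrix.unitaryGroup (Fin n) ℂ := by
  rw [Matrix.mem_unitaryGroup_iff] at hU ⊢
  rw [star_neg, neg_mul_neg, hU]

theorem bar_mem {U : Mt n} (hU : U ∈ Matrix.unitaryGroup (Fin n) ℂ) :
    U.map star ∈ Matrix.unitaryGroup (Fin n) ℂ := by
  have h := Matrix.mem_unitaryGroup_iff.1 hU
  rw [Matrix.mem_unitaryGroup_iff]
  have h2 : (U * star U).map star = (1 : Mt n).map star := by rw [h]
  have h3 : (1 : Mt n).map star = 1 := Matrix.map_one _ (star_zero _) (star_one _)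
  rw [h3] at h2
  rw [← h2]
  ext i j
  simp [Matrix.mul_apply, Matrix.star_apply]

theorem update_mem {u : ℕ → Mt n} (hu : ∀ j, u j ∈ Matrix.unitaryGroup (Fin n) ℂ) (t : ℕ)
    {V : Mt n} (hV : V ∈ Matrix.unitaryGroup (Fin n) ℂ) (j : ℕ) :
    Function.update u t V j ∈ Matrix.unitaryGroup (Fin n) ℂ := by
  by_cases hj : j = t
  · subst hj; simpa using hV
  · simpa [Function.update_of_ne hj] using hu j

theorem lt_mem {u : ℕ → Mt n} (hu : ∀ j, u j ∈ Matrix.unitaryGroup (Fin n) ℂ) (t : ℕ)
    {V : Mt n} (hV : V ∈ Matrix.unitaryGroup (Fin n) ℂ) (p : ℕ × Bool) :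
    lt u t V p ∈ Matrix.unitaryGroup (Fin n) ℂ := by
  unfold lt
  split_ifs
  · exact star_mem (update_mem hu t hV _)
  · exact update_mem hu t hV _

theorem ev_mem {u : ℕ → Mt n} (hu : ∀ j, u j ∈ Matrix.unitaryGroup (Fin n) ℂ) (t : ℕ)
    {V : Mt n} (hV : V ∈ Matrix.unitaryGroup (Fin n) ℂ) (w : List (ℕ × Bool)) :
    ev u t V w ∈ Matrix.unitaryGroup (Fin n) ℂ := by
  induction w with
  | nil => exact one_mem _
  | cons p w ih => exact mul_mem (lt_mem hu t hV p) ih

theorem dv_struct {u : ℕ → Mt n} (hu : ∀ j, u j ∈ Matrix.unitaryGroup (Fin n) ℂ) (t : ℕ)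
    {V : Mt n} (hV : V ∈ Matrix.unitaryGroup (Fin n) ℂ) (w : List (ℕ × Bool)) :
    ∃ l : List (Mt n × Mt n), l.length ≤ w.length ∧
      (∀ q ∈ l, q.1 ∈ Matrix.unitaryGroup (Fin n) ℂ ∧ q.2 ∈ Matrix.unitaryGroup (Fin n) ℂ) ∧
      ∀ K, dv u t V K w = (l.map fun q => q.1 * K * q.2).sum := by
  induction w with
  | nil => exact ⟨[], le_rfl, by simp, fun K => rfl⟩
  | cons p w ih =>
    obtain ⟨l, hl, hm, hs⟩ := ih
    have hm' : ∀ q ∈ l.map (fun q => (lt u t V p * q.1, q.2)),
        q.1 ∈ Matrix.unitaryGroup (Fin n) ℂ ∧ q.2 ∈ Matrix.unitaryGroup (Fin n) ℂ := by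
      intro q hq
      rw [List.mem_map] at hq
      obtain ⟨q', hq', rfl⟩ := hq
      exact ⟨mul_mem (lt_mem hu t hV p) (hm q' hq').1, (hm q' hq').2⟩
    have hs' : ∀ K, lt u t V p * dv u t V K w =
        ((l.map (fun q => (lt u t V p * q.1, q.2))).map fun q => q.1 * K * q.2).sum := by
      intro K
      rw [hs, List.map_map, ← List.sum_map_mul_left]
      congr 1
      refine List.map_congr_left fun q _ => ?_
      simp only [Function.comp, Matrix.mul_assoc]
    by_cases hj : p.1 = t
    · by_cases hb : p.2 = true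
      · refine ⟨(-Vᴴ, ev u t V w) :: l.map (fun q => (lt u t V p * q.1, q.2)), by simpa using hl,
          ?_, fun K => ?_⟩
        · intro q hq
          rcases List.mem_cons.1 hq with rfl | hq
          · exact ⟨neg_mem (star_mem hV), ev_mem hu t hV w⟩
          · exact hm' q hq
        · rw [dv, hs' K, dl, if_pos hj, if_pos hb, List.map_cons, List.sum_cons]
          simp only [Matrix.neg_mul]
      · refine ⟨(1, V * ev u t V w) :: l.map (fun q => (lt u t V p * q.1, q.2)),
          by simpa using hl, ?_, fun K => ?_⟩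
        · intro q hq
          rcases List.mem_cons.1 hq with rfl | hq
          · exact ⟨one_mem _, mul_mem hV (ev_mem hu t hV w)⟩
          · exact hm' q hq
        · rw [dv, hs' K, dl, if_pos hj, if_neg hb, List.map_cons, List.sum_cons]
          simp only [one_mul, Matrix.mul_assoc]
    · refine ⟨l.map (fun q => (lt u t V p * q.1, q.2)), by simp; omega, hm', fun K => ?_⟩
      rw [dv, hs' K, dl, if_neg hj, zero_mul, zero_add]

/-! ## The sums over matrix units -/

/-- matrix units -/
abbrev E (a b : Fin n) : Mt n := Matrix.single a b 1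

theorem trace_mul_E (M : Mt n) (a b : Fin n) : (M * E a b).trace = M b a := by
  rw [E, Matrix.trace_mul_single]; simp

theorem E_apply (A B : Mt n) (a b i j : Fin n) : (A * E a b * B) i j = A i a * B b j := by
  rw [E, Matrix.mul_assoc, Matrix.mul_apply]
  rw [Finset.sum_eq_single a]
  · simp [Matrix.single_mul_apply_same]
  · intro x _ hx
    simp [Matrix.single_mul_apply_of_ne _ _ _ _ _ hx]
  · intro h; exact absurd (Finset.mem_univ a) h

/-- first sum -/
theorem sum1 (A B : Mt n) : ∑ a : Fin n, ∑ b : Fin n, (A * E a b * B * E a b).trace =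
    (A * Bᵀ).trace := by
  simp only [trace_mul_E, E_apply]
  rw [Matrix.trace, Finset.sum_comm]
  refine Finset.sum_congr rfl fun b _ => ?_
  rw [Matrix.diag, Matrix.mul_apply]
  rfl

/-- second sum -/
theorem sum2 (N M : Mt n) : ∑ a : Fin n, ∑ b : Fin n, N b a * star (M a b) =
    (N * M.map star).trace := by
  rw [Matrix.trace, Finset.sum_comm]
  refine Finset.sum_congr rfl fun b _ => ?_
  rw [Matrix.diag, Matrix.mul_apply]
  rfl

theorem norm_bar (M : Mt n) : ‖M.map star‖ = ‖M‖ :=
  Matrix.frobenius_norm_map_eq _ _ fun a => norm_star a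

theorem norm_list_sum_le {α : Type} (l : List α) (f : α → ℂ) (h : ∀ q ∈ l, ‖f q‖ ≤ 1) :
    ‖(l.map f).sum‖ ≤ l.length := by
  induction l with
  | nil => simp
  | cons q l ih =>
    rw [List.map_cons, List.sum_cons, List.length_cons]
    have h1 := h q List.mem_cons_self
    have h2 := ih fun q' hq' => h q' (List.mem_cons_of_mem _ hq')
    push_cast
    linarith [norm_add_le (f q) (l.map f).sum]

theorem trace_list_sum {α : Type} (l : List α) (f : α → Mt n) :
    (l.map f).sum.trace = (l.map fun q => (f q).trace).sum := by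
  induction l with
  | nil => simp
  | cons q l ih => simp [ih]

theorem trace_mul_list_sum {α : Type} (l : List α) (f : α → Mt n) (X Z W : Mt n) :
    (X * (l.map f).sum * Z * W).trace = (l.map fun q => (X * f q * Z * W).trace).sum := by
  induction l with
  | nil => simp
  | cons q l ih =>
    rw [List.map_cons, List.sum_cons, List.map_cons, List.sum_cons, ← ih]
    simp only [mul_add, add_mul, Matrix.trace_add]

theorem mul_star_list_sum {α : Type} (l : List α) (f : α → ℂ) (c : ℂ) :
    c * star (l.map f).sum = (l.map fun q => c * star (f q)).sum := by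
  induction l with
  | nil => simp
  | cons q l ih =>
    rw [List.map_cons, List.sum_cons, List.map_cons, List.sum_cons, ← ih, star_add, mul_add]

theorem sum_list_sum {α : Type} (l : List α) (f : Fin n → Fin n → α → ℂ) :
    ∑ a, ∑ b, (l.map (f a b)).sum = (l.map fun q => ∑ a, ∑ b, f a b q).sum := by
  induction l with
  | nil => simp
  | cons q l ih => simp only [List.map_cons, List.sum_cons, Finset.sum_add_distrib, ih]

section main

variable (X Y : Mt n) (hX : ‖X‖ ≤ 1) (hY : ‖Y‖ ≤ 1) (u : ℕ → Mt n)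
  (hu : ∀ j, u j ∈ Matrix.unitaryGroup (Fin n) ℂ) (t : ℕ) (w : List (ℕ × Bool))
  (V : Mt n) (hV : V ∈ Matrix.unitaryGroup (Fin n) ℂ)

include hX hY hu hV in
theorem norm_fc_le : ‖fc X Y u t w V‖ ≤ 1 := by
  rw [fc, Matrix.mul_assoc]
  refine (norm_trace_mul_le _ _).trans ?_
  rw [norm_mul_right _ _ (ev_mem hu t hV w), norm_mul_right _ _ (bar_mem hV)]
  exact mul_le_one₀ hX (norm_nonneg _) hY

include hX hY hu hV in
theorem norm_N_le : ‖V.map star * X * ev u t V w * Y‖ ≤ 1 := by
  refine (norm_mul_le _ _).trans ?_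
  rw [norm_mul_right _ _ (ev_mem hu t hV w), norm_mul_left _ _ (bar_mem hV)]
  exact mul_le_one₀ hX (norm_nonneg _) hY

include hX hY hu hV in
theorem bound1 : ‖∑ a, ∑ b, (X * dv u t V (E a b) w * (Y * E a b) * V.map star).trace‖ ≤
    w.length := by
  obtain ⟨l, hl, hm, hs⟩ := dv_struct hu t hV w
  have h1 : ∀ a b : Fin n, (X * dv u t V (E a b) w * (Y * E a b) * V.map star).trace =
      (l.map fun q => ((V.map star * X * q.1) * E a b * (q.2 * Y) * E a b).trace).sum := by
    intro a b
    rw [hs, trace_mul_list_sum]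
    congr 1
    refine List.map_congr_left fun q _ => ?_
    rw [Matrix.trace_mul_comm]
    simp only [Matrix.mul_assoc]
  simp only [h1]
  rw [sum_list_sum]
  refine (norm_list_sum_le _ _ fun q hq => ?_).trans (by exact_mod_cast hl)
  rw [sum1]
  refine (norm_trace_mul_le _ _).trans ?_
  rw [Matrix.frobenius_norm_transpose, norm_mul_right _ _ (hm q hq).1,
    norm_mul_left _ _ (bar_mem hV), norm_mul_left _ _ (hm q hq).2]
  exact mul_le_one₀ hX (norm_nonneg _) hY

include hX hY hu hV in
theorem bound2 : ‖∑ a, ∑ b, (V.map star * X * ev u t V w * Y) b a *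
    star ((X * dv u t V (E b a) w * Y * V.map star).trace)‖ ≤ w.length := by
  obtain ⟨l, hl, hm, hs⟩ := dv_struct hu t hV w
  have h1 : ∀ a b : Fin n, (V.map star * X * ev u t V w * Y) b a *
      star ((X * dv u t V (E b a) w * Y * V.map star).trace) =
      (l.map fun q => (V.map star * X * ev u t V w * Y) b a *
        star ((q.2 * (Y * V.map star * X) * q.1) a b)).sum := by
    intro a b
    rw [hs, trace_mul_list_sum, mul_star_list_sum]
    congr 1
    refine List.map_congr_left fun q _ => ?_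
    have h3 := trace_mul_E (q.2 * (Y * V.map star * X) * q.1) b a
    have h4 : X * (q.1 * E b a * q.2) * Y * V.map star =
        (X * q.1 * E b a) * (q.2 * Y * V.map star) := by
      simp only [Matrix.mul_assoc]
    have h5 : (X * (q.1 * E b a * q.2) * Y * V.map star).trace =
        (q.2 * (Y * V.map star * X) * q.1) a b := by
      rw [← h3, h4, Matrix.trace_mul_comm]
      simp only [Matrix.mul_assoc]
    rw [h5]
  simp only [h1]
  rw [sum_list_sum]
  refine (norm_list_sum_le _ _ fun q hq => ?_).trans (by exact_mod_cast hl)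
  rw [sum2]
  refine (norm_trace_mul_le _ _).trans ?_
  have h2 : ‖Y * V.map star * X‖ ≤ 1 := by
    refine (norm_mul_le _ _).trans ?_
    rw [norm_mul_right _ _ (bar_mem hV)]
    exact mul_le_one₀ hY (norm_nonneg _) hX
  rw [norm_bar, norm_mul_right _ _ (hm q hq).1, norm_mul_left _ _ (hm q hq).2]
  exact mul_le_one₀ (norm_N_le X Y hX hY u hu t w V hV) (norm_nonneg _) h2

theorem sum3 : ∑ a, ∑ b, (X * ev u t V w * (Y * E a b) * ((E a b)ᵀ * V.map star)).trace =
    n * fc X Y u t w V := by
  have h1 : ∀ a b : Fin n, (X * ev u t V w * (Y * E a b) * ((E a b)ᵀ * V.map star)).trace =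
      (V.map star * (X * ev u t V w * Y)) a a := by
    intro a b
    have h3 := trace_mul_E (V.map star * (X * ev u t V w * Y)) a a
    have h4 : X * ev u t V w * (Y * E a b) * ((E a b)ᵀ * V.map star) =
        (X * ev u t V w * Y * E a a) * V.map star := by
      rw [E, E, Matrix.transpose_single]
      have : Matrix.single a b (1 : ℂ) * Matrix.single b a 1 = Matrix.single a a 1 := by
        rw [Matrix.single_mul_single_same, one_mul]
      rw [← this]
      simp only [Matrix.mul_assoc]
    rw [← h3, h4, Matrix.trace_mul_comm]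
    simp only [Matrix.mul_assoc]
  simp only [h1, Finset.sum_const, Finset.card_univ, Fintype.card_fin, nsmul_eq_mul]
  rw [← Finset.mul_sum, fc, Matrix.trace_mul_comm]
  rfl

theorem sum4 : ∑ a, ∑ b, ig X Y (E a b) u t w (E a b) V =
    (∑ a, ∑ b, (X * dv u t V (E a b) w * (Y * E a b) * V.map star).trace) *
      star (fc X Y u t w V) - n * (fc X Y u t w V * star (fc X Y u t w V)) -
    ∑ a, ∑ b, (V.map star * X * ev u t V w * Y) b a *
      star ((X * dv u t V (E b a) w * Y * V.map star).trace) +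
    hs2 (V.map star * X * ev u t V w * Y) := by
  have h1 : ∀ a b : Fin n, fc X (Y * E a b) u t w V = (V.map star * X * ev u t V w * Y) b a := by
    intro a b
    have h3 := trace_mul_E (V.map star * X * ev u t V w * Y) a b
    rw [← h3, fc, Matrix.trace_mul_comm]
    simp only [Matrix.mul_assoc]
  have h2 : ∀ a b : Fin n, (X * ev u t V w * Y * (((E a b)ᴴ)ᵀ * V.map star)).trace =
      (V.map star * X * ev u t V w * Y) b a := by
    intro a b
    rw [← h1, fc]
    have : ((E a b)ᴴ)ᵀ = E a b := by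
      rw [E, Matrix.conjTranspose_single, Matrix.transpose_single, star_one]
    rw [this]
    simp only [Matrix.mul_assoc]
  have h3 : ∀ a b : Fin n, (E a b)ᴴ = E b a := by
    intro a b
    rw [E, Matrix.conjTranspose_single, star_one]
  have h4 : ((hs2 (V.map star * X * ev u t V w * Y) : ℝ) : ℂ) =
      ∑ a, ∑ b, (V.map star * X * ev u t V w * Y) b a *
        star ((V.map star * X * ev u t V w * Y) b a) := by
    rw [hs2]
    push_cast
    rw [Finset.sum_comm]
    refine Finset.sum_congr rfl fun a _ => Finset.sum_congr rfl fun b _ => ?_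
    rw [← Complex.mul_conj']
    rfl
  have h5 : ∀ a b : Fin n, ig X Y (E a b) u t w (E a b) V =
      (X * dv u t V (E a b) w * (Y * E a b) * V.map star).trace * star (fc X Y u t w V) -
      (X * ev u t V w * (Y * E a b) * ((E a b)ᵀ * V.map star)).trace * star (fc X Y u t w V) -
      (V.map star * X * ev u t V w * Y) b a *
        star ((X * dv u t V (E b a) w * Y * V.map star).trace) +
      (V.map star * X * ev u t V w * Y) b a *
        star ((V.map star * X * ev u t V w * Y) b a) := by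
    intro a b
    rw [ig, dfc, dfc, h1, h2, h3, star_sub]
    ring
  simp only [h5, Finset.sum_add_distrib, Finset.sum_sub_distrib, ← Finset.sum_mul]
  rw [sum3, h4]
  ring

end main

theorem second_moment (X Y : Mt n) (hX : ‖X‖ ≤ 1) (hY : ‖Y‖ ≤ 1) (u : ℕ → Mt n)
    (hu : ∀ j, u j ∈ Matrix.unitaryGroup (Fin n) ℂ) (t : ℕ) (w : List (ℕ × Bool)) :
    n * ∫ V : UN n, ‖fc X Y u t w V‖ ^ 2 ∂(mu n) ≤ 2 * w.length + 1 := by
  have hS : ∫ V : UN n, (∑ a, ∑ b, ig X Y (E a b) u t w (E a b) (V : Mt n)) ∂(mu n) = 0 := by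
    rw [integral_finsetSum]
    · refine Finset.sum_eq_zero fun a _ => ?_
      rw [integral_finsetSum]
      · exact Finset.sum_eq_zero fun b _ => sd X Y (E a b) u t w (E a b)
      · exact fun b _ => integrable_cont (continuous_ig X Y (E a b) u t w (E a b))
    · exact fun a _ => integrable_finsetSum _ fun b _ =>
        integrable_cont (continuous_ig X Y (E a b) u t w (E a b))
  have hSi : Integrable (fun V : UN n => ∑ a, ∑ b, ig X Y (E a b) u t w (E a b) (V : Mt n))
      (mu n) :=
    integrable_finsetSum _ fun a _ => integrable_finsetSum _ fun b _ =>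
        integrable_cont (continuous_ig X Y (E a b) u t w (E a b))
  have hci : Integrable (fun V : UN n => (n : ℂ) * ((‖fc X Y u t w (V : Mt n)‖ ^ 2 : ℝ) : ℂ))
      (mu n) :=
    integrable_cont (F := fun V : Mt n => (n : ℂ) * ((‖fc X Y u t w V‖ ^ 2 : ℝ) : ℂ))
      (continuous_const.mul (Complex.continuous_ofReal.comp
        ((continuous_fc X Y u t w).norm.pow 2)))
  have h1 : ∫ V : UN n, ((n : ℂ) * ((‖fc X Y u t w (V : Mt n)‖ ^ 2 : ℝ) : ℂ) +
      ∑ a, ∑ b, ig X Y (E a b) u t w (E a b) (V : Mt n)) ∂(mu n) =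
      ((n * ∫ V : UN n, ‖fc X Y u t w V‖ ^ 2 ∂(mu n) : ℝ) : ℂ) := by
    rw [integral_add hci hSi, hS, add_zero, integral_const_mul, Complex.ofReal_mul]
    congr 1
    exact integral_ofReal (𝕜 := ℂ) (μ := mu n) (f := fun V : UN n => ‖fc X Y u t w (V : Mt n)‖ ^ 2)
  have h2 : ‖∫ V : UN n, ((n : ℂ) * ((‖fc X Y u t w (V : Mt n)‖ ^ 2 : ℝ) : ℂ) +
      ∑ a, ∑ b, ig X Y (E a b) u t w (E a b) (V : Mt n)) ∂(mu n)‖ ≤ 2 * w.length + 1 := by
    have h3 := norm_integral_le_of_norm_le_const (μ := mu n) (C := 2 * w.length + 1)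
      (f := fun V : UN n => ((n : ℂ) * ((‖fc X Y u t w (V : Mt n)‖ ^ 2 : ℝ) : ℂ) +
      ∑ a, ∑ b, ig X Y (E a b) u t w (E a b) (V : Mt n)))
      (Filter.Eventually.of_forall fun V => ?_)
    · simpa using h3
    · have hV := V.2
      have e1 : fc X Y u t w (V : Mt n) * star (fc X Y u t w (V : Mt n)) =
          ((‖fc X Y u t w (V : Mt n)‖ ^ 2 : ℝ) : ℂ) := by
        push_cast
        rw [← Complex.mul_conj']
        rfl
      rw [sum4, e1]
      have b1 := bound1 X Y hX hY u hu t w V hV
      have b2 := bound2 X Y hX hY u hu t w V hV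
      have b3 := norm_fc_le X Y hX hY u hu t w V hV
      have b4 := norm_N_le X Y hX hY u hu t w V hV
      rw [norm_le_one] at b4
      set S1 := ∑ a, ∑ b, (X * dv u t (V : Mt n) (E a b) w * (Y * E a b) *
        (V : Mt n).map star).trace
      set S2 := ∑ a, ∑ b, ((V : Mt n).map star * X * ev u t V w * Y) b a *
        star ((X * dv u t V (E b a) w * Y * (V : Mt n).map star).trace)
      set c := fc X Y u t w (V : Mt n)
      set N2 := hs2 ((V : Mt n).map star * X * ev u t V w * Y) with hN2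
      have b5 : 0 ≤ N2 := hs2_nonneg _
      have e2 : (n : ℂ) * ((‖c‖ ^ 2 : ℝ) : ℂ) + (S1 * star c - (n : ℂ) * ((‖c‖ ^ 2 : ℝ) : ℂ) -
          S2 + (N2 : ℂ)) = S1 * star c - S2 + (N2 : ℂ) := by ring
      rw [e2]
      have b6 : ‖S1 * star c‖ ≤ w.length := by
        rw [norm_mul, norm_star]
        calc ‖S1‖ * ‖c‖ ≤ w.length * 1 :=
              mul_le_mul b1 b3 (norm_nonneg _) (Nat.cast_nonneg _)
          _ = w.length := mul_one _
      have b7 : ‖(N2 : ℂ)‖ ≤ 1 := by
        rw [Complex.norm_real, Real.norm_eq_abs, abs_of_nonneg b5]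
        exact b4
      calc ‖S1 * star c - S2 + (N2 : ℂ)‖ ≤ ‖S1 * star c - S2‖ + ‖(N2 : ℂ)‖ := norm_add_le _ _
        _ ≤ (‖S1 * star c‖ + ‖S2‖) + ‖(N2 : ℂ)‖ := by gcongr; exact norm_sub_le _ _
        _ ≤ (w.length + w.length) + 1 := by gcongr
        _ = 2 * w.length + 1 := by ring
  rw [h1, Complex.norm_real, Real.norm_eq_abs] at h2
  exact (le_abs_self _).trans h2

theorem main : S_HAAR := by
  intro n hn u hu t ι _ X Y w hX hY
  have hn' : (0 : ℝ) < n := by exact_mod_cast hn
  have hint : ∀ i, Integrable (fun V : UN n => ‖fc (X i) (Y i) u t (w i) (V : Mt n)‖ ^ 2) (mu n) :=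
    fun i => integrable_cont (F := fun V : Mt n => ‖fc (X i) (Y i) u t (w i) V‖ ^ 2)
      ((continuous_fc (X i) (Y i) u t (w i)).norm.pow 2)
  have h1 : ∫ V : UN n, ∑ i, ‖fc (X i) (Y i) u t (w i) (V : Mt n)‖ ^ 2 ∂(mu n) ≤
      ∑ i, (2 * ((w i).length : ℝ) + 1) / n := by
    rw [integral_finsetSum _ fun i _ => hint i]
    refine Finset.sum_le_sum fun i _ => ?_
    rw [le_div_iff₀ hn', mul_comm]
    exact second_moment (X i) (Y i) ((norm_le_one _).2 (hX i)) ((norm_le_one _).2 (hY i)) u hu t
      (w i)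
  obtain ⟨V, hV⟩ := exists_le_integral (integrable_finsetSum Finset.univ fun i _ => hint i)
  refine ⟨V, V.2, ?_⟩
  exact hV.trans h1

end Pool.Agent.H299_Opp.HAAR
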