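import Pool.Agent.H299_Opp.Stubs

/-!
# Tools: norms and sums over words
-/

set_option autoImplicit false

open scoped BigOperators Matrix InnerProductSpace

noncomputable section

namespace Pool.Agent.H299_Opp

namespace Tools

variable {κ : Type} {F : κ → Fib}

/-- the squared norm as a sum over words -/
theorem hasSum_norm_sq (g : Hil F) :
    HasSum (fun W => ‖(g : List (Lt F) → ℂ) W‖ ^ 2) (‖g‖ ^ 2) := by
  have h := lp.hasSum_norm (p := 2) (by norm_num) g
  simpa using h

theorem ofReal_norm_sq (g : Hil F) :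
    ENNReal.ofReal (‖g‖ ^ 2) = ∑' W, ENNReal.ofReal (‖(g : List (Lt F) → ℂ) W‖ ^ 2) := by
  have h := hasSum_norm_sq g
  rw [← h.tsum_eq]
  exact ENNReal.ofReal_tsum_of_nonneg (fun _ => by positivity) h.summable

/-- non empty lists -/
def listEquiv (α : Type) : Unit ⊕ (α × List α) ≃ List α where
  toFun
    | Sum.inl _ => []
    | Sum.inr x => x.1 :: x.2
  invFun
    | [] => Sum.inl ()
    | a :: l => Sum.inr (a, l)
  left_inv x := by rcases x with _ | ⟨a, l⟩ <;> rfl
  right_inv x := by rcases x with _ | ⟨a, l⟩ <;> rfl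

theorem tsum_list {α : Type} (φ : List α → ENNReal) :
    ∑' W, φ W = φ [] + ∑' x : α × List α, φ (x.1 :: x.2) := by
  rw [← (listEquiv α).tsum_eq φ]
  rw [Summable.tsum_sum ENNReal.summable ENNReal.summable]
  simp [listEquiv, tsum_fintype]

theorem tsum_finset_comm {ι β : Type} [Fintype ι] (f : ι → β → ENNReal) :
    ∑ i, ∑' b, f i b = ∑' b, ∑ i, f i b := by
  have h : ∀ g : ι → ENNReal, ∑ i, g i = ∑' i, g i := fun g => (tsum_fintype g).symm
  simp only [h]
  rw [ENNReal.tsum_comm]

theorem tsum_words (φ : List (Lt F) → ENNReal) :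
    ∑' W, φ W = φ [] + ∑' k : κ, ∑' c : ℕ, ∑' z : List (Lt F), ∑ p : Fin (F k).n,
      φ (⟨k, p, c⟩ :: z) := by
  rw [tsum_list]
  congr 1
  rw [ENNReal.tsum_prod', ENNReal.tsum_sigma']
  apply tsum_congr
  intro k
  rw [ENNReal.tsum_prod']
  simp only [tsum_fintype]
  rw [tsum_finset_comm]
  apply tsum_congr
  intro c
  rw [tsum_finset_comm]

end Tools

end Pool.Agent.H299_Opp
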