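import Pool.Agent.H299_Opp.Stubs
import Pool.Agent.H299_Opp.Tools

/-!
# LOC: localisation (Theorem L of the paper)
-/

set_option autoImplicit false

open scoped BigOperators Matrix InnerProductSpace

noncomputable section

namespace Pool.Agent.H299_Opp

namespace LOC

variable {κ : Type} {F : κ → Fib}

/-- the letter `b` belongs to a block listed in `B` -/
def inB (B : Set (κ × ℕ)) (b : Lt F) : Prop := (b.1, b.2.2) ∈ B

/-- all letters of `V` belong to blocks listed in `B` -/
def wB (B : Set (κ × ℕ)) (V : List (Lt F)) : Prop := ∀ b ∈ V, inB B b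

open Classical in
/-- scalar part of the local matrix of a term -/
def sc (t : List (Lt F) × List (ℕ × Bool) × List (Lt F)) (V V' : List (Lt F)) : ℂ :=
  if t.1 <+: V then
    match V.drop t.1.length with
    | [] => 0
    | ⟨k', p, c⟩ :: Z => ∑ p' : Fin (F k').n,
        if V' = t.2.2 ++ ⟨k', p', c⟩ :: Z then evw (F k').u t.2.1 p p' else 0
  else 0

open Classical in
/-- the contribution of one term and one pair of indices -/
def cpT {m : ℕ} (σ : Fin m → List (Lt F))
    (t : ℂ × List (Lt F) × List (ℕ × Bool) × List (Lt F)) (ab : Fin m × Fin m) : CP m :=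
  (if t.2.1 = σ ab.1 ∧ t.2.2.2 = σ ab.2 then [(t.1, ab, t.2.2.1)] else []) ++
    [(t.1 * sc t.2 (σ ab.1) (σ ab.2), ab, [])]

/-- the local matrix polynomial of an algebraic element -/
def cp {m : ℕ} (σ : Fin m → List (Lt F)) (x : El F) : CP m :=
  x.flatMap fun t => (Finset.univ : Finset (Fin m × Fin m)).toList.flatMap fun ab => cpT σ t ab

theorem cp_avoids {m : ℕ} (σ : Fin m → List (Lt F)) (x : El F) (s : ℕ) (hx : x.Avoids s) :
    (cp σ x).Avoids s := by
  intro e he p hp
  unfold cp at he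
  rw [List.mem_flatMap] at he
  obtain ⟨t, ht, he⟩ := he
  rw [List.mem_flatMap] at he
  obtain ⟨ab, _, he⟩ := he
  unfold cpT at he
  rw [List.mem_append] at he
  rcases he with he | he
  · split_ifs at he with hc
    · rw [List.mem_singleton] at he
      subst he
      exact hx t ht p hp
    · simp at he
  · rw [List.mem_singleton] at he
    subst he
    simp at hp

theorem ev_nil {m n : ℕ} (u : ℕ → Matrix (Fin n) (Fin n) ℂ) (a b : Fin m × Fin n) :
    CP.ev ([] : CP m) u a b = 0 := by simp [CP.ev]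

theorem ev_append {m n : ℕ} (X Y : CP m) (u : ℕ → Matrix (Fin n) (Fin n) ℂ)
    (a b : Fin m × Fin n) : CP.ev (X ++ Y) u a b = CP.ev X u a b + CP.ev Y u a b := by
  simp [CP.ev]

theorem ev_flatMap {m n : ℕ} {α : Type} (l : List α) (f : α → CP m)
    (u : ℕ → Matrix (Fin n) (Fin n) ℂ) (a b : Fin m × Fin n) :
    CP.ev (l.flatMap f) u a b = (l.map fun t => CP.ev (f t) u a b).sum := by
  induction l with
  | nil => simp [CP.ev]
  | cons t l ih =>
    rw [List.flatMap_cons, ev_append, ih]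
    simp

open Classical in
theorem ev_cpT {m n : ℕ} (σ : Fin m → List (Lt F))
    (t : ℂ × List (Lt F) × List (ℕ × Bool) × List (Lt F)) (ab : Fin m × Fin m)
    (u : ℕ → Matrix (Fin n) (Fin n) ℂ) (a b : Fin m × Fin n) :
    CP.ev (cpT σ t ab) u a b = if ab = (a.1, b.1) then
      (t.1 * ((if t.2.1 = σ a.1 ∧ t.2.2.2 = σ b.1 then evw u t.2.2.1 a.2 b.2 else 0) +
        sc t.2 (σ a.1) (σ b.1) * (if a.2 = b.2 then 1 else 0))) else 0 := by
  unfold cpT
  rw [ev_append]
  by_cases h : ab = (a.1, b.1)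
  · subst h
    by_cases h2 : t.2.1 = σ a.1 ∧ t.2.2.2 = σ b.1
    · simp [CP.ev, h2, evw, Matrix.one_apply, mul_add]
    · simp [CP.ev, h2, evw, Matrix.one_apply]
  · have h' : ¬ (ab.1 = a.1 ∧ ab.2 = b.1) := by
      intro h3
      exact h (Prod.ext h3.1 h3.2)
    by_cases h2 : t.2.1 = σ ab.1 ∧ t.2.2.2 = σ ab.2
    · simp [CP.ev, h2, h, h']
    · simp [CP.ev, h2, h, h']

open Classical in
theorem ev_cp {m n : ℕ} (σ : Fin m → List (Lt F)) (x : El F)
    (u : ℕ → Matrix (Fin n) (Fin n) ℂ) (a b : Fin m × Fin n) :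
    CP.ev (cp σ x) u a b = (x.map fun t =>
      t.1 * ((if t.2.1 = σ a.1 ∧ t.2.2.2 = σ b.1 then evw u t.2.2.1 a.2 b.2 else 0) +
        sc t.2 (σ a.1) (σ b.1) * (if a.2 = b.2 then 1 else 0))).sum := by
  unfold cp
  rw [ev_flatMap]
  congr 1
  refine List.map_congr_left fun t _ => ?_
  rw [ev_flatMap, Finset.sum_map_toList]
  simp only [ev_cpT]
  rw [Finset.sum_ite_eq']
  simp

/-- enumeration of the words of length at most `M` with letters in the blocks of `B` -/
structure IsEnum (B : Set (κ × ℕ)) (M m : ℕ) (σ : Fin m → List (Lt F)) : Prop where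
  inj : Function.Injective σ
  mem : ∀ a, wB B (σ a)
  len : ∀ a, (σ a).length ≤ M
  surj : ∀ V, wB B V → V.length ≤ M → ∃ a, σ a = V

theorem exists_enum (F : κ → Fib) (B : Set (κ × ℕ)) (hB : B.Finite) (M : ℕ) :
    ∃ (m : ℕ) (σ : Fin m → List (Lt F)), IsEnum B M m σ := by
  classical
  -- the set of letters is finite
  have hI : {b : Lt F | inB B b}.Finite := by
    have : {b : Lt F | inB B b} ⊆ ⋃ kc ∈ B, Set.range (fun p : Fin (F kc.1).n => (⟨kc.1, p, kc.2⟩ : Lt F)) := by
      intro b hb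
      obtain ⟨k, p, c⟩ := b
      simp only [Set.mem_iUnion]
      exact ⟨(k, c), hb, p, rfl⟩
    exact (hB.biUnion fun _ _ => Set.finite_range _).subset this
  have hW : {V : List (Lt F) | wB B V ∧ V.length ≤ M}.Finite := by
    have : Finite {b : Lt F | inB B b} := hI
    have h1 := List.finite_length_le (↥{b : Lt F | inB B b}) M
    refine (h1.image (List.map Subtype.val)).subset ?_
    rintro V ⟨hV, hl⟩
    refine ⟨V.attach.map fun b => ⟨b.1, hV b.1 b.2⟩, ?_, ?_⟩
    · show _ ≤ M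
      simpa using hl
    · rw [List.map_map]
      simp [Function.comp_def]
  have : Fintype {V : List (Lt F) | wB B V ∧ V.length ≤ M} := hW.fintype
  let e := Fintype.equivFin {V : List (Lt F) | wB B V ∧ V.length ≤ M}
  refine ⟨_, fun a => (e.symm a).1, ?_, ?_, ?_, ?_⟩
  · intro a b hab
    exact e.symm.injective (Subtype.ext hab)
  · intro a
    exact (e.symm a).2.1
  · intro a
    exact (e.symm a).2.2
  · intro V hV hl
    exact ⟨e ⟨V, hV, hl⟩, by simp⟩

open Classical in
theorem sum_pick {E : Type} [AddCommGroup E] {B : Set (κ × ℕ)} {M m : ℕ}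
    {σ : Fin m → List (Lt F)} (h : IsEnum B M m σ) (U : List (Lt F)) (hU : wB B U)
    (G : List (Lt F) → E) (hG : M < U.length → G U = 0) :
    ∑ b, (if σ b = U then G (σ b) else 0) = G U := by
  by_cases hl : U.length ≤ M
  · obtain ⟨a, rfl⟩ := h.surj U hU hl
    have : ∀ b, (if σ b = σ a then G (σ b) else 0) = if b = a then G (σ a) else 0 := by
      intro b
      by_cases hb : b = a
      · simp [hb]
      · have : ¬ σ b = σ a := fun h' => hb (h.inj h')
        simp [hb, this]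
    simp only [this]
    simp
  · rw [hG (by omega)]
    apply Finset.sum_eq_zero
    intro b _
    rw [if_neg]
    intro hb
    apply hl
    rw [← hb]
    exact h.len b

open Classical in
theorem actL_eq {E : Type} [AddCommGroup E] [Module ℂ E] {B : Set (κ × ℕ)} {M m : ℕ}
    {σ : Fin m → List (Lt F)} (hE : IsEnum B M m σ) (k : κ)
    (t : List (Lt F) × List (ℕ × Bool) × List (Lt F)) (h2 : wB B t.2.2)
    (h : List (Lt F) × Fin (F k).n → E) (hh : ∀ V p, M < V.length → h (V, p) = 0)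
    (a : Fin m) (p : Fin (F k).n) :
    actL F k t h (σ a, p) = ∑ b : Fin m × Fin (F k).n,
      ((if t.1 = σ a ∧ t.2.2 = σ b.1 then evw (F k).u t.2.1 p b.2 else 0) +
        sc t (σ a) (σ b.1) * (if p = b.2 then 1 else 0)) • h (σ b.1, b.2) := by
  rw [Fintype.sum_prod_type]
  unfold actL sc
  by_cases hw : t.1 <+: σ a
  · obtain ⟨V', hV'⟩ := hw
    have hwa := hE.mem a
    rw [← hV'] at hwa
    rw [← hV']
    simp only [List.prefix_append, if_true, List.drop_left]
    cases V' with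
    | nil =>
      simp only [List.append_nil, true_and, zero_mul, add_zero]
      have := sum_pick hE t.2.2 h2 (fun U => ∑ q : Fin (F k).n, evw (F k).u t.2.1 p q • h (U, q))
        (by
          intro hl
          apply Finset.sum_eq_zero
          intro q _
          rw [hh _ _ hl, smul_zero])
      rw [← this]
      apply Finset.sum_congr rfl
      intro b _
      by_cases hb : σ b = t.2.2
      · simp [hb]
      · have hb' : ¬ t.2.2 = σ b := fun h' => hb h'.symm
        simp [hb, hb']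
    | cons b0 Z =>
      obtain ⟨k', p1, c⟩ := b0
      have hne : ¬ t.1 = t.1 ++ ⟨k', p1, c⟩ :: Z := by
        intro h'
        have := congrArg List.length h'
        simp at this
      simp only [hne, false_and, if_false, zero_add]
      have hZ : ∀ p' : Fin (F k').n, wB B (t.2.2 ++ ⟨k', p', c⟩ :: Z) := by
        intro p' b hb
        rw [List.mem_append, List.mem_cons] at hb
        rcases hb with hb | hb | hb
        · exact h2 b hb
        · subst hb
          have := hwa ⟨k', p1, c⟩ (by simp)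
          exact this
        · exact hwa b (by simp [hb])
      have : ∀ p' : Fin (F k').n, h (t.2.2 ++ ⟨k', p', c⟩ :: Z, p) =
          ∑ b, (if σ b = t.2.2 ++ ⟨k', p', c⟩ :: Z then h (σ b, p) else 0) := by
        intro p'
        exact (sum_pick hE (t.2.2 ++ ⟨k', p', c⟩ :: Z) (hZ p') (fun U => h (U, p))
          (hh _ _)).symm
      simp only [this, Finset.smul_sum]
      rw [Finset.sum_comm]
      apply Finset.sum_congr rfl
      intro b _
      simp only [mul_ite, mul_one, mul_zero, ite_smul, zero_smul, smul_ite, smul_zero]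
      rw [Finset.sum_ite_eq]
      simp only [Finset.mem_univ, if_true, Finset.sum_smul, ite_smul, zero_smul]
  · simp only [hw, if_false]
    have hne : ¬ t.1 = σ a := by
      intro h'
      exact hw (h' ▸ List.prefix_refl _)
    simp [hne]

/-- all letters of `x` belong to the blocks of `B` -/
def elB (B : Set (κ × ℕ)) (x : El F) : Prop := ∀ e ∈ x, wB B e.2.1 ∧ wB B e.2.2.2

theorem loc_eq {E : Type} [AddCommGroup E] [Module ℂ E] {B : Set (κ × ℕ)} {M m : ℕ}
    {σ : Fin m → List (Lt F)} (hE : IsEnum B M m σ) (k : κ)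
    (x : El F) (hx : elB B x)
    (h : List (Lt F) × Fin (F k).n → E) (hh : ∀ V p, M < V.length → h (V, p) = 0)
    (a : Fin m) (p : Fin (F k).n) :
    x.loc k h (σ a, p) = ∑ b : Fin m × Fin (F k).n,
      (cp σ x).ev (F k).u (a, p) b • h (σ b.1, b.2) := by
  classical
  unfold El.loc
  simp only [ev_cp]
  induction x with
  | nil => simp
  | cons t x ih =>
    have hx' : elB B x := fun e he => hx e (List.mem_cons_of_mem _ he)
    simp only [List.map_cons, List.sum_cons]
    rw [ih hx', actL_eq hE k t.2 (hx t (by simp)).2 h hh a p, Finset.smul_sum,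
      ← Finset.sum_add_distrib]
    apply Finset.sum_congr rfl
    intro b _
    rw [smul_smul, ← add_smul]

theorem free_of_elB {B : Set (κ × ℕ)} {x : El F} (hx : elB B x) {k : κ} {c : ℕ}
    (hc : (k, c) ∉ B) : x.Free k c := by
  intro e he p
  exact ⟨fun h => hc ((hx e he).1 _ h), fun h => hc ((hx e he).2 _ h)⟩

theorem exists_fresh {B : Set (κ × ℕ)} (hB : B.Finite) (k : κ) : ∃ c, (k, c) ∉ B := by
  have hf : ((fun c : ℕ => (k, c)) ⁻¹' B).Finite := by
    apply hB.preimage
    intro a _ b _ hab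
    simpa using hab
  obtain ⟨c, hc⟩ := hf.infinite_compl.nonempty
  exact ⟨c, hc⟩

/-- Theorem L (i) -/
theorem part_i (h1 : S_SLA) {opr : El F → (Hil F →L[ℂ] Hil F)} (hopr : IsOpr F opr)
    {B : Set (κ × ℕ)} (hBf : B.Finite) {M m : ℕ} {σ : Fin m → List (Lt F)}
    (hE : IsEnum B M m σ) {r : ℕ} (x : Fin r → El F) (hx : ∀ i, elB B (x i)) (k : κ) :
    ∃ e : Fin m × Fin (F k).n → Hil F, Orthonormal ℂ e ∧
      ∀ i a b, ⟪e a, opr (x i) (e b)⟫_ℂ = (cp σ (x i)).ev (F k).u a b := by
  classical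
  obtain ⟨c, hc⟩ := exists_fresh hBf k
  let wd : Fin m × Fin (F k).n → List (Lt F) := fun a => σ a.1 ++ [⟨k, a.2, c⟩]
  have hwd : ∀ a (V : List (Lt F)) (p : Fin (F k).n),
      V ++ [(⟨k, p, c⟩ : Lt F)] = wd a ↔ V = σ a.1 ∧ p = a.2 := by
    intro a V p
    constructor
    · intro h
      have h2 := List.append_inj' h rfl
      refine ⟨h2.1, ?_⟩
      have h3 := h2.2
      simpa using h3
    · rintro ⟨rfl, rfl⟩
      rfl
  let e : Fin m × Fin (F k).n → Hil F := fun a => lp.single 2 (wd a) (1 : ℂ)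
  have hin : ∀ a (f : Hil F), ⟪e a, f⟫_ℂ = (f : List (Lt F) → ℂ) (wd a) := by
    intro a f
    rw [lp.inner_single_left]
    simp
  have happ : ∀ b (W : List (Lt F)), (e b : List (Lt F) → ℂ) W = if W = wd b then 1 else 0 := by
    intro b W
    show (lp.single 2 (wd b) (1 : ℂ) : List (Lt F) → ℂ) W = _
    rw [lp.coeFn_single, Pi.single_apply]
  refine ⟨e, ?_, ?_⟩
  · rw [orthonormal_iff_ite]
    intro a b
    rw [hin, happ]
    have : wd a = wd b ↔ a = b := by
      rw [show wd a = σ a.1 ++ [(⟨k, a.2, c⟩ : Lt F)] from rfl, hwd]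
      constructor
      · rintro ⟨h2, h3⟩
        exact Prod.ext (hE.inj h2) h3
      · rintro rfl
        exact ⟨rfl, rfl⟩
    simp [this]
  · intro i a b
    rw [hin, hopr.apply]
    rw [show wd a = σ a.1 ++ (⟨k, a.2, c⟩ : Lt F) :: [] from rfl]
    rw [h1 κ F ℂ (x i) k c (free_of_elB (hx i) hc)]
    rw [loc_eq hE k (x i) (hx i)]
    · rw [Finset.sum_eq_single b]
      · have : σ b.1 ++ [(⟨k, b.2, c⟩ : Lt F)] = wd b := rfl
        simp only [this, happ]
        simp
      · intro b' _ hb'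
        simp only [happ]
        rw [if_neg]
        · simp
        · rw [hwd]
          rintro ⟨h2, h3⟩
          exact hb' (Prod.ext (hE.inj h2) h3)
      · simp
    · intro V p hV
      simp only [happ]
      rw [if_neg]
      rw [hwd]
      rintro ⟨h2, h3⟩
      have := hE.len b.1
      rw [← h2] at this
      omega

/-! ### tails -/

theorem wB_nil (B : Set (κ × ℕ)) : wB B ([] : List (Lt F)) := by
  intro b hb
  simp at hb

theorem wB_cons {B : Set (κ × ℕ)} {b : Lt F} {V : List (Lt F)} (hb : inB B b) (hV : wB B V) :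
    wB B (b :: V) := by
  intro b' hb'
  rw [List.mem_cons] at hb'
  rcases hb' with rfl | hb'
  · exact hb
  · exact hV b' hb'

theorem decomp (B : Set (κ × ℕ)) (W : List (Lt F)) :
    wB B W ∨ ∃ V b z, wB B V ∧ ¬ inB B b ∧ W = V ++ b :: z := by
  induction W with
  | nil => exact Or.inl (wB_nil B)
  | cons b W ih =>
    by_cases hb : inB B b
    · rcases ih with ih | ⟨V, b', z, hV, hb', rfl⟩
      · exact Or.inl (wB_cons hb ih)
      · exact Or.inr ⟨b :: V, b', z, wB_cons hb hV, hb', rfl⟩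
    · exact Or.inr ⟨[], b, W, wB_nil B, hb, rfl⟩

theorem decomp_unique {B : Set (κ × ℕ)} {V V' : List (Lt F)} {b b' : Lt F}
    {z z' : List (Lt F)} (hV : wB B V) (hV' : wB B V') (hb : ¬ inB B b) (hb' : ¬ inB B b')
    (h : V ++ b :: z = V' ++ b' :: z') : V = V' ∧ b = b' ∧ z = z' := by
  induction V generalizing V' with
  | nil =>
    cases V' with
    | nil =>
      simp only [List.nil_append, List.cons.injEq] at h
      exact ⟨rfl, h.1, h.2⟩
    | cons d V' =>
      simp only [List.nil_append, List.cons_append, List.cons.injEq] at h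
      exact absurd (h.1 ▸ hV' d (by simp)) hb
  | cons d V ih =>
    cases V' with
    | nil =>
      simp only [List.nil_append, List.cons_append, List.cons.injEq] at h
      exact absurd (h.1 ▸ hV d (by simp)) hb'
    | cons d' V' =>
      simp only [List.cons_append, List.cons.injEq] at h
      obtain ⟨h1, h2, h3⟩ := ih (V' := V') (fun x hx => hV x (List.mem_cons_of_mem _ hx))
        (fun x hx => hV' x (List.mem_cons_of_mem _ hx)) h.2
      exact ⟨by rw [h.1, h1], h2, h3⟩

/-- tails: nothing, or a block outside `B` followed by a word -/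
abbrev Tl (F : κ → Fib) (B : Set (κ × ℕ)) := Option ({kc : κ × ℕ // kc ∉ B} × List (Lt F))

/-- base fibre of a tail -/
def base (k0 : κ) {B : Set (κ × ℕ)} : Tl F B → κ
  | none => k0
  | some τ => τ.1.1.1

/-- the word with head `V`, base index `p` and tail `τ` -/
def emb (k0 : κ) {B : Set (κ × ℕ)} : (τ : Tl F B) →
    List (Lt F) × Fin (F (base k0 τ)).n → List (Lt F)
  | none, h => h.1
  | some τ, h => h.1 ++ ⟨τ.1.1.1, h.2, τ.1.1.2⟩ :: τ.2

theorem emb_inj {k0 : κ} (hk0 : (F k0).n = 1) {B : Set (κ × ℕ)} {M m : ℕ}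
    {σ : Fin m → List (Lt F)} (hE : IsEnum B M m σ) :
    Function.Injective (fun y : (Σ τ : Tl F B, Fin m × Fin (F (base k0 τ)).n) =>
      emb k0 y.1 (σ y.2.1, y.2.2)) := by
  rintro ⟨τ, a, p⟩ ⟨τ', a', p'⟩ h
  rcases τ with _ | ⟨⟨⟨k, c⟩, hkc⟩, z⟩ <;> rcases τ' with _ | ⟨⟨⟨k', c'⟩, hkc'⟩, z'⟩
  · simp only [emb] at h
    have ha := hE.inj h
    subst ha
    have : Subsingleton (Fin (F (base k0 (none : Tl F B))).n) := by
      show Subsingleton (Fin (F k0).n)
      rw [hk0]
      infer_instance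
    have hp : p = p' := Subsingleton.elim _ _
    rw [hp]
  · exfalso
    simp only [emb] at h
    have := hE.mem a ⟨k', p', c'⟩ (by rw [h]; simp)
    exact hkc' this
  · exfalso
    simp only [emb] at h
    have := hE.mem a' ⟨k, p, c⟩ (by rw [← h]; simp)
    exact hkc this
  · simp only [emb] at h
    obtain ⟨h1, h2, h3⟩ := decomp_unique (hE.mem a) (hE.mem a')
      (show ¬ inB B (⟨k, p, c⟩ : Lt F) from hkc) (show ¬ inB B (⟨k', p', c'⟩ : Lt F) from hkc') h
    have ha := hE.inj h1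
    subst ha
    subst h3
    simp only [Sigma.mk.injEq] at h2
    obtain ⟨h2, h4⟩ := h2
    subst h2
    rw [heq_iff_eq] at h4
    have h5 : c = c' := congrArg Prod.snd h4
    have h6 : p = p' := congrArg Prod.fst h4
    subst h5
    subst h6
    rfl

theorem emb_surj {k0 : κ} (hk0 : (F k0).n = 1) {B : Set (κ × ℕ)} {M m : ℕ}
    {σ : Fin m → List (Lt F)} (hE : IsEnum B M m σ) (W : List (Lt F)) (hW : W.length ≤ M) :
    ∃ y : (Σ τ : Tl F B, Fin m × Fin (F (base k0 τ)).n), emb k0 y.1 (σ y.2.1, y.2.2) = W := by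
  rcases decomp B W with h | ⟨V, b, z, hV, hb, rfl⟩
  · obtain ⟨a, ha⟩ := hE.surj W h hW
    refine ⟨⟨none, a, ⟨0, ?_⟩⟩, ?_⟩
    · show 0 < (F k0).n
      omega
    · exact ha
  · obtain ⟨a, ha⟩ := hE.surj V hV (by
      rw [List.length_append] at hW
      omega)
    obtain ⟨k, p, c⟩ := b
    refine ⟨⟨some (⟨(k, c), hb⟩, z), a, p⟩, ?_⟩
    simp only [emb, ha]

theorem act_emb (h1 : S_SLA) (h2 : S_SLB) {k0 : κ} (hk0 : (F k0).n = 1)
    (hu0 : ∀ j, (F k0).u j = 1) {B : Set (κ × ℕ)} {E : Type} [AddCommGroup E] [Module ℂ E]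
    (x : El F) (hx : elB B x) (τ : Tl F B) (f : List (Lt F) → E) (V : List (Lt F))
    (p : Fin (F (base k0 τ)).n) :
    x.act f (emb k0 τ (V, p)) = x.loc (base k0 τ) (fun h => f (emb k0 τ h)) (V, p) := by
  rcases τ with _ | ⟨⟨⟨k, c⟩, hkc⟩, z⟩
  · exact h2 κ F E k0 hk0 hu0 x f V p
  · exact h1 κ F E x k c (free_of_elB hx hkc) f V z p

theorem length_emb (k0 : κ) {B : Set (κ × ℕ)} (τ : Tl F B) (h : List (Lt F) × Fin (F (base k0 τ)).n) :
    h.1.length ≤ (emb k0 τ h).length := by
  rcases τ with _ | ⟨⟨⟨k, c⟩, hkc⟩, z⟩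
  · exact le_refl _
  · simp [emb]

/-! ### sums -/

/-- sum over tails, equality case -/
theorem tsum_tails_eq {k0 : κ} (hk0 : (F k0).n = 1) {B : Set (κ × ℕ)} {M m : ℕ}
    {σ : Fin m → List (Lt F)} (hE : IsEnum B M m σ) (φ : List (Lt F) → ENNReal)
    (hφ : ∀ W, M < W.length → φ W = 0) :
    ∑' τ : Tl F B, ∑ a : Fin m × Fin (F (base k0 τ)).n, φ (emb k0 τ (σ a.1, a.2)) =
      ∑' W, φ W := by
  have h := (emb_inj hk0 hE).tsum_eq (f := φ) (by
    intro W hW
    have hl : W.length ≤ M := by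
      by_contra hl
      exact hW (hφ W (by omega))
    obtain ⟨y, hy⟩ := emb_surj hk0 hE W hl
    exact ⟨y, hy⟩)
  rw [← h, ENNReal.tsum_sigma']
  apply tsum_congr
  intro τ
  rw [tsum_fintype]

/-- sum over tails, inequality -/
theorem tsum_tails_le {k0 : κ} (hk0 : (F k0).n = 1) {B : Set (κ × ℕ)} {M m : ℕ}
    {σ : Fin m → List (Lt F)} (hE : IsEnum B M m σ) (φ : List (Lt F) → ENNReal) :
    ∑' τ : Tl F B, ∑ a : Fin m × Fin (F (base k0 τ)).n, φ (emb k0 τ (σ a.1, a.2)) ≤
      ∑' W, φ W := by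
  have h := ENNReal.tsum_comp_le_tsum_of_injective (emb_inj hk0 hE) φ
  rw [ENNReal.tsum_sigma'] at h
  refine le_trans (le_of_eq ?_) h
  apply tsum_congr
  intro τ
  rw [tsum_fintype]

theorem ofReal_hs2 {A C : Type} [Fintype A] [Fintype C] (P : Matrix A C ℂ) :
    ENNReal.ofReal (hs2 P) = ∑ a, ∑ q, ENNReal.ofReal (‖P a q‖ ^ 2) := by
  unfold hs2
  rw [ENNReal.ofReal_sum_of_nonneg (fun _ _ => Finset.sum_nonneg fun _ _ => by positivity)]
  apply Finset.sum_congr rfl
  intro a _
  rw [ENNReal.ofReal_sum_of_nonneg (fun _ _ => by positivity)]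

theorem n2_eq {N : ℕ} (S : Fin N → Hil F) :
    n2 F (fun W p => (S p : List (Lt F) → ℂ) W) = ENNReal.ofReal (∑ p, ‖S p‖ ^ 2) := by
  unfold n2
  rw [ENNReal.ofReal_sum_of_nonneg (fun _ _ => by positivity)]
  simp only [Tools.ofReal_norm_sq]
  rw [Tools.tsum_finset_comm]

theorem act_apply {N : ℕ} (x : El F) (f : List (Lt F) → Fin N → ℂ) (W : List (Lt F))
    (p : Fin N) : x.act f W p = x.act (fun W' => f W' p) W := by
  classical
  unfold El.act
  induction x with
  | nil => simp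
  | cons t x ih =>
    simp only [List.map_cons, List.sum_cons, Pi.add_apply, ih, Pi.smul_apply]
    congr 2
    unfold actT
    split_ifs with hw
    · generalize W.drop t.2.1.length = V
      cases V with
      | nil => rfl
      | cons b V =>
        obtain ⟨k, q, c⟩ := b
        simp only [actA, Finset.sum_apply, Pi.smul_apply]
    · rfl

theorem exists_blocks {r : ℕ} (x : Fin r → El F) :
    ∃ B : Set (κ × ℕ), B.Finite ∧ ∀ i, elB B (x i) := by
  classical
  let bl : Lt F → κ × ℕ := fun b => (b.1, b.2.2)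
  let L : Fin r → List (κ × ℕ) := fun i => (x i).flatMap fun t => (t.2.1 ++ t.2.2.2).map bl
  refine ⟨⋃ i, {kc | kc ∈ L i}, ?_, ?_⟩
  · exact Set.finite_iUnion fun i => List.finite_toSet _
  · intro i e he
    refine ⟨?_, ?_⟩
    · intro b hb
      refine Set.mem_iUnion.2 ⟨i, ?_⟩
      show bl b ∈ L i
      refine List.mem_flatMap.2 ⟨e, he, ?_⟩
      exact List.mem_map_of_mem (List.mem_append_left _ hb)
    · intro b hb
      refine Set.mem_iUnion.2 ⟨i, ?_⟩
      show bl b ∈ L i
      refine List.mem_flatMap.2 ⟨e, he, ?_⟩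
      exact List.mem_map_of_mem (List.mem_append_right _ hb)

theorem hs2_smul {A C : Type} [Fintype A] [Fintype C] (c : ℂ) (P : Matrix A C ℂ) :
    hs2 (c • P) = ‖c‖ ^ 2 * hs2 P := by
  unfold hs2
  rw [Finset.mul_sum]
  apply Finset.sum_congr rfl
  intro a _
  rw [Finset.mul_sum]
  apply Finset.sum_congr rfl
  intro b _
  rw [Matrix.smul_apply, norm_smul, mul_pow]

theorem hs2_nonneg {A C : Type} [Fintype A] [Fintype C] (P : Matrix A C ℂ) : 0 ≤ hs2 P := by
  unfold hs2
  positivity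

theorem rhs_eq {opr : El F → (Hil F →L[ℂ] Hil F)} (hopr : IsOpr F opr) {r N : ℕ}
    (x : Fin r → El F) (g : Fin r → Matrix (Fin N) (Fin N) ℂ) (T : Fin N → Hil F) :
    ∑ i, n2 F (fun W => Matrix.vecMul ((x i).act
      (fun W p => (T p : List (Lt F) → ℂ) W) W) (g i) - (fun p => (T p : List (Lt F) → ℂ) W)) =
      ENNReal.ofReal (∑ i, ∑ q, ‖(∑ p, g i p q • opr (x i) (T p)) - T q‖ ^ 2) := by
  rw [ENNReal.ofReal_sum_of_nonneg (fun _ _ => Finset.sum_nonneg fun _ _ => sq_nonneg _)]
  apply Finset.sum_congr rfl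
  intro i _
  rw [← n2_eq (fun q => (∑ p, g i p q • opr (x i) (T p)) - T q)]
  congr 1
  funext W q
  simp only [Pi.sub_apply, Matrix.vecMul, dotProduct, lp.coeFn_sub, lp.coeFn_sum,
    Finset.sum_apply, lp.coeFn_smul, Pi.smul_apply, smul_eq_mul]
  congr 1
  apply Finset.sum_congr rfl
  intro p _
  rw [act_apply, hopr.apply]
  ring

end LOC

open LOC in
/-- LOC: Theorem L of the paper -/
theorem LOC.main (h1 : S_SLA) (h2 : S_SLB) (h3 : S_WIN) : S_LOC := by
  intro κ F k0 hk0 hu0 opr hopr r x δ hδ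
  obtain ⟨B, hBf, hB⟩ := exists_blocks x
  obtain ⟨M, hM⟩ := h3 κ F r x (δ / 2) (by positivity)
  obtain ⟨m, σ, hE⟩ := exists_enum F B hBf M
  refine ⟨m, fun i => cp σ (x i), fun i t ht => cp_avoids σ (x i) t ht,
    part_i h1 hopr hBf hE x hB, ?_⟩
  intro N g hg T hT
  obtain ⟨T1, hT1, hne0, hneT, hsum⟩ := hM N g hg (fun W p => (T p : List (Lt F) → ℂ) W) (by
    rw [n2_eq, hT, ENNReal.ofReal_one])
  -- the right hand side
  set Q : ℝ := ∑ i, ∑ q, ‖(∑ p, g i p q • opr (x i) (T p)) - T q‖ ^ 2 with hQ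
  have hQ0 : 0 ≤ Q := Finset.sum_nonneg fun _ _ => Finset.sum_nonneg fun _ _ => sq_nonneg _
  have hR := rhs_eq hopr x g T
  rw [← hQ] at hR
  rw [hR] at hsum
  clear_value Q
  -- pieces
  let P : ∀ τ : Tl F B, Matrix (Fin m × Fin (F (base k0 τ)).n) (Fin N) ℂ :=
    fun τ a q => T1 (emb k0 τ (σ a.1, a.2)) q
  have hP : ∑' τ, ENNReal.ofReal (hs2 (P τ)) = n2 F T1 := by
    have := tsum_tails_eq hk0 hE (fun W => ∑ q, ENNReal.ofReal (‖T1 W q‖ ^ 2)) (by
      intro W hW
      simp [hT1 W hW])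
    rw [show n2 F T1 = ∑' W, ∑ q, ENNReal.ofReal (‖T1 W q‖ ^ 2) from rfl, ← this]
    apply tsum_congr
    intro τ
    rw [ofReal_hs2]
  have hDeq : ∀ i (τ : Tl F B) (a : Fin m × Fin (F (base k0 τ)).n) (q : Fin N),
      ((cp σ (x i)).ev (F (base k0 τ)).u * P τ * g i - P τ) a q =
      (Matrix.vecMul ((x i).act T1 (emb k0 τ (σ a.1, a.2))) (g i) -
        T1 (emb k0 τ (σ a.1, a.2))) q := by
    intro i τ a q
    rw [act_emb h1 h2 hk0 hu0 (x i) (hB i), loc_eq hE (base k0 τ) (x i) (hB i)]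
    · simp only [Matrix.sub_apply, Matrix.mul_apply, Pi.sub_apply, Matrix.vecMul, dotProduct,
        Finset.sum_apply, Pi.smul_apply, smul_eq_mul]
      rfl
    · intro V p hV
      apply hT1
      exact lt_of_lt_of_le hV (length_emb k0 τ (V, p))
  have hD : ∀ i, ∑' τ, ENNReal.ofReal (hs2 ((cp σ (x i)).ev (F (base k0 τ)).u * P τ * g i - P τ)) ≤
      n2 F (fun W => Matrix.vecMul ((x i).act T1 W) (g i) - T1 W) := by
    intro i
    have := tsum_tails_le hk0 hE (fun W => ∑ q, ENNReal.ofReal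
      (‖(Matrix.vecMul ((x i).act T1 W) (g i) - T1 W) q‖ ^ 2))
    refine le_trans (le_of_eq ?_) this
    apply tsum_congr
    intro τ
    rw [ofReal_hs2]
    simp only [hDeq]
  -- find a good tail
  have hex : ∃ τ : Tl F B, ENNReal.ofReal (∑ i, hs2 ((cp σ (x i)).ev (F (base k0 τ)).u * P τ * g i - P τ)) <
      ENNReal.ofReal (2 * Q + δ) * ENNReal.ofReal (hs2 (P τ)) := by
    by_contra hcon
    push Not at hcon
    have hle := ENNReal.tsum_le_tsum hcon
    rw [ENNReal.tsum_mul_left, hP] at hle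
    have hle2 : ∑' τ : Tl F B, ENNReal.ofReal
        (∑ i, hs2 ((cp σ (x i)).ev (F (base k0 τ)).u * P τ * g i - P τ)) ≤
        ENNReal.ofReal (2 * Q + δ / 2) * n2 F T1 := by
      calc ∑' τ : Tl F B, ENNReal.ofReal
            (∑ i, hs2 ((cp σ (x i)).ev (F (base k0 τ)).u * P τ * g i - P τ))
          = ∑' τ : Tl F B, ∑ i, ENNReal.ofReal
            (hs2 ((cp σ (x i)).ev (F (base k0 τ)).u * P τ * g i - P τ)) := by
            apply tsum_congr
            intro τ
            rw [ENNReal.ofReal_sum_of_nonneg (fun _ _ => hs2_nonneg _)]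
        _ = ∑ i, ∑' τ : Tl F B, ENNReal.ofReal
            (hs2 ((cp σ (x i)).ev (F (base k0 τ)).u * P τ * g i - P τ)) := by
            rw [Tools.tsum_finset_comm]
        _ ≤ ∑ i, n2 F (fun W => Matrix.vecMul ((x i).act T1 W) (g i) - T1 W) :=
            Finset.sum_le_sum fun i _ => hD i
        _ ≤ (2 * ENNReal.ofReal Q + ENNReal.ofReal (δ / 2)) * n2 F T1 := hsum
        _ = ENNReal.ofReal (2 * Q + δ / 2) * n2 F T1 := by
            congr 1
            rw [ENNReal.ofReal_add (by positivity) (by positivity),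
              ENNReal.ofReal_mul (by norm_num)]
            norm_num
    have hle3 := hle.trans hle2
    rw [ENNReal.mul_le_mul_iff_left hne0 hneT] at hle3
    rw [ENNReal.ofReal_le_ofReal_iff (by positivity)] at hle3
    linarith
  obtain ⟨τ, hτ⟩ := hex
  rw [← ENNReal.ofReal_mul (by positivity)] at hτ
  have hpos : 0 < (2 * Q + δ) * hs2 (P τ) := by
    by_contra hcon
    rw [ENNReal.ofReal_of_nonpos (not_lt.1 hcon)] at hτ
    exact absurd hτ (by simp)
  rw [ENNReal.ofReal_lt_ofReal_iff hpos] at hτ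
  have hc : 0 < hs2 (P τ) := by
    rcases (hs2_nonneg (P τ)).lt_or_eq with h | h
    · exact h
    · rw [← h, mul_zero] at hpos
      exact absurd hpos (lt_irrefl _)
  set s : ℝ := (Real.sqrt (hs2 (P τ)))⁻¹ with hs
  have hs2' : ‖(s : ℂ)‖ ^ 2 = (hs2 (P τ))⁻¹ := by
    rw [Complex.norm_real, Real.norm_eq_abs, sq_abs, hs, inv_pow, Real.sq_sqrt hc.le]
  refine ⟨base k0 τ, (s : ℂ) • P τ, ?_, ?_⟩
  · rw [hs2_smul, hs2']
    exact inv_mul_cancel₀ hc.ne'
  · have : ∀ i, hs2 ((cp σ (x i)).ev (F (base k0 τ)).u * ((s : ℂ) • P τ) * g i - (s : ℂ) • P τ) =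
        (hs2 (P τ))⁻¹ * hs2 ((cp σ (x i)).ev (F (base k0 τ)).u * P τ * g i - P τ) := by
      intro i
      rw [← hs2', ← hs2_smul, smul_sub, Matrix.mul_smul, Matrix.smul_mul]
    simp only [this]
    rw [← Finset.mul_sum, inv_mul_le_iff₀ hc]
    linarith

end Pool.Agent.H299_Opp
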