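import Pool.Agent.H299_Opp.Stubs

/-!
# NI1: relations between the generators
-/

set_option autoImplicit false

open scoped BigOperators Matrix InnerProductSpace

noncomputable section

namespace Pool.Agent.H299_Opp

namespace NI

variable {κ : Type} {F : κ → Fib} {opr : El F → (Hil F →L[ℂ] Hil F)}

/-- creation operators -/
def cr (opr : El F → (Hil F →L[ℂ] Hil F)) (i : Lt F) : Hil F →L[ℂ] Hil F :=
  opr [(1, [i], [], [])]

/-- the unitaries -/
def uu (opr : El F → (Hil F →L[ℂ] Hil F)) (j : ℕ) : Hil F →L[ℂ] Hil F :=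
  opr [(1, [], [(j, false)], [])]

theorem hil_ext {f g : Hil F} (h : ∀ W, (f : List (Lt F) → ℂ) W = (g : List (Lt F) → ℂ) W) :
    f = g := by
  ext W
  exact h W

theorem cr_nil (h : IsOpr F opr) (i : Lt F) (g : Hil F) : (cr opr i g : List (Lt F) → ℂ) [] = 0 := by
  unfold cr
  rw [h.apply]
  simp [El.act, actT]

open Classical in
theorem cr_cons (h : IsOpr F opr) (i b : Lt F) (W : List (Lt F)) (g : Hil F) :
    (cr opr i g : List (Lt F) → ℂ) (b :: W) =
      if i = b then (g : List (Lt F) → ℂ) W else 0 := by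
  unfold cr
  rw [h.apply]
  simp only [El.act, List.map_cons, List.map_nil, List.sum_cons, List.sum_nil, add_zero, one_smul]
  unfold actT
  by_cases hib : i = b
  · subst hib
    rw [if_pos (by simp), if_pos rfl]
    simp only [List.length_cons, List.length_nil, List.drop_succ_cons, zero_add, List.drop_zero,
      List.nil_append]
    cases W with
    | nil => rfl
    | cons a W =>
      obtain ⟨k, p, c⟩ := a
      simp [actA, evw, Matrix.one_apply]
  · rw [if_neg hib, if_neg]
    simpa using hib

theorem star_cr_apply (h : IsOpr F opr) (i : Lt F) (W : List (Lt F)) (g : Hil F) :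
    (star (cr opr i) g : List (Lt F) → ℂ) W = (g : List (Lt F) → ℂ) (i :: W) := by
  unfold cr
  rw [h.star_eq, h.apply]
  simp only [El.act, El.adj, List.map_cons, List.map_nil, List.sum_cons, List.sum_nil, add_zero,
    star_one, one_smul]
  unfold actT
  rw [if_pos (List.nil_prefix)]
  simp only [List.length_nil, List.drop_zero]
  cases W with
  | nil => rfl
  | cons a W =>
    obtain ⟨k, p, c⟩ := a
    simp [actA, evw, revw, Matrix.one_apply]

theorem uu_nil (h : IsOpr F opr) (j : ℕ) (g : Hil F) :
    (uu opr j g : List (Lt F) → ℂ) [] = (g : List (Lt F) → ℂ) [] := by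
  unfold uu
  rw [h.apply]
  simp [El.act, actT, actA]

theorem uu_cons (h : IsOpr F opr) (j : ℕ) (g : Hil F) (k : κ) (p : Fin (F k).n) (c : ℕ)
    (W : List (Lt F)) :
    (uu opr j g : List (Lt F) → ℂ) (⟨k, p, c⟩ :: W) =
      ∑ p', (F k).u j p p' * (g : List (Lt F) → ℂ) (⟨k, p', c⟩ :: W) := by
  unfold uu
  rw [h.apply]
  simp [El.act, actT, actA, evw]

theorem star_uu_nil (h : IsOpr F opr) (j : ℕ) (g : Hil F) :
    (star (uu opr j) g : List (Lt F) → ℂ) [] = (g : List (Lt F) → ℂ) [] := by
  unfold uu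
  rw [h.star_eq, h.apply]
  simp [El.act, El.adj, revw, actT, actA]

theorem star_uu_cons (h : IsOpr F opr) (j : ℕ) (g : Hil F) (k : κ) (p : Fin (F k).n) (c : ℕ)
    (W : List (Lt F)) :
    (star (uu opr j) g : List (Lt F) → ℂ) (⟨k, p, c⟩ :: W) =
      ∑ p', star ((F k).u j p' p) * (g : List (Lt F) → ℂ) (⟨k, p', c⟩ :: W) := by
  unfold uu
  rw [h.star_eq, h.apply]
  simp [El.act, El.adj, revw, actT, actA, evw, Matrix.conjTranspose_apply]

open Classical in
theorem star_cr_mul_cr (h : IsOpr F opr) (i i' : Lt F) :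
    star (cr opr i) * cr opr i' = if i = i' then 1 else 0 := by
  apply ContinuousLinearMap.ext
  intro g
  apply hil_ext
  intro W
  have h1 : (star (cr opr i) * cr opr i') g = star (cr opr i) (cr opr i' g) := rfl
  rw [h1, star_cr_apply h, cr_cons h]
  by_cases hi : i = i'
  · subst hi
    simp
  · rw [if_neg hi, if_neg (fun hh => hi hh.symm)]
    simp

theorem star_uu_mul_uu (h : IsOpr F opr) (j : ℕ) : star (uu opr j) * uu opr j = 1 := by
  apply ContinuousLinearMap.ext
  intro g
  apply hil_ext
  intro W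
  have h1 : (star (uu opr j) * uu opr j) g = star (uu opr j) (uu opr j g) := rfl
  rw [h1]
  cases W with
  | nil => rw [star_uu_nil h, uu_nil h]; rfl
  | cons b W =>
    obtain ⟨k, p, c⟩ := b
    rw [star_uu_cons h]
    simp only [uu_cons h, Finset.mul_sum]
    rw [Finset.sum_comm]
    have hu : ∀ p', ∑ q, star ((F k).u j q p) * (F k).u j q p' = if p = p' then 1 else 0 := by
      intro p'
      have h2 := (Matrix.mem_unitaryGroup_iff').mp ((F k).uni j)
      have h3 := congrFun (congrFun h2 p) p'
      rw [Matrix.mul_apply] at h3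
      simpa [Matrix.star_apply, Matrix.one_apply] using h3
    have : ∀ p', ∑ q, star ((F k).u j q p) * ((F k).u j q p' *
        (g : List (Lt F) → ℂ) (⟨k, p', c⟩ :: W)) =
        (if p = p' then 1 else 0) * (g : List (Lt F) → ℂ) (⟨k, p', c⟩ :: W) := by
      intro p'
      rw [← hu p', Finset.sum_mul]
      refine Finset.sum_congr rfl fun q _ => ?_
      ring
    simp only [this]
    simp

theorem uu_mul_star_uu (h : IsOpr F opr) (j : ℕ) : uu opr j * star (uu opr j) = 1 := by
  apply ContinuousLinearMap.ext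
  intro g
  apply hil_ext
  intro W
  have h1 : (uu opr j * star (uu opr j)) g = uu opr j (star (uu opr j) g) := rfl
  rw [h1]
  cases W with
  | nil => rw [uu_nil h, star_uu_nil h]; rfl
  | cons b W =>
    obtain ⟨k, p, c⟩ := b
    rw [uu_cons h]
    simp only [star_uu_cons h, Finset.mul_sum]
    rw [Finset.sum_comm]
    have hu : ∀ p', ∑ q, (F k).u j p q * star ((F k).u j p' q) = if p = p' then 1 else 0 := by
      intro p'
      have h2 := (Matrix.mem_unitaryGroup_iff).mp ((F k).uni j)
      have h3 := congrFun (congrFun h2 p) p'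
      rw [Matrix.mul_apply] at h3
      simpa [Matrix.star_apply, Matrix.one_apply] using h3
    have : ∀ p', ∑ q, (F k).u j p q * (star ((F k).u j p' q) *
        (g : List (Lt F) → ℂ) (⟨k, p', c⟩ :: W)) =
        (if p = p' then 1 else 0) * (g : List (Lt F) → ℂ) (⟨k, p', c⟩ :: W) := by
      intro p'
      rw [← hu p', Finset.sum_mul]
      refine Finset.sum_congr rfl fun q _ => ?_
      ring
    simp only [this]
    simp

theorem uu_mul_cr (h : IsOpr F opr) (j : ℕ) (k : κ) (p : Fin (F k).n) (c : ℕ) :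
    uu opr j * cr opr ⟨k, p, c⟩ = ∑ p', (F k).u j p' p • cr opr ⟨k, p', c⟩ := by
  classical
  apply ContinuousLinearMap.ext
  intro g
  apply hil_ext
  intro W
  have h1 : (uu opr j * cr opr ⟨k, p, c⟩) g = uu opr j (cr opr ⟨k, p, c⟩ g) := rfl
  rw [h1]
  have h2 : (((∑ p', (F k).u j p' p • cr opr ⟨k, p', c⟩ : Hil F →L[ℂ] Hil F) g : Hil F) :
      List (Lt F) → ℂ) W = ∑ p', (F k).u j p' p * (cr opr ⟨k, p', c⟩ g : List (Lt F) → ℂ) W := by
    rw [ContinuousLinearMap.sum_apply, lp.coeFn_sum, Finset.sum_apply]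
    refine Finset.sum_congr rfl fun q _ => ?_
    simp
  rw [h2]
  cases W with
  | nil =>
    rw [uu_nil h, cr_nil h]
    symm
    apply Finset.sum_eq_zero
    intro q _
    rw [cr_nil h, mul_zero]
  | cons b W =>
    obtain ⟨k', q, c'⟩ := b
    rw [uu_cons h]
    simp only [cr_cons h]
    by_cases hk : k = k'
    · subst hk
      by_cases hc : c = c'
      · subst hc
        simp
      · have : ∀ a b : Fin (F k).n, ((⟨k, (a, c)⟩ : Lt F) = ⟨k, (b, c')⟩) = False := by
          intro a b
          simp [hc]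
        simp [this]
    · have : ∀ (a : Fin (F k).n) (b : Fin (F k').n), ((⟨k, (a, c)⟩ : Lt F) = ⟨k', (b, c')⟩) = False := by
        intro a b
        simp [hk]
      simp [this]

end NI

end Pool.Agent.H299_Opp
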