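import Pool.Agent.H299_Opp.Stubs

/-!
# NI2: cross gap
-/

set_option autoImplicit false

open scoped BigOperators Matrix InnerProductSpace

noncomputable section

namespace Pool.Agent.H299_Opp

namespace NI

theorem hs2_nonneg {m n : Type} [Fintype m] [Fintype n] (M : Matrix m n ℂ) : 0 ≤ hs2 M :=
  Finset.sum_nonneg fun _ _ => Finset.sum_nonneg fun _ _ => by positivity

theorem hs2_conjTranspose {m n : Type} [Fintype m] [Fintype n] (M : Matrix m n ℂ) :
    hs2 Mᴴ = hs2 M := by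
  unfold hs2
  rw [Finset.sum_comm]
  simp [Matrix.conjTranspose_apply]

theorem hs2_smul {m n : Type} [Fintype m] [Fintype n] (c : ℂ) (M : Matrix m n ℂ) :
    hs2 (c • M) = ‖c‖ ^ 2 * hs2 M := by
  unfold hs2
  simp only [Finset.mul_sum, Matrix.smul_apply, smul_eq_mul, norm_mul, mul_pow]

theorem hs2_eq_zero {m n : Type} [Fintype m] [Fintype n] {M : Matrix m n ℂ} (h : hs2 M = 0) :
    M = 0 := by
  ext i j
  unfold hs2 at h
  rw [Finset.sum_eq_zero_iff_of_nonneg (fun _ _ => Finset.sum_nonneg fun _ _ => by positivity)] at h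
  have h1 := h i (Finset.mem_univ _)
  rw [Finset.sum_eq_zero_iff_of_nonneg (fun _ _ => by positivity)] at h1
  have h2 := h1 j (Finset.mem_univ _)
  simpa using h2

theorem trace_conjTranspose_mul {m n : Type} [Fintype m] [Fintype n] (M : Matrix m n ℂ) :
    (Mᴴ * M).trace = ((hs2 M : ℝ) : ℂ) := by
  unfold hs2
  simp only [Matrix.trace, Matrix.diag, Matrix.mul_apply, Matrix.conjTranspose_apply]
  rw [Finset.sum_comm]
  push_cast
  refine Finset.sum_congr rfl fun i _ => Finset.sum_congr rfl fun j _ => ?_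
  rw [Complex.star_def, Complex.conj_mul']

theorem hs2_eq_trace {m n : Type} [Fintype m] [Fintype n] (M : Matrix m n ℂ) :
    hs2 M = ((Mᴴ * M).trace).re := by
  rw [trace_conjTranspose_mul]; simp

/-- left multiplication by a unitary -/
theorem hs2_unitary_mul {m n : Type} [Fintype m] [Fintype n] [DecidableEq m] (U : Matrix m m ℂ)
    (hU : U ∈ Matrix.unitaryGroup m ℂ) (M : Matrix m n ℂ) : hs2 (U * M) = hs2 M := by
  rw [hs2_eq_trace, hs2_eq_trace, Matrix.conjTranspose_mul]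
  have h : Mᴴ * Uᴴ * (U * M) = Mᴴ * M := by
    rw [Matrix.mul_assoc, ← Matrix.mul_assoc Uᴴ]
    have : Uᴴ * U = 1 := (Matrix.mem_unitaryGroup_iff').mp hU
    rw [this, Matrix.one_mul]
  rw [h]

theorem hs2_mul_unitary {m n : Type} [Fintype m] [Fintype n] [DecidableEq n] (U : Matrix n n ℂ)
    (hU : U ∈ Matrix.unitaryGroup n ℂ) (M : Matrix m n ℂ) : hs2 (M * U) = hs2 M := by
  rw [← hs2_conjTranspose (M * U), Matrix.conjTranspose_mul, hs2_unitary_mul, hs2_conjTranspose]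
  have : Uᴴ = star U := rfl
  rw [this]
  simpa using hU

theorem star_mem_unitary {n : ℕ} {U : Matrix (Fin n) (Fin n) ℂ}
    (hU : U ∈ Matrix.unitaryGroup (Fin n) ℂ) : Uᴴ ∈ Matrix.unitaryGroup (Fin n) ℂ := by
  have : Uᴴ = star U := rfl
  rw [this]
  simpa using hU

theorem conj_mem_unitary {n : ℕ} {U : Matrix (Fin n) (Fin n) ℂ}
    (hU : U ∈ Matrix.unitaryGroup (Fin n) ℂ) : U.map star ∈ Matrix.unitaryGroup (Fin n) ℂ := by
  rw [Matrix.mem_unitaryGroup_iff]
  have h1 := (Matrix.mem_unitaryGroup_iff).mp hU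
  ext i j
  have h2 := congrArg star (congrFun (congrFun h1 i) j)
  rw [Matrix.mul_apply] at h2 ⊢
  simp only [Matrix.star_apply, Matrix.map_apply, star_star, star_sum, star_mul'] at h2 ⊢
  rw [h2, Matrix.one_apply]
  split_ifs <;> simp

/-- a gap tuple, adjoint -/
theorem gap_star {n : ℕ} {g : Fin 4 → Matrix (Fin n) (Fin n) ℂ} (hg : Gap g) :
    Gap (fun s => (g s)ᴴ) := by
  refine ⟨fun s => star_mem_unitary (hg.1 s), fun y => ?_⟩
  refine (hg.2 y).trans ?_
  apply le_of_eq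
  congr 1
  refine Finset.sum_congr rfl fun s _ => ?_
  have hU := (Matrix.mem_unitaryGroup_iff').mp (hg.1 s)
  have hU' := (Matrix.mem_unitaryGroup_iff).mp (hg.1 s)
  have h1 : (g s)ᴴ * y - y * (g s)ᴴ = (g s)ᴴ * ((y * g s - g s * y) * (g s)ᴴ) := by
    have e1 : (g s)ᴴ * g s = 1 := hU
    have e2 : g s * (g s)ᴴ = 1 := hU'
    rw [Matrix.sub_mul, Matrix.mul_sub, Matrix.mul_assoc y, e2, Matrix.mul_one,
      Matrix.mul_assoc (g s), ← Matrix.mul_assoc _ (g s), e1, Matrix.one_mul]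
  rw [h1, hs2_unitary_mul _ (star_mem_unitary (hg.1 s)),
    hs2_mul_unitary _ (star_mem_unitary (hg.1 s))]
  have : g s * y - y * g s = (-1 : ℂ) • (y * g s - g s * y) := by
    simp
  rw [this, hs2_smul]
  simp

theorem nb_unitary {n : ℕ} {U : Matrix (Fin n) (Fin n) ℂ}
    (hU : U ∈ Matrix.unitaryGroup (Fin n) ℂ) : nb (1 + eps1) U := by
  intro x
  have h1 : ∑ i, ‖(U.mulVec x) i‖ ^ 2 = ∑ i, ‖x i‖ ^ 2 := by
    have h2 := hs2_unitary_mul U hU (Matrix.replicateCol (Fin 1) x)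
    unfold hs2 at h2
    simpa [Matrix.mul_apply, Matrix.mulVec, dotProduct] using h2
  rw [h1]
  have h3 : 0 ≤ ∑ i, ‖x i‖ ^ 2 := by positivity
  have h4 : (1 : ℝ) ≤ (1 + eps1) ^ 2 := by unfold eps1; norm_num
  nlinarith

/-- one direction of the cross gap -/
theorem cross_one (hRL : S_RL) {n n' : ℕ} (hn : 0 < n) {g : Fin 4 → Matrix (Fin n) (Fin n) ℂ}
    (hg : Gap g) {u : Fin 4 → Matrix (Fin n') (Fin n') ℂ}
    (hu : ∀ s, u s ∈ Matrix.unitaryGroup (Fin n') ℂ) (M : Matrix (Fin n') (Fin n) ℂ)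
    (hM : 0 < hs2 M) (h : ∑ s, hs2 (u s * M * (g s)ᴴ - M) ≤ kap1 * hs2 M) : n ≤ 2 * n' := by
  have hc : (0 : ℝ) < Real.sqrt (hs2 M) := Real.sqrt_pos.mpr hM
  let c : ℂ := ((Real.sqrt (hs2 M))⁻¹ : ℝ)
  have hcn : ‖c‖ ^ 2 = (hs2 M)⁻¹ := by
    simp only [c, Complex.norm_real, Real.norm_eq_abs, abs_inv, abs_of_pos hc, inv_pow]
    rw [Real.sq_sqrt hM.le]
  have key := hRL n 1 (Fin n') hn (fun s => (g s)ᴴ) (gap_star hg) u
    (fun s => nb_unitary (hu s)) (fun _ => c • M) ?_ ?_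
  · simpa using key
  · intro i j
    rw [if_pos (Subsingleton.elim _ _)]
    rw [trace_conjTranspose_mul, hs2_smul, hcn, inv_mul_cancel₀ hM.ne']
    simp
  · simp only [Fin.sum_univ_one, Nat.cast_one, mul_one]
    have : ∀ s, hs2 (u s * (c • M) * (g s)ᴴ - c • M) = (hs2 M)⁻¹ * hs2 (u s * M * (g s)ᴴ - M) := by
      intro s
      rw [← hcn, ← hs2_smul]
      congr 1
      rw [Matrix.mul_smul, Matrix.smul_mul, smul_sub]
    simp only [this]
    rw [← Finset.mul_sum]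
    calc (hs2 M)⁻¹ * ∑ s, hs2 (u s * M * (g s)ᴴ - M) ≤ (hs2 M)⁻¹ * (kap1 * hs2 M) := by
          apply mul_le_mul_of_nonneg_left h (inv_nonneg.mpr hM.le)
      _ = kap1 := by field_simp

/-- cross gap between two fibres -/
theorem cross (hRL : S_RL) (f f' : Fib) (hf : Gap f.four) (hf' : Gap f'.four)
    (M : Matrix (Fin f'.n) (Fin f.n) ℂ) (hM : 0 < hs2 M)
    (h : ∑ s : Fin 4, hs2 (f'.u s.val * M * (f.u s.val)ᴴ - M) ≤ kap1 * hs2 M) :
    f.n ≤ 2 * f'.n ∧ f'.n ≤ 2 * f.n := by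
  constructor
  · exact cross_one hRL f.pos hf (fun s => f'.uni s.val) M hM h
  · refine cross_one hRL f'.pos hf' (fun s => f.uni s.val) Mᴴ (by rwa [hs2_conjTranspose]) ?_
    rw [hs2_conjTranspose]
    refine le_trans (le_of_eq ?_) h
    refine Finset.sum_congr rfl fun s _ => ?_
    rw [← hs2_conjTranspose (f'.u s.val * M * (f.u s.val)ᴴ - M)]
    congr 1
    simp only [Matrix.conjTranspose_sub, Matrix.conjTranspose_mul, Matrix.conjTranspose_conjTranspose,
      Fib.four, Matrix.mul_assoc]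

end NI

end Pool.Agent.H299_Opp
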