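import Pool.Agent.H299_Opp.NI2

/-!
# NI3: tuples of vectors, isometries with orthogonal ranges
-/

set_option autoImplicit false

open scoped BigOperators Matrix InnerProductSpace

noncomputable section

namespace Pool.Agent.H299_Opp

namespace NI

variable {H : Type} [NormedAddCommGroup H] [InnerProductSpace ℂ H]

/-- mixing by a unitary matrix preserves the norm of a tuple -/
theorem unit_sum {N : ℕ} (a : Matrix (Fin N) (Fin N) ℂ) (ha : a ∈ Matrix.unitaryGroup (Fin N) ℂ)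
    (v : Fin N → H) : ∑ q, ‖∑ p, a p q • v p‖ ^ 2 = ∑ p, ‖v p‖ ^ 2 := by
  have h1 : ∀ p p', ∑ q, star (a p q) * a p' q = if p = p' then 1 else 0 := by
    intro p p'
    have h2 := congrFun (congrFun ((Matrix.mem_unitaryGroup_iff).mp ha) p') p
    rw [Matrix.mul_apply] at h2
    rw [Matrix.one_apply] at h2
    simp only [Matrix.star_apply] at h2
    rw [show (if p = p' then (1 : ℂ) else 0) = if p' = p then 1 else 0 by simp [eq_comm], ← h2]
    refine Finset.sum_congr rfl fun q _ => mul_comm _ _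
  have h2 : ((∑ q, ‖∑ p, a p q • v p‖ ^ 2 : ℝ) : ℂ) = ((∑ p, ‖v p‖ ^ 2 : ℝ) : ℂ) := by
    push_cast
    have e1 : ∀ x : H, ((‖x‖ : ℂ)) ^ 2 = ⟪x, x⟫_ℂ := fun x => (inner_self_eq_norm_sq_to_K x).symm
    simp only [e1, sum_inner, inner_sum, inner_smul_left, inner_smul_right]
    rw [Finset.sum_comm]
    refine Finset.sum_congr rfl fun p _ => ?_
    simp only [Finset.mul_sum]
    rw [Finset.sum_comm]
    have : ∀ p', ∑ q, a p q * ((starRingEnd ℂ) (a p' q) * ⟪v p', v p⟫_ℂ) =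
        (if p' = p then 1 else 0) * ⟪v p', v p⟫_ℂ := by
      intro p'
      rw [← h1 p' p, Finset.sum_mul]
      refine Finset.sum_congr rfl fun q _ => ?_
      rw [← mul_assoc, mul_comm (a p q)]; rfl
    simp only [this]
    simp
  exact_mod_cast h2

variable [CompleteSpace H]

/-- isometries with orthogonal ranges -/
def Orth {N : ℕ} (r : Fin N → H →L[ℂ] H) : Prop :=
  ∀ p q, star (r p) * r q = if p = q then 1 else 0

theorem orth_star_sum {N : ℕ} {r : Fin N → H →L[ℂ] H} (hr : Orth r) (τ : Fin N → H) (q : Fin N) :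
    star (r q) (∑ p, r p (τ p)) = τ q := by
  rw [map_sum]
  have : ∀ p, star (r q) (r p (τ p)) = if q = p then τ p else 0 := by
    intro p
    have h1 : star (r q) (r p (τ p)) = (star (r q) * r p) (τ p) := rfl
    rw [h1, hr]
    split_ifs <;> simp
  simp [this]

theorem orth_norm {N : ℕ} {r : Fin N → H →L[ℂ] H} (hr : Orth r) (τ : Fin N → H) :
    ‖∑ p, r p (τ p)‖ ^ 2 = ∑ p, ‖τ p‖ ^ 2 := by
  have h2 : ((‖∑ p, r p (τ p)‖ ^ 2 : ℝ) : ℂ) = ((∑ p, ‖τ p‖ ^ 2 : ℝ) : ℂ) := by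
    push_cast
    have e1 : ∀ x : H, ((‖x‖ : ℂ)) ^ 2 = ⟪x, x⟫_ℂ := fun x => (inner_self_eq_norm_sq_to_K x).symm
    rw [e1]
    simp only [e1]
    rw [sum_inner]
    refine Finset.sum_congr rfl fun p _ => ?_
    rw [← ContinuousLinearMap.adjoint_inner_right, ← ContinuousLinearMap.star_eq_adjoint,
      orth_star_sum hr]
  exact_mod_cast h2

theorem orth_star_le {N : ℕ} {r : Fin N → H →L[ℂ] H} (hr : Orth r) (η : H) :
    ∑ p, ‖star (r p) η‖ ^ 2 ≤ ‖η‖ ^ 2 := by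
  set S := ∑ p, ‖star (r p) η‖ ^ 2 with hS
  have hS0 : 0 ≤ S := by positivity
  have h1 : ‖∑ p, r p (star (r p) η)‖ ^ 2 = S := orth_norm hr _
  have h2 : S = (⟪η, ∑ p, r p (star (r p) η)⟫_ℂ).re := by
    rw [inner_sum]
    have : ∀ p, ⟪η, r p (star (r p) η)⟫_ℂ = ((‖star (r p) η‖ : ℂ)) ^ 2 := by
      intro p
      rw [← ContinuousLinearMap.adjoint_inner_left, ← ContinuousLinearMap.star_eq_adjoint]
      exact inner_self_eq_norm_sq_to_K _
    simp only [this, hS]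
    rw [Complex.re_sum]
    refine Finset.sum_congr rfl fun p _ => ?_
    rw [← Complex.ofReal_pow, Complex.ofReal_re]
  have h3 : S ≤ ‖η‖ * Real.sqrt S := by
    calc S = (⟪η, ∑ p, r p (star (r p) η)⟫_ℂ).re := h2
      _ ≤ ‖⟪η, ∑ p, r p (star (r p) η)⟫_ℂ‖ := Complex.re_le_norm _
      _ ≤ ‖η‖ * ‖∑ p, r p (star (r p) η)‖ := norm_inner_le_norm _ _
      _ = ‖η‖ * Real.sqrt S := by
        rw [← h1, Real.sqrt_sq (norm_nonneg _)]
  by_cases h0 : S = 0
  · rw [h0]; positivity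
  · have hpos : 0 < Real.sqrt S := Real.sqrt_pos.mpr (lt_of_le_of_ne hS0 (Ne.symm h0))
    have h4 : Real.sqrt S ≤ ‖η‖ := by
      have : Real.sqrt S * Real.sqrt S ≤ ‖η‖ * Real.sqrt S := by
        rw [Real.mul_self_sqrt hS0]; exact h3
      exact le_of_mul_le_mul_right this hpos
    calc S = Real.sqrt S ^ 2 := (Real.sq_sqrt hS0).symm
      _ ≤ ‖η‖ ^ 2 := by gcongr

/-- the operator `∑ t_p t_p^* + ∑ c_s(p,q) t_p y_s t_q^*` -/
def ZZ {N : ℕ} (t : Fin N → H →L[ℂ] H) (y : Fin 4 → H →L[ℂ] H) (c : Fin 4 → Fin N → Fin N → ℂ) :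
    H →L[ℂ] H :=
  ∑ p, t p * star (t p) + ∑ s, ∑ p, ∑ q, c s p q • (t p * y s * star (t q))

theorem ZZ_apply {N : ℕ} (t : Fin N → H →L[ℂ] H) (y : Fin 4 → H →L[ℂ] H)
    (c : Fin 4 → Fin N → Fin N → ℂ) (η : H) :
    ZZ t y c η = ∑ p, t p (star (t p) η + ∑ s, ∑ q, c s p q • y s (star (t q) η)) := by
  unfold ZZ
  simp only [ContinuousLinearMap.add_apply, ContinuousLinearMap.sum_apply, map_add,
    Finset.sum_add_distrib]
  congr 1
  rw [Finset.sum_comm]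
  refine Finset.sum_congr rfl fun p _ => ?_
  simp only [map_sum, map_smul]
  rfl

/-- Euclidean norm of a tuple -/
def tn {N : ℕ} (τ : Fin N → H) : ℝ := Real.sqrt (∑ p, ‖τ p‖ ^ 2)

theorem tn_eq {N : ℕ} (τ : Fin N → H) :
    tn τ = ‖(WithLp.toLp 2 τ : PiLp 2 (fun _ : Fin N => H))‖ := by
  unfold tn
  rw [PiLp.norm_eq_of_L2]

theorem tn_add {N : ℕ} (τ σ : Fin N → H) : tn (τ + σ) ≤ tn τ + tn σ := by
  rw [tn_eq, tn_eq, tn_eq, WithLp.toLp_add]
  exact norm_add_le _ _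

theorem tn_neg {N : ℕ} (τ : Fin N → H) : tn (-τ) = tn τ := by
  unfold tn
  simp only [Pi.neg_apply, norm_neg]

theorem tn_sub_le {N : ℕ} (τ σ : Fin N → H) : tn τ - tn σ ≤ tn (τ - σ) := by
  rw [tn_eq, tn_eq, tn_eq, WithLp.toLp_sub]
  exact norm_sub_norm_le _ _

theorem tn_sum {N : ℕ} {ι : Type} (s : Finset ι) (τ : ι → Fin N → H) :
    tn (∑ i ∈ s, τ i) ≤ ∑ i ∈ s, tn (τ i) := by
  classical
  induction s using Finset.induction_on with
  | empty => simp [tn]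
  | insert i s hi ih =>
    rw [Finset.sum_insert hi, Finset.sum_insert hi]
    exact (tn_add _ _).trans (add_le_add le_rfl ih)

theorem tn_nonneg {N : ℕ} (τ : Fin N → H) : 0 ≤ tn τ := Real.sqrt_nonneg _

theorem tn_sq {N : ℕ} (τ : Fin N → H) : tn τ ^ 2 = ∑ p, ‖τ p‖ ^ 2 :=
  Real.sq_sqrt (by positivity)

theorem tn_smul {N : ℕ} (c : ℝ) (hc : 0 ≤ c) (τ : Fin N → H) :
    tn (fun p => (c : ℂ) • τ p) = c * tn τ := by
  unfold tn
  have : ∑ p, ‖(c : ℂ) • τ p‖ ^ 2 = c ^ 2 * ∑ p, ‖τ p‖ ^ 2 := by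
    rw [Finset.mul_sum]
    refine Finset.sum_congr rfl fun p _ => ?_
    rw [norm_smul, mul_pow]
    simp
  rw [this, Real.sqrt_mul (by positivity), Real.sqrt_sq hc]

/-- parallelogram law for tuples -/
theorem tn_parallelogram {N : ℕ} (τ σ : Fin N → H) :
    tn (τ + σ) ^ 2 + tn (τ - σ) ^ 2 = 2 * (tn τ ^ 2 + tn σ ^ 2) := by
  rw [tn_eq, tn_eq, tn_eq, tn_eq, WithLp.toLp_sub, WithLp.toLp_add]
  have := parallelogram_law_with_norm ℂ (WithLp.toLp 2 τ : PiLp 2 (fun _ : Fin N => H))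
    (WithLp.toLp 2 σ)
  nlinarith [this]

/-- lower bound of the norm of `ZZ` from a nearly invariant tuple -/
theorem ZZ_low {N : ℕ} {t : Fin N → H →L[ℂ] H} (ht : Orth t) (y : Fin 4 → H →L[ℂ] H)
    (c : Fin 4 → Fin N → Fin N → ℂ) (T : Fin N → H) (hT : ∑ p, ‖T p‖ ^ 2 = 1) (dl : ℝ)
    (h : ∀ s, tn (fun p => (∑ q, c s p q • y s (T q)) - T p) ≤ dl) :
    5 - 4 * dl ≤ ‖ZZ t y c‖ := by
  set η := ∑ p, t p (T p) with hη
  have hη1 : ‖η‖ = 1 := by
    have : ‖η‖ ^ 2 = 1 := by rw [hη, orth_norm ht, hT]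
    nlinarith [norm_nonneg η, sq_nonneg (‖η‖ - 1)]
  have h1 : ‖ZZ t y c η‖ = tn (fun p => T p + ∑ s, ∑ q, c s p q • y s (T q)) := by
    rw [ZZ_apply]
    simp only [hη, orth_star_sum ht]
    have := orth_norm ht (fun p => T p + ∑ s, ∑ q, c s p q • y s (T q))
    unfold tn
    rw [← this, Real.sqrt_sq (norm_nonneg _)]
  have h2 : ‖ZZ t y c η‖ ≤ ‖ZZ t y c‖ := by
    have := (ZZ t y c).le_opNorm η
    rwa [hη1, mul_one] at this
  refine le_trans ?_ h2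
  rw [h1]
  have hT1 : tn T = 1 := by unfold tn; rw [hT, Real.sqrt_one]
  have h3 : (fun p => T p + ∑ s, ∑ q, c s p q • y s (T q)) =
      (fun p => ((5 : ℝ) : ℂ) • T p) - (-∑ s : Fin 4, fun p => (∑ q, c s p q • y s (T q)) - T p) := by
    ext1 p
    simp only [Pi.sub_apply, Pi.neg_apply, Finset.sum_apply, Finset.sum_sub_distrib,
      Finset.sum_const, Finset.card_univ, Fintype.card_fin]
    have : ((5 : ℝ) : ℂ) • T p = T p + (4 : ℕ) • T p := by
      rw [show ((5 : ℝ) : ℂ) = 1 + ((4 : ℕ) : ℂ) by push_cast; norm_num, add_smul, one_smul,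
        Nat.cast_smul_eq_nsmul]
    rw [this]
    abel
  rw [h3]
  refine le_trans ?_ (tn_sub_le _ _)
  rw [tn_smul 5 (by norm_num), hT1]
  have h4 : tn (-∑ s : Fin 4, fun p => (∑ q, c s p q • y s (T q)) - T p) ≤ 4 * dl := by
    rw [tn_neg]
    refine (tn_sum _ _).trans ?_
    refine (Finset.sum_le_sum fun s _ => h s).trans ?_
    simp
  linarith

/-- a nearly invariant tuple from the norm of the transposed operator -/
theorem ZZ_up {N : ℕ} {r : Fin N → H →L[ℂ] H} (hr : Orth r) (u : Fin 4 → H →L[ℂ] H)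
    (hu : ∀ s, ‖u s‖ ≤ 1) (a : Fin 4 → Matrix (Fin N) (Fin N) ℂ)
    (ha : ∀ s, a s ∈ Matrix.unitaryGroup (Fin N) ℂ) (c : ℝ) (hc0 : 0 ≤ c) (hc : c ≤ 1)
    (hZ : 5 - c < ‖ZZ r u (fun s q p => a s p q)‖) :
    ∃ ξ : Fin N → H, 1 / 2 ≤ tn ξ ∧ tn ξ ≤ 1 ∧
      ∀ s, tn (fun q => (∑ p, a s p q • u s (ξ p)) - ξ q) ^ 2 ≤ 4 * c := by
  obtain ⟨η, hη, hZη⟩ := ContinuousLinearMap.exists_lt_apply_of_lt_opNorm _ hZ
  set ξ : Fin N → H := fun p => star (r p) η with hξ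
  have hξ1 : tn ξ ≤ 1 := by
    have h1 : tn ξ ^ 2 ≤ 1 := by
      rw [tn_sq]
      refine (orth_star_le hr η).trans ?_
      nlinarith [norm_nonneg η]
    nlinarith [tn_nonneg ξ]
  let w : Fin 4 → Fin N → H := fun s q => ∑ p, a s p q • u s (ξ p)
  have hw : ∀ s, tn (w s) ≤ tn ξ := by
    intro s
    unfold tn
    apply Real.sqrt_le_sqrt
    have := unit_sum (a s) (ha s) (fun p => u s (ξ p))
    simp only [w]
    rw [this]
    refine Finset.sum_le_sum fun p _ => ?_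
    have h1 : ‖u s (ξ p)‖ ≤ ‖ξ p‖ := by
      refine ((u s).le_opNorm _).trans ?_
      calc ‖u s‖ * ‖ξ p‖ ≤ 1 * ‖ξ p‖ := by gcongr; exact hu s
        _ = ‖ξ p‖ := one_mul _
    gcongr
  have h1 : ‖ZZ r u (fun s q p => a s p q) η‖ = tn (ξ + ∑ s, w s) := by
    rw [ZZ_apply]
    have := orth_norm hr (fun q => star (r q) η + ∑ s, ∑ p, a s p q • u s (star (r p) η))
    unfold tn
    have e : (ξ + ∑ s, w s) = fun q => star (r q) η + ∑ s, ∑ p, a s p q • u s (star (r p) η) := by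
      ext1 q
      simp [w, hξ]
    rw [e, ← this, Real.sqrt_sq (norm_nonneg _)]
  rw [h1] at hZη
  have h5 : tn (ξ + ∑ s, w s) ≤ 5 * tn ξ := by
    refine (tn_add _ _).trans ?_
    have := (tn_sum Finset.univ w).trans (Finset.sum_le_sum fun s _ => hw s)
    simp only [Finset.sum_const, Finset.card_univ, Fintype.card_fin, nsmul_eq_mul] at this
    push_cast at this
    linarith
  refine ⟨ξ, by linarith, hξ1, fun s => ?_⟩
  have h6 : 2 - c ≤ tn (w s + ξ) := by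
    have e : ξ + ∑ s, w s = (w s + ξ) + ∑ s' ∈ Finset.univ.erase s, w s' := by
      rw [← Finset.add_sum_erase _ _ (Finset.mem_univ s)]
      abel
    have h7 := tn_add (w s + ξ) (∑ s' ∈ Finset.univ.erase s, w s')
    rw [← e] at h7
    have h8 : tn (∑ s' ∈ Finset.univ.erase s, w s') ≤ 3 * tn ξ := by
      refine (tn_sum _ _).trans ((Finset.sum_le_sum fun s' _ => hw s').trans ?_)
      simp
    linarith
  have h7 := tn_parallelogram (w s) ξ
  have h8 : (fun q => (∑ p, a s p q • u s (ξ p)) - ξ q) = w s - ξ := rfl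
  rw [h8]
  have h9 : tn (w s) ^ 2 ≤ 1 := by nlinarith [tn_nonneg (w s), hw s]
  have h10 : tn ξ ^ 2 ≤ 1 := by nlinarith [tn_nonneg ξ]
  nlinarith [tn_nonneg (w s + ξ)]

end NI

end Pool.Agent.H299_Opp
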