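import Pool.Agent.H299_Opp.NI1
import Pool.Agent.H299_Opp.NI3
import Pool.Agent.H299_Opp.Tools

/-!
# NI4: a nearly invariant tuple in the Fock space gives a nearly invariant matrix in a fibre
-/

set_option autoImplicit false

open scoped BigOperators Matrix InnerProductSpace

noncomputable section

namespace Pool.Agent.H299_Opp

namespace NI

variable {κ : Type} {F : κ → Fib} {opr : El F → (Hil F →L[ℂ] Hil F)}

theorem ofReal_tn_sq {N : ℕ} (ξ : Fin N → Hil F) :
    ENNReal.ofReal (tn ξ ^ 2) =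
      ∑' W, ∑ q, ENNReal.ofReal (‖(ξ q : List (Lt F) → ℂ) W‖ ^ 2) := by
  rw [tn_sq, ENNReal.ofReal_sum_of_nonneg (fun _ _ => by positivity)]
  simp only [Tools.ofReal_norm_sq]
  rw [Tools.tsum_finset_comm]

theorem sum_coe_apply {ι : Type} (s : Finset ι) (c : ι → ℂ) (g : ι → Hil F) (W : List (Lt F)) :
    ((∑ i ∈ s, c i • g i : Hil F) : List (Lt F) → ℂ) W =
      ∑ i ∈ s, c i * (g i : List (Lt F) → ℂ) W := by
  rw [lp.coeFn_sum, Finset.sum_apply]
  rfl

/-- contrapositive of the cross gap, for all matrices -/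
theorem cross_low (hRL : S_RL) (f f' : Fib) (hf : Gap f.four) (hf' : Gap f'.four)
    (hne : ¬ (f.n ≤ 2 * f'.n ∧ f'.n ≤ 2 * f.n)) (M : Matrix (Fin f'.n) (Fin f.n) ℂ) :
    kap1 * hs2 M ≤ ∑ s : Fin 4, hs2 (f'.u s.val * M * (f.u s.val)ᴴ - M) := by
  by_contra hcon
  push Not at hcon
  rcases eq_or_lt_of_le (hs2_nonneg M) with h0 | h0
  · rw [← h0, mul_zero] at hcon
    exact absurd (Finset.sum_nonneg fun s _ => hs2_nonneg _) (not_le.mpr hcon)
  · exact hne (cross hRL f f' hf hf' M h0 hcon.le)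

theorem ofReal_hs2 {m n : Type} [Fintype m] [Fintype n] (M : Matrix m n ℂ) :
    ENNReal.ofReal (hs2 M) = ∑ p, ∑ q, ENNReal.ofReal (‖M p q‖ ^ 2) := by
  unfold hs2
  rw [ENNReal.ofReal_sum_of_nonneg (fun _ _ => Finset.sum_nonneg fun _ _ => by positivity)]
  refine Finset.sum_congr rfl fun p _ => ?_
  rw [ENNReal.ofReal_sum_of_nonneg (fun _ _ => by positivity)]

theorem comp_exists (h : IsOpr F opr) (hRL : S_RL) (k0 : κ) (hn0 : (F k0).n = 1)
    (hu0 : ∀ j, (F k0).u j = 1) (hgap : ∀ k, Gap (F k).four) (f : Fib) (hf : Gap f.four)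
    (ξ : Fin f.n → Hil F)
    (hξ : ∑ s : Fin 4, tn (fun q => (∑ p, ((f.u s.val)ᴴ) p q • uu opr s.val (ξ p)) - ξ q) ^ 2 <
      kap1 * tn ξ ^ 2) :
    ∃ k, f.n ≤ 2 * (F k).n ∧ (F k).n ≤ 2 * f.n := by
  by_contra hcon
  push Not at hcon
  have hcon' : ∀ k, ¬ (f.n ≤ 2 * (F k).n ∧ (F k).n ≤ 2 * f.n) := by
    intro k hk
    exact absurd hk.2 (not_le.mpr (hcon k hk.1))
  apply absurd hξ
  rw [not_lt]
  have hk1 : (0 : ℝ) ≤ kap1 := by unfold kap1; positivity
  rw [← ENNReal.ofReal_le_ofReal_iff (Finset.sum_nonneg fun s _ => by positivity),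
    ENNReal.ofReal_mul hk1, ENNReal.ofReal_sum_of_nonneg (fun s _ => by positivity)]
  simp only [ofReal_tn_sq]
  rw [Tools.tsum_finset_comm, ← ENNReal.tsum_mul_left, Tools.tsum_words, Tools.tsum_words]
  -- the value of the error term
  have hval : ∀ (s : Fin 4) (q : Fin f.n) (W : List (Lt F)),
      (((∑ p, ((f.u s.val)ᴴ) p q • uu opr s.val (ξ p)) - ξ q : Hil F) : List (Lt F) → ℂ) W =
        (∑ p, ((f.u s.val)ᴴ) p q * (uu opr s.val (ξ p) : List (Lt F) → ℂ) W) -
          (ξ q : List (Lt F) → ℂ) W := by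
    intro s q W
    rw [lp.coeFn_sub, Pi.sub_apply, sum_coe_apply]
  refine add_le_add ?_ ?_
  · -- the empty word
    let M : Matrix (Fin (F k0).n) (Fin f.n) ℂ := fun _ q => (ξ q : List (Lt F) → ℂ) []
    have h1 := cross_low hRL f (F k0) hf (hgap k0) (hcon' k0) M
    rw [← ENNReal.ofReal_le_ofReal_iff (Finset.sum_nonneg fun s _ => hs2_nonneg _),
      ENNReal.ofReal_mul hk1, ENNReal.ofReal_sum_of_nonneg (fun s _ => hs2_nonneg _)] at h1
    simp only [ofReal_hs2] at h1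
    have e1 : ∀ φ : Fin f.n → ENNReal, ∑ p : Fin (F k0).n, ∑ q, φ q = ∑ q, φ q := by
      intro φ
      rw [Finset.sum_const, Finset.card_univ, Fintype.card_fin, hn0, one_smul]
    have e2 : ∀ (s : Fin 4) (p : Fin (F k0).n) (q : Fin f.n),
        ((F k0).u s.val * M * (f.u s.val)ᴴ - M) p q =
        (((∑ p, ((f.u s.val)ᴴ) p q • uu opr s.val (ξ p)) - ξ q : Hil F) : List (Lt F) → ℂ) [] := by
      intro s p q
      rw [hval, hu0, Matrix.one_mul, Matrix.sub_apply, Matrix.mul_apply]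
      simp only [uu_nil h, M]
      congr 1
      refine Finset.sum_congr rfl fun _ _ => mul_comm _ _
    simp only [e2] at h1
    simp only [M] at h1
    simp only [e1] at h1
    exact h1
  · refine ENNReal.tsum_le_tsum fun k => ENNReal.tsum_le_tsum fun c =>
      ENNReal.tsum_le_tsum fun z => ?_
    let M : Matrix (Fin (F k).n) (Fin f.n) ℂ := fun p q => (ξ q : List (Lt F) → ℂ) (⟨k, p, c⟩ :: z)
    have h1 := cross_low hRL f (F k) hf (hgap k) (hcon' k) M
    rw [← ENNReal.ofReal_le_ofReal_iff (Finset.sum_nonneg fun s _ => hs2_nonneg _),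
      ENNReal.ofReal_mul hk1, ENNReal.ofReal_sum_of_nonneg (fun s _ => hs2_nonneg _)] at h1
    simp only [ofReal_hs2] at h1
    have e2 : ∀ (s : Fin 4) (p : Fin (F k).n) (q : Fin f.n),
        ((F k).u s.val * M * (f.u s.val)ᴴ - M) p q =
        (((∑ p, ((f.u s.val)ᴴ) p q • uu opr s.val (ξ p)) - ξ q : Hil F) : List (Lt F) → ℂ)
          (⟨k, p, c⟩ :: z) := by
      intro s p q
      rw [hval, Matrix.sub_apply, Matrix.mul_apply]
      simp only [uu_cons h]
      congr 1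
      refine Finset.sum_congr rfl fun p' _ => ?_
      have e3 : ((F k).u s.val * M) p p' = ∑ x, (F k).u s.val p x * M x p' := Matrix.mul_apply
      rw [e3, mul_comm]
    simp only [e2] at h1
    simp only [M] at h1
    rw [← Finset.mul_sum]
    refine h1.trans (le_of_eq ?_)
    rw [Finset.sum_comm]

end NI

end Pool.Agent.H299_Opp
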