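import Pool.Agent.H299_Opp.NI4

/-!
# NI5: anti-automorphisms; exact invariance (alpha) and rigidity (beta)
-/

set_option autoImplicit false

open scoped BigOperators Matrix InnerProductSpace

noncomputable section

namespace Pool.Agent.H299_Opp

namespace NI

theorem iso_norm_le {H : Type} [NormedAddCommGroup H] [InnerProductSpace ℂ H] [CompleteSpace H]
    (U : H →L[ℂ] H) (h : star U * U = 1) : ‖U‖ ≤ 1 := by
  have h1 : ‖(1 : H →L[ℂ] H)‖ = ‖U‖ * ‖U‖ := by
    rw [← h, CStarRing.norm_star_mul_self]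
  have h2 : ‖(1 : H →L[ℂ] H)‖ ≤ 1 := ContinuousLinearMap.norm_id_le
  nlinarith [norm_nonneg U]

section Abstract

/-- the element `∑ t_p t_p^* + ∑ c_s(p,q) t_p y_s t_q^*` of a star algebra -/
def ZG {R : Type} [Ring R] [StarRing R] [Algebra ℂ R] {N : ℕ} (t : Fin N → R) (y : Fin 4 → R)
    (c : Fin 4 → Fin N → Fin N → ℂ) : R :=
  ∑ p, t p * star (t p) + ∑ s, ∑ p, ∑ q, c s p q • (t p * y s * star (t q))

theorem map_ZG {R R' : Type} [Ring R] [StarRing R] [Algebra ℂ R] [Ring R'] [StarRing R']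
    [Algebra ℂ R'] (φ : R →⋆ₐ[ℂ] R') {N : ℕ} (t : Fin N → R) (y : Fin 4 → R)
    (c : Fin 4 → Fin N → Fin N → ℂ) :
    φ (ZG t y c) = ZG (fun p => φ (t p)) (fun s => φ (y s)) c := by
  simp only [ZG, map_add, map_sum, map_mul, map_star, map_smul]

/-- a linear isometric star-anti-endomorphism -/
structure Anti (R : Type) [NormedRing R] [StarRing R] [Algebra ℂ R] where
  θ : R → R
  add : ∀ x y, θ (x + y) = θ x + θ y
  smul : ∀ (c : ℂ) x, θ (c • x) = c • θ x
  mul : ∀ x y, θ (x * y) = θ y * θ x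
  str : ∀ x, θ (star x) = star (θ x)
  one : θ 1 = 1
  norm : ∀ x, ‖θ x‖ = ‖x‖

namespace Anti

variable {R : Type} [NormedRing R] [StarRing R] [Algebra ℂ R] (Θ : Anti R)

theorem zero : Θ.θ 0 = 0 := by
  have := Θ.smul 0 0
  simpa using this

theorem sum {ι : Type} (s : Finset ι) (x : ι → R) : Θ.θ (∑ i ∈ s, x i) = ∑ i ∈ s, Θ.θ (x i) := by
  classical
  induction s using Finset.induction_on with
  | empty => simp [Θ.zero]
  | insert i s hi ih => rw [Finset.sum_insert hi, Finset.sum_insert hi, Θ.add, ih]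

theorem zg {N : ℕ} (t : Fin N → R) (y : Fin 4 → R) (c : Fin 4 → Fin N → Fin N → ℂ) :
    Θ.θ (ZG t y c) = ZG (fun p => star (Θ.θ (t p))) (fun s => Θ.θ (y s)) (fun s q p => c s p q) := by
  unfold ZG
  rw [Θ.add, Θ.sum, Θ.sum]
  congr 1
  · refine Finset.sum_congr rfl fun p _ => ?_
    rw [Θ.mul, Θ.str, star_star]
  · refine Finset.sum_congr rfl fun s _ => ?_
    rw [Θ.sum]
    simp only [Θ.sum]
    rw [Finset.sum_comm]
    refine Finset.sum_congr rfl fun p _ => Finset.sum_congr rfl fun q _ => ?_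
    rw [Θ.smul, Θ.mul, Θ.mul, Θ.str, star_star, mul_assoc]

/-- images of isometries with orthogonal ranges -/
theorem orth {N : ℕ} (t : Fin N → R) (ht : ∀ p q, star (t p) * t q = if p = q then 1 else 0)
    (p q : Fin N) :
    star (star (Θ.θ (t p))) * star (Θ.θ (t q)) = if p = q then 1 else 0 := by
  rw [star_star, ← Θ.str, ← Θ.mul, ht]
  by_cases hpq : p = q
  · subst hpq; simp [Θ.one]
  · rw [if_neg (fun hh => hpq hh.symm), if_neg hpq, Θ.zero]

/-- (alpha), abstract form -/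
theorem alpha [StarModule ℂ R] {n : ℕ} (t : Fin n → R) (w : R) (u : Matrix (Fin n) (Fin n) ℂ)
    (hw : star w * w = 1) (hrel : ∀ p, w * t p = ∑ p', u p' p • t p') (q : Fin n) :
    ∑ p, star (u p q) • (Θ.θ w * star (Θ.θ (t p))) = star (Θ.θ (t q)) := by
  have h1 : Θ.θ (t q) * Θ.θ w = ∑ p, u p q • Θ.θ (t p) := by
    rw [← Θ.mul, hrel, Θ.sum]
    simp only [Θ.smul]
  have h2 := congrArg star h1
  rw [star_mul, star_sum] at h2
  simp only [star_smul] at h2
  have h3 : Θ.θ w * star (Θ.θ w) = 1 := by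
    rw [← Θ.str, ← Θ.mul, hw, Θ.one]
  have h4 := congrArg (fun x => Θ.θ w * x) h2
  simp only [← mul_assoc, h3, one_mul, Finset.mul_sum, mul_smul_comm] at h4
  exact h4.symm

end Anti

/-- the anti-automorphism of an isomorphism with the opposite algebra -/
def antiOf (R : Type) [CStarAlgebra R] (Φ : R ≃⋆ₐ[ℂ] Rᵐᵒᵖ) : Anti R where
  θ x := MulOpposite.unop (Φ x)
  add x y := by simp
  smul c x := by simp
  mul x y := by simp
  str x := congrArg MulOpposite.unop (map_star Φ x)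
  one := by simp
  norm x := by
    rw [MulOpposite.norm_unop]
    exact StarAlgEquiv.norm_map Φ x

/-- the inverse anti-automorphism -/
def antiInv (R : Type) [CStarAlgebra R] (Φ : R ≃⋆ₐ[ℂ] Rᵐᵒᵖ) : Anti R where
  θ x := Φ.symm (MulOpposite.op x)
  add x y := by simp
  smul c x := by simp
  mul x y := by simp
  str x := map_star Φ.symm (MulOpposite.op x)
  one := by simp
  norm x := by
    have h1 := StarAlgEquiv.norm_map Φ (Φ.symm (MulOpposite.op x))
    rw [← h1, StarAlgEquiv.apply_symm_apply, MulOpposite.norm_op]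

theorem anti_inv (R : Type) [CStarAlgebra R] (Φ : R ≃⋆ₐ[ℂ] Rᵐᵒᵖ) (x : R) :
    (antiOf R Φ).θ ((antiInv R Φ).θ x) = x := by
  simp [antiOf, antiInv]

end Abstract

variable {κ : Type} {F : κ → Fib} {opr : El F → (Hil F →L[ℂ] Hil F)}

/-- (beta): `j` is an isometric star homomorphism from a C*-algebra `R` to the operators, whose
range contains the generators -/
theorem beta (h : IsOpr F opr) (hRL : S_RL) (k0 : κ) (hn0 : (F k0).n = 1)
    (hu0 : ∀ j, (F k0).u j = 1) (hgap : ∀ k, Gap (F k).four)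
    {R : Type} [CStarAlgebra R] (φ : R →⋆ₐ[ℂ] (Hil F →L[ℂ] Hil F)) (hφ : ∀ x, ‖φ x‖ = ‖x‖)
    (t : Lt F → R) (ht : ∀ i, φ (t i) = cr opr i) (hinj : Function.Injective φ)
    (Θ : Anti R) (y : Fin 4 → R)
    (hy : ∀ s, φ (Θ.θ (y s)) = uu opr s.val) (f : Fib) (hf : Gap f.four) (T : Fin f.n → Hil F)
    (hT : ∑ p, ‖T p‖ ^ 2 = 1)
    (hinv : ∀ s : Fin 4, tn (fun p => (∑ q, ((f.u s.val)ᴴ) p q • φ (y s) (T q)) - T p) ≤
      (1 / 10) ^ 13) :
    ∃ k, f.n ≤ 2 * (F k).n ∧ (F k).n ≤ 2 * f.n := by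
  classical
  let i : Fin f.n → Lt F := fun p => ⟨k0, ⟨0, (F k0).pos⟩, p.val⟩
  have hi : Function.Injective i := by
    intro p q hpq
    simp only [i, Sigma.mk.injEq, heq_eq_eq, Prod.mk.injEq, true_and] at hpq
    exact Fin.ext hpq
  have hrel : ∀ p q, star (t (i p)) * t (i q) = if p = q then 1 else 0 := by
    intro p q
    apply hinj
    rw [map_mul, map_star, ht, ht, star_cr_mul_cr h]
    by_cases hpq : p = q
    · subst hpq; simp
    · rw [if_neg hpq, if_neg (fun hh => hpq (hi hh)), map_zero]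
  have hcr : Orth (fun p => cr opr (i p)) := by
    intro p q
    have h1 := congrArg φ (hrel p q)
    rw [map_mul, map_star, ht, ht] at h1
    rw [h1]
    split_ifs <;> simp
  have hor : Orth (fun p => φ (star (Θ.θ (t (i p))))) := by
    intro p q
    have h1 := congrArg φ (Θ.orth (fun p => t (i p)) hrel p q)
    rw [map_mul, map_star] at h1
    rw [h1]
    split_ifs <;> simp
  let c : Fin 4 → Fin f.n → Fin f.n → ℂ := fun s p q => ((f.u s.val)ᴴ) p q
  have hZ : φ (ZG (fun p => t (i p)) y c) = ZZ (fun p => cr opr (i p)) (fun s => φ (y s)) c := by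
    rw [map_ZG]
    simp only [ht]
    rfl
  have hZθ : φ (Θ.θ (ZG (fun p => t (i p)) y c)) =
      ZZ (fun p => φ (star (Θ.θ (t (i p))))) (fun s => uu opr s.val)
        (fun s q p => ((f.u s.val)ᴴ) p q) := by
    rw [Θ.zg, map_ZG]
    simp only [hy]
    rfl
  have hlow := ZZ_low hcr (fun s : Fin 4 => φ (y s)) c T hT ((1 / 10) ^ 13) hinv
  have hnorm : ‖ZZ (fun p => φ (star (Θ.θ (t (i p))))) (fun s : Fin 4 => uu opr s.val)
        (fun s q p => ((f.u s.val)ᴴ) p q)‖ = ‖ZZ (fun p => cr opr (i p)) (fun s => φ (y s)) c‖ := by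
    rw [← hZθ, ← hZ, hφ, hφ, Θ.norm]
  have hun : ∀ s : Fin 4, ‖uu opr s.val‖ ≤ 1 := fun s =>
    iso_norm_le _ (star_uu_mul_uu h s.val)
  have hlow' : 5 - 5 * (1 / 10 : ℝ) ^ 13 < ‖ZZ (fun p => φ (star (Θ.θ (t (i p)))))
      (fun s : Fin 4 => uu opr s.val) (fun s q p => ((f.u s.val)ᴴ) p q)‖ := by
    rw [hnorm]
    have e : (5 : ℝ) - 5 * (1 / 10) ^ 13 < 5 - 4 * (1 / 10) ^ 13 := by norm_num
    exact e.trans_le hlow
  have hm : ∀ s : Fin 4, (f.u s.val)ᴴ ∈ Matrix.unitaryGroup (Fin f.n) ℂ := fun s =>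
    star_mem_unitary (f.uni s.val)
  have hc0 : (0 : ℝ) ≤ 5 * (1 / 10 : ℝ) ^ 13 := by norm_num
  have hc1 : 5 * (1 / 10 : ℝ) ^ 13 ≤ 1 := by norm_num
  generalize hrdef : (fun p => φ (star (Θ.θ (t (i p))))) = r at hor hlow'
  obtain ⟨ξ, hξ1, hξ2, hξ3⟩ := ZZ_up (H := Hil F) (N := f.n) (r := r) hor
    (fun s : Fin 4 => uu opr s.val) hun (fun s => (f.u s.val)ᴴ) hm (5 * (1 / 10 : ℝ) ^ 13) hc0 hc1
    hlow'
  have h2 : (1 / 4 : ℝ) ≤ tn ξ ^ 2 := by nlinarith
  have h1 : ∑ s : Fin 4, tn (fun q => (∑ p, ((f.u s.val)ᴴ) p q • uu opr s.val (ξ p)) - ξ q) ^ 2 ≤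
      4 * (4 * (5 * (1 / 10) ^ 13)) := by
    rw [Fin.sum_univ_four]
    have a0 := hξ3 0
    have a1 := hξ3 1
    have a2 := hξ3 2
    have a3 := hξ3 3
    linarith
  have h3 : 4 * (4 * (5 * (1 / 10 : ℝ) ^ 13)) < kap1 * tn ξ ^ 2 := by
    unfold kap1
    nlinarith
  exact comp_exists h hRL k0 hn0 hu0 hgap f hf ξ (h1.trans_lt h3)

end NI

end Pool.Agent.H299_Opp
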