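import Pool.Agent.H299_Opp.NI3

/-!
# NI6: compressions to finite dimensional subspaces
-/

set_option autoImplicit false

open scoped BigOperators Matrix InnerProductSpace

noncomputable section

namespace Pool.Agent.H299_Opp

namespace NI

section mat

variable {m n : Type} [Fintype m] [Fintype n]

/-- Hilbert-Schmidt norm -/
def hn (M : Matrix m n ℂ) : ℝ := Real.sqrt (hs2 M)

theorem hn_sq (M : Matrix m n ℂ) : hn M ^ 2 = hs2 M := Real.sq_sqrt (hs2_nonneg M)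

theorem hn_nonneg (M : Matrix m n ℂ) : 0 ≤ hn M := Real.sqrt_nonneg _

/-- a matrix as a vector -/
def mv (M : Matrix m n ℂ) : EuclideanSpace ℂ (m × n) := WithLp.toLp 2 (fun x => M x.1 x.2)

theorem hn_eq (M : Matrix m n ℂ) : hn M = ‖mv M‖ := by
  unfold hn hs2 mv
  rw [EuclideanSpace.norm_eq, Fintype.sum_prod_type]

theorem hn_add (M M' : Matrix m n ℂ) : hn (M + M') ≤ hn M + hn M' := by
  rw [hn_eq, hn_eq, hn_eq]
  have : mv (M + M') = mv M + mv M' := rfl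
  rw [this]
  exact norm_add_le _ _

theorem hn_sub_le (M M' : Matrix m n ℂ) : hn M - hn M' ≤ hn (M - M') := by
  rw [hn_eq, hn_eq, hn_eq]
  have : mv (M - M') = mv M - mv M' := rfl
  rw [this]
  exact norm_sub_norm_le _ _

theorem hs2_add_le (M M' : Matrix m n ℂ) : hs2 (M + M') ≤ 2 * hs2 M + 2 * hs2 M' := by
  have h := hn_add M M'
  rw [← hn_sq, ← hn_sq M, ← hn_sq M']
  nlinarith [hn_nonneg M, hn_nonneg M', hn_nonneg (M + M'), sq_nonneg (hn M - hn M')]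

theorem nb_hs2 {c : ℝ} {M : Matrix m m ℂ} (h : nb c M) (T : Matrix m n ℂ) :
    hs2 (M * T) ≤ c ^ 2 * hs2 T := by
  unfold hs2
  rw [Finset.sum_comm, Finset.sum_comm (f := fun i j => ‖T i j‖ ^ 2), Finset.mul_sum]
  refine Finset.sum_le_sum fun j _ => ?_
  have := h (fun i => T i j)
  simpa [Matrix.mul_apply, Matrix.mulVec, dotProduct] using this

theorem nb_add {c d : ℝ} (hc : 0 ≤ c) (hd : 0 ≤ d) {M M' : Matrix m m ℂ} (h : nb c M)
    (h' : nb d M') : nb (c + d) (M + M') := by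
  intro x
  let X : Matrix m Unit ℂ := fun i _ => x i
  have e : ∀ N : Matrix m m ℂ, ∑ i, ‖(N.mulVec x) i‖ ^ 2 = hs2 (N * X) := by
    intro N
    unfold hs2
    simp [X, Matrix.mul_apply, Matrix.mulVec, dotProduct]
  have e2 : ∑ i, ‖x i‖ ^ 2 = hs2 X := by unfold hs2; simp [X]
  rw [e, e2, Matrix.add_mul]
  have h1 : hn (M * X) ≤ c * hn X := by
    have := nb_hs2 h X
    rw [← hn_sq, ← hn_sq X] at this
    nlinarith [hn_nonneg (M * X), hn_nonneg X, mul_nonneg hc (hn_nonneg X)]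
  have h2 : hn (M' * X) ≤ d * hn X := by
    have := nb_hs2 h' X
    rw [← hn_sq, ← hn_sq X] at this
    nlinarith [hn_nonneg (M' * X), hn_nonneg X, mul_nonneg hd (hn_nonneg X)]
  have h3 := hn_add (M * X) (M' * X)
  have h4 : hn (M * X + M' * X) ≤ (c + d) * hn X := by linarith
  rw [← hn_sq, ← hn_sq X]
  nlinarith [hn_nonneg (M * X + M' * X), hn_nonneg X, mul_nonneg (add_nonneg hc hd) (hn_nonneg X)]

theorem nb_mono {c d : ℝ} (hc : 0 ≤ c) (hcd : c ≤ d) {M : Matrix m m ℂ} (h : nb c M) : nb d M := by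
  intro x
  refine (h x).trans ?_
  gcongr

end mat

section vec

variable {H : Type} [NormedAddCommGroup H] [InnerProductSpace ℂ H]
variable {ι : Type} [Fintype ι]

theorem ortho_norm {e : ι → H} (he : Orthonormal ℂ e) (c : ι → ℂ) :
    ‖∑ a, c a • e a‖ ^ 2 = ∑ a, ‖c a‖ ^ 2 := by
  have h := he.inner_sum c c Finset.univ
  have h1 : ((‖∑ a, c a • e a‖ ^ 2 : ℝ) : ℂ) = ((∑ a, ‖c a‖ ^ 2 : ℝ) : ℂ) := by
    have e1 : ∀ x : H, ((‖x‖ : ℂ)) ^ 2 = ⟪x, x⟫_ℂ := fun x => (inner_self_eq_norm_sq_to_K x).symm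
    push_cast
    rw [e1, h]
    refine Finset.sum_congr rfl fun a _ => ?_
    rw [Complex.conj_mul']
  exact_mod_cast h1

theorem ortho_inner {e : ι → H} (he : Orthonormal ℂ e) (c : ι → ℂ) (a : ι) :
    ⟪e a, ∑ b, c b • e b⟫_ℂ = c a := he.inner_right_fintype c a

/-- Pythagoras -/
theorem ortho_pyth {e : ι → H} (he : Orthonormal ℂ e) (c : ι → ℂ) (u : H) :
    ‖u - ∑ a, c a • e a‖ ^ 2 =
      ‖u‖ ^ 2 - ∑ a, ‖⟪e a, u⟫_ℂ‖ ^ 2 + ∑ a, ‖⟪e a, u⟫_ℂ - c a‖ ^ 2 := by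
  have h1 : ∀ a, ‖⟪e a, u⟫_ℂ - c a‖ ^ 2 = ‖⟪e a, u⟫_ℂ‖ ^ 2 -
      2 * ((starRingEnd ℂ) (c a) * ⟪e a, u⟫_ℂ).re + ‖c a‖ ^ 2 := by
    intro a
    have := norm_sub_sq (𝕜 := ℂ) (⟪e a, u⟫_ℂ) (c a)
    rw [this]
    simp only [RCLike.inner_apply, RCLike.re_to_complex, Complex.mul_re, Complex.conj_re,
      Complex.conj_im]
    ring
  simp only [h1]
  rw [Finset.sum_add_distrib, Finset.sum_sub_distrib, ← Finset.mul_sum]
  have h2 := norm_sub_sq (𝕜 := ℂ) u (∑ a, c a • e a)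
  rw [h2, ortho_norm he]
  have h3 : RCLike.re ⟪u, ∑ a, c a • e a⟫_ℂ = ∑ a, ((starRingEnd ℂ) (c a) * ⟪e a, u⟫_ℂ).re := by
    rw [← inner_conj_symm, RCLike.conj_re, sum_inner]
    simp only [inner_smul_left, RCLike.re_to_complex, Complex.re_sum]
  rw [h3]
  ring

variable [CompleteSpace H]

/-- compressions have smaller norm -/
theorem compress_nb {e : ι → H} (he : Orthonormal ℂ e) (x : H →L[ℂ] H) (M : Matrix ι ι ℂ)
    (hM : ∀ a b, ⟪e a, x (e b)⟫_ℂ = M a b) : nb ‖x‖ M := by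
  intro v
  have h1 : ∀ a, (M.mulVec v) a = ⟪e a, x (∑ b, v b • e b)⟫_ℂ := by
    intro a
    rw [map_sum, inner_sum]
    simp only [map_smul, inner_smul_right, hM]
    simp only [Matrix.mulVec, dotProduct]
    refine Finset.sum_congr rfl fun b _ => mul_comm _ _
  simp only [h1]
  have h2 := he.sum_inner_products_le (x (∑ b, v b • e b)) (s := Finset.univ)
  refine h2.trans ?_
  rw [← ortho_norm he v, ← mul_pow]
  gcongr
  exact x.le_opNorm _

/-- lifting nearly invariant matrices to nearly invariant tuples -/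
theorem lift_inv {N : ℕ} {e : ι → H} (he : Orthonormal ℂ e) (x : H →L[ℂ] H) (M : Matrix ι ι ℂ)
    (hM : ∀ a b, ⟪e a, x (e b)⟫_ℂ = M a b) (g : Matrix (Fin N) (Fin N) ℂ)
    (hg : g ∈ Matrix.unitaryGroup (Fin N) ℂ) (T : Matrix ι (Fin N) ℂ) (hT : hs2 T = 1) (ε a : ℝ)
    (hx : ‖x‖ ≤ 1 + ε) (ha1 : a ≤ 1) (ha : hn (M * T * g - T) ≤ a) :
    tn (fun q => (∑ p, g p q • x (∑ b, T b p • e b)) - ∑ b, T b q • e b) ^ 2 ≤
      (1 + ε) ^ 2 - (1 - a) ^ 2 + a ^ 2 := by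
  have hxε : 0 ≤ 1 + ε := (norm_nonneg x).trans hx
  rw [tn_sq]
  simp only [ortho_pyth he]
  have h1 : ∀ q c, ⟪e c, ∑ p, g p q • x (∑ b, T b p • e b)⟫_ℂ = (M * T * g) c q := by
    intro q c
    rw [inner_sum, Matrix.mul_apply]
    refine Finset.sum_congr rfl fun p _ => ?_
    rw [inner_smul_right, map_sum, inner_sum, Matrix.mul_apply, mul_comm]
    congr 1
    refine Finset.sum_congr rfl fun b _ => ?_
    rw [map_smul, inner_smul_right, hM, mul_comm]
  simp only [h1]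
  rw [Finset.sum_add_distrib, Finset.sum_sub_distrib]
  have h2 : ∑ q, ‖∑ p, g p q • x (∑ b, T b p • e b)‖ ^ 2 ≤ (1 + ε) ^ 2 := by
    rw [unit_sum g hg (fun p => x (∑ b, T b p • e b))]
    calc ∑ p, ‖x (∑ b, T b p • e b)‖ ^ 2 ≤ ∑ p, (1 + ε) ^ 2 * ‖∑ b, T b p • e b‖ ^ 2 := by
          refine Finset.sum_le_sum fun p _ => ?_
          rw [← mul_pow]
          gcongr
          exact (x.le_opNorm _).trans (by gcongr)
      _ = (1 + ε) ^ 2 * ∑ p, ∑ b, ‖T b p‖ ^ 2 := by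
          rw [← Finset.mul_sum]
          simp only [ortho_norm he]
      _ = (1 + ε) ^ 2 := by
          rw [Finset.sum_comm]
          have : ∑ b, ∑ p, ‖T b p‖ ^ 2 = hs2 T := rfl
          rw [this, hT, mul_one]
  have h3 : ∑ q, ∑ c, ‖(M * T * g) c q - T c q‖ ^ 2 = hs2 (M * T * g - T) := by
    rw [Finset.sum_comm]; rfl
  have h4 : ∑ q, ∑ c, ‖(M * T * g) c q‖ ^ 2 = hs2 (M * T * g) := by
    rw [Finset.sum_comm]; rfl
  rw [h3, h4]
  have h5 : hs2 (M * T * g - T) ≤ a ^ 2 := by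
    rw [← hn_sq]
    have := hn_nonneg (M * T * g - T)
    gcongr
  have h6 : 1 - a ≤ hn (M * T * g) := by
    have h7 := hn_sub_le T (M * T * g)
    have h8 : hn T = 1 := by unfold hn; rw [hT, Real.sqrt_one]
    have h9 : hn (T - M * T * g) = hn (M * T * g - T) := by
      rw [hn_eq, hn_eq]
      have : mv (T - M * T * g) = -mv (M * T * g - T) := by
        ext i
        simp [mv]
      rw [this, norm_neg]
    linarith
  have h7 : (1 - a) ^ 2 ≤ hs2 (M * T * g) := by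
    rw [← hn_sq]
    have : 0 ≤ 1 - a := by linarith
    gcongr
  linarith

/-- perturbation of nearly invariant tuples -/
theorem tn_pert {N : ℕ} (x y : H →L[ℂ] H) (ε : ℝ) (hxy : ‖y - x‖ ≤ ε)
    (g : Matrix (Fin N) (Fin N) ℂ) (hg : g ∈ Matrix.unitaryGroup (Fin N) ℂ) (T : Fin N → H)
    (hT : tn T = 1) :
    tn (fun q => (∑ p, g p q • y (T p)) - T q) ≤
      tn (fun q => (∑ p, g p q • x (T p)) - T q) + ε := by
  have e : (fun q => (∑ p, g p q • y (T p)) - T q) =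
      (fun q => (∑ p, g p q • x (T p)) - T q) + (fun q => ∑ p, g p q • (y - x) (T p)) := by
    ext1 q
    simp only [Pi.add_apply, ContinuousLinearMap.sub_apply, smul_sub, Finset.sum_sub_distrib]
    abel
  rw [e]
  refine (tn_add _ _).trans ?_
  gcongr
  have hε : 0 ≤ ε := (norm_nonneg _).trans hxy
  have h1 : tn (fun q => ∑ p, g p q • (y - x) (T p)) ^ 2 ≤ ε ^ 2 := by
    rw [tn_sq, unit_sum g hg (fun p => (y - x) (T p))]
    calc ∑ p, ‖(y - x) (T p)‖ ^ 2 ≤ ∑ p, ε ^ 2 * ‖T p‖ ^ 2 := by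
          refine Finset.sum_le_sum fun p _ => ?_
          rw [← mul_pow]
          gcongr
          exact ((y - x).le_opNorm _).trans (by gcongr)
      _ = ε ^ 2 := by
          rw [← Finset.mul_sum, ← tn_sq, hT]; ring
  have := tn_nonneg (fun q => ∑ p, g p q • (y - x) (T p))
  exact (sq_le_sq₀ this hε).mp h1

end vec

end NI

end Pool.Agent.H299_Opp
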