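import Pool.Agent.H299_Opp.NI5
import Pool.Agent.H299_Opp.NI6

/-!
# NOISO: an isomorphism with the opposite algebra gives a candidate
-/

set_option autoImplicit false

open scoped BigOperators Matrix InnerProductSpace

noncomputable section

namespace Pool.Agent.H299_Opp

namespace NI

/-- small constant -/
def eps0 : ℝ := (1 / 10) ^ 61

theorem avoids_bound {κ : Type} {F : κ → Fib} (x : El F) : ∃ b : ℕ, ∀ t, b ≤ t → x.Avoids t := by
  induction x with
  | nil => exact ⟨0, fun t _ e he => absurd he (by simp)⟩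
  | cons e x ih =>
    obtain ⟨b, hb⟩ := ih
    have h1 : ∃ b' : ℕ, ∀ t, b' ≤ t → ∀ p ∈ e.2.2.1, p.1 ≠ t := by
      induction e.2.2.1 with
      | nil => exact ⟨0, fun t _ p hp => absurd hp (by simp)⟩
      | cons q l ih2 =>
        obtain ⟨b', hb'⟩ := ih2
        refine ⟨max b' (q.1 + 1), fun t ht p hp => ?_⟩
        rcases List.mem_cons.mp hp with rfl | hp
        · have := le_trans (le_max_right _ _) ht
          omega
        · exact hb' t (le_trans (le_max_left _ _) ht) p hp
    obtain ⟨b', hb'⟩ := h1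
    refine ⟨max b b', fun t ht e' he' => ?_⟩
    rcases List.mem_cons.mp he' with rfl | he'
    · exact hb' t (le_trans (le_max_right _ _) ht)
    · exact hb t (le_trans (le_max_left _ _) ht) e' he'

theorem avoids_bound4 {κ : Type} {F : κ → Fib} (x : Fin 4 → El F) :
    ∃ t : ℕ, 4 ≤ t ∧ ∀ s, (x s).Avoids t := by
  choose b hb using fun s => avoids_bound (x s)
  refine ⟨4 + ∑ s, b s, by omega, fun s => hb s _ ?_⟩
  have : b s ≤ ∑ s, b s := Finset.single_le_sum (fun _ _ => Nat.zero_le _) (Finset.mem_univ s)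
  omega

/-- forward direction, analytic part -/
theorem rel_of_near (x : Cand) (f g : Fib) (X : Fin 4 → CP x.m) (Xt : CP x.m)
    (hX : ∀ s, nb eps0 ((X s).ev g.u - (x.X s).toCP.ev g.u))
    (hXt : nb eps0 (Xt.ev g.u - x.Xt.toCP.ev g.u))
    (hn : ∀ s, nb (1 + eps0) ((X s).ev g.u)) (hnt : nb (1 + eps0) (Xt.ev g.u))
    (T : Matrix (Fin x.m × Fin g.n) (Fin f.n) ℂ) (hT : hs2 T = 1)
    (h : (∑ s : Fin 4, hs2 ((X s).ev g.u * T * (f.u s.val).map star - T)) +
      hs2 (Xt.ev g.u * T * (f.u x.t).map star - T) ≤ 2 * (5 * eps0 ^ 2) + thr / 4) :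
    Rel x f g := by
  have hneg : ∀ (M M' : Matrix (Fin x.m × Fin g.n) (Fin x.m × Fin g.n) ℂ), nb eps0 (M - M') →
      nb eps0 (M' - M) := by
    intro M M' h1 v
    have h2 := h1 v
    refine le_trans (le_of_eq ?_) h2
    refine Finset.sum_congr rfl fun i _ => ?_
    rw [Matrix.sub_mulVec, Matrix.sub_mulVec, Pi.sub_apply, Pi.sub_apply, norm_sub_rev]
  have h0 : (0 : ℝ) ≤ eps0 := by unfold eps0; positivity
  have hnb : ∀ (M M' : Matrix (Fin x.m × Fin g.n) (Fin x.m × Fin g.n) ℂ), nb eps0 (M - M') →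
      nb (1 + eps0) M → nb (1 + eps1) M' := by
    intro M M' h1 h2
    have h3 := nb_add (by linarith : (0 : ℝ) ≤ 1 + eps0) h0 h2 (hneg _ _ h1)
    rw [add_sub_cancel] at h3
    refine nb_mono (by linarith) ?_ h3
    unfold eps0 eps1
    norm_num
  have hpert : ∀ (M M' : Matrix (Fin x.m × Fin g.n) (Fin x.m × Fin g.n) ℂ) (j : ℕ),
      nb eps0 (M - M') → hs2 (M' * T * (f.u j).map star - T) ≤
        2 * hs2 (M * T * (f.u j).map star - T) + 2 * eps0 ^ 2 := by
    intro M M' j h1
    have e : M' * T * (f.u j).map star - T = (M * T * (f.u j).map star - T) +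
        (M' - M) * T * (f.u j).map star := by
      rw [Matrix.sub_mul, Matrix.sub_mul]; abel
    rw [e]
    refine (hs2_add_le _ _).trans ?_
    gcongr
    rw [hs2_mul_unitary _ (conj_mem_unitary (f.uni j))]
    have := nb_hs2 (hneg _ _ h1) T
    rwa [hT, mul_one] at this
  refine ⟨fun s => hnb _ _ (hX s) (hn s), hnb _ _ hXt hnt, T, hT, ?_⟩
  have h1 := Finset.sum_le_sum fun s (_ : s ∈ Finset.univ) => hpert _ _ s.val (hX s)
  rw [Finset.sum_add_distrib, ← Finset.mul_sum] at h1
  have h2 := hpert _ _ x.t hXt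
  simp only [Finset.sum_const, Finset.card_univ, Fintype.card_fin, nsmul_eq_mul] at h1
  have h3 : 2 * (2 * (5 * eps0 ^ 2) + thr / 4) + 10 * eps0 ^ 2 ≤ thr := by
    unfold eps0 thr
    norm_num
  push_cast at h1
  linarith

end NI

open NI

theorem NOISO.main (hRL : S_RL) (hLOC : S_LOC) (hRAT : S_RAT) : S_NOISO := by
  classical
  intro κ F k0 hn0 hu0 hgap opr hopr A hA Φ
  have hcl : IsClosed (A : Set (Hil F →L[ℂ] Hil F)) := by
    rw [hA]; exact isClosed_closure
  letI instA : CStarAlgebra ↥A := StarSubalgebra.cstarAlgebra A (h_closed := hcl)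
  have hmem : ∀ x : El F, opr x ∈ A := by
    intro x
    have : opr x ∈ (A : Set (Hil F →L[ℂ] Hil F)) := by
      rw [hA]; exact subset_closure ⟨x, rfl⟩
    exact this
  let Θ : Anti ↥A := antiOf ↥A Φ
  let Ψ : Anti ↥A := antiInv ↥A Φ
  let φ : ↥A →⋆ₐ[ℂ] (Hil F →L[ℂ] Hil F) := A.subtype
  have hφ : ∀ x, ‖φ x‖ = ‖x‖ := fun x => rfl
  have hinj : Function.Injective φ := Subtype.val_injective
  let cA : Lt F → ↥A := fun i => ⟨cr opr i, hmem _⟩
  let uA : ℕ → ↥A := fun j => ⟨uu opr j, hmem _⟩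
  have hφc : ∀ i, φ (cA i) = cr opr i := fun i => rfl
  have hφu : ∀ j, φ (uA j) = uu opr j := fun j => rfl
  let y : ℕ → ↥A := fun j => Ψ.θ (uA j)
  have hΘy : ∀ j, Θ.θ (y j) = uA j := fun j => anti_inv ↥A Φ (uA j)
  let Y : ℕ → (Hil F →L[ℂ] Hil F) := fun j => φ (y j)
  have hY1 : ∀ j, ‖Y j‖ ≤ 1 := by
    intro j
    have h1 : ‖Y j‖ = ‖uA j‖ := by
      have e1 : ‖Y j‖ = ‖y j‖ := hφ (y j)
      have e2 : ‖y j‖ = ‖uA j‖ := Ψ.norm (uA j)
      rw [e1, e2]
    have h2 : ‖uA j‖ = ‖uu opr j‖ := (hφ (uA j)).symm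
    rw [h1, h2]
    exact iso_norm_le _ (star_uu_mul_uu hopr j)
  have hdense : ∀ (j : ℕ), ∃ x : El F, ‖opr x - Y j‖ ≤ eps0 := by
    intro j
    have h1 : Y j ∈ closure (Set.range opr) := by
      rw [← hA]; exact (y j).2
    rw [Metric.mem_closure_iff] at h1
    obtain ⟨_, ⟨x, rfl⟩, hx⟩ := h1 eps0 (by unfold eps0; positivity)
    refine ⟨x, ?_⟩
    rw [dist_comm, dist_eq_norm] at hx
    exact hx.le
  choose xd hxd using hdense
  have h0 : (0 : ℝ) ≤ eps0 := by unfold eps0; positivity
  have hxn : ∀ j, ‖opr (xd j)‖ ≤ 1 + eps0 := by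
    intro j
    have h1 : ‖opr (xd j)‖ ≤ ‖Y j‖ + ‖opr (xd j) - Y j‖ := by
      have := norm_add_le (Y j) (opr (xd j) - Y j)
      rwa [add_sub_cancel] at this
    exact h1.trans (add_le_add (hY1 j) (hxd j))
  obtain ⟨t, ht4, htav⟩ := avoids_bound4 (fun s : Fin 4 => xd s.val)
  let idx : Fin 5 → ℕ := fun i => if i.val < 4 then i.val else t
  have hidx1 : ∀ s : Fin 4, idx s.castSucc = s.val := by
    intro s
    simp only [idx, Fin.val_castSucc, s.isLt, if_true]
  have hidx2 : idx (Fin.last 4) = t := by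
    simp [idx]
  obtain ⟨m, X, hXav, hXe, hXl⟩ := hLOC κ F k0 hn0 hu0 opr hopr 5 (fun i => xd (idx i)) (thr / 4)
    (by unfold thr; positivity)
  choose Yq hYav hYq using fun i => hRAT m (X i) eps0 (by unfold eps0; positivity)
  let x : Cand :=
    { m := m
      X := fun s => Yq s.castSucc
      t := t
      Xt := Yq (Fin.last 4)
      ht := ht4
      hX := fun s => hYav _ t (hXav _ t (by
        have := htav s
        rw [← hidx1 s] at this
        exact this)) }
  have hXn : ∀ k i, nb (1 + eps0) ((X i).ev (F k).u) := by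
    intro k i
    obtain ⟨e, he, hM⟩ := hXe k
    exact nb_mono (norm_nonneg _) (hxn (idx i))
      (compress_nb he (opr (xd (idx i))) _ (fun a b => hM i a b))
  refine ⟨x, ?_, ?_⟩
  · intro k
    have hnpos : (0 : ℝ) < (F k).n := Nat.cast_pos.mpr (F k).pos
    let ξ : Hil F := lp.single 2 ([] : List (Lt F)) (1 : ℂ)
    have hξ : ‖ξ‖ = 1 := by
      simp only [ξ]
      rw [lp.norm_single (by norm_num)]
      simp
    let r : Fin (F k).n → (Hil F →L[ℂ] Hil F) := fun p => φ (star (Ψ.θ (cA ⟨k, p, 0⟩)))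
    let T : Fin (F k).n → Hil F := fun p => (((Real.sqrt (F k).n)⁻¹ : ℝ) : ℂ) • r p ξ
    have hrel : ∀ p q : Fin (F k).n, star (cA ⟨k, p, 0⟩) * cA ⟨k, q, 0⟩ =
        if p = q then 1 else 0 := by
      intro p q
      apply hinj
      rw [map_mul, map_star, hφc, hφc, star_cr_mul_cr hopr]
      by_cases hpq : p = q
      · subst hpq; simp
      · rw [if_neg hpq, if_neg (by simpa using hpq), map_zero]
    have hor : Orth r := by
      intro p q
      have h1 := congrArg φ (Ψ.orth (fun p => cA ⟨k, p, 0⟩) hrel p q)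
      rw [map_mul, map_star] at h1
      rw [h1]
      split_ifs <;> simp
    have hrn : ∀ p, ‖r p ξ‖ = 1 := by
      intro p
      have h1 := orth_norm hor (fun q => if q = p then ξ else 0)
      have h2 : ∑ q, r q ((fun q => if q = p then ξ else 0) q) = r p ξ := by
        rw [Finset.sum_eq_single p]
        · simp
        · intro q _ hq
          simp [hq]
        · simp
      rw [h2] at h1
      have h3 : ∑ q, ‖(fun q => if q = p then ξ else 0) q‖ ^ 2 = 1 := by
        rw [Finset.sum_eq_single p]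
        · simp [hξ]
        · intro q _ hq
          simp [hq]
        · simp
      rw [h3] at h1
      nlinarith [norm_nonneg (r p ξ), sq_nonneg (‖r p ξ‖ - 1)]
    have hT : ∑ p, ‖T p‖ ^ 2 = 1 := by
      have h1 : ∀ p, ‖T p‖ ^ 2 = ((F k).n : ℝ)⁻¹ := by
        intro p
        simp only [T]
        rw [norm_smul, hrn, mul_one, Complex.norm_real, Real.norm_eq_abs, sq_abs, inv_pow,
          Real.sq_sqrt hnpos.le]
      simp only [h1, Finset.sum_const, Finset.card_univ, Fintype.card_fin, nsmul_eq_mul]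
      exact mul_inv_cancel₀ hnpos.ne'
    have htnT : tn T = 1 := by unfold tn; rw [hT, Real.sqrt_one]
    have hinv : ∀ j q, ∑ p, ((F k).u j).map star p q • Y j (T p) = T q := by
      intro j q
      have h1 := Ψ.alpha (fun p => cA ⟨k, p, 0⟩) (uA j) ((F k).u j)
        (hinj (by rw [map_mul, map_star, hφu, map_one]; exact star_uu_mul_uu hopr j))
        (fun p => hinj (by
          rw [map_mul, hφu, hφc, map_sum, uu_mul_cr hopr]
          refine Finset.sum_congr rfl fun p' _ => ?_
          rw [map_smul, hφc])) q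
      have h2 := congrArg (fun z => φ z ξ) h1
      simp only [map_sum, map_smul, map_mul] at h2
      have h3 : (∑ p, star ((F k).u j p q) • (φ (Ψ.θ (uA j)) * φ (star (Ψ.θ (cA ⟨k, p, 0⟩))))) ξ =
          ∑ p, star ((F k).u j p q) • Y j (r p ξ) := by
        rw [ContinuousLinearMap.sum_apply]
        rfl
      rw [h3] at h2
      have h4 : r q ξ = φ (star (Ψ.θ (cA ⟨k, q, 0⟩))) ξ := rfl
      simp only [T, h4, ← h2, Finset.smul_sum]
      refine Finset.sum_congr rfl fun p _ => ?_
      rw [map_smul, smul_comm]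
      rfl
    obtain ⟨k', T', hT', hsum⟩ := hXl (F k).n (fun i => ((F k).u (idx i)).map star)
      (fun i => conj_mem_unitary ((F k).uni (idx i))) T hT
    refine ⟨k', ?_⟩
    have herr : ∀ i, ∑ q, ‖(∑ p, ((F k).u (idx i)).map star p q • opr (xd (idx i)) (T p)) -
        T q‖ ^ 2 ≤ eps0 ^ 2 := by
      intro i
      have h1 := tn_pert (Y (idx i)) (opr (xd (idx i))) eps0 (hxd (idx i))
        (((F k).u (idx i)).map star) (conj_mem_unitary ((F k).uni (idx i))) T htnT
      have h2 : tn (fun q => (∑ p, ((F k).u (idx i)).map star p q • Y (idx i) (T p)) - T q) = 0 := by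
        simp only [hinv, sub_self]
        simp [tn]
      rw [h2, zero_add] at h1
      have h3 := tn_sq (fun q => (∑ p, ((F k).u (idx i)).map star p q • opr (xd (idx i)) (T p)) -
        T q)
      rw [← h3]
      have h4 := tn_nonneg (fun q => (∑ p, ((F k).u (idx i)).map star p q •
        opr (xd (idx i)) (T p)) - T q)
      gcongr
    have herr2 := Finset.sum_le_sum fun i (_ : i ∈ Finset.univ) => herr i
    simp only [Finset.sum_const, Finset.card_univ, Fintype.card_fin, nsmul_eq_mul] at herr2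
    push_cast at herr2
    refine rel_of_near x (F k) (F k') (fun s => X s.castSucc) (X (Fin.last 4))
      (fun s => hYq _ _ _ (F k').uni) (hYq _ _ _ (F k').uni) (fun s => hXn k' _) (hXn k' _) T' hT' ?_
    rw [Fin.sum_univ_castSucc] at hsum
    simp only [hidx1, hidx2] at hsum
    refine hsum.trans ?_
    linarith
  · intro f hf k' hR
    obtain ⟨-, -, T, hT, hsum⟩ := hR
    obtain ⟨e, he, hM⟩ := hXe k'
    let τ : Fin f.n → Hil F := fun q => ∑ b, T b q • e b
    have hτ : ∑ q, ‖τ q‖ ^ 2 = 1 := by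
      have e1 : ∀ q, ‖τ q‖ ^ 2 = ∑ b, ‖T b q‖ ^ 2 := fun q => ortho_norm he (fun b => T b q)
      simp only [e1]
      rw [Finset.sum_comm]
      exact hT
    have htnτ : tn τ = 1 := by unfold tn; rw [hτ, Real.sqrt_one]
    refine beta hopr hRL k0 hn0 hu0 hgap φ hφ cA hφc hinj Θ (fun s => y s.val)
      (fun s => (congrArg φ (hΘy s.val)).trans (hφu s.val)) f hf τ hτ ?_
    intro s
    have hthr : hs2 ((Yq s.castSucc).toCP.ev (F k').u * T * (f.u s.val).map star - T) ≤ thr := by
      have h1 := Finset.single_le_sum (f := fun s : Fin 4 =>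
        hs2 ((x.X s).toCP.ev (F k').u * T * (f.u s.val).map star - T))
        (fun _ _ => hs2_nonneg _) (Finset.mem_univ s)
      have h2 := hs2_nonneg (x.Xt.toCP.ev (F k').u * T * (f.u x.t).map star - T)
      exact h1.trans (by linarith)
    have hhn : hn ((Yq s.castSucc).toCP.ev (F k').u * T * (f.u s.val).map star - T) ≤
        (1 / 10) ^ 30 := by
      unfold hn
      rw [Real.sqrt_le_left (by positivity)]
      refine hthr.trans ?_
      unfold thr
      norm_num
    have hnear : hn ((X s.castSucc).ev (F k').u * T * (f.u s.val).map star - T) ≤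
        (1 / 10) ^ 30 + eps0 := by
      have e1 : (X s.castSucc).ev (F k').u * T * (f.u s.val).map star - T =
          ((Yq s.castSucc).toCP.ev (F k').u * T * (f.u s.val).map star - T) +
          ((X s.castSucc).ev (F k').u - (Yq s.castSucc).toCP.ev (F k').u) * T *
            (f.u s.val).map star := by
        rw [Matrix.sub_mul, Matrix.sub_mul]; abel
      rw [e1]
      refine (hn_add _ _).trans (add_le_add hhn ?_)
      unfold hn
      rw [Real.sqrt_le_left h0, hs2_mul_unitary _ (conj_mem_unitary (f.uni s.val))]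
      have := nb_hs2 (hYq s.castSucc _ _ (F k').uni) T
      rwa [hT, mul_one] at this
    have h1 := lift_inv he (opr (xd (idx s.castSucc))) ((X s.castSucc).ev (F k').u)
      (fun a b => hM _ a b) ((f.u s.val).map star) (conj_mem_unitary (f.uni s.val)) T hT eps0
      ((1 / 10) ^ 30 + eps0) (hxn _) (by unfold eps0; norm_num) hnear
    have h2 : tn (fun q => (∑ p, ((f.u s.val).map star) p q • opr (xd (idx s.castSucc)) (τ p)) -
        τ q) ≤ (1 / 10) ^ 14 := by
      have h3 : (1 + eps0) ^ 2 - (1 - ((1 / 10) ^ 30 + eps0)) ^ 2 + ((1 / 10) ^ 30 + eps0) ^ 2 ≤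
          (((1 : ℝ) / 10) ^ 14) ^ 2 := by
        unfold eps0
        norm_num
      have h4 := h1.trans h3
      exact (sq_le_sq₀ (tn_nonneg _) (by positivity)).mp h4
    have h3 := tn_pert (opr (xd (idx s.castSucc))) (Y s.val) eps0
      (by rw [norm_sub_rev, hidx1]; exact hxd s.val)
      ((f.u s.val).map star) (conj_mem_unitary (f.uni s.val)) τ htnτ
    refine le_trans h3 ?_
    refine (add_le_add h2 le_rfl).trans ?_
    unfold eps0
    norm_num

end Pool.Agent.H299_Opp
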