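import Pool.Agent.H299_Opp.Stubs

/-!
# OPR: the algebraic elements act as bounded operators on the Fock space
-/

set_option autoImplicit false

open scoped BigOperators Matrix InnerProductSpace ENNReal

noncomputable section

namespace Pool.Agent.H299_Opp.OPR

variable {κ : Type} (F : κ → Fib)

/-! ## Function level operators -/

/-- creation -/
def cr (w : List (Lt F)) (f : List (Lt F) → ℂ) : List (Lt F) → ℂ :=
  fun W => open Classical in if w <+: W then f (W.drop w.length) else 0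

/-- annihilation -/
def an (v : List (Lt F)) (f : List (Lt F) → ℂ) : List (Lt F) → ℂ := fun W => f (v ++ W)

/-- action of a word in the unitaries -/
def un (a : List (ℕ × Bool)) (f : List (Lt F) → ℂ) : List (Lt F) → ℂ :=
  actA F (fun k => evw (F k).u a) f

theorem actT_eq (t : List (Lt F) × List (ℕ × Bool) × List (Lt F)) (f : List (Lt F) → ℂ) :
    actT F t f = cr F t.1 (un F t.2.1 (an F t.2.2 f)) := by
  rfl

@[simp] theorem un_nil_apply (a : List (ℕ × Bool)) (f : List (Lt F) → ℂ) :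
    un F a f [] = f [] := rfl

theorem un_cons_apply (a : List (ℕ × Bool)) (f : List (Lt F) → ℂ) (k : κ) (p : Fin (F k).n)
    (c : ℕ) (W : List (Lt F)) :
    un F a f (⟨k, p, c⟩ :: W) = ∑ p', evw (F k).u a p p' • f (⟨k, p', c⟩ :: W) := rfl

theorem cr_append (w : List (Lt F)) (f : List (Lt F) → ℂ) (W : List (Lt F)) :
    cr F w f (w ++ W) = f W := by
  simp [cr]

theorem cr_of_not (w : List (Lt F)) (f : List (Lt F) → ℂ) (W : List (Lt F)) (h : ¬ w <+: W) :
    cr F w f W = 0 := by
  simp [cr, h]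

theorem an_cr (w : List (Lt F)) (f : List (Lt F) → ℂ) : an F w (cr F w f) = f := by
  funext W
  simp [an, cr_append]

/-! ## unitarity -/

theorem evw_mem (f : Fib) (a : List (ℕ × Bool)) : evw f.u a ∈ Matrix.unitaryGroup (Fin f.n) ℂ := by
  induction a with
  | nil => exact one_mem _
  | cons p w ih =>
    have h : (if p.2 then (f.u p.1)ᴴ else f.u p.1) ∈ Matrix.unitaryGroup (Fin f.n) ℂ := by
      split_ifs
      · exact Unitary.star_mem (f.uni p.1)
      · exact f.uni p.1
    exact mul_mem h ih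

theorem evw_append {n : ℕ} (u : ℕ → Matrix (Fin n) (Fin n) ℂ) (a b : List (ℕ × Bool)) :
    evw u (a ++ b) = evw u a * evw u b := by
  induction a with
  | nil => simp [evw]
  | cons p w ih => simp only [List.cons_append, evw, ih, Matrix.mul_assoc]

theorem evw_revw {n : ℕ} (u : ℕ → Matrix (Fin n) (Fin n) ℂ) (a : List (ℕ × Bool)) :
    evw u (revw a) = (evw u a)ᴴ := by
  induction a with
  | nil => simp [evw, revw]
  | cons p w ih =>
    have : revw (p :: w) = revw w ++ [(p.1, !p.2)] := by simp [revw]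
    rw [this, evw_append, ih]
    rcases p with ⟨j, b⟩
    cases b <;> simp [evw, Matrix.conjTranspose_mul]

/-! ## the squared norm -/

/-- squared norm -/
def N2 {ι : Type} (f : ι → ℂ) : ℝ≥0∞ := ∑' W, ENNReal.ofReal (‖f W‖ ^ 2)

theorem N2_an (v : List (Lt F)) (f : List (Lt F) → ℂ) : N2 (an F v f) ≤ N2 f := by
  unfold N2 an
  exact ENNReal.tsum_comp_le_tsum_of_injective (f := fun W => v ++ W)
    (fun a b h => List.append_cancel_left h) (fun W => ENNReal.ofReal (‖f W‖ ^ 2))

theorem N2_cr (w : List (Lt F)) (f : List (Lt F) → ℂ) : N2 (cr F w f) = N2 f := by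
  have hinj : Function.Injective (fun W : List (Lt F) => w ++ W) :=
    fun a b h => List.append_cancel_left h
  unfold N2
  rw [← hinj.tsum_eq (f := fun W => ENNReal.ofReal (‖cr F w f W‖ ^ 2))]
  · simp [cr_append]
  · intro W hW
    by_contra hno
    apply hW
    have : ¬ w <+: W := by
      rintro ⟨s, hs⟩
      exact hno ⟨s, hs⟩
    simp [cr_of_not F w f W this]

/-- block sizes -/
def sz : Option (Σ _ : κ, ℕ × List (Lt F)) → ℕ
  | none => 1
  | some ⟨k, _⟩ => (F k).n

/-- words as block positions -/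
def wEquiv : (Σ b : Option (Σ _ : κ, ℕ × List (Lt F)), Fin (sz F b)) ≃ List (Lt F) where
  toFun
    | ⟨none, _⟩ => []
    | ⟨some ⟨k, c, W⟩, p⟩ => ⟨k, p, c⟩ :: W
  invFun
    | [] => ⟨none, (0 : Fin 1)⟩
    | ⟨k, p, c⟩ :: W => ⟨some ⟨k, c, W⟩, p⟩
  left_inv := by
    rintro ⟨_ | ⟨k, c, W⟩, p⟩
    · have : p = (0 : Fin 1) := Subsingleton.elim (α := Fin 1) _ _
      subst this
      rfl
    · rfl
  right_inv := by
    rintro (_ | ⟨⟨k, p, c⟩, W⟩) <;> rfl

theorem sum_unitary {n : ℕ} {a : Matrix (Fin n) (Fin n) ℂ} (ha : a ∈ Matrix.unitaryGroup (Fin n) ℂ)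
    (g : Fin n → ℂ) : ∑ p, ‖∑ p', a p p' • g p'‖ ^ 2 = ∑ p, ‖g p‖ ^ 2 := by
  have key : star (a.mulVec g) ⬝ᵥ (a.mulVec g) = star g ⬝ᵥ g := by
    rw [Matrix.star_mulVec, ← Matrix.dotProduct_mulVec, Matrix.mulVec_mulVec,
      ← Matrix.star_eq_conjTranspose, Matrix.mem_unitaryGroup_iff'.mp ha, Matrix.one_mulVec]
  have h1 : ∀ x : Fin n → ℂ, star x ⬝ᵥ x = ((∑ p, ‖x p‖ ^ 2 : ℝ) : ℂ) := by
    intro x
    simp only [dotProduct, Pi.star_apply, RCLike.star_def, Complex.ofReal_sum]
    refine Finset.sum_congr rfl fun p _ => ?_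
    rw [Complex.conj_mul']
    simp
  rw [h1, h1] at key
  have := Complex.ofReal_injective key
  simpa [Matrix.mulVec, dotProduct] using this

theorem N2_actA (a : ∀ k, Matrix (Fin (F k).n) (Fin (F k).n) ℂ)
    (ha : ∀ k, a k ∈ Matrix.unitaryGroup (Fin (F k).n) ℂ) (f : List (Lt F) → ℂ) :
    N2 (actA F a f) = N2 f := by
  unfold N2
  rw [← (wEquiv F).tsum_eq, ← (wEquiv F).tsum_eq, ENNReal.tsum_sigma', ENNReal.tsum_sigma']
  refine tsum_congr fun b => ?_
  rw [tsum_fintype, tsum_fintype]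
  rcases b with _ | ⟨k, c, W⟩
  · rfl
  · rw [← ENNReal.ofReal_sum_of_nonneg (fun _ _ => by positivity),
      ← ENNReal.ofReal_sum_of_nonneg (fun _ _ => by positivity)]
    congr 1
    exact sum_unitary (ha k) (fun p => f (⟨k, p, c⟩ :: W))

theorem N2_un (a : List (ℕ × Bool)) (f : List (Lt F) → ℂ) : N2 (un F a f) = N2 f :=
  N2_actA F _ (fun k => evw_mem (F k) a) f

/-! ## bounded operators -/

theorem two_toReal : (2 : ℝ≥0∞).toReal = (2 : ℝ) := by simp

theorem memlp_iff {ι : Type} (f : ι → ℂ) : Memℓp f 2 ↔ N2 f ≠ ⊤ := by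
  rw [memℓp_gen_iff (by simp)]
  unfold N2
  have h : (fun i => ‖f i‖ ^ (2 : ℝ≥0∞).toReal) = fun i => ‖f i‖ ^ 2 := by
    funext i; simp
  rw [h]
  constructor
  · intro hs
    exact hs.tsum_ofReal_ne_top
  · intro hs
    have := ENNReal.summable_toReal hs
    simpa [ENNReal.toReal_ofReal] using this

theorem N2_hil {ι : Type} (f : lp (fun _ : ι => ℂ) 2) :
    N2 (f : ι → ℂ) = ENNReal.ofReal (‖f‖ ^ 2) := by
  have h := lp.hasSum_norm (p := 2) (by simp) f
  have h' : HasSum (fun i => ‖f i‖ ^ 2) (‖f‖ ^ 2) := by simpa using h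
  unfold N2
  rw [← ENNReal.ofReal_tsum_of_nonneg (fun _ => by positivity) h'.summable, h'.tsum_eq]

/-- a contraction of the Fock space from a function level contraction -/
def mk (L : (List (Lt F) → ℂ) →ₗ[ℂ] (List (Lt F) → ℂ)) (h : ∀ f, N2 (L f) ≤ N2 f) :
    Hil F →L[ℂ] Hil F :=
  LinearMap.mkContinuous
    { toFun := fun f => ⟨L (f : List (Lt F) → ℂ), (memlp_iff _).2
        (ne_top_of_le_ne_top ((memlp_iff _).1 (lp.memℓp f)) (h _))⟩
      map_add' := fun f g => by
        apply Subtype.ext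
        exact L.map_add _ _
      map_smul' := fun c f => by
        apply Subtype.ext
        exact L.map_smul _ _ } 1
    (fun f => by
      have h1 := h (f : List (Lt F) → ℂ)
      rw [N2_hil f] at h1
      have h2 := N2_hil (⟨L (f : List (Lt F) → ℂ), (memlp_iff _).2
        (ne_top_of_le_ne_top ((memlp_iff _).1 (lp.memℓp f)) (h _))⟩ : Hil F)
      have h3 : N2 (L (f : List (Lt F) → ℂ)) = ENNReal.ofReal (‖(⟨L (f : List (Lt F) → ℂ),
        (memlp_iff _).2 (ne_top_of_le_ne_top ((memlp_iff _).1 (lp.memℓp f)) (h _))⟩ : Hil F)‖ ^ 2)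
          := h2
      rw [h3] at h1
      have h4 := (ENNReal.ofReal_le_ofReal_iff (by positivity)).1 h1
      rw [one_mul]
      exact (sq_le_sq₀ (norm_nonneg _) (norm_nonneg _)).1 h4)

theorem mk_apply (L : (List (Lt F) → ℂ) →ₗ[ℂ] (List (Lt F) → ℂ)) (h : ∀ f, N2 (L f) ≤ N2 f)
    (g : Hil F) : ((mk F L h g : Hil F) : List (Lt F) → ℂ) = L (g : List (Lt F) → ℂ) := rfl

theorem mk_norm (L : (List (Lt F) → ℂ) →ₗ[ℂ] (List (Lt F) → ℂ)) (h : ∀ f, N2 (L f) ≤ N2 f) :
    ‖mk F L h‖ ≤ 1 := LinearMap.mkContinuous_norm_le _ zero_le_one _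

/-- creation, linear -/
def crL (w : List (Lt F)) : (List (Lt F) → ℂ) →ₗ[ℂ] (List (Lt F) → ℂ) where
  toFun := cr F w
  map_add' f g := by
    funext W
    by_cases h : w <+: W <;> simp [cr, h]
  map_smul' c f := by
    funext W
    by_cases h : w <+: W <;> simp [cr, h]

/-- annihilation, linear -/
def anL (v : List (Lt F)) : (List (Lt F) → ℂ) →ₗ[ℂ] (List (Lt F) → ℂ) where
  toFun := an F v
  map_add' _ _ := rfl
  map_smul' _ _ := rfl

/-- unitary, linear -/
def unL (a : List (ℕ × Bool)) : (List (Lt F) → ℂ) →ₗ[ℂ] (List (Lt F) → ℂ) where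
  toFun := un F a
  map_add' f g := by
    funext W
    rcases W with _ | ⟨⟨k, p, c⟩, W⟩
    · rfl
    · simp [un_cons_apply, mul_add, Finset.sum_add_distrib]
  map_smul' c f := by
    funext W
    rcases W with _ | ⟨⟨k, p, c'⟩, W⟩
    · rfl
    · simp only [un_cons_apply, Pi.smul_apply, smul_eq_mul, RingHom.id_apply, Finset.mul_sum]
      exact Finset.sum_congr rfl fun _ _ => by ring

/-- creation operator -/
def Cr (w : List (Lt F)) : Hil F →L[ℂ] Hil F := mk F (crL F w) fun f => (N2_cr F w f).le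

/-- annihilation operator -/
def An (v : List (Lt F)) : Hil F →L[ℂ] Hil F := mk F (anL F v) fun f => N2_an F v f

/-- unitary operator -/
def Un (a : List (ℕ × Bool)) : Hil F →L[ℂ] Hil F := mk F (unL F a) fun f => (N2_un F a f).le

theorem Cr_apply (w : List (Lt F)) (g : Hil F) :
    ((Cr F w g : Hil F) : List (Lt F) → ℂ) = cr F w g := rfl
theorem An_apply (w : List (Lt F)) (g : Hil F) :
    ((An F w g : Hil F) : List (Lt F) → ℂ) = an F w g := rfl
theorem Un_apply (a : List (ℕ × Bool)) (g : Hil F) :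
    ((Un F a g : Hil F) : List (Lt F) → ℂ) = un F a g := rfl

theorem Cr_norm (w : List (Lt F)) : ‖Cr F w‖ ≤ 1 := mk_norm F _ _
theorem An_norm (w : List (Lt F)) : ‖An F w‖ ≤ 1 := mk_norm F _ _
theorem Un_norm (a : List (ℕ × Bool)) : ‖Un F a‖ ≤ 1 := mk_norm F _ _

theorem Cr_star (w : List (Lt F)) : star (Cr F w) = An F w := by
  rw [ContinuousLinearMap.star_eq_adjoint]
  symm
  rw [ContinuousLinearMap.eq_adjoint_iff]
  intro f g
  rw [lp.inner_eq_tsum, lp.inner_eq_tsum, An_apply, Cr_apply]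
  have hinj : Function.Injective (fun W : List (Lt F) => w ++ W) :=
    fun a b h => List.append_cancel_left h
  rw [← hinj.tsum_eq (f := fun W => ⟪f W, cr F w g W⟫_ℂ)]
  · simp only [cr_append]
    rfl
  · intro W hW
    by_contra hno
    apply hW
    have : ¬ w <+: W := by
      rintro ⟨s, hs⟩
      exact hno ⟨s, hs⟩
    simp [cr_of_not F w _ W this]

theorem An_star (w : List (Lt F)) : star (An F w) = Cr F w := by
  rw [← Cr_star, star_star]

theorem un_un (a b : List (ℕ × Bool)) (f : List (Lt F) → ℂ) :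
    un F a (un F b f) = un F (a ++ b) f := by
  funext W
  rcases W with _ | ⟨⟨k, p, c⟩, W⟩
  · rfl
  · simp only [un_cons_apply, evw_append, Matrix.mul_apply, smul_eq_mul, Finset.mul_sum,
      Finset.sum_mul]
    rw [Finset.sum_comm]
    exact Finset.sum_congr rfl fun _ _ => Finset.sum_congr rfl fun _ _ => by ring

theorem un_revw (a : List (ℕ × Bool)) (f : List (Lt F) → ℂ) :
    un F a (un F (revw a) f) = f := by
  rw [un_un]
  funext W
  rcases W with _ | ⟨⟨k, p, c⟩, W⟩
  · rfl
  · rw [un_cons_apply, evw_append, evw_revw, ← Matrix.star_eq_conjTranspose,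
      Matrix.mem_unitaryGroup_iff.mp (evw_mem (F k) a)]
    simp [Matrix.one_apply]

theorem Un_norm_apply (a : List (ℕ × Bool)) (f : Hil F) : ‖Un F a f‖ = ‖f‖ := by
  have h := N2_un F a f
  rw [N2_hil f] at h
  have h2 : N2 (un F a f) = ENNReal.ofReal (‖Un F a f‖ ^ 2) := N2_hil (Un F a f)
  rw [h2] at h
  have h4 := (ENNReal.ofReal_eq_ofReal_iff (by positivity) (by positivity)).1 h
  exact (sq_eq_sq₀ (norm_nonneg _) (norm_nonneg _)).1 h4

theorem Un_star (a : List (ℕ × Bool)) : star (Un F a) = Un F (revw a) := by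
  rw [ContinuousLinearMap.star_eq_adjoint]
  symm
  rw [ContinuousLinearMap.eq_adjoint_iff]
  intro f g
  have h : f = Un F a (Un F (revw a) f) := by
    apply lp.ext
    rw [Un_apply, Un_apply, un_revw]
  let U : Hil F →ₗᵢ[ℂ] Hil F := ⟨(Un F a : Hil F →ₗ[ℂ] Hil F), Un_norm_apply F a⟩
  have hU : ∀ x y : Hil F, ⟪Un F a x, Un F a y⟫_ℂ = ⟪x, y⟫_ℂ := fun x y => U.inner_map_map x y
  conv_rhs => rw [h]
  rw [hU]

/-- one term -/
def Te (t : List (Lt F) × List (ℕ × Bool) × List (Lt F)) : Hil F →L[ℂ] Hil F :=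
  Cr F t.1 * (Un F t.2.1 * An F t.2.2)

theorem Te_apply (t : List (Lt F) × List (ℕ × Bool) × List (Lt F)) (g : Hil F) :
    ((Te F t g : Hil F) : List (Lt F) → ℂ) = actT F t g := by
  rw [actT_eq]
  rfl

theorem Te_norm (t : List (Lt F) × List (ℕ × Bool) × List (Lt F)) : ‖Te F t‖ ≤ 1 := by
  unfold Te
  refine (norm_mul_le _ _).trans ?_
  refine mul_le_one₀ (Cr_norm F _) (norm_nonneg _) ((norm_mul_le _ _).trans ?_)
  exact mul_le_one₀ (Un_norm F _) (norm_nonneg _) (An_norm F _)

theorem Te_star (t : List (Lt F) × List (ℕ × Bool) × List (Lt F)) :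
    star (Te F t) = Te F (t.2.2, revw t.2.1, t.1) := by
  unfold Te
  rw [star_mul, star_mul, Cr_star, Un_star, An_star, mul_assoc]

/-- algebraic elements as operators -/
def opr (x : El F) : Hil F →L[ℂ] Hil F := (x.map fun t => t.1 • Te F t.2).sum

theorem opr_nil : opr F [] = 0 := rfl
theorem opr_cons (t : ℂ × List (Lt F) × List (ℕ × Bool) × List (Lt F)) (x : El F) :
    opr F (t :: x) = t.1 • Te F t.2 + opr F x := by
  simp [opr]
theorem opr_append (x y : El F) : opr F (x ++ y) = opr F x + opr F y := by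
  simp [opr]

theorem opr_apply (x : El F) (g : Hil F) (W : List (Lt F)) :
    (opr F x g : List (Lt F) → ℂ) W = x.act (fun W' => (g : List (Lt F) → ℂ) W') W := by
  induction x with
  | nil => rfl
  | cons t x ih =>
    rw [opr_cons]
    have h1 : El.act (t :: x) (fun W' => (g : List (Lt F) → ℂ) W') W =
      t.1 • actT F t.2 (fun W' => (g : List (Lt F) → ℂ) W') W +
        El.act x (fun W' => (g : List (Lt F) → ℂ) W') W := by
      simp [El.act]
    rw [h1, ← ih]
    have h2 := congrFun (Te_apply F t.2 g) W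
    change _ = t.1 • actT F t.2 (g : List (Lt F) → ℂ) W + _
    rw [← h2]
    rfl

theorem opr_norm (x : El F) : ‖opr F x‖ ≤ (x.map fun t => ‖t.1‖).sum := by
  induction x with
  | nil => simp [opr_nil]
  | cons t x ih =>
    rw [opr_cons, List.map_cons, List.sum_cons]
    refine (norm_add_le _ _).trans (add_le_add ?_ ih)
    rw [norm_smul]
    exact mul_le_of_le_one_right (norm_nonneg _) (Te_norm F _)

theorem opr_star (x : El F) : star (opr F x) = opr F x.adj := by
  induction x with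
  | nil => simp [opr_nil, El.adj]
  | cons t x ih =>
    have : El.adj (t :: x) = (star t.1, t.2.2.2, revw t.2.2.1, t.2.1) :: El.adj x := by
      simp [El.adj]
    rw [this, opr_cons, opr_cons, star_add, star_smul, ih, Te_star]

/-! ## products -/

theorem An_append (v w : List (Lt F)) : An F (v ++ w) = An F w * An F v := by
  ext f : 1
  apply lp.ext
  funext W
  change (f : List (Lt F) → ℂ) (v ++ w ++ W) = (f : List (Lt F) → ℂ) (v ++ (w ++ W))
  rw [List.append_assoc]

theorem Cr_append (v w : List (Lt F)) : Cr F (v ++ w) = Cr F v * Cr F w := by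
  rw [← An_star, An_append, star_mul, An_star, An_star]

theorem Un_append (a b : List (ℕ × Bool)) : Un F (a ++ b) = Un F a * Un F b := by
  ext f : 1
  apply lp.ext
  change un F (a ++ b) f = un F a (un F b f)
  rw [un_un]

theorem Cr_nil : Cr F [] = 1 := by
  ext f : 1
  apply lp.ext
  funext W
  change cr F [] f W = (f : List (Lt F) → ℂ) W
  simp [cr]

theorem Un_nil : Un F [] = 1 := by
  ext f : 1
  apply lp.ext
  funext W
  change un F [] f W = (f : List (Lt F) → ℂ) W
  rcases W with _ | ⟨⟨k, p, c⟩, W⟩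
  · rfl
  · rw [un_cons_apply]
    simp [evw, Matrix.one_apply]

theorem An_nil : An F [] = 1 := by
  rw [← Cr_star, Cr_nil, star_one]

theorem coe_sum {ι : Type} (s : Finset ι) (f : ι → Hil F) (W : List (Lt F)) :
    ((∑ i ∈ s, f i : Hil F) : List (Lt F) → ℂ) W = ∑ i ∈ s, (f i : List (Lt F) → ℂ) W := by
  rw [lp.coeFn_sum, Finset.sum_apply]

theorem An_Un (a : List (ℕ × Bool)) (k : κ) (p : Fin (F k).n) (c : ℕ) :
    An F [⟨k, p, c⟩] * Un F a = ∑ p', evw (F k).u a p p' • An F [⟨k, p', c⟩] := by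
  ext f : 1
  apply lp.ext
  funext W
  rw [_root_.sum_apply, coe_sum]
  rfl

theorem Un_Cr (a : List (ℕ × Bool)) (k : κ) (p : Fin (F k).n) (c : ℕ) :
    Un F a * Cr F [⟨k, p, c⟩] = ∑ p', evw (F k).u a p' p • Cr F [⟨k, p', c⟩] := by
  have h := congrArg star (An_Un F (revw a) k p c)
  rw [star_mul, An_star, ← Un_star, star_star, star_sum] at h
  rw [h]
  refine Finset.sum_congr rfl fun p' _ => ?_
  rw [star_smul, An_star, evw_revw, Matrix.conjTranspose_apply, star_star]

theorem An_Cr_cons (i j : Lt F) (w : List (Lt F)) (h : i ≠ j) :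
    An F [i] * Cr F (j :: w) = 0 := by
  ext f : 1
  apply lp.ext
  funext W
  change cr F (j :: w) f (i :: W) = 0
  apply cr_of_not
  rw [List.cons_prefix_cons]
  rintro ⟨h', -⟩
  exact h h'.symm

theorem An_Cr (v w : List (Lt F)) : An F v * Cr F (v ++ w) = Cr F w := by
  have h : An F v * Cr F v = 1 := by
    ext f : 1
    apply lp.ext
    change an F v (cr F v f) = f
    rw [an_cr]
  rw [Cr_append, ← mul_assoc, h, one_mul]

/-- the range of `opr` -/
def R : Submodule ℂ (Hil F →L[ℂ] Hil F) where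
  carrier := Set.range (opr F)
  add_mem' := by
    rintro _ _ ⟨x, rfl⟩ ⟨y, rfl⟩
    exact ⟨x ++ y, opr_append F x y⟩
  zero_mem' := ⟨[], opr_nil F⟩
  smul_mem' := by
    rintro c _ ⟨x, rfl⟩
    refine ⟨x.map fun t => (c * t.1, t.2), ?_⟩
    induction x with
    | nil => simp [opr_nil]
    | cons t x ih => rw [List.map_cons, opr_cons, opr_cons, ih, smul_add, smul_smul]

theorem Te_mem (t : List (Lt F) × List (ℕ × Bool) × List (Lt F)) : Te F t ∈ R F :=
  ⟨[(1, t)], by rw [opr_cons, opr_nil, one_smul, add_zero]⟩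

theorem opr_mem (x : El F) : opr F x ∈ R F := ⟨x, rfl⟩

theorem mem_of_Te (B : Hil F →L[ℂ] Hil F) (h : ∀ t, B * Te F t ∈ R F) :
    ∀ y ∈ R F, B * y ∈ R F := by
  rintro _ ⟨x, rfl⟩
  induction x with
  | nil => rw [opr_nil, mul_zero]; exact zero_mem _
  | cons t x ih =>
    rw [opr_cons, mul_add, mul_smul_comm]
    exact add_mem (Submodule.smul_mem _ _ (h _)) ih

theorem Cr_mul_mem (w : List (Lt F)) : ∀ y ∈ R F, Cr F w * y ∈ R F := by
  refine mem_of_Te F _ fun t => ?_
  have : Cr F w * Te F t = Te F (w ++ t.1, t.2) := by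
    unfold Te
    rw [Cr_append, mul_assoc]
  rw [this]
  exact Te_mem F _

theorem An1_mul_mem (i : Lt F) : ∀ y ∈ R F, An F [i] * y ∈ R F := by
  refine mem_of_Te F _ fun t => ?_
  rcases t with ⟨w, a, v⟩
  rcases w with _ | ⟨j, w⟩
  · rcases i with ⟨k, p, c⟩
    have : An F [⟨k, p, c⟩] * Te F ([], a, v) =
        ∑ p', evw (F k).u a p p' • Te F ([], [], v ++ [⟨k, p', c⟩]) := by
      unfold Te
      simp only [Cr_nil, Un_nil, one_mul]
      rw [← mul_assoc, An_Un, Finset.sum_mul]
      refine Finset.sum_congr rfl fun p' _ => ?_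
      rw [smul_mul_assoc, An_append]
    rw [this]
    exact Submodule.sum_mem _ fun p' _ => Submodule.smul_mem _ _ (Te_mem F _)
  · by_cases h : i = j
    · subst h
      have : An F [i] * Te F (i :: w, a, v) = Te F (w, a, v) := by
        unfold Te
        have h := An_Cr F [i] w
        rw [← mul_assoc]
        change An F [i] * Cr F ([i] ++ w) * _ = _
        rw [h]
      rw [this]
      exact Te_mem F _
    · have : An F [i] * Te F (j :: w, a, v) = 0 := by
        unfold Te
        rw [← mul_assoc, An_Cr_cons F i j w h, zero_mul]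
      rw [this]
      exact zero_mem _

theorem An_mul_mem (v : List (Lt F)) : ∀ y ∈ R F, An F v * y ∈ R F := by
  induction v with
  | nil => intro y hy; rw [An_nil, one_mul]; exact hy
  | cons i v ih =>
    intro y hy
    have : An F (i :: v) = An F v * An F [i] := An_append F [i] v
    rw [this, mul_assoc]
    exact ih _ (An1_mul_mem F i y hy)

theorem Un_mul_mem (b : List (ℕ × Bool)) : ∀ y ∈ R F, Un F b * y ∈ R F := by
  refine mem_of_Te F _ fun t => ?_
  rcases t with ⟨w, a, v⟩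
  rcases w with _ | ⟨⟨k, p, c⟩, w⟩
  · have : Un F b * Te F ([], a, v) = Te F ([], b ++ a, v) := by
      unfold Te
      simp only [Cr_nil, one_mul]
      rw [Un_append, mul_assoc]
    rw [this]
    exact Te_mem F _
  · have : Un F b * Te F (⟨k, p, c⟩ :: w, a, v) =
        ∑ p', evw (F k).u b p' p • Te F (⟨k, p', c⟩ :: w, a, v) := by
      unfold Te
      have h1 : ∀ q : Fin (F k).n, Cr F (⟨k, q, c⟩ :: w) = Cr F [⟨k, q, c⟩] * Cr F w :=
        fun q => Cr_append F [⟨k, q, c⟩] w
      simp only [h1]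
      rw [mul_assoc (Cr F [⟨k, p, c⟩]), ← mul_assoc (Un F b), Un_Cr, Finset.sum_mul]
      refine Finset.sum_congr rfl fun p' _ => ?_
      rw [smul_mul_assoc, mul_assoc (Cr F [⟨k, p', c⟩])]
    rw [this]
    exact Submodule.sum_mem _ fun p' _ => Submodule.smul_mem _ _ (Te_mem F _)

theorem Te_mul_mem (t : List (Lt F) × List (ℕ × Bool) × List (Lt F)) :
    ∀ y ∈ R F, Te F t * y ∈ R F := by
  intro y hy
  unfold Te
  rw [mul_assoc, mul_assoc]
  exact Cr_mul_mem F _ _ (Un_mul_mem F _ _ (An_mul_mem F _ _ hy))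

theorem opr_mul_mem (x : El F) : ∀ y ∈ R F, opr F x * y ∈ R F := by
  intro y hy
  induction x with
  | nil => rw [opr_nil, zero_mul]; exact zero_mem _
  | cons t x ih =>
    rw [opr_cons, add_mul, smul_mul_assoc]
    exact add_mem (Submodule.smul_mem _ _ (Te_mul_mem F _ _ hy)) ih

theorem isOpr : IsOpr F (opr F) where
  apply := opr_apply F
  norm_le := opr_norm F
  star_eq := opr_star F
  mul_eq := fun x y => by
    obtain ⟨z, hz⟩ := opr_mul_mem F x _ (opr_mem F y)
    exact ⟨z, hz.symm⟩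

/-- the operators exist -/
theorem main : S_OPR := fun _ F => ⟨opr F, isOpr F⟩

end Pool.Agent.H299_Opp.OPR
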