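import Pool.Agent.H299_Opp.Stubs

/-!
# PI: separable, non commutative, purely infinite (paper, section 2)

The slices of the paper are avoided: with a fresh letter `b` of the trivial fibre, and for a
function `f` of finite support, `T_f = ∑ f(W) T_{W b}` satisfies `x T_f = T_{x f}` and
`T_f^* T_f = |f|^2`.
-/

set_option autoImplicit false

open scoped BigOperators Matrix InnerProductSpace

noncomputable section

namespace Pool.Agent.H299_Opp

namespace PI

variable {κ : Type} {F : κ → Fib}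

open Classical in
/-- `f ⊗ g`, split at the first occurrence of `b` -/
def tens (b : Lt F) (g : List (Lt F) → ℂ) : (List (Lt F) → ℂ) → List (Lt F) → ℂ
  | _, [] => 0
  | f, a :: U => if a = b then f [] * g U else tens b g (fun V => f (a :: V)) U

theorem tens_nil (b : Lt F) (g f : List (Lt F) → ℂ) : tens b g f [] = 0 := by
  simp [tens]

theorem tens_cons_self (b : Lt F) (g f : List (Lt F) → ℂ) (U : List (Lt F)) :
    tens b g f (b :: U) = f [] * g U := by
  simp [tens]

theorem tens_cons_ne {a b : Lt F} (h : a ≠ b) (g f : List (Lt F) → ℂ) (U : List (Lt F)) :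
    tens b g f (a :: U) = tens b g (fun V => f (a :: V)) U := by
  simp [tens, h]

theorem tens_append {b : Lt F} {v : List (Lt F)} (hv : b ∉ v) (g f : List (Lt F) → ℂ)
    (U : List (Lt F)) : tens b g f (v ++ U) = tens b g (fun V => f (v ++ V)) U := by
  induction v generalizing f with
  | nil => simp
  | cons a v ih =>
    rw [List.mem_cons, not_or] at hv
    rw [List.cons_append, tens_cons_ne (Ne.symm hv.1), ih hv.2]
    rfl

theorem tens_split {b : Lt F} {v : List (Lt F)} (hv : b ∉ v) (g f : List (Lt F) → ℂ)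
    (U : List (Lt F)) : tens b g f (v ++ b :: U) = f v * g U := by
  rw [tens_append hv, tens_cons_self, List.append_nil]

theorem tens_of_notMem {b : Lt F} {U : List (Lt F)} (hU : b ∉ U) (g f : List (Lt F) → ℂ) :
    tens b g f U = 0 := by
  have := tens_append hU g f []
  rw [List.append_nil] at this
  rw [this, tens_nil]

theorem split_unique {b : Lt F} {V W z z' : List (Lt F)} (hV : b ∉ V) (hW : b ∉ W)
    (h : V ++ b :: z = W ++ b :: z') : V = W := by
  induction V generalizing W with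
  | nil =>
    cases W with
    | nil => rfl
    | cons a W =>
      rw [List.nil_append, List.cons_append, List.cons.injEq] at h
      exact absurd (by rw [h.1]; exact List.mem_cons_self) hW
  | cons a V ih =>
    cases W with
    | nil =>
      rw [List.nil_append, List.cons_append, List.cons.injEq] at h
      exact absurd (by rw [h.1]; exact List.mem_cons_self) hV
    | cons a' W =>
      rw [List.cons_append, List.cons_append, List.cons.injEq] at h
      rw [List.mem_cons, not_or] at hV hW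
      rw [h.1, ih hV.2 hW.2 h.2]

/-- every word either avoids `b` or is split at the first `b` -/
theorem cases_word (b : Lt F) (U : List (Lt F)) :
    b ∉ U ∨ ∃ V z, U = V ++ b :: z ∧ b ∉ V := by
  classical
  by_cases h : b ∈ U
  · obtain ⟨V, z, h1, h2⟩ := List.eq_append_cons_of_mem h
    exact Or.inr ⟨V, z, h1, h2⟩
  · exact Or.inl h

theorem tens_zero (b : Lt F) (g : List (Lt F) → ℂ) (U : List (Lt F)) :
    tens b g (fun _ => 0) U = 0 := by
  rcases cases_word b U with h | ⟨V, z, rfl, h⟩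
  · exact tens_of_notMem h _ _
  · rw [tens_split h, zero_mul]

theorem tens_listsum {ι : Type} (l : List ι) (b : Lt F) (g : List (Lt F) → ℂ)
    (φ : ι → List (Lt F) → ℂ) (U : List (Lt F)) :
    tens b g (fun V => (l.map fun i => φ i V).sum) U = (l.map fun i => tens b g (φ i) U).sum := by
  rcases cases_word b U with h | ⟨V, z, rfl, h⟩
  · simp only [tens_of_notMem h]
    simp
  · simp only [tens_split h]
    rw [List.sum_map_mul_right]

theorem tens_smul (q : ℂ) (b : Lt F) (g f : List (Lt F) → ℂ) (U : List (Lt F)) :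
    tens b g (fun V => q • f V) U = q • tens b g f U := by
  rcases cases_word b U with h | ⟨V, z, rfl, h⟩
  · simp only [tens_of_notMem h]
    simp
  · simp only [tens_split h, smul_eq_mul]
    ring

theorem tens_sum {ι : Type} (s : Finset ι) (b : Lt F) (g : List (Lt F) → ℂ)
    (φ : ι → List (Lt F) → ℂ) (U : List (Lt F)) :
    tens b g (fun V => ∑ i ∈ s, φ i V) U = ∑ i ∈ s, tens b g (φ i) U := by
  rcases cases_word b U with h | ⟨V, z, rfl, h⟩
  · simp only [tens_of_notMem h]
    simp
  · simp only [tens_split h]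
    rw [Finset.sum_mul]

/-- the first-letter action commutes with `⊗ g` -/
theorem actA_tens (a : ∀ k, Matrix (Fin (F k).n) (Fin (F k).n) ℂ) (k0 : κ) (hn : (F k0).n = 1)
    (ha : a k0 = 1) (p0 : Fin (F k0).n) (c : ℕ) (g f : List (Lt F) → ℂ) (U : List (Lt F)) :
    actA F a (tens (⟨k0, p0, c⟩ : Lt F) g f) U = tens (⟨k0, p0, c⟩ : Lt F) g (actA F a f) U := by
  cases U with
  | nil => simp [actA, tens_nil]
  | cons l W =>
    obtain ⟨k, p, c'⟩ := l
    by_cases hb : (⟨k, p, c'⟩ : Lt F) = ⟨k0, p0, c⟩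
    · rw [hb, tens_cons_self]
      simp only [actA]
      have : Subsingleton (Fin (F k0).n) := by rw [hn]; infer_instance
      let _ : Unique (Fin (F k0).n) := ⟨⟨p0⟩, fun q => Subsingleton.elim _ _⟩
      rw [Fintype.sum_unique, ha, Subsingleton.elim (default : Fin (F k0).n) p0,
        Matrix.one_apply_eq, one_smul, tens_cons_self]
    · rw [tens_cons_ne hb]
      have h1 : (fun V => actA F a f ((⟨k, p, c'⟩ : Lt F) :: V)) =
          fun V => ∑ p' : Fin (F k).n, a k p p' • f ((⟨k, p', c'⟩ : Lt F) :: V) := by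
        funext V
        simp only [actA]
      rw [h1, tens_sum]
      simp only [actA]
      refine Finset.sum_congr rfl fun p' _ => ?_
      have hne : (⟨k, p', c'⟩ : Lt F) ≠ ⟨k0, p0, c⟩ := by
        intro h
        apply hb
        have hk : k = k0 := congrArg Sigma.fst h
        subst hk
        have : Subsingleton (Fin (F k).n) := by rw [hn]; infer_instance
        rw [← h, Subsingleton.elim p p']
      rw [tens_cons_ne hne, tens_smul]

open Classical in
theorem tens_pre (b : Lt F) (w : List (Lt F)) (hw : b ∉ w) (g h : List (Lt F) → ℂ)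
    (U : List (Lt F)) :
    tens b g (fun W => if w <+: W then h (W.drop w.length) else 0) U =
      if w <+: U then tens b g h (U.drop w.length) else 0 := by
  induction w generalizing U with
  | nil => simp
  | cons a w ih =>
    rw [List.mem_cons, not_or] at hw
    cases U with
    | nil => simp [tens_nil]
    | cons a' U =>
      by_cases hb : a' = b
      · subst hb
        rw [tens_cons_self]
        have h1 : ¬ (a :: w <+: ([] : List (Lt F))) := by simp
        have h2 : ¬ (a :: w <+: a' :: U) := by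
          rw [List.cons_prefix_cons]
          rintro ⟨h, -⟩
          exact hw.1 h.symm
        rw [if_neg h1, if_neg h2, zero_mul]
      · rw [tens_cons_ne hb]
        by_cases ha : a = a'
        · subst ha
          have h1 : (fun V => if a :: w <+: a :: V then h ((a :: V).drop (a :: w).length) else 0) =
              fun V => if w <+: V then h (V.drop w.length) else 0 := by
            funext V
            simp [List.cons_prefix_cons]
          rw [h1, ih hw.2]
          simp [List.cons_prefix_cons]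
        · have h1 : (fun V => if a :: w <+: a' :: V then h ((a' :: V).drop (a :: w).length) else 0) =
              fun _ => 0 := by
            funext V
            rw [if_neg]
            rw [List.cons_prefix_cons]
            exact fun hh => ha hh.1
          rw [h1, tens_zero, if_neg]
          rw [List.cons_prefix_cons]
          exact fun hh => ha hh.1

theorem evw_one {n : ℕ} (u : ℕ → Matrix (Fin n) (Fin n) ℂ) (h : ∀ j, u j = 1)
    (w : List (ℕ × Bool)) : evw u w = 1 := by
  induction w with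
  | nil => rfl
  | cons p w ih =>
    simp only [evw, ih, h]
    split_ifs <;> simp

/-- algebraic elements act on the left leg -/
theorem act_tens (x : El F) (k0 : κ) (hn : (F k0).n = 1) (hu : ∀ j, (F k0).u j = 1)
    (p0 : Fin (F k0).n) (c : ℕ)
    (hx : ∀ t ∈ x, (⟨k0, p0, c⟩ : Lt F) ∉ t.2.1 ∧ (⟨k0, p0, c⟩ : Lt F) ∉ t.2.2.2)
    (g f : List (Lt F) → ℂ) (U : List (Lt F)) :
    x.act (tens (⟨k0, p0, c⟩ : Lt F) g f) U = tens (⟨k0, p0, c⟩ : Lt F) g (x.act f) U := by
  unfold El.act
  rw [tens_listsum]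
  congr 1
  refine List.map_congr_left fun t ht => ?_
  rw [tens_smul]
  congr 1
  unfold actT
  rw [tens_pre _ _ (hx t ht).1]
  split_ifs with h
  · rw [← actA_tens _ k0 hn (evw_one _ hu _)]
    congr 1
    funext W'
    rw [tens_append (hx t ht).2]
  · rfl

/-- the finite supports -/
theorem actA_fin (a : ∀ k, Matrix (Fin (F k).n) (Fin (F k).n) ℂ) (f : List (Lt F) → ℂ)
    (hf : (Function.support f).Finite) : (Function.support (actA F a f)).Finite := by
  let R : List (Lt F) → Set (List (Lt F)) := fun W => match W with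
    | [] => {[]}
    | ⟨k, _, c⟩ :: U => Set.range fun p' : Fin (F k).n => (⟨k, p', c⟩ : Lt F) :: U
  have hR : ∀ W, (R W).Finite := by
    intro W
    cases W with
    | nil => exact Set.finite_singleton _
    | cons l U =>
      obtain ⟨k, p, c⟩ := l
      exact Set.finite_range _
  refine Set.Finite.subset (Set.Finite.biUnion hf (fun W _ => hR W)) ?_
  intro W hW
  rw [Function.mem_support] at hW
  rw [Set.mem_iUnion₂]
  cases W with
  | nil => exact ⟨[], by simpa [actA] using hW, rfl⟩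
  | cons l U =>
    obtain ⟨k, p, c⟩ := l
    simp only [actA] at hW
    obtain ⟨p', -, hp'⟩ := Finset.exists_ne_zero_of_sum_ne_zero hW
    refine ⟨(⟨k, p', c⟩ : Lt F) :: U, ?_, ⟨p, rfl⟩⟩
    rw [Function.mem_support]
    intro h0
    exact hp' (by rw [h0, smul_zero])

theorem actT_fin (t : List (Lt F) × List (ℕ × Bool) × List (Lt F)) (f : List (Lt F) → ℂ)
    (hf : (Function.support f).Finite) : (Function.support (actT F t f)).Finite := by
  classical
  have h1 : (Function.support fun W' => f (t.2.2 ++ W')).Finite :=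
    Set.Finite.preimage (f := fun W' => t.2.2 ++ W') (fun _ _ _ _ h => List.append_cancel_left h) hf
  have h2 := actA_fin (fun k => evw (F k).u t.2.1) _ h1
  refine Set.Finite.subset (h2.image (fun W => t.1 ++ W)) ?_
  intro W hW
  rw [Function.mem_support] at hW
  unfold actT at hW
  by_cases hw : t.1 <+: W
  · rw [if_pos hw] at hW
    refine ⟨W.drop t.1.length, hW, ?_⟩
    obtain ⟨V, rfl⟩ := hw
    simp
  · rw [if_neg hw] at hW
    exact absurd rfl hW

theorem act_fin (x : El F) (f : List (Lt F) → ℂ) (hf : (Function.support f).Finite) :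
    (Function.support (x.act f)).Finite := by
  induction x with
  | nil =>
    have : El.act ([] : El F) f = fun _ => 0 := by
      funext W
      simp [El.act]
    rw [this]
    simp
  | cons t x ih =>
    refine Set.Finite.subset ((actT_fin t.2 f hf).union ih) ?_
    intro W hW
    rw [Function.mem_support] at hW
    by_contra hcon
    rw [Set.mem_union, not_or, Function.mem_support, Function.mem_support, not_not, not_not] at hcon
    apply hW
    have : El.act (t :: x) f W = t.1 • actT F t.2 f W + El.act x f W := by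
      simp [El.act]
    rw [this, hcon.1, hcon.2, smul_zero, add_zero]

/-- action of the term `T_{W b}` -/
theorem actT_cr (W : List (Lt F)) (b : Lt F) (hW : b ∉ W) (g : List (Lt F) → ℂ)
    (U : List (Lt F)) [DecidableEq (List (Lt F))] :
    actT F (W ++ [b], [], []) g U = tens b g (fun V => if V = W then 1 else 0) U := by
  classical
  have hA : ∀ (h : List (Lt F) → ℂ) (V : List (Lt F)),
      actA F (fun k => evw (F k).u []) h V = h V := by
    intro h V
    cases V with
    | nil => rfl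
    | cons l V =>
      obtain ⟨k, p, c⟩ := l
      simp [actA, evw, Matrix.one_apply]
  unfold actT
  simp only [hA, List.nil_append]
  rcases cases_word b U with h | ⟨V, z, rfl, h⟩
  · rw [tens_of_notMem h, if_neg]
    intro hp
    apply h
    exact hp.subset (by simp)
  · rw [tens_split h]
    by_cases hVW : V = W
    · subst hVW
      rw [if_pos, if_pos rfl, one_mul]
      · congr 1
        have : V ++ b :: z = (V ++ [b]) ++ z := by simp
        rw [this, List.drop_left]
      · exact ⟨z, by simp⟩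
    · rw [if_neg, if_neg hVW, zero_mul]
      rintro ⟨z', hz'⟩
      rw [List.append_assoc, List.singleton_append] at hz'
      apply hVW
      exact split_unique h hW hz'.symm

theorem actT_star_cr (v : List (Lt F)) (g : List (Lt F) → ℂ)
    (U : List (Lt F)) :
    actT F ([], [], v) g U = g (v ++ U) := by
  unfold actT
  rw [if_pos List.nil_prefix]
  simp only [List.length_nil, List.drop_zero]
  cases U with
  | nil => rfl
  | cons l V =>
    obtain ⟨k, p, c⟩ := l
    simp [actA, evw, Matrix.one_apply]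

/-- the algebraic element `T_f` -/
def Tel (b : Lt F) (s : Finset (List (Lt F))) (f : List (Lt F) → ℂ) : El F :=
  s.toList.map fun W => (f W, W ++ [b], [], [])

theorem Tel_act (b : Lt F) (s : Finset (List (Lt F))) (hs : ∀ W ∈ s, b ∉ W)
    (f : List (Lt F) → ℂ) (hf : ∀ W, W ∉ s → f W = 0) (g : List (Lt F) → ℂ) (U : List (Lt F)) :
    (Tel b s f).act g U = tens b g f U := by
  classical
  have hff : f = fun V => ∑ W ∈ s, f W • (if V = W then (1 : ℂ) else 0) := by
    funext V
    by_cases hV : V ∈ s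
    · rw [Finset.sum_eq_single V]
      · simp
      · intro W _ hW
        rw [if_neg (Ne.symm hW), smul_zero]
      · intro h
        exact absurd hV h
    · rw [hf V hV]
      symm
      apply Finset.sum_eq_zero
      intro W hW
      rw [if_neg, smul_zero]
      rintro rfl
      exact hV hW
  conv_rhs => rw [hff]
  rw [tens_sum]
  unfold El.act Tel
  rw [List.map_map, Finset.sum_map_toList]
  refine Finset.sum_congr rfl fun W hW => ?_
  simp only [Function.comp]
  rw [tens_smul, actT_cr W b (hs W hW)]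

variable {opr : El F → (Hil F →L[ℂ] Hil F)}

theorem hil_ext {f g : Hil F} (h : ∀ W, (f : List (Lt F) → ℂ) W = (g : List (Lt F) → ℂ) W) :
    f = g := by
  ext W
  exact h W

/-- `x T_f = T_{x f}` -/
theorem mul_Tel (ho : IsOpr F opr) (x : El F) (k0 : κ) (hn : (F k0).n = 1)
    (hu : ∀ j, (F k0).u j = 1) (p0 : Fin (F k0).n) (c : ℕ)
    (hx : ∀ t ∈ x, (⟨k0, p0, c⟩ : Lt F) ∉ t.2.1 ∧ (⟨k0, p0, c⟩ : Lt F) ∉ t.2.2.2)
    (s s' : Finset (List (Lt F))) (hs : ∀ W ∈ s, (⟨k0, p0, c⟩ : Lt F) ∉ W)
    (hs' : ∀ W ∈ s', (⟨k0, p0, c⟩ : Lt F) ∉ W)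
    (f : List (Lt F) → ℂ) (hf : ∀ W, W ∉ s → f W = 0) (hf' : ∀ W, W ∉ s' → x.act f W = 0) :
    opr x * opr (Tel ⟨k0, p0, c⟩ s f) = opr (Tel ⟨k0, p0, c⟩ s' (x.act f)) := by
  apply ContinuousLinearMap.ext
  intro g
  apply hil_ext
  intro U
  have h1 : (opr x * opr (Tel ⟨k0, p0, c⟩ s f)) g = opr x (opr (Tel ⟨k0, p0, c⟩ s f) g) := rfl
  rw [h1, ho.apply, ho.apply, Tel_act _ _ hs' _ hf']
  have h2 : (fun W' => (opr (Tel ⟨k0, p0, c⟩ s f) g : List (Lt F) → ℂ) W') =
      tens ⟨k0, p0, c⟩ (fun W' => (g : List (Lt F) → ℂ) W') f := by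
    funext W'
    rw [ho.apply, Tel_act _ _ hs _ hf]
  rw [h2, act_tens x k0 hn hu p0 c hx]

/-- `T_f^* T_f = |f|^2` -/
theorem star_Tel_mul_Tel (ho : IsOpr F opr) (b : Lt F) (s : Finset (List (Lt F)))
    (hs : ∀ W ∈ s, b ∉ W) (f : List (Lt F) → ℂ) (hf : ∀ W, W ∉ s → f W = 0) :
    star (opr (Tel b s f)) * opr (Tel b s f) =
      ((∑ W ∈ s, ‖f W‖ ^ 2 : ℝ) : ℂ) • (1 : Hil F →L[ℂ] Hil F) := by
  apply ContinuousLinearMap.ext
  intro g
  apply hil_ext
  intro U
  have h1 : (star (opr (Tel b s f)) * opr (Tel b s f)) g =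
      star (opr (Tel b s f)) (opr (Tel b s f) g) := rfl
  rw [h1, ho.star_eq, ho.apply]
  have h2 : (fun W' => (opr (Tel b s f) g : List (Lt F) → ℂ) W') =
      tens b (fun W' => (g : List (Lt F) → ℂ) W') f := by
    funext W'
    rw [ho.apply, Tel_act _ _ hs _ hf]
  rw [h2]
  have h3 : (((((∑ W ∈ s, ‖f W‖ ^ 2 : ℝ) : ℂ) • (1 : Hil F →L[ℂ] Hil F)) g : Hil F) :
      List (Lt F) → ℂ) U = ((∑ W ∈ s, ‖f W‖ ^ 2 : ℝ) : ℂ) * (g : List (Lt F) → ℂ) U := by
    simp
  rw [h3]
  unfold El.act El.adj Tel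
  rw [List.map_map, List.map_map, Finset.sum_map_toList, Complex.ofReal_sum, Finset.sum_mul]
  refine Finset.sum_congr rfl fun W hW => ?_
  simp only [Function.comp, revw, List.reverse_nil, List.map_nil]
  rw [actT_star_cr, List.append_assoc, List.singleton_append, tens_split (hs W hW), smul_eq_mul,
    ← mul_assoc]
  congr 1
  rw [Complex.star_def, ← Complex.normSq_eq_conj_mul_self, Complex.normSq_eq_norm_sq]

/-- the squared norm of a finitely supported element -/
theorem norm_sq_fin (φ : Hil F) (s : Finset (List (Lt F)))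
    (hφ : ∀ W, W ∉ s → (φ : List (Lt F) → ℂ) W = 0) :
    ‖φ‖ ^ 2 = ∑ W ∈ s, ‖(φ : List (Lt F) → ℂ) W‖ ^ 2 := by
  have h := lp.norm_rpow_eq_tsum (p := 2) (by norm_num) φ
  simp only [ENNReal.toReal_ofNat] at h
  have h2 : ∑' i, ‖φ i‖ ^ (2 : ℝ) = ∑ W ∈ s, ‖φ W‖ ^ (2 : ℝ) := by
    apply tsum_eq_sum
    intro W hW
    rw [hφ W hW]
    simp
  rw [h2] at h
  simpa using h

/-- finitely supported vectors almost attain the norm -/
theorem exists_fin (T : Hil F →L[ℂ] Hil F) (r : ℝ) (hr0 : 0 ≤ r) (hr : r < ‖T‖) :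
    ∃ (φ : Hil F) (s : Finset (List (Lt F))), (∀ W, W ∉ s → (φ : List (Lt F) → ℂ) W = 0) ∧
      r * ‖φ‖ < ‖T φ‖ := by
  classical
  have h1 : ∃ ψ : Hil F, r * ‖ψ‖ < ‖T ψ‖ := by
    by_contra hcon
    push Not at hcon
    exact absurd (T.opNorm_le_bound hr0 hcon) (not_le.mpr hr)
  obtain ⟨ψ, hψ⟩ := h1
  have hopen : IsOpen {φ : Hil F | r * ‖φ‖ < ‖T φ‖} :=
    isOpen_lt (by fun_prop) (by fun_prop)
  have hs := lp.hasSum_single (p := 2) (by simp) ψ
  have hev := hs.eventually (hopen.mem_nhds hψ)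
  obtain ⟨s, hs⟩ := hev.exists
  refine ⟨_, s, ?_, hs⟩
  intro W hW
  rw [lp.coeFn_sum, Finset.sum_apply]
  apply Finset.sum_eq_zero
  intro V hV
  rw [lp.single_apply]
  have hne : W ≠ V := by
    rintro rfl
    exact hW hV
  simp [hne]

/-- the key lemma: for every `r < |x|` there is `T` in the algebra with `T^* T ≤ 1` (in norm) and
`T^* x^* x T = lam`, `lam > r^2` -/
theorem key (ho : IsOpr F opr) (k0 : κ) (hn : (F k0).n = 1) (hu : ∀ j, (F k0).u j = 1)
    (x : El F) (r : ℝ) (hr0 : 0 ≤ r) (hr : r < ‖opr x‖) :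
    ∃ (y : El F) (lam mu : ℝ), 0 < mu ∧ r ^ 2 * mu < lam ∧
      star (opr y) * opr y = ((mu : ℝ) : ℂ) • (1 : Hil F →L[ℂ] Hil F) ∧
      star (opr y) * (star (opr x) * opr x) * opr y =
        ((lam : ℝ) : ℂ) • (1 : Hil F →L[ℂ] Hil F) := by
  classical
  obtain ⟨φ, s, hφ, hlt⟩ := exists_fin (opr x) r hr0 hr
  set f : List (Lt F) → ℂ := fun W => (φ : List (Lt F) → ℂ) W with hfdef
  have hffin : (Function.support f).Finite := by
    refine Set.Finite.subset s.finite_toSet ?_
    intro W hW
    by_contra hcon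
    exact hW (hφ W hcon)
  have hf'fin := act_fin x f hffin
  set s' : Finset (List (Lt F)) := hf'fin.toFinset with hs'def
  have hf' : ∀ W, W ∉ s' → x.act f W = 0 := by
    intro W hW
    by_contra hcon
    exact hW (by rw [hs'def, Set.Finite.mem_toFinset]; exact hcon)
  -- a fresh letter
  have p0 : Fin (F k0).n := ⟨0, by rw [hn]; exact Nat.one_pos⟩
  let L : Finset (Lt F) := (s.biUnion fun W => W.toFinset) ∪ (s'.biUnion fun W => W.toFinset) ∪
    (x.toFinset.biUnion fun t => t.2.1.toFinset ∪ t.2.2.2.toFinset)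
  have hinj : Function.Injective (fun c : ℕ => (⟨k0, p0, c⟩ : Lt F)) := by
    intro c c' h
    simpa using h
  obtain ⟨b, ⟨c, rfl⟩, hb⟩ := (Set.infinite_range_of_injective hinj).exists_notMem_finset L
  simp only at hb
  have hb1 : ∀ W ∈ s, (⟨k0, p0, c⟩ : Lt F) ∉ W := by
    intro W hW h
    apply hb
    refine Finset.mem_union_left _ (Finset.mem_union_left _ ?_)
    exact Finset.mem_biUnion.mpr ⟨W, hW, List.mem_toFinset.mpr h⟩
  have hb2 : ∀ W ∈ s', (⟨k0, p0, c⟩ : Lt F) ∉ W := by
    intro W hW h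
    apply hb
    refine Finset.mem_union_left _ (Finset.mem_union_right _ ?_)
    exact Finset.mem_biUnion.mpr ⟨W, hW, List.mem_toFinset.mpr h⟩
  have hb3 : ∀ t ∈ x, (⟨k0, p0, c⟩ : Lt F) ∉ t.2.1 ∧ (⟨k0, p0, c⟩ : Lt F) ∉ t.2.2.2 := by
    intro t ht
    constructor
    · intro h
      apply hb
      refine Finset.mem_union_right _ (Finset.mem_biUnion.mpr ⟨t, List.mem_toFinset.mpr ht, ?_⟩)
      exact Finset.mem_union_left _ (List.mem_toFinset.mpr h)
    · intro h
      apply hb
      refine Finset.mem_union_right _ (Finset.mem_biUnion.mpr ⟨t, List.mem_toFinset.mpr ht, ?_⟩)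
      exact Finset.mem_union_right _ (List.mem_toFinset.mpr h)
  have hmul := mul_Tel ho x k0 hn hu p0 c hb3 s s' hb1 hb2 f hφ hf'
  have hφn := norm_sq_fin φ s hφ
  have hxn : ‖opr x φ‖ ^ 2 = ∑ W ∈ s', ‖x.act f W‖ ^ 2 := by
    rw [norm_sq_fin (opr x φ) s']
    · refine Finset.sum_congr rfl fun W _ => ?_
      rw [ho.apply]
    · intro W hW
      rw [ho.apply]
      exact hf' W hW
  have hφ0 : 0 < ‖φ‖ := by
    rw [norm_pos_iff]
    rintro rfl
    simp at hlt
  refine ⟨Tel ⟨k0, p0, c⟩ s f, ‖opr x φ‖ ^ 2, ‖φ‖ ^ 2, by positivity, ?_, ?_, ?_⟩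
  · rw [← mul_pow]
    exact pow_lt_pow_left₀ hlt (by positivity) two_ne_zero
  · rw [hφn]
    exact star_Tel_mul_Tel ho _ s hb1 f hφ
  · have : star (opr (Tel ⟨k0, p0, c⟩ s f)) * (star (opr x) * opr x) *
        opr (Tel ⟨k0, p0, c⟩ s f) = star (opr x * opr (Tel ⟨k0, p0, c⟩ s f)) *
        (opr x * opr (Tel ⟨k0, p0, c⟩ s f)) := by
      rw [star_mul]
      simp only [mul_assoc]
    rw [this, hmul, hxn]
    exact star_Tel_mul_Tel ho _ s' hb2 _ hf'

theorem opr_cons (ho : IsOpr F opr) (t : ℂ × List (Lt F) × List (ℕ × Bool) × List (Lt F))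
    (x : El F) : opr (t :: x) = t.1 • opr [(1, t.2)] + opr x := by
  apply ContinuousLinearMap.ext
  intro g
  apply hil_ext
  intro U
  have h1 : (((t.1 • opr [(1, t.2)] + opr x) g : Hil F) : List (Lt F) → ℂ) U =
      t.1 * (opr [(1, t.2)] g : List (Lt F) → ℂ) U + (opr x g : List (Lt F) → ℂ) U := rfl
  rw [h1, ho.apply, ho.apply, ho.apply]
  simp [El.act]

theorem opr_nil (ho : IsOpr F opr) : opr [] = 0 := by
  apply ContinuousLinearMap.ext
  intro g
  apply hil_ext
  intro U
  rw [ho.apply]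
  simp [El.act]

theorem sep [Countable κ] (ho : IsOpr F opr) : TopologicalSpace.IsSeparable (Set.range opr) := by
  let G : Set (Hil F →L[ℂ] Hil F) :=
    Set.range fun t : List (Lt F) × List (ℕ × Bool) × List (Lt F) => opr [(1, t)]
  have hG : G.Countable := Set.countable_range _
  have hspan : TopologicalSpace.IsSeparable (Submodule.span ℂ G : Set (Hil F →L[ℂ] Hil F)) :=
    hG.isSeparable.span
  refine hspan.mono ?_
  rintro _ ⟨x, rfl⟩
  show opr x ∈ Submodule.span ℂ G
  induction x with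
  | nil =>
    rw [opr_nil ho]
    exact Submodule.zero_mem _
  | cons t x ih =>
    rw [opr_cons ho]
    exact Submodule.add_mem _ (Submodule.smul_mem _ _ (Submodule.subset_span ⟨t.2, rfl⟩)) ih

theorem smul_range (ho : IsOpr F opr) (q : ℂ) (x : El F) :
    q • opr x ∈ Set.range opr := by
  refine ⟨x.map fun t => (q * t.1, t.2), ?_⟩
  apply ContinuousLinearMap.ext
  intro g
  apply hil_ext
  intro U
  have h1 : (((q • opr x) g : Hil F) : List (Lt F) → ℂ) U =
      q * (opr x g : List (Lt F) → ℂ) U := by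
    simp
  rw [h1, ho.apply, ho.apply]
  unfold El.act
  rw [List.map_map, ← List.sum_map_mul_left]
  congr 1
  refine List.map_congr_left fun t _ => ?_
  simp [mul_assoc]

theorem nontriv : Nontrivial (Hil F) := by
  classical
  refine ⟨⟨lp.single 2 [] (1 : ℂ), 0, ?_⟩⟩
  intro h
  have h1 : (lp.single 2 [] (1 : ℂ) : Hil F) [] = 1 := lp.single_apply_self _ _ _
  rw [h] at h1
  exact zero_ne_one h1

theorem noncomm (ho : IsOpr F opr) (k0 : κ) (hn : (F k0).n = 1) :
    ∃ a b : El F, opr a * opr b ≠ opr b * opr a := by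
  classical
  have p0 : Fin (F k0).n := ⟨0, by rw [hn]; exact Nat.one_pos⟩
  let i : Lt F := ⟨k0, p0, 0⟩
  refine ⟨[(1, [], [], [i])], [(1, [i], [], [])], ?_⟩
  intro h
  let δ : Hil F := lp.single 2 [] (1 : ℂ)
  have h1 : ((opr [(1, [], [], [i])] * opr [(1, [i], [], [])]) δ : List (Lt F) → ℂ) [] = 1 := by
    have e1 : (opr [(1, [], [], [i])] * opr [(1, [i], [], [])]) δ =
      opr [(1, [], [], [i])] (opr [(1, [i], [], [])] δ) := rfl
    rw [e1, ho.apply]
    simp only [El.act, List.map_cons, List.map_nil, List.sum_cons, List.sum_nil, add_zero, one_smul]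
    rw [actT_star_cr, ho.apply]
    simp only [El.act, List.map_cons, List.map_nil, List.sum_cons, List.sum_nil, add_zero, one_smul]
    have e2 := actT_cr (F := F) [] i (by simp) (fun W' => (δ : List (Lt F) → ℂ) W') [i]
    rw [List.nil_append] at e2
    rw [List.append_nil, e2, tens_cons_self]
    simp [δ]
  have h2 : ((opr [(1, [i], [], [])] * opr [(1, [], [], [i])]) δ : List (Lt F) → ℂ) [] = 0 := by
    have e1 : (opr [(1, [i], [], [])] * opr [(1, [], [], [i])]) δ =
      opr [(1, [i], [], [])] (opr [(1, [], [], [i])] δ) := rfl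
    rw [e1, ho.apply]
    simp [El.act, actT]
  rw [h] at h1
  rw [h1] at h2
  exact one_ne_zero h2

/-- the abstract estimate -/
theorem est {A : Type} [NormedRing A] [StarRing A] [CStarRing A] [NormedAlgebra ℂ A]
    [StarModule ℂ A] [Nontrivial A] (c d x y : A) (lam mu : ℝ) (hmu : 0 < mu) (hx : 0 < ‖x‖)
    (hlam : (‖x‖ / 2) ^ 2 * mu < lam) (hy1 : star y * y = ((mu : ℝ) : ℂ) • (1 : A))
    (hy2 : star y * (star x * x) * y = ((lam : ℝ) : ℂ) • (1 : A)) :
    ‖star (((((Real.sqrt lam)⁻¹ : ℝ) : ℂ) • y) * d) * (star c * c) *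
      (((((Real.sqrt lam)⁻¹ : ℝ) : ℂ) • y) * d) - star d * d‖ ≤
      4 * ‖d‖ ^ 2 / ‖x‖ ^ 2 * ‖star c * c - star x * x‖ := by
  have hlam0 : 0 < lam := lt_of_le_of_lt (by positivity) hlam
  have hsq : Real.sqrt lam * Real.sqrt lam = lam := Real.mul_self_sqrt hlam0.le
  have hsq0 : 0 < Real.sqrt lam := Real.sqrt_pos.mpr hlam0
  obtain ⟨q, hq⟩ : ∃ q : ℂ, q = (((Real.sqrt lam)⁻¹ : ℝ) : ℂ) := ⟨_, rfl⟩
  rw [← hq]
  have hqq : star q * q = ((lam⁻¹ : ℝ) : ℂ) := by
    rw [hq, Complex.star_def, Complex.conj_ofReal, ← Complex.ofReal_mul, ← mul_inv, hsq]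
  have hqn : ‖q‖ ^ 2 = lam⁻¹ := by
    rw [hq, Complex.norm_real, Real.norm_eq_abs, sq_abs, inv_pow, Real.sq_sqrt hlam0.le]
  have hA : star ((q • y) * d) * (star x * x) * ((q • y) * d) = star d * d := by
    have e1 : star ((q • y) * d) * (star x * x) * ((q • y) * d) =
        (star q * q) • (star d * (star y * (star x * x) * y) * d) := by
      rw [star_mul, star_smul]
      simp only [mul_assoc, smul_mul_assoc, mul_smul_comm, smul_smul]
      rw [mul_comm q]
    rw [e1, hy2, hqq]
    simp only [mul_smul_comm, smul_mul_assoc, mul_one, smul_smul]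
    rw [← Complex.ofReal_mul, inv_mul_cancel₀ hlam0.ne', Complex.ofReal_one, one_smul]
  have hB : star ((q • y) * d) * (star c * c) * ((q • y) * d) - star d * d =
      star ((q • y) * d) * (star c * c - star x * x) * ((q • y) * d) := by
    rw [mul_sub, sub_mul, hA]
  have hyn : ‖y‖ ^ 2 = mu := by
    have h1 : ‖star y * y‖ = ‖y‖ * ‖y‖ := CStarRing.norm_star_mul_self
    rw [hy1, norm_smul, norm_one, mul_one] at h1
    rw [pow_two, ← h1]
    simp [abs_of_pos hmu]
  have hxn : ‖(q • y) * d‖ ^ 2 ≤ 4 * ‖d‖ ^ 2 / ‖x‖ ^ 2 := by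
    have h1 : ‖(q • y) * d‖ ≤ ‖q‖ * ‖y‖ * ‖d‖ := by
      refine (norm_mul_le _ _).trans ?_
      rw [norm_smul]
    have h2 : ‖(q • y) * d‖ ^ 2 ≤ (‖q‖ * ‖y‖ * ‖d‖) ^ 2 :=
      pow_le_pow_left₀ (norm_nonneg _) h1 2
    have h3 : (‖q‖ * ‖y‖ * ‖d‖) ^ 2 = lam⁻¹ * mu * ‖d‖ ^ 2 := by
      rw [mul_pow, mul_pow, hqn, hyn]
    have h4 : lam⁻¹ * mu ≤ 4 / ‖x‖ ^ 2 := by
      rw [inv_mul_le_iff₀ hlam0, mul_div_assoc', le_div_iff₀ (by positivity)]
      nlinarith
    calc _ ≤ _ := h2
      _ = lam⁻¹ * mu * ‖d‖ ^ 2 := h3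
      _ ≤ 4 / ‖x‖ ^ 2 * ‖d‖ ^ 2 := by gcongr
      _ = _ := by ring
  rw [hB]
  calc ‖star ((q • y) * d) * (star c * c - star x * x) * ((q • y) * d)‖
      ≤ ‖star ((q • y) * d)‖ * ‖star c * c - star x * x‖ * ‖(q • y) * d‖ := by
        refine (norm_mul_le _ _).trans ?_
        gcongr
        exact norm_mul_le _ _
    _ = ‖(q • y) * d‖ ^ 2 * ‖star c * c - star x * x‖ := by
        rw [norm_star]
        ring
    _ ≤ 4 * ‖d‖ ^ 2 / ‖x‖ ^ 2 * ‖star c * c - star x * x‖ := by gcongr

end PI

theorem PI.main' (κ : Type) [Countable κ] (F : κ → Fib) (k0 : κ) (hn : (F k0).n = 1)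
    (hu : ∀ j, (F k0).u j = 1) (opr : El F → (Hil F →L[ℂ] Hil F)) (ho : IsOpr F opr) :
    TopologicalSpace.IsSeparable (Set.range opr) ∧
    (∃ a b : El F, opr a * opr b ≠ opr b * opr a) ∧
    ∀ c ∈ closure (Set.range opr), ∀ d ∈ closure (Set.range opr), c ≠ 0 → ∀ ε : ℝ, 0 < ε →
      ∃ x ∈ closure (Set.range opr), ‖star x * (star c * c) * x - star d * d‖ < ε := by
  refine ⟨PI.sep ho, PI.noncomm ho k0 hn, ?_⟩
  intro c hc d hd hc0 ε hε
  -- closure is closed under left multiplication by elements of the range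
  have hmulc : ∀ (y : El F) (q : ℂ), ∀ d ∈ closure (Set.range opr),
      (q • opr y) * d ∈ closure (Set.range opr) := by
    intro y q d hd
    obtain ⟨z, hz⟩ := PI.smul_range ho q y
    rw [← hz]
    refine map_mem_closure (f := fun d => opr z * d) (by fun_prop) hd ?_
    rintro _ ⟨w, rfl⟩
    obtain ⟨v, hv⟩ := ho.mul_eq z w
    exact ⟨v, hv.symm⟩
  have hcpos : 0 < ‖c‖ := norm_pos_iff.mpr hc0
  -- choose c0
  let G : (Hil F →L[ℂ] Hil F) → ℝ := fun c' =>
    4 * ‖d‖ ^ 2 / ‖c'‖ ^ 2 * ‖star c * c - star c' * c'‖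
  have hG : ContinuousAt G c := by
    have h1 : ContinuousAt (fun c' : Hil F →L[ℂ] Hil F => 4 * ‖d‖ ^ 2 / ‖c'‖ ^ 2) c := by
      refine ContinuousAt.div continuousAt_const ?_ (by positivity)
      fun_prop
    have h2 : ContinuousAt (fun c' : Hil F →L[ℂ] Hil F => ‖star c * c - star c' * c'‖) c := by
      fun_prop
    exact h1.mul h2
  have hGc : G c = 0 := by
    simp [G]
  have hev : ∀ᶠ c' in nhds c, G c' < ε := by
    have := hG.eventually_lt (continuousAt_const (y := ε)) (by rw [hGc]; exact hε)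
    exact this
  have hev2 : ∀ᶠ c' in nhds c, 0 < ‖c'‖ :=
    ContinuousAt.eventually_lt continuousAt_const continuous_norm.continuousAt hcpos
  obtain ⟨_, ⟨hG0, hpos⟩, ⟨x, rfl⟩⟩ := ((mem_closure_iff_frequently.mp hc).and_eventually
    (hev.and hev2)).exists.imp fun a ha => (⟨ha.2, ha.1⟩ : _ ∧ _)
  obtain ⟨y, lam, mu, hmu, hlam, hy1, hy2⟩ := PI.key ho k0 hn hu x (‖opr x‖ / 2) (by positivity)
    (by linarith)
  have hnt : Nontrivial (Hil F) := PI.nontriv
  exact ⟨_, hmulc y _ d hd,
    (PI.est c d (opr x) (opr y) lam mu hmu hpos hlam hy1 hy2).trans_lt hG0⟩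

/-- piece PI; the slice lemmas are not needed -/
theorem PI.main (_ : S_SLA) (_ : S_SLB) : S_PI :=
  fun κ _ F k0 hn hu opr ho => PI.main' κ F k0 hn hu opr ho

end Pool.Agent.H299_Opp
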