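import Pool.Agent.H299_Opp.Stubs
import Pool.Agent.H518R4.UG.QE
import Pool.Agent.H518R4.UG.WEYL
import Pool.Agent.H518R4.UG.LIFT
import Pool.Agent.H518R4.UG.PARS
import Pool.Agent.H518R4.UG.BURG

/-!
# QE: quantum expanders of size `2^a`
-/

set_option autoImplicit false

open scoped BigOperators ComplexOrder Topology

noncomputable section

namespace Pool.Agent.H299_Opp.QE

open Matrix Filter Pool.Agent.H467F Pool.Agent.H518R4.UG
open scoped Matrix.Norms.L2Operator

variable {n : ℕ}

/-- square complex matrices -/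
abbrev Mat (n : ℕ) := Matrix (Fin n) (Fin n) ℂ

/-- the normalised trace -/
def tau (n : ℕ) : Mat n →ₗ[ℂ] ℂ := ((n : ℂ))⁻¹ • Matrix.traceLinearMap (Fin n) ℂ ℂ

theorem tau_apply (x : Mat n) : tau n x = (n : ℂ)⁻¹ * x.trace := rfl

theorem hs2_nonneg {m n : Type} [Fintype m] [Fintype n] (M : Matrix m n ℂ) : 0 ≤ hs2 M :=
  Finset.sum_nonneg fun _ _ => Finset.sum_nonneg fun _ _ => by positivity

theorem hs2_trace (M : Mat n) : (star M * M).trace = ((hs2 M : ℝ) : ℂ) := by
  simp only [hs2, Matrix.trace, Matrix.diag, Matrix.mul_apply, Matrix.star_apply]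
  rw [Finset.sum_comm]
  push_cast
  refine Finset.sum_congr rfl fun i _ => Finset.sum_congr rfl fun j _ => ?_
  exact Complex.conj_mul' (M i j)

theorem tau_star_mul (x : Mat n) : tau n (star x * x) = (((n : ℝ)⁻¹ * hs2 x : ℝ) : ℂ) := by
  rw [tau_apply, hs2_trace]
  push_cast
  rfl

theorem n2_sq (x : Mat n) : H467F.n2 (tau n) x ^ 2 = (n : ℝ)⁻¹ * hs2 x := by
  unfold H467F.n2
  rw [tau_star_mul, Complex.ofReal_re, Real.sq_sqrt]
  exact mul_nonneg (by positivity) (hs2_nonneg x)

theorem hs2_eq (hn : 0 < n) (x : Mat n) : hs2 x = n * H467F.n2 (tau n) x ^ 2 := by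
  rw [n2_sq]
  have : (n : ℝ) ≠ 0 := by exact_mod_cast hn.ne'
  field_simp

theorem entry_le (hn : 0 < n) (x : Mat n) (i j : Fin n) :
    ‖x i j‖ ≤ Real.sqrt n * H467F.n2 (tau n) x := by
  have h1 : ‖x i j‖ ^ 2 ≤ hs2 x := by
    calc ‖x i j‖ ^ 2 ≤ ∑ j, ‖x i j‖ ^ 2 :=
          Finset.single_le_sum (f := fun j => ‖x i j‖ ^ 2) (fun _ _ => by positivity)
            (Finset.mem_univ j)
      _ ≤ hs2 x := Finset.single_le_sum (f := fun i => ∑ j, ‖x i j‖ ^ 2)
          (fun _ _ => Finset.sum_nonneg fun _ _ => by positivity) (Finset.mem_univ i)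
  rw [hs2_eq hn] at h1
  have h2 : (Real.sqrt n * H467F.n2 (tau n) x) ^ 2 = n * H467F.n2 (tau n) x ^ 2 := by
    rw [mul_pow, Real.sq_sqrt (by positivity)]
  rw [← h2] at h1
  exact (pow_le_pow_iff_left₀ (norm_nonneg _)
    (mul_nonneg (Real.sqrt_nonneg _) (n2_nonneg _ _)) two_ne_zero).1 h1

theorem tw (hn : 0 < n) : TW (tau n) := by
  have hn' : (n : ℝ) ≠ 0 := by exact_mod_cast hn.ne'
  refine ⟨?_, ?_, ?_, ?_, ?_, ?_⟩
  · rw [tau_apply, Matrix.trace_one, Fintype.card_fin]
    have : (n : ℂ) ≠ 0 := by exact_mod_cast hn.ne'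
    field_simp
  · intro x y
    rw [tau_apply, tau_apply, Matrix.trace_mul_comm]
  · intro x
    rw [tau_star_mul]
    exact_mod_cast mul_nonneg (by positivity) (hs2_nonneg x)
  · intro x
    rw [tau_apply, tau_apply, star_mul']
    have : (star x).trace = star x.trace := by
      simp [Matrix.trace, Matrix.star_apply]
    rw [this]
    simp
  · intro x hx
    rw [tau_star_mul] at hx
    have h1 : (n : ℝ)⁻¹ * hs2 x = 0 := by exact_mod_cast hx
    have h2 : H467F.n2 (tau n) x = 0 := by
      have := n2_sq x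
      rw [h1] at this
      exact pow_eq_zero_iff two_ne_zero |>.1 this
    ext i j
    have := entry_le hn x i j
    rw [h2, mul_zero] at this
    simpa using this
  · intro x hx hc
    have h1 : ∀ i j, ∃ z : ℂ, Tendsto (fun k => x k i j) atTop (𝓝 z) := by
      intro i j
      refine cauchySeq_tendsto_of_complete ?_
      refine cauchySeq_of_le_geometric (1 / 2) (Real.sqrt n) (by norm_num) fun k => ?_
      rw [dist_eq_norm]
      calc ‖x k i j - x (k + 1) i j‖ = ‖(x k - x (k + 1)) i j‖ := rfl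
        _ ≤ Real.sqrt n * H467F.n2 (tau n) (x k - x (k + 1)) := entry_le hn _ i j
        _ ≤ Real.sqrt n * (1 / 2) ^ k := by
            gcongr
            exact hc k
    choose z0 hz using h1
    obtain ⟨z, hz0⟩ : ∃ z : Mat n, z = Matrix.of z0 := ⟨_, rfl⟩
    have h2 : Tendsto x atTop (𝓝 z) := by
      refine tendsto_pi_nhds.2 fun i => tendsto_pi_nhds.2 fun j => ?_
      rw [hz0]
      exact hz i j
    refine ⟨z, ?_, ?_⟩
    · exact le_of_tendsto h2.norm (Eventually.of_forall hx)
    · have hcont : Continuous (fun y : Mat n => H467F.n2 (tau n) y) := by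
        unfold H467F.n2
        refine Real.continuous_sqrt.comp (Complex.continuous_re.comp ?_)
        have : Continuous (tau n) := (tau n).continuous_of_finiteDimensional
        exact this.comp (continuous_star.mul continuous_id)
      have h3 : Tendsto (fun k => H467F.n2 (tau n) (x k - z)) atTop (𝓝 (H467F.n2 (tau n) (z - z))) :=
        (hcont.tendsto _).comp (h2.sub_const _)
      rw [sub_self, n2_zero] at h3
      exact h3

/-- matrix units -/
def mu (n : ℕ) (o : Fin n) (i : Fin n) : Mat n := Matrix.single i o 1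

theorem star_mu (o i : Fin n) : star (mu n o i) = Matrix.single o i 1 := by
  ext a b
  simp only [Matrix.star_apply, mu, Matrix.single_apply, and_comm]
  split_ifs <;> simp

theorem isMU (o : Fin n) : IsMU (mu n o) (Matrix.single o o 1) := by
  refine ⟨fun i => ?_, fun i j hij => ?_, ?_⟩
  · rw [star_mu, mu, Matrix.single_mul_single_same, one_mul]
  · rw [star_mu, mu, Matrix.single_mul_single_of_ne]
    exact hij
  · have e : ∀ i, mu n o i * star (mu n o i) = Matrix.single i i 1 := by
      intro i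
      rw [star_mu, mu, Matrix.single_mul_single_same, one_mul]
    simp only [e]
    ext a b
    simp only [Matrix.sum_apply, Matrix.single_apply, Matrix.one_apply]
    by_cases h : a = b
    · subst h
      simp
    · rw [Finset.sum_eq_zero]
      · simp [h]
      · intro i _
        rw [if_neg]
        rintro ⟨h1, h2⟩
        exact h (h1.symm.trans h2)

theorem EM_eq (o : Fin n) (y : Mat n) : EM (mu n o) y = (y.trace / (n : ℂ)) • (1 : Mat n) := by
  have h1 : dn (mu n o) y = (y.trace / (n : ℂ)) • Matrix.single o o (1 : ℂ) := by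
    unfold dn
    have : ∀ j, star (mu n o j) * y * mu n o j = y j j • Matrix.single o o (1 : ℂ) := by
      intro j
      rw [star_mu, mu, Matrix.single_mul_mul_single, one_mul, mul_one, Matrix.smul_single,
        smul_eq_mul, mul_one]
    rw [Finset.sum_congr rfl fun j _ => this j, ← Finset.sum_smul, smul_smul, Fintype.card_fin,
      div_eq_inv_mul]
    rfl
  unfold EM
  rw [h1]
  unfold lift
  have : ∀ i, mu n o i * ((y.trace / (n : ℂ)) • Matrix.single o o (1 : ℂ)) * star (mu n o i) =
      (y.trace / (n : ℂ)) • (mu n o i * star (mu n o i)) := by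
    intro i
    rw [Matrix.mul_smul, Matrix.smul_mul, star_mu, mu, Matrix.single_mul_single_same,
      Matrix.single_mul_single_same, Matrix.single_mul_single_same]
    simp
  rw [Finset.sum_congr rfl fun j _ => this j, ← Finset.smul_sum, (isMU o).sum]

theorem main : Pool.Agent.H299_Opp.S_QE := by
  intro a
  have hn : 0 < 2 ^ a := by positivity
  obtain ⟨u, hu⟩ := p_QE p_BURG p_LIFT p_PARS p_WEYL (Mat (2 ^ a)) (tau (2 ^ a)) (tw hn) a
    (mu (2 ^ a) ⟨0, hn⟩) _ (isMU ⟨0, hn⟩)
  refine ⟨fun s => (u s : Mat (2 ^ a)), fun s => (u s).2, fun y => ?_⟩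
  have h := hu y
  rw [EM_eq] at h
  have h2 := mul_le_mul_of_nonneg_left h (Nat.cast_nonneg (α := ℝ) (2 ^ a))
  rw [← hs2_eq hn] at h2
  refine h2.trans (le_of_eq ?_)
  rw [mul_left_comm, Finset.mul_sum]
  congr 1
  refine Finset.sum_congr rfl fun s _ => ?_
  rw [← hs2_eq hn]
  rfl

end Pool.Agent.H299_Opp.QE
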