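import Pool.Agent.H299_Opp.Stubs

/-!
# RAT: rational approximation of matrix polynomials
-/

set_option autoImplicit false

open scoped BigOperators Matrix InnerProductSpace

noncomputable section

namespace Pool.Agent.H299_Opp.RAT

/-- vectors as elements of the Euclidean space -/
theorem nsq {H : Type} [Fintype H] (v : H → ℂ) :
    ∑ i, ‖v i‖ ^ 2 = ‖(WithLp.toLp 2 v : EuclideanSpace ℂ H)‖ ^ 2 := by
  rw [EuclideanSpace.norm_sq_eq]

theorem nb_iff {H : Type} [Fintype H] {c : ℝ} (hc : 0 ≤ c) (M : Matrix H H ℂ) :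
    nb c M ↔ ∀ x : H → ℂ, ‖(WithLp.toLp 2 (M.mulVec x) : EuclideanSpace ℂ H)‖ ≤
      c * ‖(WithLp.toLp 2 x : EuclideanSpace ℂ H)‖ := by
  unfold nb
  refine forall_congr' fun x => ?_
  rw [nsq, nsq, ← mul_pow]
  constructor
  · intro h
    exact (abs_le_of_sq_le_sq' h (by positivity)).2
  · intro h
    exact pow_le_pow_left₀ (norm_nonneg _) h 2

theorem nb_add {H : Type} [Fintype H] {c d : ℝ} (hc : 0 ≤ c) (hd : 0 ≤ d) {M N : Matrix H H ℂ}
    (hM : nb c M) (hN : nb d N) : nb (c + d) (M + N) := by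
  rw [nb_iff hc] at hM
  rw [nb_iff hd] at hN
  rw [nb_iff (add_nonneg hc hd)]
  intro x
  rw [Matrix.add_mulVec, WithLp.toLp_add, add_mul]
  exact (norm_add_le _ _).trans (add_le_add (hM x) (hN x))

/-- the value of one term -/
def evt {m n : ℕ} (t : ℂ × (Fin m × Fin m) × List (ℕ × Bool))
    (u : ℕ → Matrix (Fin n) (Fin n) ℂ) : Matrix (Fin m × Fin n) (Fin m × Fin n) ℂ :=
  fun a b => if t.2.1.1 = a.1 ∧ t.2.1.2 = b.1 then t.1 * evw u t.2.2 a.2 b.2 else 0

theorem ev_cons {m n : ℕ} (t : ℂ × (Fin m × Fin m) × List (ℕ × Bool)) (X : CP m)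
    (u : ℕ → Matrix (Fin n) (Fin n) ℂ) :
    CP.ev (t :: X : CP m) u = evt t u + CP.ev X u := by
  ext a b
  simp [CP.ev, evt]

theorem evt_sub {m n : ℕ} (q q' : ℂ) (r : (Fin m × Fin m) × List (ℕ × Bool))
    (u : ℕ → Matrix (Fin n) (Fin n) ℂ) :
    evt (q, r) u - evt (q', r) u = evt (q - q', r) u := by
  ext a b
  simp only [evt, Matrix.sub_apply]
  split_ifs with h
  · ring
  · simp

theorem evw_mem {n : ℕ} (u : ℕ → Matrix (Fin n) (Fin n) ℂ)
    (hu : ∀ j, u j ∈ Matrix.unitaryGroup (Fin n) ℂ) :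
    ∀ w : List (ℕ × Bool), evw u w ∈ Matrix.unitaryGroup (Fin n) ℂ
  | [] => one_mem _
  | p :: w => by
    refine mul_mem ?_ (evw_mem u hu w)
    split_ifs
    · exact Unitary.star_mem (hu p.1)
    · exact hu p.1

theorem unitary_sum {n : ℕ} {U : Matrix (Fin n) (Fin n) ℂ}
    (hU : U ∈ Matrix.unitaryGroup (Fin n) ℂ) (v : Fin n → ℂ) :
    ∑ i, ‖(U.mulVec v) i‖ ^ 2 = ∑ i, ‖v i‖ ^ 2 := by
  have h : ∀ w : Fin n → ℂ, ((∑ i, ‖w i‖ ^ 2 : ℝ) : ℂ) = star w ⬝ᵥ w := by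
    intro w
    push_cast
    rw [dotProduct]
    refine Finset.sum_congr rfl fun i _ => ?_
    rw [Pi.star_apply, Complex.star_def, ← Complex.normSq_eq_conj_mul_self,
      Complex.normSq_eq_norm_sq]
    push_cast; rfl
  have h2 : ((∑ i, ‖(U.mulVec v) i‖ ^ 2 : ℝ) : ℂ) = ((∑ i, ‖v i‖ ^ 2 : ℝ) : ℂ) := by
    rw [h, h, Matrix.star_mulVec, Matrix.dotProduct_mulVec, Matrix.vecMul_vecMul,
      ← Matrix.star_eq_conjTranspose, Matrix.mem_unitaryGroup_iff'.mp hU, Matrix.vecMul_one]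
  exact_mod_cast h2

theorem nb_evt {m n : ℕ} (t : ℂ × (Fin m × Fin m) × List (ℕ × Bool))
    (u : ℕ → Matrix (Fin n) (Fin n) ℂ) (hu : ∀ j, u j ∈ Matrix.unitaryGroup (Fin n) ℂ)
    {c : ℝ} (hc : ‖t.1‖ ≤ c) : nb c (evt t u) := by
  intro v
  have h1 : ∀ a : Fin m × Fin n, ((evt t u).mulVec v) a =
      if t.2.1.1 = a.1 then t.1 * ((evw u t.2.2).mulVec fun p => v (t.2.1.2, p)) a.2 else 0 := by
    intro a
    simp only [Matrix.mulVec, dotProduct, evt, Fintype.sum_prod_type]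
    split_ifs with h
    · simp only [h, true_and, ite_mul, zero_mul, Finset.sum_ite_irrel, Finset.sum_const_zero,
        Finset.sum_ite_eq, Finset.mem_univ, if_true]
      rw [Finset.mul_sum]
      exact Finset.sum_congr rfl fun p _ => by ring
    · simp [h]
  simp only [h1]
  rw [Fintype.sum_prod_type]
  simp only [apply_ite norm, norm_zero, ite_pow, Finset.sum_ite_irrel, norm_mul, mul_pow,
    ne_eq, OfNat.ofNat_ne_zero, not_false_eq_true, zero_pow, Finset.sum_const_zero]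
  rw [Finset.sum_ite_eq]
  simp only [Finset.mem_univ, if_true]
  rw [← Finset.mul_sum, unitary_sum (evw_mem u hu _)]
  have h2 : ∑ i, ‖v (t.2.1.2, i)‖ ^ 2 ≤ ∑ i, ‖v i‖ ^ 2 := by
    rw [Fintype.sum_prod_type (f := fun i => ‖v i‖ ^ 2)]
    exact Finset.single_le_sum (f := fun a => ∑ p, ‖v (a, p)‖ ^ 2)
      (fun _ _ => Finset.sum_nonneg fun _ _ => by positivity) (Finset.mem_univ _)
  have h3 : ‖t.1‖ ^ 2 ≤ c ^ 2 := pow_le_pow_left₀ (norm_nonneg _) hc 2
  have h4 : 0 ≤ ∑ i, ‖v (t.2.1.2, i)‖ ^ 2 := Finset.sum_nonneg fun _ _ => by positivity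
  exact mul_le_mul h3 h2 h4 (by positivity)

theorem approx (z : ℂ) {ε : ℝ} (hε : 0 < ε) : ∃ q : ℚ × ℚ, ‖z - qc q‖ ≤ ε := by
  obtain ⟨a, ha1, ha2⟩ := exists_rat_btwn (show z.re - ε / 2 < z.re + ε / 2 by linarith)
  obtain ⟨b, hb1, hb2⟩ := exists_rat_btwn (show z.im - ε / 2 < z.im + ε / 2 by linarith)
  refine ⟨(a, b), ?_⟩
  have h1 : z - qc (a, b) = ((z.re - a : ℝ) : ℂ) + ((z.im - b : ℝ) : ℂ) * Complex.I := by
    apply Complex.ext <;> simp [qc]
  rw [h1]
  refine (norm_add_le _ _).trans ?_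
  rw [norm_mul, Complex.norm_I, mul_one, Complex.norm_real, Complex.norm_real,
    Real.norm_eq_abs, Real.norm_eq_abs]
  have h2 : |z.re - a| ≤ ε / 2 := abs_le.2 ⟨by linarith, by linarith⟩
  have h3 : |z.im - b| ≤ ε / 2 := abs_le.2 ⟨by linarith, by linarith⟩
  linarith

theorem nb_zero {H : Type} [Fintype H] {c : ℝ} : nb c (0 : Matrix H H ℂ) := by
  intro v
  simp only [Matrix.zero_mulVec, Pi.zero_apply, norm_zero]
  have : 0 ≤ ∑ i, ‖v i‖ ^ 2 := Finset.sum_nonneg fun _ _ => by positivity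
  simp only [ne_eq, OfNat.ofNat_ne_zero, not_false_eq_true, zero_pow, Finset.sum_const_zero]
  positivity

theorem main : S_RAT := by
  intro m X
  induction X with
  | nil =>
    intro ε hε
    refine ⟨[], fun t _ => ?_, fun n u hu => ?_⟩
    · intro e he; simp [QP.toCP] at he
    · have : CP.ev ([] : CP m) u - CP.ev (QP.toCP ([] : QP m)) u = 0 := by
        simp [QP.toCP]
      rw [this]
      exact nb_zero
  | cons t X ih =>
    intro ε hε
    obtain ⟨Y, hY1, hY2⟩ := ih (ε / 2) (half_pos hε)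
    obtain ⟨q, hq⟩ := approx t.1 (half_pos hε)
    refine ⟨(q, t.2) :: Y, fun s hs => ?_, fun n u hu => ?_⟩
    · intro e he
      rcases List.mem_cons.1 he with rfl | he
      · exact hs t (by simp)
      · exact hY1 s (fun e' he' => hs e' (List.mem_cons_of_mem _ he')) e he
    · have h1 : CP.ev (t :: X : CP m) u - CP.ev (QP.toCP ((q, t.2) :: Y : QP m)) u =
          evt (t.1 - qc q, t.2) u + (CP.ev X u - CP.ev (QP.toCP Y) u) := by
        have h2 : QP.toCP ((q, t.2) :: Y : QP m) = ((qc q, t.2) :: QP.toCP Y : CP m) := rfl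
        rw [h2, ev_cons, ev_cons, ← evt_sub]
        abel
      rw [h1, show ε = ε / 2 + ε / 2 by ring]
      exact nb_add (by positivity) (by positivity) (nb_evt _ u hu hq) (hY2 n u hu)

end Pool.Agent.H299_Opp.RAT
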