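import Pool.Agent.H299_Opp.Stubs

/-!
# Piece RL of project OPP: the rigidity lemma (paper, section 4)
-/

set_option autoImplicit false
set_option linter.unusedSectionVars false

open scoped BigOperators Matrix ComplexOrder Kronecker

noncomputable section

namespace Pool.Agent.H299_Opp.RL

/-- squared norm of a column -/
def c2 {m n : Type} [Fintype m] (M : Matrix m n ℂ) (j : n) : ℝ := ∑ i, ‖M i j‖ ^ 2

section basic

variable {m n l : Type} [Fintype m] [Fintype n] [Fintype l]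

lemma c2_nonneg (M : Matrix m n ℂ) (j : n) : 0 ≤ c2 M j :=
  Finset.sum_nonneg fun _ _ => by positivity

lemma hs2_eq_sum_c2 (M : Matrix m n ℂ) : hs2 M = ∑ j, c2 M j := by
  unfold hs2 c2; exact Finset.sum_comm

lemma hs2_nonneg (M : Matrix m n ℂ) : 0 ≤ hs2 M := by
  rw [hs2_eq_sum_c2]; exact Finset.sum_nonneg fun _ _ => c2_nonneg _ _

lemma gram_diag (M : Matrix m n ℂ) (j : n) : (Mᴴ * M) j j = ((c2 M j : ℝ) : ℂ) := by
  rw [Matrix.mul_apply, c2, Complex.ofReal_sum]
  refine Finset.sum_congr rfl fun i _ => ?_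
  rw [Matrix.conjTranspose_apply]
  rw [Complex.star_def, ← Complex.normSq_eq_conj_mul_self, Complex.normSq_eq_norm_sq]

lemma gram_trace (M : Matrix m n ℂ) : (Mᴴ * M).trace = ((hs2 M : ℝ) : ℂ) := by
  rw [hs2_eq_sum_c2, Matrix.trace, Complex.ofReal_sum]
  exact Finset.sum_congr rfl fun j _ => gram_diag M j

lemma hs2_eq_of_gram {k : Type} [Fintype k] (M : Matrix m n ℂ) (N : Matrix k n ℂ)
    (h : Mᴴ * M = Nᴴ * N) : hs2 M = hs2 N := by
  have h1 := gram_trace M
  rw [h, gram_trace N] at h1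
  exact_mod_cast h1.symm

lemma hs2_mul_unitary [DecidableEq n] (M : Matrix m n ℂ) (U : Matrix n n ℂ) (hU : U * Uᴴ = 1) :
    hs2 (M * U) = hs2 M := by
  have h1 := gram_trace (M * U)
  have h2 : ((M * U)ᴴ * (M * U)).trace = (Mᴴ * M).trace := by
    rw [Matrix.conjTranspose_mul, Matrix.mul_assoc, Matrix.trace_mul_comm, ← Matrix.mul_assoc,
      Matrix.mul_assoc, Matrix.mul_assoc, hU, Matrix.mul_one]
  rw [h2, gram_trace] at h1
  exact_mod_cast h1.symm

lemma hs2_unitary_mul [DecidableEq m] (M : Matrix m n ℂ) (U : Matrix m m ℂ) (hU : Uᴴ * U = 1) :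
    hs2 (U * M) = hs2 M := by
  apply hs2_eq_of_gram
  rw [Matrix.conjTranspose_mul, Matrix.mul_assoc, ← Matrix.mul_assoc Uᴴ, hU, Matrix.one_mul]

lemma sqrt_c2 (M : Matrix m n ℂ) (j : n) :
    Real.sqrt (c2 M j) = ‖(WithLp.toLp 2 (fun i => M i j) : EuclideanSpace ℂ m)‖ := by
  rw [EuclideanSpace.norm_eq]; rfl

lemma sqrt_c2_add (M N : Matrix m n ℂ) (j : n) :
    Real.sqrt (c2 (M + N) j) ≤ Real.sqrt (c2 M j) + Real.sqrt (c2 N j) := by
  rw [sqrt_c2, sqrt_c2, sqrt_c2]
  exact norm_add_le (WithLp.toLp 2 (fun i => M i j) : EuclideanSpace ℂ m)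
    (WithLp.toLp 2 (fun i => N i j) : EuclideanSpace ℂ m)

lemma c2_nb {c : ℝ} (X : Matrix m m ℂ) (hX : nb c X) (M : Matrix m n ℂ) (j : n) :
    c2 (X * M) j ≤ c ^ 2 * c2 M j := hX (fun h => M h j)

lemma sqrt_c2_nb {c : ℝ} (hc : 0 ≤ c) (X : Matrix m m ℂ) (hX : nb c X) (M : Matrix m n ℂ) (j : n) :
    Real.sqrt (c2 (X * M) j) ≤ c * Real.sqrt (c2 M j) := by
  have h := Real.sqrt_le_sqrt (c2_nb X hX M j)
  rwa [Real.sqrt_mul (by positivity), Real.sqrt_sq hc] at h

end basic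

/-- real inequality: if `a ≤ (1+ε) b + δ` then `a^2 - b^2` has small l1 norm -/
lemma real_ineq {ι : Type} [Fintype ι] (a b δ : ι → ℝ) (ha : ∀ i, 0 ≤ a i) (hb : ∀ i, 0 ≤ b i)
    (hδ : ∀ i, 0 ≤ δ i) (D η ε lam : ℝ) (hε : 0 ≤ ε) (hlam : 0 < lam)
    (hA : ∑ i, a i ^ 2 = D) (hB : ∑ i, b i ^ 2 = D) (hη : ∑ i, δ i ^ 2 = η)
    (h : ∀ i, a i ≤ (1 + ε) * b i + δ i) :
    ∑ i, |a i ^ 2 - b i ^ 2| ≤ 2 * (2 * ε * D + lam * D + η / lam) := by
  have key : ∀ i, |a i ^ 2 - b i ^ 2| ≤ -(a i ^ 2 - b i ^ 2) +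
      2 * (ε / 2 * (a i ^ 2 + 3 * b i ^ 2) + lam / 2 * (a i ^ 2 + b i ^ 2) + δ i ^ 2 / lam) := by
    intro i
    have hai := ha i
    have hbi := hb i
    have hdi := hδ i
    have hi := h i
    have hpos : 0 ≤ ε / 2 * (a i ^ 2 + 3 * b i ^ 2) + lam / 2 * (a i ^ 2 + b i ^ 2) +
        δ i ^ 2 / lam := by positivity
    rcases le_total (a i) (b i) with hab | hab
    · have : a i ^ 2 - b i ^ 2 ≤ 0 := by nlinarith
      rw [abs_of_nonpos this]
      linarith
    · have h0 : 0 ≤ a i ^ 2 - b i ^ 2 := by nlinarith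
      rw [abs_of_nonneg h0]
      have h1 : a i ^ 2 - b i ^ 2 ≤ (ε * b i + δ i) * (a i + b i) := by
        have : a i - b i ≤ ε * b i + δ i := by linarith
        calc a i ^ 2 - b i ^ 2 = (a i - b i) * (a i + b i) := by ring
          _ ≤ _ := mul_le_mul_of_nonneg_right this (by positivity)
      have h2 : ε * b i * (a i + b i) ≤ ε / 2 * (a i ^ 2 + 3 * b i ^ 2) := by
        have : b i * (a i + b i) ≤ 1 / 2 * (a i ^ 2 + 3 * b i ^ 2) := by
          nlinarith [sq_nonneg (a i - b i)]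
        calc ε * b i * (a i + b i) = ε * (b i * (a i + b i)) := by ring
          _ ≤ ε * (1 / 2 * (a i ^ 2 + 3 * b i ^ 2)) := mul_le_mul_of_nonneg_left this hε
          _ = _ := by ring
      have h3 : ∀ x : ℝ, δ i * x ≤ lam / 2 * x ^ 2 + δ i ^ 2 / (2 * lam) := by
        intro x
        have : 0 ≤ (lam * x - δ i) ^ 2 / (2 * lam) := by positivity
        have e : (lam * x - δ i) ^ 2 / (2 * lam) =
            lam / 2 * x ^ 2 + δ i ^ 2 / (2 * lam) - δ i * x := by
          field_simp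
          ring
        linarith
      have h4 : δ i * (a i + b i) ≤ lam / 2 * (a i ^ 2 + b i ^ 2) + δ i ^ 2 / lam := by
        have := h3 (a i)
        have := h3 (b i)
        have e : δ i ^ 2 / lam = δ i ^ 2 / (2 * lam) + δ i ^ 2 / (2 * lam) := by
          field_simp
          ring
        rw [e]
        linarith
      have h5 : (ε * b i + δ i) * (a i + b i) = ε * b i * (a i + b i) + δ i * (a i + b i) := by ring
      linarith
  calc ∑ i, |a i ^ 2 - b i ^ 2| ≤ ∑ i, (-(a i ^ 2 - b i ^ 2) +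
      2 * (ε / 2 * (a i ^ 2 + 3 * b i ^ 2) + lam / 2 * (a i ^ 2 + b i ^ 2) + δ i ^ 2 / lam)) :=
        Finset.sum_le_sum fun i _ => key i
    _ = 2 * (2 * ε * D + lam * D + η / lam) := by
        simp only [Finset.sum_add_distrib, Finset.sum_neg_distrib, Finset.sum_sub_distrib,
          ← Finset.mul_sum, ← Finset.sum_div, hA, hB, hη]
        ring

/-- Powers-Størmer inequality in an eigenbasis of the difference -/
lemma powers {n : Type} [Fintype n] [DecidableEq n] (A B : Matrix n n ℂ) (hA : A.PosSemidef)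
    (hB : B.PosSemidef) : ∃ U : Matrix n n ℂ, U * Uᴴ = 1 ∧ Uᴴ * U = 1 ∧
      hs2 (A - B) ≤ ∑ i, ‖(Uᴴ * (A * A) * U) i i - (Uᴴ * (B * B) * U) i i‖ := by
  have hD : (A - B).IsHermitian := hA.isHermitian.sub hB.isHermitian
  have hU1 : (hD.eigenvectorUnitary : Matrix n n ℂ) * (hD.eigenvectorUnitary : Matrix n n ℂ)ᴴ = 1 :=
    Unitary.mul_star_self_of_mem hD.eigenvectorUnitary.2
  have hU2 : (hD.eigenvectorUnitary : Matrix n n ℂ)ᴴ * (hD.eigenvectorUnitary : Matrix n n ℂ) = 1 :=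
    Unitary.star_mul_self_of_mem hD.eigenvectorUnitary.2
  have hdiag := hD.conjStarAlgAut_star_eigenvectorUnitary
  rw [Unitary.conjStarAlgAut_star_apply] at hdiag
  set U : Matrix n n ℂ := (hD.eigenvectorUnitary : Matrix n n ℂ) with hUdef
  have hdiag' : Uᴴ * (A - B) * U = Matrix.diagonal (fun i => ((hD.eigenvalues i : ℝ) : ℂ)) := hdiag
  refine ⟨U, hU1, hU2, ?_⟩
  set A' := Uᴴ * A * U with hA'
  set B' := Uᴴ * B * U with hB'
  have hAA : Uᴴ * (A * A) * U = A' * A' := by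
    rw [hA']
    calc Uᴴ * (A * A) * U = Uᴴ * A * (U * Uᴴ) * A * U := by
          rw [hU1]; simp only [Matrix.mul_assoc, Matrix.mul_one]
      _ = _ := by simp only [Matrix.mul_assoc]
  have hBB : Uᴴ * (B * B) * U = B' * B' := by
    rw [hB']
    calc Uᴴ * (B * B) * U = Uᴴ * B * (U * Uᴴ) * B * U := by
          rw [hU1]; simp only [Matrix.mul_assoc, Matrix.mul_one]
      _ = _ := by simp only [Matrix.mul_assoc]
  have hsub : A' - B' = Matrix.diagonal (fun i => ((hD.eigenvalues i : ℝ) : ℂ)) := by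
    rw [← hdiag', hA', hB', Matrix.mul_sub, Matrix.sub_mul]
  have hpA : A'.PosSemidef := hA.conjTranspose_mul_mul_same U
  have hpB : B'.PosSemidef := hB.conjTranspose_mul_mul_same U
  have e1 : hs2 (A - B) = ∑ i, |hD.eigenvalues i| ^ 2 := by
    have : hs2 (Uᴴ * (A - B) * U) = hs2 (A - B) := by
      rw [hs2_mul_unitary _ _ hU1, hs2_unitary_mul _ _ (by rw [Matrix.conjTranspose_conjTranspose]; exact hU1)]
    rw [← this, hdiag', hs2]
    refine Finset.sum_congr rfl fun i _ => ?_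
    rw [Finset.sum_eq_single i]
    · rw [Matrix.diagonal_apply_eq, Complex.norm_real, Real.norm_eq_abs]
    · intro j _ hj
      rw [Matrix.diagonal_apply_ne _ (Ne.symm hj)]; simp
    · simp
  rw [e1]
  refine Finset.sum_le_sum fun i _ => ?_
  rw [hAA, hBB]
  have e2 : (A' * A') i i - (B' * B') i i =
      ((hD.eigenvalues i : ℝ) : ℂ) * A' i i + B' i i * ((hD.eigenvalues i : ℝ) : ℂ) := by
    have : A' * A' - B' * B' = (A' - B') * A' + B' * (A' - B') := by
      rw [Matrix.sub_mul, Matrix.mul_sub]; abel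
    have h2 := congrFun (congrFun this i) i
    rw [hsub] at h2
    simpa [Matrix.diagonal_mul, Matrix.mul_diagonal] using h2
  have hai : 0 ≤ A' i i := hpA.diag_nonneg
  have hbi : 0 ≤ B' i i := hpB.diag_nonneg
  have hl : A' i i - B' i i = ((hD.eigenvalues i : ℝ) : ℂ) := by
    have := congrFun (congrFun hsub i) i
    simpa using this
  obtain ⟨x, hx0, hx⟩ : ∃ x : ℝ, 0 ≤ x ∧ A' i i = (x : ℂ) := by
    rw [Complex.nonneg_iff] at hai
    exact ⟨(A' i i).re, hai.1, Complex.ext rfl (by simpa using hai.2.symm)⟩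
  obtain ⟨y, hy0, hy⟩ : ∃ y : ℝ, 0 ≤ y ∧ B' i i = (y : ℂ) := by
    rw [Complex.nonneg_iff] at hbi
    exact ⟨(B' i i).re, hbi.1, Complex.ext rfl (by simpa using hbi.2.symm)⟩
  rw [hx, hy] at hl e2
  have hl' : x - y = hD.eigenvalues i := by exact_mod_cast hl
  rw [e2, ← hl']
  have : ((x - y : ℝ) : ℂ) * (x : ℂ) + (y : ℂ) * ((x - y : ℝ) : ℂ) = (((x - y) * (x + y) : ℝ) : ℂ) := by
    push_cast; ring
  rw [this, Complex.norm_real, Real.norm_eq_abs, abs_mul, sq]
  refine mul_le_mul_of_nonneg_left ?_ (abs_nonneg _)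
  rw [abs_of_nonneg (by linarith : 0 ≤ x + y)]
  rw [abs_le]; constructor <;> linarith

section blocks

variable {n d : ℕ}

/-- blocks -/
def blk (A : Matrix (Fin n × Fin d) (Fin n × Fin d) ℂ) (i j : Fin d) : Matrix (Fin n) (Fin n) ℂ :=
  fun p q => A (p, i) (q, j)

/-- amplification -/
def amp (d : ℕ) (g : Matrix (Fin n) (Fin n) ℂ) : Matrix (Fin n × Fin d) (Fin n × Fin d) ℂ :=
  g ⊗ₖ (1 : Matrix (Fin d) (Fin d) ℂ)

/-- row of matrices as one matrix -/
def row {H : Type} (T : Fin d → Matrix H (Fin n) ℂ) : Matrix H (Fin n × Fin d) ℂ :=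
  fun h a => T a.2 h a.1

lemma hs2_blk (A : Matrix (Fin n × Fin d) (Fin n × Fin d) ℂ) :
    hs2 A = ∑ i, ∑ j, hs2 (blk A i j) := by
  unfold hs2 blk
  rw [Fintype.sum_prod_type, Finset.sum_comm]
  refine Finset.sum_congr rfl fun i _ => ?_
  simp_rw [Fintype.sum_prod_type]
  have : ∀ p : Fin n, (∑ q : Fin n, ∑ j : Fin d, ‖A (p, i) (q, j)‖ ^ 2) =
      ∑ j : Fin d, ∑ q : Fin n, ‖A (p, i) (q, j)‖ ^ 2 := fun p => Finset.sum_comm
  simp_rw [this]
  rw [Finset.sum_comm]

lemma hs2_row {H : Type} [Fintype H] (T : Fin d → Matrix H (Fin n) ℂ) :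
    hs2 (row T) = ∑ i, hs2 (T i) := by
  unfold hs2 row
  simp_rw [Fintype.sum_prod_type]
  rw [Finset.sum_comm]
  have : ∀ p : Fin n, (∑ h : H, ∑ i : Fin d, ‖T i h p‖ ^ 2) =
      ∑ i : Fin d, ∑ h : H, ‖T i h p‖ ^ 2 := fun p => Finset.sum_comm
  simp_rw [this]
  rw [Finset.sum_comm]
  exact Finset.sum_congr rfl fun i _ => Finset.sum_comm

lemma blk_amp_mul (g : Matrix (Fin n) (Fin n) ℂ) (A : Matrix (Fin n × Fin d) (Fin n × Fin d) ℂ)
    (i j : Fin d) : blk (amp d g * A) i j = g * blk A i j := by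
  ext p q
  simp only [blk, amp, Matrix.mul_apply, Matrix.kroneckerMap_apply, Fintype.sum_prod_type,
    Matrix.one_apply, mul_ite, mul_one, mul_zero, ite_mul, zero_mul, Finset.sum_ite_eq,
    Finset.mem_univ, if_true]

lemma blk_mul_amp (g : Matrix (Fin n) (Fin n) ℂ) (A : Matrix (Fin n × Fin d) (Fin n × Fin d) ℂ)
    (i j : Fin d) : blk (A * amp d g) i j = blk A i j * g := by
  ext p q
  simp only [blk, amp, Matrix.mul_apply, Matrix.kroneckerMap_apply, Fintype.sum_prod_type,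
    Matrix.one_apply, mul_ite, mul_one, mul_zero, Finset.sum_ite_eq',
    Finset.mem_univ, if_true]

lemma row_mul_amp {H : Type} (T : Fin d → Matrix H (Fin n) ℂ) (g : Matrix (Fin n) (Fin n) ℂ) :
    row T * amp d g = row (fun i => T i * g) := by
  ext h a
  simp only [row, amp, Matrix.mul_apply, Matrix.kroneckerMap_apply, Fintype.sum_prod_type,
    Matrix.one_apply, mul_ite, mul_one, mul_zero, Finset.sum_ite_eq',
    Finset.mem_univ, if_true]

lemma mul_row {H : Type} [Fintype H] (X : Matrix H H ℂ) (T : Fin d → Matrix H (Fin n) ℂ) :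
    X * row T = row (fun i => X * T i) := by
  ext h a
  simp only [row, Matrix.mul_apply]

lemma row_sub {H : Type} (T T' : Fin d → Matrix H (Fin n) ℂ) :
    row T - row T' = row (fun i => T i - T' i) := rfl

lemma amp_unitary (g : Matrix (Fin n) (Fin n) ℂ) (hg : g * gᴴ = 1) :
    amp d g * (amp d g)ᴴ = 1 := by
  rw [amp, Matrix.conjTranspose_kronecker, ← Matrix.mul_kronecker_mul, hg,
    Matrix.conjTranspose_one, Matrix.one_mul, Matrix.one_kronecker_one]

lemma amp_unitary' (g : Matrix (Fin n) (Fin n) ℂ) (hg : gᴴ * g = 1) :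
    (amp d g)ᴴ * amp d g = 1 := by
  rw [amp, Matrix.conjTranspose_kronecker, ← Matrix.mul_kronecker_mul, hg,
    Matrix.conjTranspose_one, Matrix.one_mul, Matrix.one_kronecker_one]

end blocks

/-- almost invariance of the absolute value -/
lemma step {P H : Type} [Fintype P] [DecidableEq P] [Fintype H]
    (R : Matrix H P ℂ) (A : Matrix P P ℂ) (hA : A.PosSemidef) (hAR : A * A = Rᴴ * R)
    (w : Matrix P P ℂ) (hw : w * wᴴ = 1) (hw' : wᴴ * w = 1) (ε : ℝ) (hε : 0 ≤ ε)
    (X : Matrix H H ℂ) (hX : nb (1 + ε) X) (lam : ℝ) (hlam : 0 < lam) :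
    hs2 (w * A - A * w) ≤
      2 * (2 * ε * hs2 R + lam * hs2 R + hs2 (X * (R * w) - R) / lam) := by
  have hB : (wᴴ * A * w).PosSemidef := hA.conjTranspose_mul_mul_same w
  have e1 : hs2 (w * A - A * w) = hs2 (A - wᴴ * A * w) := by
    rw [← hs2_unitary_mul (w * A - A * w) wᴴ (by rw [Matrix.conjTranspose_conjTranspose]; exact hw)]
    rw [Matrix.mul_sub, ← Matrix.mul_assoc, hw', Matrix.one_mul, ← Matrix.mul_assoc]
  obtain ⟨U, hU1, hU2, hle⟩ := powers A (wᴴ * A * w) hA hB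
  have eA : Uᴴ * (A * A) * U = (R * U)ᴴ * (R * U) := by
    rw [hAR, Matrix.conjTranspose_mul]; simp only [Matrix.mul_assoc]
  have eB : Uᴴ * ((wᴴ * A * w) * (wᴴ * A * w)) * U = (R * w * U)ᴴ * (R * w * U) := by
    have : (wᴴ * A * w) * (wᴴ * A * w) = (R * w)ᴴ * (R * w) := by
      calc (wᴴ * A * w) * (wᴴ * A * w) = wᴴ * A * (w * wᴴ) * A * w := by
            simp only [Matrix.mul_assoc]
        _ = wᴴ * (A * A) * w := by rw [hw]; simp only [Matrix.mul_assoc, Matrix.mul_one]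
        _ = _ := by rw [hAR, Matrix.conjTranspose_mul]; simp only [Matrix.mul_assoc]
    rw [this, Matrix.conjTranspose_mul (R * w) U]; simp only [Matrix.mul_assoc]
  rw [e1]
  refine hle.trans ?_
  have hsum : ∑ i, ‖(Uᴴ * (A * A) * U) i i - (Uᴴ * ((wᴴ * A * w) * (wᴴ * A * w)) * U) i i‖ =
      ∑ i, |Real.sqrt (c2 (R * U) i) ^ 2 - Real.sqrt (c2 (R * w * U) i) ^ 2| := by
    refine Finset.sum_congr rfl fun i _ => ?_
    rw [eA, eB, gram_diag, gram_diag, Real.sq_sqrt (c2_nonneg _ _), Real.sq_sqrt (c2_nonneg _ _),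
      ← Complex.ofReal_sub, Complex.norm_real, Real.norm_eq_abs]
  rw [hsum]
  refine real_ineq (fun i => Real.sqrt (c2 (R * U) i)) (fun i => Real.sqrt (c2 (R * w * U) i))
    (fun i => Real.sqrt (c2 ((R - X * (R * w)) * U) i)) (fun i => Real.sqrt_nonneg _)
    (fun i => Real.sqrt_nonneg _) (fun i => Real.sqrt_nonneg _) (hs2 R)
    (hs2 (X * (R * w) - R)) ε lam hε hlam ?_ ?_ ?_ ?_
  · simp_rw [Real.sq_sqrt (c2_nonneg _ _)]
    rw [← hs2_eq_sum_c2, hs2_mul_unitary _ _ hU1]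
  · simp_rw [Real.sq_sqrt (c2_nonneg _ _)]
    rw [← hs2_eq_sum_c2, hs2_mul_unitary _ _ hU1, hs2_mul_unitary _ _ hw]
  · simp_rw [Real.sq_sqrt (c2_nonneg _ _)]
    rw [← hs2_eq_sum_c2, hs2_mul_unitary _ _ hU1]
    unfold hs2
    refine Finset.sum_congr rfl fun i _ => Finset.sum_congr rfl fun j _ => ?_
    rw [Matrix.sub_apply, Matrix.sub_apply, norm_sub_rev]
  · intro i
    have h1 : R * U = X * (R * w * U) + (R - X * (R * w)) * U := by
      rw [Matrix.sub_mul]
      have : X * (R * w * U) = X * (R * w) * U := by simp only [Matrix.mul_assoc]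
      rw [this]; abel
    have h2 := sqrt_c2_add (X * (R * w * U)) ((R - X * (R * w)) * U) i
    rw [← h1] at h2
    exact h2.trans (add_le_add_left (sqrt_c2_nb (by linarith) X hX _ i) _)

/-- scalar compression of one block -/
lemma block_split {n : ℕ} (hn : 0 < n) (y : Matrix (Fin n) (Fin n) ℂ) :
    hs2 y = hs2 (y - (y.trace / (n : ℂ)) • (1 : Matrix (Fin n) (Fin n) ℂ)) +
      hs2 ((y.trace / (n : ℂ)) • (1 : Matrix (Fin n) (Fin n) ℂ)) := by
  have hn' : (n : ℂ) ≠ 0 := by exact_mod_cast hn.ne'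
  have h1 := gram_trace y
  have h2 := gram_trace (y - (y.trace / (n : ℂ)) • (1 : Matrix (Fin n) (Fin n) ℂ))
  have h3 := gram_trace ((y.trace / (n : ℂ)) • (1 : Matrix (Fin n) (Fin n) ℂ))
  have : ((hs2 y : ℝ) : ℂ) =
    ((hs2 (y - (y.trace / (n : ℂ)) • (1 : Matrix (Fin n) (Fin n) ℂ)) : ℝ) : ℂ) +
      ((hs2 ((y.trace / (n : ℂ)) • (1 : Matrix (Fin n) (Fin n) ℂ)) : ℝ) : ℂ) := by
    rw [← h1, ← h2, ← h3]
    simp only [Matrix.conjTranspose_sub, Matrix.conjTranspose_smul, Matrix.conjTranspose_one,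
      Matrix.sub_mul, Matrix.mul_sub, Matrix.trace_sub, Matrix.smul_mul, Matrix.mul_smul,
      Matrix.one_mul, Matrix.mul_one, Matrix.trace_smul, Matrix.trace_one, Fintype.card_fin,
      Matrix.trace_conjTranspose, smul_eq_mul, star_div₀, star_natCast]
    field_simp
    ring
  exact_mod_cast this

section scalar

variable {n d : ℕ}

/-- the scalar matrix -/
def bb (A : Matrix (Fin n × Fin d) (Fin n × Fin d) ℂ) (i j : Fin d) : ℂ :=
  (blk A i j).trace / (n : ℂ)

/-- its amplification -/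
def Bt (A : Matrix (Fin n × Fin d) (Fin n × Fin d) ℂ) :
    Matrix (Fin n × Fin d) (Fin n × Fin d) ℂ :=
  fun a b => if a.1 = b.1 then bb A a.2 b.2 else 0

lemma blk_Bt (A : Matrix (Fin n × Fin d) (Fin n × Fin d) ℂ) (i j : Fin d) :
    blk (Bt A) i j = ((blk A i j).trace / (n : ℂ)) • (1 : Matrix (Fin n) (Fin n) ℂ) := by
  ext p q
  simp only [blk, Bt, bb, Matrix.smul_apply, Matrix.one_apply, smul_eq_mul, mul_ite, mul_one,
    mul_zero]

lemma blk_sub (A B : Matrix (Fin n × Fin d) (Fin n × Fin d) ℂ) (i j : Fin d) :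
    blk (A - B) i j = blk A i j - blk B i j := rfl

lemma hs2_split (hn : 0 < n) (A : Matrix (Fin n × Fin d) (Fin n × Fin d) ℂ) :
    hs2 A = hs2 (A - Bt A) + hs2 (Bt A) := by
  rw [hs2_blk A, hs2_blk (A - Bt A), hs2_blk (Bt A), ← Finset.sum_add_distrib]
  refine Finset.sum_congr rfl fun i _ => ?_
  rw [← Finset.sum_add_distrib]
  refine Finset.sum_congr rfl fun j _ => ?_
  rw [blk_sub, blk_Bt]
  exact block_split hn _

lemma gap_amp (g : Fin 4 → Matrix (Fin n) (Fin n) ℂ) (hg : Gap g)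
    (A : Matrix (Fin n × Fin d) (Fin n × Fin d) ℂ) :
    hs2 (A - Bt A) ≤ 400 * ∑ s, hs2 (amp d (g s) * A - A * amp d (g s)) := by
  rw [hs2_blk (A - Bt A)]
  have h1 : ∀ s, hs2 (amp d (g s) * A - A * amp d (g s)) =
      ∑ i, ∑ j, hs2 (g s * blk A i j - blk A i j * g s) := by
    intro s
    rw [hs2_blk]
    refine Finset.sum_congr rfl fun i _ => Finset.sum_congr rfl fun j _ => ?_
    rw [blk_sub, blk_amp_mul, blk_mul_amp]
  simp_rw [h1]
  have h2 : ∑ s : Fin 4, ∑ i, ∑ j, hs2 (g s * blk A i j - blk A i j * g s) =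
      ∑ i, ∑ j, ∑ s : Fin 4, hs2 (g s * blk A i j - blk A i j * g s) := by
    rw [Finset.sum_comm]
    exact Finset.sum_congr rfl fun i _ => Finset.sum_comm
  rw [h2, Finset.mul_sum]
  refine Finset.sum_le_sum fun i _ => ?_
  rw [Finset.mul_sum]
  refine Finset.sum_le_sum fun j _ => ?_
  rw [blk_sub, blk_Bt]
  exact hg.2 _

/-- the amplified vector -/
def cv (n : ℕ) {d : ℕ} (u : Fin d → ℂ) : Matrix (Fin n × Fin d) (Fin n) ℂ :=
  fun a q => if a.1 = q then u a.2 else 0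

lemma mul_cv {H : Type} (M : Matrix H (Fin n × Fin d) ℂ) (u : Fin d → ℂ) (h : H) (q : Fin n) :
    (M * cv n u) h q = ∑ j, M h (q, j) * u j := by
  rw [Matrix.mul_apply, Fintype.sum_prod_type, Finset.sum_comm]
  refine Finset.sum_congr rfl fun j _ => ?_
  simp [cv]

lemma hs2_row_cv {H : Type} [Fintype H] (T : Fin d → Matrix H (Fin n) ℂ)
    (hT : ∀ i j, ((T i)ᴴ * T j).trace = if i = j then 1 else 0) (u : Fin d → ℂ) :
    hs2 (row T * cv n u) = ∑ j, ‖u j‖ ^ 2 := by
  have h0 : row T * cv n u = ∑ j, u j • T j := by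
    ext h q
    rw [mul_cv, Matrix.sum_apply]
    refine Finset.sum_congr rfl fun j _ => ?_
    simp [row, mul_comm]
  have h1 := gram_trace (row T * cv n u)
  rw [h0] at h1 ⊢
  rw [Matrix.conjTranspose_sum, Matrix.sum_mul, Matrix.trace_sum] at h1
  have h2 : ∀ i, ((u i • T i)ᴴ * ∑ j, u j • T j).trace = ((‖u i‖ ^ 2 : ℝ) : ℂ) := by
    intro i
    rw [Matrix.mul_sum, Matrix.trace_sum, Finset.sum_eq_single i]
    · rw [Matrix.conjTranspose_smul, Matrix.smul_mul, Matrix.mul_smul, Matrix.trace_smul,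
        Matrix.trace_smul, hT, if_pos rfl, smul_eq_mul, smul_eq_mul, mul_one, Complex.star_def,
        ← Complex.normSq_eq_conj_mul_self, Complex.normSq_eq_norm_sq]
    · intro j _ hj
      rw [Matrix.conjTranspose_smul, Matrix.smul_mul, Matrix.mul_smul, Matrix.trace_smul,
        Matrix.trace_smul, hT, if_neg (Ne.symm hj), smul_zero, smul_zero]
    · simp
  simp_rw [h2] at h1
  rw [← Complex.ofReal_sum] at h1
  exact_mod_cast h1.symm

lemma bb_bound (hn : 0 < n) {H : Type} [Fintype H] (T : Fin d → Matrix H (Fin n) ℂ)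
    (hT : ∀ i j, ((T i)ᴴ * T j).trace = if i = j then 1 else 0)
    (A : Matrix (Fin n × Fin d) (Fin n × Fin d) ℂ) (hA : Aᴴ * A = (row T)ᴴ * row T)
    (u : Fin d → ℂ) :
    ∑ i, ‖∑ j, bb A i j * u j‖ ^ 2 ≤ 1 / (n : ℝ) * ∑ j, ‖u j‖ ^ 2 := by
  have hn' : (0 : ℝ) < n := by exact_mod_cast hn
  have h1 : hs2 (A * cv n u) = ∑ j, ‖u j‖ ^ 2 := by
    rw [← hs2_row_cv T hT u]
    apply hs2_eq_of_gram
    rw [Matrix.conjTranspose_mul, Matrix.conjTranspose_mul, Matrix.mul_assoc, Matrix.mul_assoc,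
      ← Matrix.mul_assoc Aᴴ, ← Matrix.mul_assoc (row T)ᴴ, hA]
  have h2 : ∀ i, ∑ j, bb A i j * u j = 1 / (n : ℂ) * ∑ p, (A * cv n u) (p, i) p := by
    intro i
    simp_rw [mul_cv, bb, Matrix.trace, Matrix.diag, blk]
    rw [Finset.sum_comm, Finset.mul_sum]
    refine Finset.sum_congr rfl fun j _ => ?_
    rw [← Finset.sum_mul]
    ring
  have h3 : ∀ i, ‖∑ j, bb A i j * u j‖ ^ 2 ≤ 1 / (n : ℝ) * ∑ p, ‖(A * cv n u) (p, i) p‖ ^ 2 := by
    intro i
    rw [h2 i, norm_mul, mul_pow]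
    have h4 : ‖∑ p, (A * cv n u) (p, i) p‖ ^ 2 ≤ n * ∑ p, ‖(A * cv n u) (p, i) p‖ ^ 2 := by
      have h5 : ‖∑ p, (A * cv n u) (p, i) p‖ ≤ ∑ p, ‖(A * cv n u) (p, i) p‖ := norm_sum_le _ _
      have h6 : (∑ p, ‖(A * cv n u) (p, i) p‖) ^ 2 ≤
          (Finset.univ : Finset (Fin n)).card * ∑ p, ‖(A * cv n u) (p, i) p‖ ^ 2 :=
        sq_sum_le_card_mul_sum_sq
      rw [Finset.card_univ, Fintype.card_fin] at h6
      refine le_trans ?_ h6
      exact pow_le_pow_left₀ (norm_nonneg _) h5 2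
    have h7 : ‖1 / (n : ℂ)‖ ^ 2 = 1 / (n : ℝ) * (1 / (n : ℝ)) := by
      rw [norm_div, norm_one, Complex.norm_natCast]; ring
    rw [h7, mul_assoc]
    refine mul_le_mul_of_nonneg_left ?_ (by positivity)
    calc 1 / (n : ℝ) * ‖∑ p, (A * cv n u) (p, i) p‖ ^ 2
        ≤ 1 / (n : ℝ) * (n * ∑ p, ‖(A * cv n u) (p, i) p‖ ^ 2) :=
          mul_le_mul_of_nonneg_left h4 (by positivity)
      _ = _ := by field_simp
  calc ∑ i, ‖∑ j, bb A i j * u j‖ ^ 2
      ≤ ∑ i, 1 / (n : ℝ) * ∑ p, ‖(A * cv n u) (p, i) p‖ ^ 2 := Finset.sum_le_sum fun i _ => h3 i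
    _ = 1 / (n : ℝ) * ∑ p, ∑ i, ‖(A * cv n u) (p, i) p‖ ^ 2 := by
        rw [← Finset.mul_sum, Finset.sum_comm]
    _ ≤ 1 / (n : ℝ) * ∑ j, ‖u j‖ ^ 2 := by
        refine mul_le_mul_of_nonneg_left ?_ (by positivity)
        rw [← h1, hs2, Fintype.sum_prod_type]
        refine Finset.sum_le_sum fun p _ => Finset.sum_le_sum fun i _ => ?_
        exact Finset.single_le_sum (f := fun q => ‖(A * cv n u) (p, i) q‖ ^ 2)
          (fun q _ => by positivity) (Finset.mem_univ p)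

lemma Bt_bound (hn : 0 < n) {H : Type} [Fintype H] (T : Fin d → Matrix H (Fin n) ℂ)
    (hT : ∀ i j, ((T i)ᴴ * T j).trace = if i = j then 1 else 0)
    (A : Matrix (Fin n × Fin d) (Fin n × Fin d) ℂ) (hA : Aᴴ * A = (row T)ᴴ * row T)
    {k : Type} (M : Matrix (Fin n × Fin d) k ℂ) (j : k) :
    c2 (Bt A * M) j ≤ 1 / (n : ℝ) * c2 M j := by
  have h1 : ∀ p i, (Bt A * M) (p, i) j = ∑ i', bb A i i' * M (p, i') j := by
    intro p i
    rw [Matrix.mul_apply, Fintype.sum_prod_type, Finset.sum_comm]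
    refine Finset.sum_congr rfl fun i' _ => ?_
    simp [Bt]
  unfold c2
  rw [Fintype.sum_prod_type, Fintype.sum_prod_type, Finset.mul_sum]
  refine Finset.sum_le_sum fun p _ => ?_
  simp_rw [h1]
  exact bb_bound hn T hT A hA (fun i' => M (p, i') j)

end scalar

theorem main : S_RL := by
  intro n d H _ _ hn g hg x hx T hT hsum
  have hn' : (0 : ℝ) < n := by exact_mod_cast hn
  -- the Gram matrix and its square root
  set R : Matrix H (Fin n × Fin d) ℂ := row T with hR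
  have hG : (Rᴴ * R).PosSemidef := Matrix.posSemidef_conjTranspose_mul_self R
  have hU1 : (hG.isHermitian.eigenvectorUnitary : Matrix (Fin n × Fin d) (Fin n × Fin d) ℂ) *
      (hG.isHermitian.eigenvectorUnitary : Matrix (Fin n × Fin d) (Fin n × Fin d) ℂ)ᴴ = 1 :=
    Unitary.mul_star_self_of_mem hG.isHermitian.eigenvectorUnitary.2
  have hU2 : (hG.isHermitian.eigenvectorUnitary : Matrix (Fin n × Fin d) (Fin n × Fin d) ℂ)ᴴ *
      (hG.isHermitian.eigenvectorUnitary : Matrix (Fin n × Fin d) (Fin n × Fin d) ℂ) = 1 :=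
    Unitary.star_mul_self_of_mem hG.isHermitian.eigenvectorUnitary.2
  have hspec := hG.isHermitian.spectral_theorem
  rw [Unitary.conjStarAlgAut_apply] at hspec
  have hrank := hG.isHermitian.rank_eq_card_non_zero_eigs
  rw [Matrix.rank_conjTranspose_mul_self] at hrank
  have hrank2 : R.rank ≤ Fintype.card H := R.rank_le_card_height
  have hγ : ∀ i, 0 ≤ hG.isHermitian.eigenvalues i := hG.eigenvalues_nonneg
  set γ := hG.isHermitian.eigenvalues with hγdef
  set U : Matrix (Fin n × Fin d) (Fin n × Fin d) ℂ :=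
    (hG.isHermitian.eigenvectorUnitary : Matrix (Fin n × Fin d) (Fin n × Fin d) ℂ) with hUdef
  have hspec' : Rᴴ * R = U * Matrix.diagonal (fun i => ((γ i : ℝ) : ℂ)) * Uᴴ := hspec
  set A : Matrix (Fin n × Fin d) (Fin n × Fin d) ℂ :=
    U * Matrix.diagonal (fun i => ((Real.sqrt (γ i) : ℝ) : ℂ)) * Uᴴ with hAdef
  have hApos : A.PosSemidef := by
    refine Matrix.PosSemidef.mul_mul_conjTranspose_same ?_ U
    refine Matrix.PosSemidef.diagonal fun i => ?_
    simp only [Pi.zero_apply, Complex.zero_le_real]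
    exact Real.sqrt_nonneg _
  have hAA : A * A = Rᴴ * R := by
    rw [hspec', hAdef]
    calc U * Matrix.diagonal (fun i => ((Real.sqrt (γ i) : ℝ) : ℂ)) * Uᴴ *
          (U * Matrix.diagonal (fun i => ((Real.sqrt (γ i) : ℝ) : ℂ)) * Uᴴ)
        = U * Matrix.diagonal (fun i => ((Real.sqrt (γ i) : ℝ) : ℂ)) * (Uᴴ * U) *
            Matrix.diagonal (fun i => ((Real.sqrt (γ i) : ℝ) : ℂ)) * Uᴴ := by
          simp only [Matrix.mul_assoc]
      _ = U * (Matrix.diagonal (fun i => ((Real.sqrt (γ i) : ℝ) : ℂ)) *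
            Matrix.diagonal (fun i => ((Real.sqrt (γ i) : ℝ) : ℂ))) * Uᴴ := by
          rw [hU2]; simp only [Matrix.mul_assoc, Matrix.one_mul]
      _ = _ := by
          rw [Matrix.diagonal_mul_diagonal]
          congr 3
          funext i
          rw [← Complex.ofReal_mul, Real.mul_self_sqrt (hγ i)]
  have hAH : Aᴴ = A := hApos.isHermitian
  have hAstar : Aᴴ * A = Rᴴ * R := by rw [hAH, hAA]
  have hAU : A * U = U * Matrix.diagonal (fun i => ((Real.sqrt (γ i) : ℝ) : ℂ)) := by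
    rw [hAdef, Matrix.mul_assoc, hU2, Matrix.mul_one]
  have hRd : hs2 R = d := by
    rw [hR, hs2_row]
    have : ∀ i, hs2 (T i) = 1 := by
      intro i
      have h1 := gram_trace (T i)
      rw [hT, if_pos rfl] at h1
      exact_mod_cast h1.symm
    simp [this]
  have hAd : hs2 A = d := by rw [← hRd]; exact hs2_eq_of_gram _ _ hAstar
  -- almost invariance
  have hinv : ∑ s, hs2 (amp d (g s) * A - A * amp d (g s)) ≤ 44 / 100000 * (d : ℝ) := by
    have hstep : ∀ s, hs2 (amp d (g s) * A - A * amp d (g s)) ≤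
        2 * (2 * eps1 * d + 1 / 100000 * d + hs2 (x s * (R * amp d (g s)) - R) / (1 / 100000)) := by
      intro s
      have h := step R A hApos hAA (amp d (g s))
        (amp_unitary _ (Unitary.mul_star_self_of_mem (hg.1 s)))
        (amp_unitary' _ (Unitary.star_mul_self_of_mem (hg.1 s))) eps1 (by norm_num [eps1])
        (x s) (hx s) (1 / 100000) (by norm_num)
      rwa [hRd] at h
    have hrow : ∀ s, hs2 (x s * (R * amp d (g s)) - R) = ∑ i, hs2 (x s * T i * g s - T i) := by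
      intro s
      rw [hR, row_mul_amp, mul_row, row_sub, hs2_row]
      refine Finset.sum_congr rfl fun i _ => ?_
      rw [Matrix.mul_assoc]
    have htot : ∑ s, hs2 (x s * (R * amp d (g s)) - R) ≤ kap1 * d := by
      simp_rw [hrow]
      rw [Finset.sum_comm]
      exact hsum
    calc ∑ s, hs2 (amp d (g s) * A - A * amp d (g s))
        ≤ ∑ s : Fin 4, 2 * (2 * eps1 * d + 1 / 100000 * d +
            hs2 (x s * (R * amp d (g s)) - R) / (1 / 100000)) :=
          Finset.sum_le_sum fun s _ => hstep s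
      _ = 2 * (8 * eps1 * d + 4 / 100000 * d +
            (∑ s, hs2 (x s * (R * amp d (g s)) - R)) / (1 / 100000)) := by
          rw [← Finset.mul_sum, Finset.sum_add_distrib, Finset.sum_const, Finset.card_univ,
            Fintype.card_fin, ← Finset.sum_div, nsmul_eq_mul]
          push_cast
          ring
      _ ≤ 2 * (8 * eps1 * d + 4 / 100000 * d + (kap1 * d) / (1 / 100000)) := by
          have := div_le_div_of_nonneg_right htot (by norm_num : (0 : ℝ) ≤ 1 / 100000)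
          linarith
      _ = 44 / 100000 * (d : ℝ) := by
          unfold eps1 kap1
          ring
  have hgap : hs2 (A - Bt A) ≤ 22 / 125 * (d : ℝ) := by
    have := gap_amp g hg A
    calc hs2 (A - Bt A) ≤ 400 * ∑ s, hs2 (amp d (g s) * A - A * amp d (g s)) := this
      _ ≤ 400 * (44 / 100000 * (d : ℝ)) := mul_le_mul_of_nonneg_left hinv (by norm_num)
      _ = _ := by ring
  have hsplit := hs2_split hn A
  rw [hAd] at hsplit
  -- counting
  have hcount : hs2 (Bt A) ≤ hs2 (A - Bt A) + (Fintype.card H : ℝ) / n := by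
    have e1 : hs2 (Bt A) = ∑ j, c2 (Bt A * U) j := by
      rw [← hs2_eq_sum_c2, hs2_mul_unitary _ _ hU1]
    have e2 : hs2 (A - Bt A) = ∑ j, c2 ((A - Bt A) * U) j := by
      rw [← hs2_eq_sum_c2, hs2_mul_unitary _ _ hU1]
    have e3 : ∀ j, c2 U j = 1 := by
      intro j
      have h1 := gram_diag U j
      rw [hU2, Matrix.one_apply_eq] at h1
      exact_mod_cast h1.symm
    have e4 : ∀ j, c2 (Bt A * U) j ≤ c2 ((A - Bt A) * U) j + (if γ j ≠ 0 then 1 / (n : ℝ) else 0) := by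
      intro j
      by_cases hj : γ j ≠ 0
      · rw [if_pos hj]
        have h1 := Bt_bound hn T hT A hAstar U j
        rw [e3, mul_one] at h1
        have h2 := c2_nonneg ((A - Bt A) * U) j
        linarith
      · rw [if_neg hj, add_zero]
        push Not at hj
        have h1 : ∀ a, (A * U) a j = 0 := by
          intro a
          rw [hAU, Matrix.mul_diagonal, hj, Real.sqrt_zero, Complex.ofReal_zero, mul_zero]
        apply le_of_eq
        unfold c2
        refine Finset.sum_congr rfl fun a _ => ?_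
        rw [Matrix.sub_mul, Matrix.sub_apply, h1, zero_sub, norm_neg]
    rw [e1, e2]
    calc ∑ j, c2 (Bt A * U) j ≤ ∑ j, (c2 ((A - Bt A) * U) j + (if γ j ≠ 0 then 1 / (n : ℝ) else 0)) :=
          Finset.sum_le_sum fun j _ => e4 j
      _ = ∑ j, c2 ((A - Bt A) * U) j + (Fintype.card {i // γ i ≠ 0} : ℝ) * (1 / n) := by
          rw [Finset.sum_add_distrib, Finset.sum_ite, Finset.sum_const_zero, add_zero,
            Finset.sum_const, nsmul_eq_mul, Fintype.card_subtype]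
      _ ≤ ∑ j, c2 ((A - Bt A) * U) j + (Fintype.card H : ℝ) / n := by
          rw [← hrank]
          have : (R.rank : ℝ) ≤ Fintype.card H := by exact_mod_cast hrank2
          have h2 : (R.rank : ℝ) * (1 / n) ≤ (Fintype.card H : ℝ) / n := by
            rw [mul_one_div]
            exact div_le_div_of_nonneg_right this hn'.le
          linarith
  have hfin : (d : ℝ) * (1 / 2) ≤ (Fintype.card H : ℝ) / n := by
    have hd : (0 : ℝ) ≤ d := Nat.cast_nonneg d
    linarith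
  rw [le_div_iff₀ hn'] at hfin
  have : (n : ℝ) * d ≤ 2 * Fintype.card H := by linarith
  exact_mod_cast this

end Pool.Agent.H299_Opp.RL
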