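import Pool.Agent.H299_Opp.Stubs

/-!
# SL: slice lemmas
-/

set_option autoImplicit false

open scoped BigOperators Matrix InnerProductSpace

noncomputable section

namespace Pool.Agent.H299_Opp

namespace SL

variable {κ : Type} {F : κ → Fib} {E : Type} [AddCommGroup E] [Module ℂ E]

/-- slice lemma (a) for one term -/
theorem term_a (t : List (Lt F) × List (ℕ × Bool) × List (Lt F)) (k : κ) (c : ℕ)
    (hfree : ∀ p : Fin (F k).n, (⟨k, p, c⟩ : Lt F) ∉ t.1) (f : List (Lt F) → E)
    (V z : List (Lt F)) (p : Fin (F k).n) :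
    actT F t f (V ++ ⟨k, p, c⟩ :: z) =
      actL F k t (fun h => f (h.1 ++ ⟨k, h.2, c⟩ :: z)) (V, p) := by
  classical
  unfold actT actL
  by_cases hw : t.1 <+: V
  · have hw' : t.1 <+: V ++ ⟨k, p, c⟩ :: z := hw.trans (List.prefix_append _ _)
    rw [if_pos hw', if_pos hw]
    obtain ⟨V', rfl⟩ := hw
    simp only [List.append_assoc, List.drop_left]
    cases V' with
    | nil => simp [actA]
    | cons b V'' =>
      obtain ⟨k', p1, c1⟩ := b
      simp [actA]
  · have hw' : ¬ t.1 <+: V ++ ⟨k, p, c⟩ :: z := by
      intro h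
      rcases List.prefix_or_prefix_of_prefix h (List.prefix_append V (⟨k, p, c⟩ :: z)) with h1 | h1
      · exact hw h1
      · obtain ⟨w', hw1⟩ := h1
        rw [← hw1] at h
        rw [List.prefix_append_right_inj] at h
        cases w' with
        | nil =>
          apply hw
          rw [← hw1, List.append_nil]
        | cons b w'' =>
          rw [List.cons_prefix_cons] at h
          apply hfree p
          rw [← hw1, ← h.1]
          simp
    rw [if_neg hw', if_neg hw]

/-- slice lemma (b) for one term -/
theorem term_b (t : List (Lt F) × List (ℕ × Bool) × List (Lt F)) (k : κ) (hn : (F k).n = 1)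
    (hev : evw (F k).u t.2.1 = 1) (f : List (Lt F) → E)
    (V : List (Lt F)) (p : Fin (F k).n) :
    actT F t f V = actL F k t (fun h => f h.1) (V, p) := by
  classical
  unfold actT actL
  by_cases hw : t.1 <+: V
  · rw [if_pos hw, if_pos hw]
    obtain ⟨V', rfl⟩ := hw
    simp only [List.drop_left]
    cases V' with
    | nil =>
      simp only [actA, List.append_nil]
      rw [hev]
      simp [Matrix.one_apply]
    | cons b V'' =>
      obtain ⟨k', p1, c1⟩ := b
      simp [actA]
  · rw [if_neg hw, if_neg hw]

theorem evw_one {n : ℕ} (u : ℕ → Matrix (Fin n) (Fin n) ℂ) (h : ∀ j, u j = 1)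
    (w : List (ℕ × Bool)) : evw u w = 1 := by
  induction w with
  | nil => rfl
  | cons p w ih =>
    simp only [evw, ih, h]
    split_ifs <;> simp

end SL

theorem SLA.main : S_SLA := by
  intro κ F E _ _ x k c hfree f V z p
  unfold El.act El.loc
  congr 1
  refine List.map_congr_left fun t ht => ?_
  rw [SL.term_a t.2 k c (fun p => (hfree t ht p).1) f V z p]

theorem SLB.main : S_SLB := by
  intro κ F E _ _ k0 hn hu x f V p
  unfold El.act El.loc
  congr 1
  refine List.map_congr_left fun t ht => ?_
  rw [SL.term_b t.2 k0 hn (SL.evw_one _ hu _) f V p]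

end Pool.Agent.H299_Opp
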