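import Pool.Agent.H299_Opp.Defs

/-!
# Statements of the pieces (each `S_X` is proved as `theorem Pool.Agent.H299_Opp.X.main : S_X` or
`... : S_Y → S_X` in its own file)
-/

set_option autoImplicit false

open scoped BigOperators Matrix InnerProductSpace

noncomputable section

namespace Pool.Agent.H299_Opp

/-- QE: quantum expanders of size `2^a`. -/
def S_QE : Prop := ∀ a : ℕ, ∃ u : Fin 4 → Matrix (Fin (2 ^ a)) (Fin (2 ^ a)) ℂ, Gap u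

/-- RL: rigidity lemma (paper, section 4). -/
def S_RL : Prop := ∀ (n d : ℕ) (H : Type) [Fintype H] [DecidableEq H], 0 < n →
  ∀ g : Fin 4 → Matrix (Fin n) (Fin n) ℂ, Gap g →
  ∀ x : Fin 4 → Matrix H H ℂ, (∀ s, nb (1 + eps1) (x s)) →
  ∀ T : Fin d → Matrix H (Fin n) ℂ, (∀ i j, ((T i)ᴴ * T j).trace = if i = j then 1 else 0) →
  ∑ i, ∑ s, hs2 (x s * T i * g s - T i) ≤ kap1 * d → n * d ≤ 2 * Fintype.card H

/-- HAAR: second moment bound (paper, section 5, Corollary H'). -/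
def S_HAAR : Prop := ∀ n : ℕ, 0 < n → ∀ u : ℕ → Matrix (Fin n) (Fin n) ℂ,
  (∀ j, u j ∈ Matrix.unitaryGroup (Fin n) ℂ) → ∀ (t : ℕ) (ι : Type) [Fintype ι]
  (X Y : ι → Matrix (Fin n) (Fin n) ℂ) (w : ι → List (ℕ × Bool)),
  (∀ i, hs2 (X i) ≤ 1) → (∀ i, hs2 (Y i) ≤ 1) →
  ∃ V ∈ Matrix.unitaryGroup (Fin n) ℂ,
    ∑ i, ‖(X i * evw (Function.update u t V) (w i) * Y i * V.map star).trace‖ ^ 2 ≤
      ∑ i, (2 * ((w i).length : ℝ) + 1) / n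

/-- DEF: defeat lemma (paper, section 6). -/
def S_DEF : Prop := ∀ x : Cand, ∃ a0 : ℕ, ∀ a : ℕ, a0 ≤ a →
  ∃ f : Fib, f.n = 2 ^ a ∧ Gap f.four ∧ ¬ Rel x f f

/-- CNT: there are countably many candidates. -/
def S_CNT : Prop := Countable Cand

/-- FIB: the sequence of fibres (paper, section 7). -/
def S_FIB : Prop := ∃ F : ℕ → Fib, (F 0).n = 1 ∧ (∀ j, (F 0).u j = 1) ∧
  (∀ l, Gap (F l).four) ∧
  (∀ l k, l ≠ k → 2 * (F l).n < (F k).n ∨ 2 * (F k).n < (F l).n) ∧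
  ∀ (x : Cand) (N : ℕ), ∃ l, N ≤ l ∧ ¬ Rel x (F l) (F l)

/-- COMB: Lemma S (paper, section 7). -/
def S_COMB : Prop := ∀ (C : Type) [Countable C] (R : C → ℕ → ℕ → Prop),
  (∀ x N, ∃ l, N ≤ l ∧ ¬ R x l l) →
  ∃ S : Set ℕ, 0 ∈ S ∧ ∀ x, ¬ ∀ l, (l ∈ S ↔ ∃ k ∈ S, R x l k)

/-- RAT: rational approximation of matrix polynomials, uniform over all unitary tuples. -/
def S_RAT : Prop := ∀ (m : ℕ) (X : CP m) (ε : ℝ), 0 < ε →
  ∃ Y : QP m, (∀ t, X.Avoids t → Y.toCP.Avoids t) ∧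
    ∀ (n : ℕ) (u : ℕ → Matrix (Fin n) (Fin n) ℂ), (∀ j, u j ∈ Matrix.unitaryGroup (Fin n) ℂ) →
      nb ε (X.ev u - Y.toCP.ev u)

/-- OPR: the operators exist. -/
def S_OPR : Prop := ∀ (κ : Type) (F : κ → Fib),
  ∃ opr : El F → (Hil F →L[ℂ] Hil F), IsOpr F opr

/-- SLA: slice lemma (a). -/
def S_SLA : Prop := ∀ (κ : Type) (F : κ → Fib) (E : Type) [AddCommGroup E] [Module ℂ E]
  (x : El F) (k : κ) (c : ℕ), x.Free k c → ∀ (f : List (Lt F) → E) (V z : List (Lt F))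
  (p : Fin (F k).n), x.act f (V ++ ⟨k, p, c⟩ :: z) =
    x.loc k (fun h => f (h.1 ++ ⟨k, h.2, c⟩ :: z)) (V, p)

/-- SLB: slice lemma (b). -/
def S_SLB : Prop := ∀ (κ : Type) (F : κ → Fib) (E : Type) [AddCommGroup E] [Module ℂ E]
  (k0 : κ), (F k0).n = 1 → (∀ j, (F k0).u j = 1) → ∀ (x : El F) (f : List (Lt F) → E)
  (V : List (Lt F)) (p : Fin (F k0).n), x.act f V = x.loc k0 (fun h => f h.1) (V, p)

/-- PI: separable, non commutative, purely infinite (paper, section 2). -/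
def S_PI : Prop := ∀ (κ : Type) [Countable κ] (F : κ → Fib) (k0 : κ), (F k0).n = 1 →
  (∀ j, (F k0).u j = 1) → ∀ opr : El F → (Hil F →L[ℂ] Hil F), IsOpr F opr →
  TopologicalSpace.IsSeparable (Set.range opr) ∧
  (∃ a b : El F, opr a * opr b ≠ opr b * opr a) ∧
  ∀ c ∈ closure (Set.range opr), ∀ d ∈ closure (Set.range opr), c ≠ 0 → ∀ ε : ℝ, 0 < ε →
    ∃ x ∈ closure (Set.range opr), ‖star x * (star c * c) * x - star d * d‖ < ε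

/-- WIN: windows (paper, section 3, step 1). -/
def S_WIN : Prop := ∀ (κ : Type) (F : κ → Fib) (r : ℕ) (x : Fin r → El F) (δ : ℝ), 0 < δ →
  ∃ M : ℕ, ∀ (N : ℕ) (g : Fin r → Matrix (Fin N) (Fin N) ℂ),
    (∀ i, g i ∈ Matrix.unitaryGroup (Fin N) ℂ) → ∀ T : List (Lt F) → Fin N → ℂ, n2 F T = 1 →
    ∃ T1 : List (Lt F) → Fin N → ℂ, (∀ W, M < W.length → T1 W = 0) ∧ n2 F T1 ≠ 0 ∧
      n2 F T1 ≠ ⊤ ∧
      ∑ i, n2 F (fun W => Matrix.vecMul ((x i).act T1 W) (g i) - T1 W) ≤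
        (2 * ∑ i, n2 F (fun W => Matrix.vecMul ((x i).act T W) (g i) - T W) +
          ENNReal.ofReal δ) * n2 F T1

/-- LOC: Theorem L (paper, section 3). -/
def S_LOC : Prop := ∀ (κ : Type) (F : κ → Fib) (k0 : κ), (F k0).n = 1 →
  (∀ j, (F k0).u j = 1) → ∀ opr : El F → (Hil F →L[ℂ] Hil F), IsOpr F opr →
  ∀ (r : ℕ) (x : Fin r → El F) (δ : ℝ), 0 < δ →
  ∃ (m : ℕ) (X : Fin r → CP m),
    (∀ i t, (x i).Avoids t → (X i).Avoids t) ∧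
    (∀ k, ∃ e : Fin m × Fin (F k).n → Hil F, Orthonormal ℂ e ∧
      ∀ i a b, ⟪e a, opr (x i) (e b)⟫_ℂ = (X i).ev (F k).u a b) ∧
    ∀ (N : ℕ) (g : Fin r → Matrix (Fin N) (Fin N) ℂ),
      (∀ i, g i ∈ Matrix.unitaryGroup (Fin N) ℂ) → ∀ T : Fin N → Hil F, ∑ p, ‖T p‖ ^ 2 = 1 →
      ∃ (k : κ) (T' : Matrix (Fin m × Fin (F k).n) (Fin N) ℂ), hs2 T' = 1 ∧
        ∑ i, hs2 ((X i).ev (F k).u * T' * g i - T') ≤
          2 * ∑ i, ∑ q, ‖(∑ p, g i p q • opr (x i) (T p)) - T q‖ ^ 2 + δ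

/-- NOISO: an isomorphism with the opposite algebra gives a candidate (paper, section 8). -/
def S_NOISO : Prop := ∀ (κ : Type) (F : κ → Fib) (k0 : κ), (F k0).n = 1 →
  (∀ j, (F k0).u j = 1) → (∀ k, Gap (F k).four) →
  ∀ opr : El F → (Hil F →L[ℂ] Hil F), IsOpr F opr →
  ∀ A : StarSubalgebra ℂ (Hil F →L[ℂ] Hil F), (A : Set (Hil F →L[ℂ] Hil F)) =
    closure (Set.range opr) → (A ≃⋆ₐ[ℂ] (↥A)ᵐᵒᵖ) →
  ∃ x : Cand, (∀ k, ∃ k', Rel x (F k) (F k')) ∧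
    ∀ f : Fib, Gap f.four → ∀ k', Rel x f (F k') →
      ∃ k, f.n ≤ 2 * (F k).n ∧ (F k).n ≤ 2 * f.n

end Pool.Agent.H299_Opp
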