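import Pool.Agent.H299_Opp.Stubs

/-!
# WIN: windows (paper, section 3, step 1)
-/

set_option autoImplicit false

open scoped BigOperators Matrix InnerProductSpace

noncomputable section

namespace Pool.Agent.H299_Opp.WIN

open Pool.Agent.H299_Opp

/-- squared norm of a vector, extended nonnegative -/
def e2 {N : ℕ} (v : Fin N → ℂ) : ENNReal := ∑ p, ENNReal.ofReal (‖v p‖ ^ 2)

theorem n2_eq {κ : Type} (F : κ → Fib) {N : ℕ} (T : List (Lt F) → Fin N → ℂ) :
    n2 F T = ∑' W, e2 (T W) := rfl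

theorem e2_zero {N : ℕ} : e2 (0 : Fin N → ℂ) = 0 := by
  simp [e2]

theorem e2_add_le {N : ℕ} (a b : Fin N → ℂ) : e2 (a + b) ≤ 2 * e2 a + 2 * e2 b := by
  unfold e2
  rw [Finset.mul_sum, Finset.mul_sum, ← Finset.sum_add_distrib]
  refine Finset.sum_le_sum fun p _ => ?_
  have h : ‖(a + b) p‖ ^ 2 ≤ 2 * ‖a p‖ ^ 2 + 2 * ‖b p‖ ^ 2 := by
    have := norm_add_le (a p) (b p)
    have h1 := norm_nonneg (a p + b p)
    simp only [Pi.add_apply]
    nlinarith [sq_nonneg (‖a p‖ - ‖b p‖), norm_nonneg (a p), norm_nonneg (b p)]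
  calc ENNReal.ofReal (‖(a + b) p‖ ^ 2)
      ≤ ENNReal.ofReal (2 * ‖a p‖ ^ 2 + 2 * ‖b p‖ ^ 2) := ENNReal.ofReal_le_ofReal h
    _ = 2 * ENNReal.ofReal (‖a p‖ ^ 2) + 2 * ENNReal.ofReal (‖b p‖ ^ 2) := by
      rw [ENNReal.ofReal_add (by positivity) (by positivity), ENNReal.ofReal_mul (by norm_num),
        ENNReal.ofReal_mul (by norm_num)]
      simp

theorem e2_smul {N : ℕ} (c : ℂ) (a : Fin N → ℂ) :
    e2 (c • a) = ENNReal.ofReal (‖c‖ ^ 2) * e2 a := by
  unfold e2
  rw [Finset.mul_sum]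
  refine Finset.sum_congr rfl fun p _ => ?_
  rw [← ENNReal.ofReal_mul (by positivity)]
  simp [mul_pow]

/-- a unitary matrix preserves the sum of squares -/
theorem unitary_sum_sq {n : ℕ} (a : Matrix (Fin n) (Fin n) ℂ)
    (ha : a ∈ Matrix.unitaryGroup (Fin n) ℂ) (x : Fin n → ℂ) :
    ∑ p, ‖(a.mulVec x) p‖ ^ 2 = ∑ p, ‖x p‖ ^ 2 := by
  have key : ∀ y : Fin n → ℂ, ((∑ p, ‖y p‖ ^ 2 : ℝ) : ℂ) = star y ⬝ᵥ y := by
    intro y
    simp only [dotProduct, Pi.star_apply, RCLike.star_def]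
    push_cast
    refine Finset.sum_congr rfl fun p _ => ?_
    rw [mul_comm, Complex.mul_conj, Complex.normSq_eq_norm_sq]
    push_cast
    rfl
  have h : ((∑ p, ‖(a.mulVec x) p‖ ^ 2 : ℝ) : ℂ) = ((∑ p, ‖x p‖ ^ 2 : ℝ) : ℂ) := by
    rw [key, key, Matrix.star_mulVec, Matrix.dotProduct_mulVec, Matrix.vecMul_vecMul]
    have : aᴴ * a = 1 := by
      have := (Matrix.mem_unitaryGroup_iff').1 ha
      simpa [Matrix.star_eq_conjTranspose] using this
    rw [this, Matrix.vecMul_one]
  exact_mod_cast h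

theorem ofReal_sum_sq {n : ℕ} (x : Fin n → ℂ) :
    ∑ p, ENNReal.ofReal (‖x p‖ ^ 2) = ENNReal.ofReal (∑ p, ‖x p‖ ^ 2) := by
  rw [ENNReal.ofReal_sum_of_nonneg]
  intros; positivity

theorem e2_vecMul {N : ℕ} (g : Matrix (Fin N) (Fin N) ℂ) (hg : g ∈ Matrix.unitaryGroup (Fin N) ℂ)
    (v : Fin N → ℂ) : e2 (Matrix.vecMul v g) = e2 v := by
  have h := unitary_sum_sq gᵀ (by
    rw [Matrix.mem_unitaryGroup_iff]
    have := (Matrix.mem_unitaryGroup_iff').1 hg
    have h2 := congrArg Matrix.transpose this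
    rw [Matrix.transpose_mul, Matrix.transpose_one] at h2
    rw [← h2]
    congr 1) v
  unfold e2
  rw [ofReal_sum_sq, ofReal_sum_sq, ← h, Matrix.mulVec_transpose]

/-- unitary mixing of vectors -/
theorem e2_block {n N : ℕ} (a : Matrix (Fin n) (Fin n) ℂ)
    (ha : a ∈ Matrix.unitaryGroup (Fin n) ℂ) (f : Fin n → Fin N → ℂ) :
    ∑ p, e2 (∑ p', a p p' • f p') = ∑ p, e2 (f p) := by
  unfold e2
  rw [Finset.sum_comm, Finset.sum_comm (f := fun p q => ENNReal.ofReal (‖f p q‖ ^ 2))]
  refine Finset.sum_congr rfl fun q _ => ?_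
  have h := unitary_sum_sq a ha (fun p => f p q)
  rw [ofReal_sum_sq (fun p => (∑ p', a p p' • f p') q), ofReal_sum_sq (fun p => f p q), ← h]
  congr 1
  refine Finset.sum_congr rfl fun p _ => ?_
  simp [Matrix.mulVec, dotProduct]

theorem evw_unitary {n : ℕ} (u : ℕ → Matrix (Fin n) (Fin n) ℂ)
    (hu : ∀ j, u j ∈ Matrix.unitaryGroup (Fin n) ℂ) (w : List (ℕ × Bool)) :
    evw u w ∈ Matrix.unitaryGroup (Fin n) ℂ := by
  induction w with
  | nil => exact one_mem _
  | cons p w ih =>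
    have : evw u (p :: w) = (if p.2 then (u p.1)ᴴ else u p.1) * evw u w := rfl
    rw [this]
    refine mul_mem ?_ ih
    split_ifs
    · exact Unitary.star_mem (hu p.1)
    · exact hu p.1

theorem tsum_cons {α : Type} (G : List α → ENNReal) :
    ∑' W, G W = G [] + ∑' a, ∑' l, G (a :: l) := by
  classical
  rw [ENNReal.tsum_eq_add_tsum_ite (f := G) []]
  congr 1
  have hp : ∑' p : α × List α, G (p.1 :: p.2) = ∑' a, ∑' l, G (a :: l) :=
    ENNReal.tsum_prod' (f := fun p : α × List α => G (p.1 :: p.2))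
  rw [← hp]
  have hinj : Function.Injective (fun p : α × List α => p.1 :: p.2) := by
    rintro ⟨a, l⟩ ⟨a', l'⟩ h
    simpa using h
  refine (hinj.tsum_eq ?_).symm.trans ?_
  · intro W hW
    cases W with
    | nil => simp at hW
    | cons a l => exact ⟨(a, l), rfl⟩
  · simp

variable {κ : Type} {F : κ → Fib}

theorem tsum_letters (H : Lt F → ENNReal) :
    ∑' a, H a = ∑' k, ∑' c : ℕ, ∑ p, H ⟨k, p, c⟩ := by
  rw [ENNReal.tsum_sigma']
  refine tsum_congr fun k => ?_
  rw [ENNReal.tsum_prod', ENNReal.tsum_comm]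
  refine tsum_congr fun c => ?_
  rw [tsum_fintype]

theorem tsum_fin_comm {ι β : Type} [Fintype ι] (H : ι → β → ENNReal) :
    ∑ p, ∑' l, H p l = ∑' l, ∑ p, H p l := by
  rw [Summable.tsum_finsetSum]
  intros
  exact ENNReal.summable

theorem actA_sum {N : ℕ} (a : ∀ k, Matrix (Fin (F k).n) (Fin (F k).n) ℂ)
    (ha : ∀ k, a k ∈ Matrix.unitaryGroup (Fin (F k).n) ℂ) (f : List (Lt F) → Fin N → ℂ)
    (φ : ℕ → ENNReal) :
    ∑' W, φ W.length * e2 (actA F a f W) = ∑' W, φ W.length * e2 (f W) := by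
  rw [tsum_cons, tsum_cons (fun W => φ W.length * e2 (f W))]
  congr 1
  rw [tsum_letters, tsum_letters]
  refine tsum_congr fun k => tsum_congr fun c => ?_
  rw [tsum_fin_comm, tsum_fin_comm]
  refine tsum_congr fun l => ?_
  simp only [List.length_cons]
  rw [← Finset.mul_sum, ← Finset.mul_sum]
  congr 1
  exact e2_block (a k) (ha k) (fun p => f (⟨k, p, c⟩ :: l))

theorem actT_sum {N : ℕ} (t : List (Lt F) × List (ℕ × Bool) × List (Lt F))
    (f : List (Lt F) → Fin N → ℂ) (φ : ℕ → ENNReal) :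
    ∑' W, φ W.length * e2 (actT F t f W) =
      ∑' V, φ (t.1.length + V.length) * e2 (f (t.2.2 ++ V)) := by
  have hinj : Function.Injective (fun V : List (Lt F) => t.1 ++ V) := fun V V' h =>
    List.append_cancel_left h
  rw [← hinj.tsum_eq (f := fun W => φ W.length * e2 (actT F t f W))]
  · have h : ∀ V : List (Lt F), actT F t f (t.1 ++ V) =
        actA F (fun k => evw (F k).u t.2.1) (fun W' => f (t.2.2 ++ W')) V := by
      intro V
      simp [actT]
    simp only [h, List.length_append]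
    rw [actA_sum (fun k => evw (F k).u t.2.1) (fun k => evw_unitary _ (F k).uni _)
      (fun W' => f (t.2.2 ++ W')) (fun l => φ (t.1.length + l))]
  · intro W hW
    by_contra hc
    apply hW
    have : ¬ t.1 <+: W := by
      rintro ⟨V, hV⟩
      exact hc ⟨V, hV⟩
    simp [actT, this, e2_zero]

/-! ## Commutators with length cut-offs -/

/-- multiplication by a function of the length -/
def cut {N : ℕ} (ψ : ℕ → ℂ) (f : List (Lt F) → Fin N → ℂ) : List (Lt F) → Fin N → ℂ :=
  fun W => ψ W.length • f W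

theorem actA_cut {N : ℕ} (a : ∀ k, Matrix (Fin (F k).n) (Fin (F k).n) ℂ) (ψ : ℕ → ℂ)
    (f : List (Lt F) → Fin N → ℂ) (V : List (Lt F)) :
    actA F a (fun W => ψ W.length • f W) V = ψ V.length • actA F a f V := by
  cases V with
  | nil => rfl
  | cons b V =>
    obtain ⟨k, p, c⟩ := b
    simp only [actA, List.length_cons, Finset.smul_sum]
    refine Finset.sum_congr rfl fun p' _ => ?_
    rw [smul_comm]

theorem actT_cut {N : ℕ} (t : List (Lt F) × List (ℕ × Bool) × List (Lt F)) (ψ : ℕ → ℂ)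
    (f : List (Lt F) → Fin N → ℂ) (W : List (Lt F)) :
    e2 (actT F t (cut ψ f) W - ψ W.length • actT F t f W) =
      ENNReal.ofReal (‖ψ (t.2.2.length + (W.length - t.1.length)) - ψ W.length‖ ^ 2) *
        e2 (actT F t f W) := by
  rw [← e2_smul, sub_smul]
  congr 2
  unfold actT
  split_ifs with h
  · have : (fun W' => cut ψ f (t.2.2 ++ W')) =
        fun W' : List (Lt F) => (fun l => ψ (t.2.2.length + l)) W'.length • f (t.2.2 ++ W') := by
      funext W'
      simp [cut]
    rw [this, ← List.length_drop]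
    exact actA_cut _ (fun l => ψ (t.2.2.length + l)) _ _
  · simp

/-- the size of the commutator of `x` with a cut-off -/
def comm {N : ℕ} (x : El F) (ψ : ℕ → ℂ) (f : List (Lt F) → Fin N → ℂ) : ENNReal :=
  (x.map fun t => ENNReal.ofReal (‖t.1‖ ^ 2) * ∑' V : List (Lt F),
    ENNReal.ofReal (‖ψ (t.2.2.2.length + V.length) - ψ (t.2.1.length + V.length)‖ ^ 2) *
      e2 (f (t.2.2.2 ++ V))).sum

theorem act_nil {N : ℕ} (f : List (Lt F) → Fin N → ℂ) (W : List (Lt F)) :
    El.act ([] : El F) f W = 0 := rfl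

theorem act_cons {N : ℕ} (t : ℂ × List (Lt F) × List (ℕ × Bool) × List (Lt F)) (x : El F)
    (f : List (Lt F) → Fin N → ℂ) (W : List (Lt F)) :
    El.act (t :: x : El F) f W = t.1 • actT F t.2 f W + El.act x f W := by
  simp [El.act]

theorem comm_bound {N : ℕ} (x : El F) (ψ : ℕ → ℂ) (f : List (Lt F) → Fin N → ℂ) :
    ∑' W, e2 (x.act (cut ψ f) W - ψ W.length • x.act f W) ≤ 2 ^ x.length * comm x ψ f := by
  induction x with
  | nil =>
    simp [act_nil, e2_zero]
  | cons t x ih =>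
    have h1 : ∀ W, e2 (El.act (t :: x : El F) (cut ψ f) W - ψ W.length • El.act (t :: x : El F) f W) ≤
        2 * (ENNReal.ofReal (‖t.1‖ ^ 2) *
          (ENNReal.ofReal (‖ψ (t.2.2.2.length + (W.length - t.2.1.length)) - ψ W.length‖ ^ 2) *
            e2 (actT F t.2 f W))) +
        2 * e2 (El.act x (cut ψ f) W - ψ W.length • El.act x f W) := by
      intro W
      rw [← actT_cut, ← e2_smul, act_cons, act_cons]
      refine le_trans (le_of_eq ?_) (e2_add_le _ _)
      congr 1
      rw [smul_sub, smul_add, smul_comm (ψ W.length) t.1]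
      abel
    refine (ENNReal.tsum_le_tsum h1).trans ?_
    rw [ENNReal.tsum_add, ENNReal.tsum_mul_left, ENNReal.tsum_mul_left, ENNReal.tsum_mul_left,
      actT_sum t.2 f (fun l => ENNReal.ofReal
        (‖ψ (t.2.2.2.length + (l - t.2.1.length)) - ψ l‖ ^ 2))]
    have h2 : comm (t :: x : El F) ψ f = ENNReal.ofReal (‖t.1‖ ^ 2) * ∑' V : List (Lt F),
        ENNReal.ofReal (‖ψ (t.2.2.2.length + V.length) - ψ (t.2.1.length + V.length)‖ ^ 2) *
          e2 (f (t.2.2.2 ++ V)) + comm x ψ f := by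
      simp [comm]
    rw [h2, List.length_cons, pow_succ, mul_add]
    have h3 : (1 : ENNReal) ≤ 2 ^ x.length := one_le_pow₀ (by norm_num)
    refine add_le_add ?_ ?_
    · simp only [Nat.add_sub_cancel_left]
      refine mul_le_mul' ?_ le_rfl
      calc (2 : ENNReal) = 1 * 2 := (one_mul 2).symm
        _ ≤ 2 ^ x.length * 2 := mul_le_mul' h3 le_rfl
    · refine (mul_le_mul' (le_refl (2 : ENNReal)) ih).trans (le_of_eq ?_)
      ring

/-! ## Windows -/

theorem actT_window {N : ℕ} (t : List (Lt F) × List (ℕ × Bool) × List (Lt F))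
    (T : List (Lt F) → Fin N → ℂ) (z W : List (Lt F)) (h : t.1.length < W.length) :
    actT F t (fun V => T (V ++ z)) W = actT F t T (W ++ z) := by
  unfold actT
  have hiff := List.isPrefix_append_of_length (l₃ := z) h.le
  by_cases hp : t.1 <+: W
  · rw [if_pos hp, if_pos (hiff.2 hp)]
    obtain ⟨V, rfl⟩ := hp
    cases V with
    | nil => simp at h
    | cons b V =>
      obtain ⟨k, p, c⟩ := b
      simp [actA]
  · rw [if_neg hp, if_neg (fun h' => hp (hiff.1 h'))]

theorem act_window {N : ℕ} (x : El F) (T : List (Lt F) → Fin N → ℂ) (z W : List (Lt F))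
    (h : ∀ t ∈ x, t.2.1.length < W.length) :
    x.act (fun V => T (V ++ z)) W = x.act T (W ++ z) := by
  unfold El.act
  congr 1
  refine List.map_congr_left fun t ht => ?_
  rw [actT_window _ _ _ _ (h t ht)]

theorem piece_bound {N : ℕ} (x : El F) (L : ℕ) (hx : ∀ t ∈ x, t.2.1.length ≤ L)
    (g : Matrix (Fin N) (Fin N) ℂ) (hg : g ∈ Matrix.unitaryGroup (Fin N) ℂ) (ψ : ℕ → ℂ)
    (z : List (Lt F)) (hz : z = [] ∨ ∀ l ≤ L, ψ l = 0) (T : List (Lt F) → Fin N → ℂ) :
    ∑' W, e2 (Matrix.vecMul (x.act (cut ψ (fun V => T (V ++ z))) W) g -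
      cut ψ (fun V => T (V ++ z)) W) ≤
    2 * ∑' W : List (Lt F), ENNReal.ofReal (‖ψ W.length‖ ^ 2) *
      e2 (Matrix.vecMul (x.act T (W ++ z)) g - T (W ++ z)) +
    2 * 2 ^ x.length * comm x ψ (fun V => T (V ++ z)) := by
  have h1 : ∀ W, e2 (Matrix.vecMul (x.act (cut ψ (fun V => T (V ++ z))) W) g -
      cut ψ (fun V => T (V ++ z)) W) ≤
      2 * (ENNReal.ofReal (‖ψ W.length‖ ^ 2) *
        e2 (Matrix.vecMul (x.act T (W ++ z)) g - T (W ++ z))) +
      2 * e2 (x.act (cut ψ (fun V => T (V ++ z))) W -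
        ψ W.length • x.act (fun V => T (V ++ z)) W) := by
    intro W
    rw [← e2_vecMul g hg (x.act (cut ψ (fun V => T (V ++ z))) W -
        ψ W.length • x.act (fun V => T (V ++ z)) W), ← e2_smul]
    refine le_trans (le_of_eq ?_) (e2_add_le _ _)
    congr 1
    have h2 : ψ W.length • x.act (fun V => T (V ++ z)) W = ψ W.length • x.act T (W ++ z) := by
      rcases hz with rfl | hz
      · simp
      · by_cases hW : W.length ≤ L
        · rw [hz _ hW, zero_smul, zero_smul]
        · rw [act_window x T z W (fun t ht => lt_of_le_of_lt (hx t ht) (not_le.1 hW))]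
    rw [h2, Matrix.sub_vecMul, Matrix.smul_vecMul, smul_sub]
    simp only [cut]
    abel
  refine (ENNReal.tsum_le_tsum h1).trans ?_
  rw [ENNReal.tsum_add, ENNReal.tsum_mul_left, ENNReal.tsum_mul_left, mul_assoc]
  gcongr
  exact comm_bound _ _ _

/-- sum of the commutator sizes over a family of windows -/
theorem comm_sum {N : ℕ} {ι : Type} (ψ : ι → ℕ → ℂ) (z : ι → List (Lt F)) (L : ℕ) (K : ENNReal)
    (hK : ∀ a ≤ L, ∀ b ≤ L, ∀ f : List (Lt F) → ENNReal,
      ∑' i, ∑' V : List (Lt F), ENNReal.ofReal (‖ψ i (a + V.length) - ψ i (b + V.length)‖ ^ 2) *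
        f (V ++ z i) ≤ K * ∑' W, f W)
    (x : El F) (hx : ∀ t ∈ x, t.2.1.length ≤ L ∧ t.2.2.2.length ≤ L)
    (T : List (Lt F) → Fin N → ℂ) :
    ∑' i, comm x (ψ i) (fun V => T (V ++ z i)) ≤
      (x.map fun t => ENNReal.ofReal (‖t.1‖ ^ 2)).sum * (K * n2 F T) := by
  induction x with
  | nil => simp [comm]
  | cons t x ih =>
    have h2 : ∀ i, comm (t :: x : El F) (ψ i) (fun V => T (V ++ z i)) =
        ENNReal.ofReal (‖t.1‖ ^ 2) * ∑' V : List (Lt F),
        ENNReal.ofReal (‖ψ i (t.2.2.2.length + V.length) - ψ i (t.2.1.length + V.length)‖ ^ 2) *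
          e2 (T (t.2.2.2 ++ (V ++ z i))) + comm x (ψ i) (fun V => T (V ++ z i)) := by
      intro i
      simp [comm]
    simp only [h2, List.map_cons, List.sum_cons]
    rw [ENNReal.tsum_add, ENNReal.tsum_mul_left, add_mul]
    refine add_le_add ?_ (ih fun t' ht' => hx t' (List.mem_cons_of_mem _ ht'))
    refine mul_le_mul' le_rfl ?_
    obtain ⟨h3, h4⟩ := hx t List.mem_cons_self
    refine (hK _ h4 _ h3 (fun U => e2 (T (t.2.2.2 ++ U)))).trans ?_
    refine mul_le_mul' le_rfl ?_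
    have hinj : Function.Injective (fun V : List (Lt F) => t.2.2.2 ++ V) := fun V V' h =>
      List.append_cancel_left h
    exact ENNReal.tsum_comp_le_tsum_of_injective hinj (fun W => e2 (T W))

/-- average over a family of windows -/
theorem avg {N r : ℕ} {ι : Type} (ψ : ι → ℕ → ℂ) (z : ι → List (Lt F)) (L : ℕ) (m K : ENNReal)
    (hz : ∀ i, z i = [] ∨ ∀ l ≤ L, ψ i l = 0)
    (hm : ∀ f : List (Lt F) → ENNReal, ∑' i, ∑' V : List (Lt F),
      ENNReal.ofReal (‖ψ i V.length‖ ^ 2) * f (V ++ z i) = m * ∑' W, f W)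
    (hK : ∀ a ≤ L, ∀ b ≤ L, ∀ f : List (Lt F) → ENNReal,
      ∑' i, ∑' V : List (Lt F), ENNReal.ofReal (‖ψ i (a + V.length) - ψ i (b + V.length)‖ ^ 2) *
        f (V ++ z i) ≤ K * ∑' W, f W)
    (x : Fin r → El F) (hx : ∀ s, ∀ t ∈ x s, t.2.1.length ≤ L ∧ t.2.2.2.length ≤ L)
    (g : Fin r → Matrix (Fin N) (Fin N) ℂ) (hg : ∀ s, g s ∈ Matrix.unitaryGroup (Fin N) ℂ)
    (T : List (Lt F) → Fin N → ℂ) :
    ∑' i, ∑ s, n2 F (fun W => Matrix.vecMul ((x s).act (cut (ψ i) (fun V => T (V ++ z i))) W) (g s)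
      - cut (ψ i) (fun V => T (V ++ z i)) W) ≤
    m * (2 * ∑ s, n2 F (fun W => Matrix.vecMul ((x s).act T W) (g s) - T W)) +
      (∑ s, 2 * 2 ^ (x s).length * ((x s).map fun t => ENNReal.ofReal (‖t.1‖ ^ 2)).sum) *
        (K * n2 F T) := by
  rw [← tsum_fin_comm, Finset.mul_sum, Finset.mul_sum, Finset.sum_mul, ← Finset.sum_add_distrib]
  refine Finset.sum_le_sum fun s _ => ?_
  refine (ENNReal.tsum_le_tsum fun i => piece_bound (x s) L (fun t ht => (hx s t ht).1) (g s)
    (hg s) (ψ i) (z i) (hz i) T).trans ?_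
  rw [ENNReal.tsum_add, ENNReal.tsum_mul_left, ENNReal.tsum_mul_left]
  refine add_le_add (le_of_eq ?_) ?_
  · rw [hm (fun W => e2 (Matrix.vecMul ((x s).act T W) (g s) - T W)), n2_eq]
    ring
  · refine (mul_le_mul' le_rfl (comm_sum ψ z L K hK (x s) (hx s) T)).trans (le_of_eq ?_)
    ring

theorem cut_sum {N : ℕ} {ι : Type} (ψ : ι → ℕ → ℂ) (z : ι → List (Lt F)) (m : ENNReal)
    (hm : ∀ f : List (Lt F) → ENNReal, ∑' i, ∑' V : List (Lt F),
      ENNReal.ofReal (‖ψ i V.length‖ ^ 2) * f (V ++ z i) = m * ∑' W, f W)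
    (T : List (Lt F) → Fin N → ℂ) :
    ∑' i, n2 F (cut (ψ i) (fun V => T (V ++ z i))) = m * n2 F T := by
  rw [n2_eq F T, ← hm (fun W => e2 (T W))]
  refine tsum_congr fun i => ?_
  rw [n2_eq]
  refine tsum_congr fun W => ?_
  simp only [cut]
  rw [e2_smul]

/-! ## The family of windows -/

/-- splitting words into two parts, the second one nonempty -/
theorem reindex {α : Type} (h : ℕ → ENNReal) (f : List α → ENNReal) :
    ∑' z : List α, ∑' V : List α, (if z = [] then 0 else h V.length) * f (V ++ z) =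
      ∑' W : List α, (∑' l, if l < W.length then h l else 0) * f W := by
  simp only [← ENNReal.tsum_mul_right]
  have h1 : ∑' p : List α × List α, (if p.1 = [] then 0 else h p.2.length) * f (p.2 ++ p.1) =
      ∑' z : List α, ∑' V : List α, (if z = [] then 0 else h V.length) * f (V ++ z) :=
    ENNReal.tsum_prod' (f := fun p : List α × List α =>
      (if p.1 = [] then 0 else h p.2.length) * f (p.2 ++ p.1))
  have h2 : ∑' p : List α × ℕ, (if p.2 < p.1.length then h p.2 else 0) * f p.1 =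
      ∑' W : List α, ∑' l, (if l < W.length then h l else 0) * f W :=
    ENNReal.tsum_prod' (f := fun p : List α × ℕ =>
      (if p.2 < p.1.length then h p.2 else 0) * f p.1)
  rw [← h1, ← h2]
  have hinj : Function.Injective (fun p : List α × List α => (p.2 ++ p.1, p.2.length)) := by
    rintro ⟨z, V⟩ ⟨z', V'⟩ h
    simp only [Prod.mk.injEq] at h
    obtain ⟨h3, h4⟩ := List.append_inj h.1 h.2
    rw [h3, h4]
  refine Eq.trans ?_ (hinj.tsum_eq ?_)
  · refine tsum_congr fun p => ?_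
    have : (p.1 = []) ↔ ¬ (p.2.length < (p.2 ++ p.1).length) := by
      simp
    by_cases hp : p.1 = []
    · simp [hp]
    · have h5 : p.2.length < (p.2 ++ p.1).length := by
        by_contra hc
        exact hp (this.2 hc)
      simp only [if_neg hp, if_pos h5]
  · rintro ⟨W, l⟩ hW
    have h6 : l < W.length := by
      by_contra hc
      apply hW
      simp [hc]
    refine ⟨(W.drop l, W.take l), ?_⟩
    simp [h6.le]

/-- the windows: for `z ≠ []` lengths in `(L, L + m]`, and for the empty tail lengths `≤ j` -/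
def psi (α : Type) (L m : ℕ) : List α ⊕ ℕ → ℕ → ℂ
  | Sum.inl z => fun l => open Classical in if z ≠ [] ∧ L < l ∧ l ≤ L + m then 1 else 0
  | Sum.inr j => fun l => if L < j ∧ j ≤ L + m ∧ l ≤ j then 1 else 0

/-- the tails of the windows -/
def zz (α : Type) : List α ⊕ ℕ → List α
  | Sum.inl z => z
  | Sum.inr _ => []

theorem psi_hz (α : Type) (L m : ℕ) (i : List α ⊕ ℕ) :
    zz α i = [] ∨ ∀ l ≤ L, psi α L m i l = 0 := by
  rcases i with z | j
  · right
    intro l hl
    simp only [psi]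
    rw [if_neg]
    rintro ⟨_, h, _⟩
    omega
  · left
    rfl

theorem psi_supp (α : Type) (L m : ℕ) (i : List α ⊕ ℕ) (l : ℕ) (hl : L + m < l) :
    psi α L m i l = 0 := by
  rcases i with z | j
  · simp only [psi]
    rw [if_neg]
    rintro ⟨_, _, h⟩
    omega
  · simp only [psi]
    rw [if_neg]
    rintro ⟨_, _, h⟩
    omega

theorem family_sum {α : Type} (H1 : ℕ → ENNReal) (H2 : ℕ → ℕ → ENNReal) (Q : List α ⊕ ℕ → ℕ → ENNReal)
    (hQ1 : ∀ z l, Q (Sum.inl z) l = if z = [] then 0 else H1 l)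
    (hQ2 : ∀ j l, Q (Sum.inr j) l = H2 j l) (f : List α → ENNReal) :
    ∑' i, ∑' V : List α, Q i V.length * f (V ++ zz α i) =
      ∑' W : List α, (∑' j, ((if j < W.length then H1 j else 0) + H2 j W.length)) * f W := by
  rw [Summable.tsum_sum ENNReal.summable ENNReal.summable]
  have h1 : ∑' z : List α, ∑' V : List α, Q (Sum.inl z) V.length * f (V ++ zz α (Sum.inl z)) =
      ∑' W : List α, (∑' l, if l < W.length then H1 l else 0) * f W := by
    rw [← reindex]
    refine tsum_congr fun z => tsum_congr fun V => ?_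
    rw [hQ1]
    rfl
  have h2 : ∑' j : ℕ, ∑' V : List α, Q (Sum.inr j) V.length * f (V ++ zz α (Sum.inr j)) =
      ∑' W : List α, (∑' j, H2 j W.length) * f W := by
    rw [ENNReal.tsum_comm]
    refine tsum_congr fun V => ?_
    rw [← ENNReal.tsum_mul_right]
    refine tsum_congr fun j => ?_
    rw [hQ2]
    simp [zz]
  rw [h1, h2, ← ENNReal.tsum_add]
  refine tsum_congr fun W => ?_
  rw [ENNReal.tsum_add, add_mul]

theorem count_set (s : Finset ℕ) : ∑' j, (if j ∈ s then (1 : ENNReal) else 0) = s.card := by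
  rw [tsum_eq_sum (s := s)]
  · simp
  · intro j hj
    simp [hj]

theorem psi_hm (α : Type) (L m : ℕ) (f : List α → ENNReal) :
    ∑' i, ∑' V : List α, ENNReal.ofReal (‖psi α L m i V.length‖ ^ 2) * f (V ++ zz α i) =
      (m : ENNReal) * ∑' W, f W := by
  rw [family_sum (fun l => if L < l ∧ l ≤ L + m then 1 else 0)
    (fun j l => if L < j ∧ j ≤ L + m ∧ l ≤ j then 1 else 0)
    (fun i l => ENNReal.ofReal (‖psi α L m i l‖ ^ 2)), ← ENNReal.tsum_mul_left]
  · refine tsum_congr fun W => ?_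
    congr 1
    have h : ∀ j, ((if j < W.length then (if L < j ∧ j ≤ L + m then (1 : ENNReal) else 0) else 0) +
        (if L < j ∧ j ≤ L + m ∧ W.length ≤ j then 1 else 0)) =
        if j ∈ Finset.Ioc L (L + m) then (1 : ENNReal) else 0 := by
      intro j
      simp only [Finset.mem_Ioc]
      by_cases h1 : L < j ∧ j ≤ L + m
      · by_cases h2 : j < W.length
        · rw [if_pos h2, if_pos h1, if_neg (by omega)]
          simp
        · rw [if_neg h2, if_pos h1, if_pos (by omega)]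
          simp
      · have h2 : ¬ (L < j ∧ j ≤ L + m ∧ W.length ≤ j) := fun h => h1 ⟨h.1, h.2.1⟩
        rw [if_neg h1, if_neg h2]
        simp
    simp only [h]
    rw [count_set]
    simp
  · intro z l
    simp only [psi]
    by_cases hz : z = []
    · simp [hz]
    · by_cases h1 : L < l ∧ l ≤ L + m
      · simp [hz, h1]
      · rw [if_neg (by tauto)]
        simp [hz, h1]
  · intro j l
    simp only [psi]
    split_ifs <;> simp

theorem psi_hK (α : Type) (L m : ℕ) (a : ℕ) (ha : a ≤ L) (b : ℕ) (hb : b ≤ L)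
    (f : List α → ENNReal) :
    ∑' i, ∑' V : List α, ENNReal.ofReal (‖psi α L m i (a + V.length) -
      psi α L m i (b + V.length)‖ ^ 2) * f (V ++ zz α i) ≤
      ((3 * L + 1 : ℕ) : ENNReal) * ∑' W, f W := by
  rw [family_sum (fun l => ENNReal.ofReal (‖((if L < a + l ∧ a + l ≤ L + m then 1 else 0 : ℂ)) -
      (if L < b + l ∧ b + l ≤ L + m then 1 else 0)‖ ^ 2))
    (fun j l => ENNReal.ofReal (‖((if L < j ∧ j ≤ L + m ∧ a + l ≤ j then 1 else 0 : ℂ)) -
      (if L < j ∧ j ≤ L + m ∧ b + l ≤ j then 1 else 0)‖ ^ 2))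
    (fun i l => ENNReal.ofReal (‖psi α L m i (a + l) - psi α L m i (b + l)‖ ^ 2)),
    ← ENNReal.tsum_mul_left]
  · refine ENNReal.tsum_le_tsum fun W => ?_
    refine mul_le_mul' ?_ le_rfl
    have h : ∀ j, ((if j < W.length then ENNReal.ofReal
        (‖((if L < a + j ∧ a + j ≤ L + m then 1 else 0 : ℂ)) -
          (if L < b + j ∧ b + j ≤ L + m then 1 else 0)‖ ^ 2) else 0) +
        ENNReal.ofReal (‖((if L < j ∧ j ≤ L + m ∧ a + W.length ≤ j then 1 else 0 : ℂ)) -
          (if L < j ∧ j ≤ L + m ∧ b + W.length ≤ j then 1 else 0)‖ ^ 2)) ≤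
        (if j ∈ Finset.range (L + 1) ∪ Finset.Ioc m (m + L) then (1 : ENNReal) else 0) +
        (if j ∈ Finset.Ico W.length (W.length + L) then (1 : ENNReal) else 0) := by
      intro j
      refine add_le_add ?_ ?_
      · by_cases h1 : j ∈ Finset.range (L + 1) ∪ Finset.Ioc m (m + L)
        · rw [if_pos h1]
          split_ifs <;> simp
        · rw [if_neg h1]
          simp only [Finset.mem_union, Finset.mem_range, Finset.mem_Ioc, not_or, not_lt, not_and,
            not_le] at h1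
          split_ifs <;> first | (simp; done) | (exfalso; omega)
      · by_cases h1 : j ∈ Finset.Ico W.length (W.length + L)
        · rw [if_pos h1]
          split_ifs <;> simp
        · rw [if_neg h1]
          simp only [Finset.mem_Ico, not_and, not_lt] at h1
          split_ifs <;> first | (simp; done) | (exfalso; omega)
    refine (ENNReal.tsum_le_tsum h).trans ?_
    rw [ENNReal.tsum_add, count_set, count_set]
    have h2 : (Finset.range (L + 1) ∪ Finset.Ioc m (m + L)).card ≤ 2 * L + 1 := by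
      refine (Finset.card_union_le _ _).trans ?_
      simp
      omega
    have h3 : (Finset.Ico W.length (W.length + L)).card = L := by simp
    rw [h3]
    have h4 : (Finset.range (L + 1) ∪ Finset.Ioc m (m + L)).card + L ≤ 3 * L + 1 := by omega
    exact_mod_cast h4
  · intro z l
    simp only [psi]
    by_cases hz : z = []
    · simp [hz]
    · simp [hz]
  · intro j l
    rfl

/-- a common bound for the lengths of the words in `x` -/
theorem exists_len {r : ℕ} (x : Fin r → El F) :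
    ∃ L : ℕ, ∀ s, ∀ t ∈ x s, t.2.1.length ≤ L ∧ t.2.2.2.length ≤ L := by
  refine ⟨∑ s, ((x s).map fun t => t.2.1.length + t.2.2.2.length).sum, fun s t ht => ?_⟩
  have h1 : t.2.1.length + t.2.2.2.length ≤
      ((x s).map fun t => t.2.1.length + t.2.2.2.length).sum :=
    List.le_sum_of_mem (List.mem_map.2 ⟨t, ht, rfl⟩)
  have h2 : ((x s).map fun t => t.2.1.length + t.2.2.2.length).sum ≤
      ∑ s, ((x s).map fun t => t.2.1.length + t.2.2.2.length).sum :=
    Finset.single_le_sum (f := fun s => ((x s).map fun t =>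
      t.2.1.length + t.2.2.2.length).sum) (fun _ _ => Nat.zero_le _) (Finset.mem_univ s)
  omega

theorem list_sum_ne_top {β : Type} (l : List β) (h : β → ℝ) :
    (l.map fun t => ENNReal.ofReal (h t)).sum ≠ ⊤ := by
  induction l with
  | nil => simp
  | cons t l ih => simp [ENNReal.add_eq_top, ih]

theorem main : S_WIN := by
  intro κ F r x δ hδ
  obtain ⟨L, hL⟩ := exists_len x
  set C : ENNReal := (∑ s, 2 * 2 ^ (x s).length *
    ((x s).map fun t => ENNReal.ofReal (‖t.1‖ ^ 2)).sum) * ((3 * L + 1 : ℕ) : ENNReal) with hC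
  have hCtop : C ≠ ⊤ := by
    rw [hC]
    refine ENNReal.mul_ne_top ?_ (ENNReal.natCast_ne_top _)
    rw [ENNReal.sum_ne_top]
    intro s _
    refine ENNReal.mul_ne_top (ENNReal.mul_ne_top (by norm_num) (by simp)) (list_sum_ne_top _ _)
  have hδ' : ENNReal.ofReal δ ≠ 0 := by
    simpa using hδ
  obtain ⟨m, hm⟩ := ENNReal.exists_nat_gt (ENNReal.div_ne_top hCtop hδ')
  have hCm : C < m * ENNReal.ofReal δ := by
    rw [ENNReal.div_lt_iff (Or.inl hδ') (Or.inl ENNReal.ofReal_ne_top)] at hm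
    exact hm
  have hm0 : (m : ENNReal) ≠ 0 := by
    rintro h
    rw [h, zero_mul] at hCm
    exact not_lt_zero hCm
  refine ⟨L + m, fun N g hg T hT => ?_⟩
  by_contra hcon
  push Not at hcon
  set D : ENNReal := ∑ i, n2 F (fun W => Matrix.vecMul ((x i).act T W) (g i) - T W) with hD
  set P : List (Lt F) ⊕ ℕ → List (Lt F) → Fin N → ℂ :=
    fun i => cut (psi (Lt F) L m i) (fun V => T (V ++ zz (Lt F) i)) with hP
  have hPsum : ∑' i, n2 F (P i) = m := by
    rw [hP, cut_sum (psi (Lt F) L m) (zz (Lt F)) m (psi_hm _ L m) T, hT, mul_one]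
  have hPtop : ∀ i, n2 F (P i) ≠ ⊤ := by
    intro i
    have h1 : n2 F (P i) ≤ m := by
      rw [← hPsum]
      exact ENNReal.le_tsum i
    exact ne_top_of_le_ne_top (ENNReal.natCast_ne_top m) h1
  have hPsupp : ∀ i W, L + m < W.length → P i W = 0 := by
    intro i W hW
    simp only [hP, cut]
    rw [psi_supp _ _ _ _ _ hW, zero_smul]
  have hbad : ∀ i, n2 F (P i) ≠ 0 → (2 * D + ENNReal.ofReal δ) * n2 F (P i) <
      ∑ s, n2 F (fun W => Matrix.vecMul ((x s).act (P i) W) (g s) - P i W) :=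
    fun i hi => hcon (P i) (hPsupp i) hi (hPtop i)
  have hbad' : ∀ i, (2 * D + ENNReal.ofReal δ) * n2 F (P i) ≤
      ∑ s, n2 F (fun W => Matrix.vecMul ((x s).act (P i) W) (g s) - P i W) := by
    intro i
    by_cases hi : n2 F (P i) = 0
    · rw [hi, mul_zero]
      exact zero_le
    · exact (hbad i hi).le
  have hDtop : D ≠ ⊤ := by
    intro hDt
    have hz : ∀ i, n2 F (P i) = 0 := by
      intro i
      by_contra hi
      have h1 := hbad i hi
      rw [hDt, ENNReal.mul_top (by norm_num), top_add, ENNReal.top_mul hi] at h1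
      exact not_top_lt h1
    apply hm0
    rw [← hPsum]
    simp [hz]
  have h1 := ENNReal.tsum_le_tsum hbad'
  rw [ENNReal.tsum_mul_left, hPsum] at h1
  have h2 := avg (psi (Lt F) L m) (zz (Lt F)) L m ((3 * L + 1 : ℕ) : ENNReal) (psi_hz _ L m)
    (psi_hm _ L m) (fun a ha b hb => psi_hK _ L m a ha b hb) x hL g hg T
  rw [hT, mul_one, ← hC, ← hD] at h2
  have h3 := h1.trans h2
  rw [add_mul, mul_comm (2 * D) (m : ENNReal), mul_comm (ENNReal.ofReal δ)] at h3
  have h4 : (m : ENNReal) * (2 * D) ≠ ⊤ :=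
    ENNReal.mul_ne_top (ENNReal.natCast_ne_top m) (ENNReal.mul_ne_top (by norm_num) hDtop)
  have h5 := (ENNReal.add_le_add_iff_left h4).1 h3
  exact absurd hCm (not_lt.2 h5)

end Pool.Agent.H299_Opp.WIN
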